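import Pool.Agent.MP_ca1109_lc.Agp.N1

/-!
# Collision probabilities and characters
-/

namespace Pool.Agent.MP_ca1109_lc.Agp

open Pool.Agent.MP_ca1109_lc.Mpg Finset

/- PROOF NOTES [AGP-C1].
`ind_zero`: `∑ χ, χ g = if g = 0 then card Γ else 0` (`AddChar.sum_apply_eq_ite`).
`collision`: `(if Y p = Y q then 1 else 0) = (∑ χ, χ (Y p) * conj (χ (Y q))) / card Γ` (`χ (a - b) = χ a * conj (χ b)`:
`AddChar.map_sub_eq_div`/`AddChar.map_neg_eq_conj`), so the left side is `avg (fun χ => ‖na M (χ ∘ Y)‖ ^ 2)`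
(`norm_na_sq` of `N1`, exchange the sums) and `‖na ..‖ ≤ 1`, so the square is at most the norm.
`card (AddChar Γ ℂ) = card Γ`: `AddChar.card_eq`.
`av_lin`: `χ (lin α x) = ∏ i, if x i = true then χ (α i) else 1` (`AddChar.map_sum_eq_prod`), the average over all
`x : Fin n → Bool` of a product is the product of the averages (`Finset.prod_univ_sum`/`Fintype.piFinset_univ`,
`Fintype.sum_bool`, `Fintype.card_fun`). -/

theorem ind_zero {Γ : Type*} [AddCommGroup Γ] [Fintype Γ] [DecidableEq Γ] (g : Γ) :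
    (∑ χ : AddChar Γ ℂ, χ g) / (Fintype.card Γ : ℂ) = if g = 0 then 1 else 0 := by
  rw [AddChar.sum_apply_eq_ite]
  have h : (Fintype.card Γ : ℂ) ≠ 0 := by exact_mod_cast Fintype.card_ne_zero
  by_cases hg : g = 0
  · rw [if_pos hg, if_pos hg, div_self h]
  · rw [if_neg hg, if_neg hg, zero_div]

theorem collision {Γ : Type*} [AddCommGroup Γ] [Fintype Γ] [DecidableEq Γ] {M : ℕ} (hM : 0 < M)
    (Y : ℕ → Γ) :
    nr M (fun p => nr M (fun q => if Y p = Y q then 1 else 0)) ≤
      avg (fun χ : AddChar Γ ℂ => ‖na M (fun p => χ (Y p))‖) := by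
  have hle : avg (fun χ : AddChar Γ ℂ => ‖na M (fun p => χ (Y p))‖ ^ 2) ≤
      avg (fun χ : AddChar Γ ℂ => ‖na M (fun p => χ (Y p))‖) := by
    refine avg_mono fun χ => ?_
    have h1 : ‖na M (fun p => χ (Y p))‖ ≤ 1 :=
      norm_na_le_of hM fun p _ => (AddChar.norm_apply χ _).le
    have h2 := norm_nonneg (na M (fun p => χ (Y p)))
    nlinarith
  refine le_of_eq_of_le ?_ hle
  have hc : ((avg (fun χ : AddChar Γ ℂ => ‖na M (fun p => χ (Y p))‖ ^ 2) : ℝ) : ℂ) =
      na M (fun p => na M (fun q => if Y p = Y q then 1 else 0)) := by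
    have h1 : ((avg (fun χ : AddChar Γ ℂ => ‖na M (fun p => χ (Y p))‖ ^ 2) : ℝ) : ℂ) =
        av (fun χ : AddChar Γ ℂ => na M (fun p => na M (fun q => χ (Y p - Y q)))) := by
      unfold avg av
      push_cast
      congr 1
      refine Finset.sum_congr rfl fun χ _ => ?_
      have h2 := norm_na_sq M (fun p => χ (Y p))
      push_cast at h2
      rw [h2]
      refine na_congr fun p _ => na_congr fun q _ => ?_
      rw [sub_eq_add_neg, AddChar.map_add_eq_mul, AddChar.map_neg_eq_conj]
    rw [h1, av_na]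
    refine na_congr fun p _ => ?_
    rw [av_na]
    refine na_congr fun q _ => ?_
    unfold av
    rw [AddChar.card_eq, ind_zero]
    by_cases h : Y p = Y q
    · rw [if_pos h, if_pos (sub_eq_zero.2 h)]
    · rw [if_neg h, if_neg (fun h' => h (sub_eq_zero.1 h'))]
  have hr : ((nr M (fun p => nr M (fun q => if Y p = Y q then 1 else 0)) : ℝ) : ℂ) =
      na M (fun p => na M (fun q => if Y p = Y q then 1 else 0)) := by
    rw [nr_ofReal]
    refine na_congr fun p _ => ?_
    rw [nr_ofReal]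
    refine na_congr fun q _ => ?_
    by_cases h : Y p = Y q
    · rw [if_pos h, if_pos h, Complex.ofReal_one]
    · rw [if_neg h, if_neg h, Complex.ofReal_zero]
  exact Complex.ofReal_injective (hr.trans hc.symm)

theorem c1_sum {Γ J : Type*} [AddCommGroup Γ] (χ : AddChar Γ ℂ) (s : Finset J) (a : J → Γ) :
    χ (∑ j ∈ s, a j) = ∏ j ∈ s, χ (a j) := by
  classical
  induction s using Finset.induction_on with
  | empty => rw [Finset.sum_empty, Finset.prod_empty, AddChar.map_zero_eq_one]
  | insert j s hj ih => rw [Finset.sum_insert hj, Finset.prod_insert hj, AddChar.map_add_eq_mul, ih]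

theorem av_lin {Γ : Type*} [AddCommGroup Γ] {n : ℕ} (α : Fin n → Γ) (χ : AddChar Γ ℂ) :
    av (fun x : Fin n → Bool => χ (lin α x)) = ∏ i, (1 + χ (α i)) / 2 := by
  have h1 : ∀ x : Fin n → Bool, χ (lin α x) = ∏ i, if x i = true then χ (α i) else 1 := by
    intro x
    unfold lin
    rw [c1_sum]
    refine Finset.prod_congr rfl fun i _ => ?_
    by_cases h : x i = true
    · rw [if_pos h, if_pos h]
    · rw [if_neg h, if_neg h, AddChar.map_zero_eq_one]
  have h2 : ∑ x : Fin n → Bool, ∏ i, (if x i = true then χ (α i) else 1) =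
      ∏ i, ∑ b : Bool, if b = true then χ (α i) else 1 := by
    rw [Finset.prod_univ_sum, Fintype.piFinset_univ]
  unfold av
  rw [Finset.sum_congr rfl fun x _ => h1 x, h2, Fintype.card_fun, Fintype.card_fin,
    Fintype.card_bool]
  have h3 : (((2 ^ n : ℕ) : ℕ) : ℂ) = ∏ _i : Fin n, (2 : ℂ) := by
    rw [Finset.prod_const, Finset.card_univ, Fintype.card_fin]
    push_cast
    rfl
  rw [h3, ← Finset.prod_div_distrib]
  refine Finset.prod_congr rfl fun i _ => ?_
  rw [Fintype.sum_bool, if_pos rfl, if_neg Bool.false_ne_true, add_comm]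

end Pool.Agent.MP_ca1109_lc.Agp
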