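import Pool.Agent.MP_ca1109_lc.Agp.N2

/-!
# Products with functions of few bits
-/

namespace Pool.Agent.MP_ca1109_lc.Agp

open Pool.Agent.MP_ca1109_lc.Mpg Finset

/- PROOF NOTES [AGP-J1].
`junta_expand`: a function `g` of the coordinates in `J` is `∑ T ∈ J.powerset, a T * sgn T x` with `‖a T‖ ≤ 1`.
Take `a T = av (fun y : Fin n → Bool => g y * sgn T y)`: `‖a T‖ ≤ 1`; and
`∑ T ∈ J.powerset, a T * sgn T x = av (fun y => g y * ∑ T ∈ J.powerset, sgn T y * sgn T x)
 = av (fun y => g y * ∏ i ∈ J, (1 + s (y i) * s (x i)))` (`Finset.prod_one_add`/`Finset.prod_add`, `s b = if b then -1 else 1`), the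
product is `2 ^ J.card` if `y = x` on `J` and `0` otherwise, and the fraction of such `y` is `2 ^ (-J.card)`.
(Alternatively by induction on `J`, with `g x = (g₀ x + g₁ x) / 2 + s (x a) * (g₀ x - g₁ x) / 2`,
`g₀ x = g (Function.update x a false)`, `g₁ x = g (Function.update x a true)`; coefficients
`a' T = (a₀ T + a₁ T) / 2`, `a' (insert a T) = (a₀ T - a₁ T) / 2`.)
`junta_fool`: insert the expansion in both averages (`na_sum`, `na_mul_left`; the same for `av`), so the difference is
`∑ T ∈ J.powerset, a T * (na .. - av ..)`, and there are `2 ^ J.card` terms (`Finset.card_powerset`). -/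

theorem sgn_norm {n : ℕ} (T : Finset (Fin n)) (x : Fin n → Bool) : ‖sgn T x‖ = 1 := by
  unfold sgn
  rw [norm_prod]
  refine Finset.prod_eq_one fun i _ => ?_
  split_ifs
  · rw [norm_neg, norm_one]
  · exact norm_one

theorem j1_dep {n : ℕ} {J : Finset (Fin n)} {a : Fin n} (v : Bool) {g : (Fin n → Bool) → ℂ}
    (hg : DependsOn g ((insert a J : Finset (Fin n)) : Set (Fin n))) :
    DependsOn (fun x => g (Function.update x a v)) (J : Set (Fin n)) := by
  intro x y hxy
  apply hg
  intro i hi
  by_cases h : i = a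
  · subst h
    rw [Function.update_self, Function.update_self]
  · rw [Function.update_of_ne h, Function.update_of_ne h]
    refine hxy i ?_
    have h1 := Finset.mem_coe.1 hi
    rcases Finset.mem_insert.1 h1 with h2 | h2
    · exact absurd h2 h
    · exact Finset.mem_coe.2 h2

theorem j1_sgn_insert {n : ℕ} {T : Finset (Fin n)} {a : Fin n} (ha : a ∉ T) (x : Fin n → Bool) :
    sgn (insert a T) x = (if x a = true then -1 else 1) * sgn T x := by
  unfold sgn
  rw [Finset.prod_insert ha]

theorem j1_half {z w : ℂ} (hz : ‖z‖ ≤ 1) (hw : ‖w‖ ≤ 1) : ‖(z + w) / 2‖ ≤ 1 := by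
  rw [norm_div, Complex.norm_ofNat]
  have h := norm_add_le z w
  linarith

theorem junta_expand {n : ℕ} (J : Finset (Fin n)) (g : (Fin n → Bool) → ℂ)
    (hg : DependsOn g (J : Set (Fin n))) (hg1 : ∀ x, ‖g x‖ ≤ 1) :
    ∃ a : Finset (Fin n) → ℂ, (∀ T, ‖a T‖ ≤ 1) ∧
      ∀ x, g x = ∑ T ∈ J.powerset, a T * sgn T x := by
  classical
  induction J using Finset.induction_on generalizing g with
  | empty =>
    refine ⟨fun _ => g (fun _ => false), fun _ => hg1 _, fun x => ?_⟩
    rw [Finset.powerset_empty, Finset.sum_singleton]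
    have h1 : sgn (∅ : Finset (Fin n)) x = 1 := by
      unfold sgn
      exact Finset.prod_empty
    rw [h1, mul_one]
    apply hg
    intro i hi
    rw [Finset.coe_empty] at hi
    exact absurd hi (Set.notMem_empty i)
  | insert a J ha ih =>
    obtain ⟨a₀, h0, h0'⟩ := ih _ (j1_dep false hg) fun x => hg1 _
    obtain ⟨a₁, h1, h1'⟩ := ih _ (j1_dep true hg) fun x => hg1 _
    refine ⟨fun T => if a ∈ T then (a₀ (T.erase a) + -a₁ (T.erase a)) / 2 else (a₀ T + a₁ T) / 2,
      fun T => ?_, fun x => ?_⟩
    · beta_reduce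
      split_ifs
      · exact j1_half (h0 _) (by rw [norm_neg]; exact h1 _)
      · exact j1_half (h0 _) (h1 _)
    · have hg' : g x = if x a = true then g (Function.update x a true)
          else g (Function.update x a false) := by
        by_cases hx : x a = true
        · rw [if_pos hx, ← hx, Function.update_eq_self]
        · rw [if_neg hx]
          have hx' : x a = false := by simpa using hx
          rw [← hx', Function.update_eq_self]
      rw [Finset.sum_powerset_insert ha, ← Finset.sum_add_distrib, hg']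
      have h2 : ∀ T ∈ J.powerset,
          (if a ∈ T then (a₀ (T.erase a) + -a₁ (T.erase a)) / 2 else (a₀ T + a₁ T) / 2) * sgn T x +
          (if a ∈ insert a T then (a₀ ((insert a T).erase a) + -a₁ ((insert a T).erase a)) / 2
            else (a₀ (insert a T) + a₁ (insert a T)) / 2) * sgn (insert a T) x =
          (if x a = true then a₁ T * sgn T x else a₀ T * sgn T x) := by
        intro T hT
        have haT : a ∉ T := fun h => ha (Finset.mem_powerset.1 hT h)
        rw [if_neg haT, if_pos (Finset.mem_insert_self a T), Finset.erase_insert haT,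
          j1_sgn_insert haT]
        by_cases hx : x a = true
        · rw [if_pos hx, if_pos hx]
          ring
        · rw [if_neg hx, if_neg hx]
          ring
      rw [Finset.sum_congr rfl h2]
      by_cases hx : x a = true
      · rw [if_pos hx, Finset.sum_congr rfl fun T _ => if_pos hx]
        exact h1' x
      · rw [if_neg hx, Finset.sum_congr rfl fun T _ => if_neg hx]
        exact h0' x

theorem junta_fool {n M : ℕ} (X : ℕ → Fin n → Bool) (J : Finset (Fin n)) (g : (Fin n → Bool) → ℂ)
    (hg : DependsOn g (J : Set (Fin n))) (hg1 : ∀ x, ‖g x‖ ≤ 1) (f : (Fin n → Bool) → ℂ) {δ : ℝ}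
    (h : ∀ T, T ⊆ J → ‖na M (fun p => sgn T (X p) * f (X p)) - av (fun x => sgn T x * f x)‖ ≤ δ) :
    ‖na M (fun p => g (X p) * f (X p)) - av (fun x => g x * f x)‖ ≤ 2 ^ J.card * δ := by
  obtain ⟨a, ha, hga⟩ := junta_expand J g hg hg1
  have e1 : na M (fun p => g (X p) * f (X p)) =
      ∑ T ∈ J.powerset, a T * na M (fun p => sgn T (X p) * f (X p)) := by
    rw [show (fun p => g (X p) * f (X p)) =
      fun p => ∑ T ∈ J.powerset, a T * (sgn T (X p) * f (X p)) from funext fun p => by
        rw [hga (X p), Finset.sum_mul]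
        exact Finset.sum_congr rfl fun T _ => mul_assoc _ _ _, na_sum]
    exact Finset.sum_congr rfl fun T _ => na_mul_left M (a T) _
  have e2 : av (fun x => g x * f x) = ∑ T ∈ J.powerset, a T * av (fun x => sgn T x * f x) := by
    unfold av
    rw [Finset.sum_congr rfl fun x _ => show g x * f x =
      ∑ T ∈ J.powerset, a T * (sgn T x * f x) by
        rw [hga x, Finset.sum_mul]
        exact Finset.sum_congr rfl fun T _ => mul_assoc _ _ _, Finset.sum_comm, Finset.sum_div]
    refine Finset.sum_congr rfl fun T _ => ?_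
    rw [← Finset.mul_sum, mul_div_assoc]
  rw [e1, e2, ← Finset.sum_sub_distrib]
  refine (norm_sum_le _ _).trans ?_
  have h1 : ∀ T ∈ J.powerset, ‖a T * na M (fun p => sgn T (X p) * f (X p)) -
      a T * av (fun x => sgn T x * f x)‖ ≤ δ := by
    intro T hT
    rw [← mul_sub, norm_mul]
    have h2 := h T (Finset.mem_powerset.1 hT)
    calc ‖a T‖ * ‖na M (fun p => sgn T (X p) * f (X p)) - av (fun x => sgn T x * f x)‖
        ≤ 1 * ‖na M (fun p => sgn T (X p) * f (X p)) - av (fun x => sgn T x * f x)‖ :=
          mul_le_mul_of_nonneg_right (ha T) (norm_nonneg _)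
      _ ≤ δ := by rw [one_mul]; exact h2
  refine (Finset.sum_le_sum h1).trans ?_
  rw [Finset.sum_const, Finset.card_powerset, nsmul_eq_mul]
  push_cast
  exact le_rfl

end Pool.Agent.MP_ca1109_lc.Agp
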