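import Pool.Agent.MP_ca1109_lc.Agp.P1
import Pool.Agent.MP_ca1109_lc.Agp.J1
import Pool.Agent.MP_ca1109_lc.Agp.C1

/-!
# Linear forms under generators which fool phases
-/

namespace Pool.Agent.MP_ca1109_lc.Agp

open Pool.Agent.MP_ca1109_lc.Mpg Finset

/- PROOF NOTES [AGP-B1].
`lin_split`: termwise (`Finset.sum_add_distrib`).
`tors_lin`: `tors_phase` (`P1`) for `c S = if S = {i} for some i then β i else 0`, e.g.
`c S = ∑ i, if S = {i} then β i else 0`; or directly: for each `i` take `a i : ZMod m` with `ph m (a i) = χ (β i)`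
(`root_phase`, `χ (β i) ^ m = χ (m • β i) = 1`), then `χ (lin β x) = ph m (∑ i, if x i = true then a i else 0)`
(`AddChar.map_sum_eq_prod`, `ph_sum`), a sum of functions of one coordinate (`junta_mem`).
`lin_fool`: `χ (lin α x) = g x * f x` with `g x = χ (lin (α on J) x)`, `f x = χ (lin (α off J) x)` (`lin_split`); `g` depends on `J`,
`‖g‖ ≤ 1`; `f` is in `phCls m' Bool 1 n` by `tors_lin`, so `sgn T * f ∈ phCls (2 * m') Bool 1 n` (`sgn_mem, tw_mul` of `N2`).
`junta_fool` (`J1`) gives `‖na .. - av ..‖ ≤ 2 ^ J.card * δ`, and `‖av (χ ∘ lin α)‖ = ∏ i, ‖1 + χ (α i)‖ / 2 ≤ ∏ i ∈ J, ..`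
(`av_lin` of `C1`, all factors are in `[0, 1]`, `Finset.prod_le_prod_of_subset_of_le_one'` or split the product). -/

private theorem b1_sum {Γ J : Type*} [AddCommGroup Γ] (χ : AddChar Γ ℂ) (s : Finset J) (f : J → Γ) :
    χ (∑ i ∈ s, f i) = ∏ i ∈ s, χ (f i) := by
  classical
  induction s using Finset.induction_on with
  | empty => rw [Finset.sum_empty, Finset.prod_empty, AddChar.map_zero_eq_one]
  | insert j s hj ih => rw [Finset.sum_insert hj, Finset.prod_insert hj, AddChar.map_add_eq_mul, ih]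

theorem lin_split {Γ : Type*} [AddCommGroup Γ] {n : ℕ} (α : Fin n → Γ) (V : Fin n → Prop)
    [DecidablePred V] (x : Fin n → Bool) :
    lin α x = lin (fun i => if V i then α i else 0) x + lin (fun i => if V i then 0 else α i) x := by
  unfold lin
  rw [← Finset.sum_add_distrib]
  refine Finset.sum_congr rfl fun i _ => ?_
  by_cases hx : x i = true
  · by_cases hV : V i
    · simp [hx, hV]
    · simp [hx, hV]
  · simp [hx]

theorem tors_lin {Γ : Type*} [AddCommGroup Γ] {n m : ℕ} [NeZero m] {β : Fin n → Γ}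
    (hm : ∀ i, m • β i = 0) (χ : AddChar Γ ℂ) :
    (fun x => χ (lin β x)) ∈ phCls m Bool 1 n := by
  have ha : ∀ i, ∃ a : ZMod m, ph m a = χ (β i) := fun i => root_phase (by
    rw [← AddChar.map_nsmul_eq_pow, hm i, AddChar.map_zero_eq_one])
  choose a ha using ha
  refine ⟨fun x => ∑ i, if x i = true then a i else 0, ?_, ?_⟩
  · have h1 : (fun x : Fin n → Bool => ∑ i, if x i = true then a i else 0) =
        ∑ i, fun x : Fin n → Bool => if x i = true then a i else 0 := by
      funext x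
      rw [Finset.sum_apply]
    rw [h1]
    refine AddSubgroup.sum_mem _ fun i _ => junta_mem {i} (by simp) ?_
    intro x y h
    have h2 : x i = y i := h i (by simp)
    simp only [h2]
  · funext x
    unfold lin
    rw [b1_sum, ph_sum]
    refine Finset.prod_congr rfl fun i _ => ?_
    by_cases hx : x i = true
    · rw [if_pos hx, if_pos hx, ha i]
    · rw [if_neg hx, if_neg hx, ph_zero, AddChar.map_zero_eq_one]

theorem lin_fool {n M m : ℕ} [NeZero m] (X : ℕ → Fin n → Bool) {δ : ℝ}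
    (hX : ∀ f ∈ phCls (2 * m) Bool 1 n, ‖na M (fun p => f (X p)) - av f‖ ≤ δ)
    {Γ : Type*} [AddCommGroup Γ] [Fintype Γ] (α : Fin n → Γ) (J : Finset (Fin n))
    (hJ : ∀ i, i ∉ J → m • α i = 0) (χ : AddChar Γ ℂ) :
    ‖na M (fun p => χ (lin α (X p)))‖ ≤ ∏ i ∈ J, ‖1 + χ (α i)‖ / 2 + 2 ^ J.card * δ := by
  have hs : ∀ x, χ (lin α x) = χ (lin (fun i => if i ∈ J then α i else 0) x) *
      χ (lin (fun i => if i ∈ J then 0 else α i) x) := fun x => by
    rw [lin_split α (fun i => i ∈ J) x, AddChar.map_add_eq_mul]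
  have hg : DependsOn (fun x : Fin n → Bool => χ (lin (fun i => if i ∈ J then α i else 0) x))
      (J : Set (Fin n)) := by
    intro x y h
    have h1 : lin (fun i => if i ∈ J then α i else 0) x =
        lin (fun i => if i ∈ J then α i else 0) y := by
      unfold lin
      refine Finset.sum_congr rfl fun i _ => ?_
      by_cases hi : i ∈ J
      · rw [h i hi]
      · simp [hi]
    change χ _ = χ _
    rw [h1]
  have hg1 : ∀ x : Fin n → Bool, ‖χ (lin (fun i => if i ∈ J then α i else 0) x)‖ ≤ 1 :=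
    fun x => (AddChar.norm_apply _ _).le
  have hf : (fun x : Fin n → Bool => χ (lin (fun i => if i ∈ J then 0 else α i) x)) ∈
      phCls m Bool 1 n := tors_lin (by
    intro i
    by_cases hi : i ∈ J
    · simp [hi]
    · simp only [if_neg hi]
      exact hJ i hi) χ
  have hT : ∀ T : Finset (Fin n), T ⊆ J → ‖na M (fun p => sgn T (X p) *
      (fun x : Fin n → Bool => χ (lin (fun i => if i ∈ J then 0 else α i) x)) (X p)) -
      av (fun x => sgn T x *
        (fun x : Fin n → Bool => χ (lin (fun i => if i ∈ J then 0 else α i) x)) x)‖ ≤ δ := by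
    intro T _
    exact hX (fun x => sgn T x * χ (lin (fun i => if i ∈ J then 0 else α i) x))
      (tw_mul (sgn_mem T) hf)
  have h1 := junta_fool X J (fun x => χ (lin (fun i => if i ∈ J then α i else 0) x)) hg hg1
    (fun x => χ (lin (fun i => if i ∈ J then 0 else α i) x)) (δ := δ) hT
  simp only [← hs] at h1
  have h2 : ‖av (fun x : Fin n → Bool => χ (lin α x))‖ ≤ ∏ i ∈ J, ‖1 + χ (α i)‖ / 2 := by
    rw [av_lin, norm_prod]
    have h3 : ∀ i, ‖(1 + χ (α i)) / 2‖ = ‖1 + χ (α i)‖ / 2 := fun i => by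
      rw [norm_div, Complex.norm_ofNat]
    simp only [h3]
    have h4 : ∀ i, ‖1 + χ (α i)‖ / 2 ≤ 1 := fun i => by
      have h5 : ‖1 + χ (α i)‖ ≤ ‖(1 : ℂ)‖ + ‖χ (α i)‖ := norm_add_le _ _
      rw [norm_one, AddChar.norm_apply] at h5
      linarith
    rw [← Finset.prod_mul_prod_compl J]
    have h6 : ∏ i ∈ Jᶜ, ‖1 + χ (α i)‖ / 2 ≤ 1 :=
      Finset.prod_le_one (fun i _ => by positivity) (fun i _ => h4 i)
    have h7 : 0 ≤ ∏ i ∈ J, ‖1 + χ (α i)‖ / 2 := Finset.prod_nonneg fun i _ => by positivity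
    calc _ ≤ (∏ i ∈ J, ‖1 + χ (α i)‖ / 2) * 1 := mul_le_mul_of_nonneg_left h6 h7
      _ = _ := mul_one _
  have h3 : na M (fun p => χ (lin α (X p))) =
      (na M (fun p => χ (lin α (X p))) - av (fun x : Fin n → Bool => χ (lin α x))) +
        av (fun x : Fin n → Bool => χ (lin α x)) := by ring
  rw [h3]
  refine (norm_add_le _ _).trans ?_
  linarith

end Pool.Agent.MP_ca1109_lc.Agp
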