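import Pool.Agent.MP_ca1109_lc.Agp.N1

/-!
# The hash functions are pairwise independent
-/

namespace Pool.Agent.MP_ca1109_lc.Agp

open Pool.Agent.MP_ca1109_lc.Mpg Finset

/- PROOF NOTES [AGP-H1].  `K = 4^κ = 2^κ * 2^κ`, `16^κ = K * K`; by `nr_mul` the average over `q` is the average over
`(a, b)`, `a = q / K`, `b = q % K`, and `hs κ q i = ((a * i + b) % K) / 2^κ`.
(0) For `z` coprime to `K` and any `y`, the map `x ↦ (z * x + y) % K` permutes `range K`; so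
`∑ x ∈ range K, g ((z * x + y) % K) = ∑ x ∈ range K, g x` (injective on `range K` into `range K`:
`Finset.sum_nbij`/`Finset.sum_bij_of_injOn`-type lemma, `Nat.ModEq.cancel_left_of_coprime`; or transport to `ZMod K`).
(1) `hs_one`: for fixed `a`, (0) with `z = 1` gives `∑ b, φ (((a i + b) % K) / 2^κ) = ∑ x ∈ range K, φ (x / 2^κ) = 2^κ * ∑ u ∈ range (2^κ), φ u`
(`d2_sum_div`).
(2) `hs_pair`.  By symmetry (`mul_comm`) let `i' < i`, `i = i' + D`, `0 < D < 2^κ`, `D = 2^s * z`, `z` odd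
(`Nat.exists_eq_two_pow_mul_odd`), `s < κ`.  For fixed `a`, substitute `y = (a * i' + b) % K` (by (0), `z = 1`):
`(a * i + b) % K = (y + a * D) % K`.  So the sum is `∑ y ∈ range K, ψ (y / 2^κ) * ∑ a ∈ range K, φ (((y + a * D) % K) / 2^κ)`.
(3) For every `y`: `∑ a ∈ range K, φ (((y + a * D) % K) / 2^κ) = 2^κ * ∑ u ∈ range (2^κ), φ u`: replace `a * z % K` by `a` (by (0)), so
`D` becomes `2^s`; write `a = r + 2^(κ-s) * c`, `r < 2^(κ-s)`, `c < 2^(κ+s)` (`K = 2^(κ+s) * 2^(κ-s)`, `d2_sum_div`), then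
`((y + 2^s * a) % K) / 2^κ = ((y + 2^s * r + 2^κ * c) % (2^κ * 2^κ)) / 2^κ = ((y + 2^s * r) / 2^κ + c) % 2^κ`
(`Nat.mod_mul_right_div_self`, `Nat.add_mul_div_left`), and for fixed `r`, `c` runs through `2^s` full periods of length `2^κ`
(`2^(κ+s) = 2^s * 2^κ`, `d2_sum_div`, and (0) for the modulus `2^κ`, `z = 1`).  Total `2^(κ-s) * 2^s * ∑ u, φ u`.
(4) Hence `∑ q = (∑ y ∈ range K, ψ (y / 2^κ)) * 2^κ * ∑ φ = 2^κ * 2^κ * (∑ φ) * (∑ ψ)`, divide by `16^κ`. -/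

private theorem h1_perm {K z : ℕ} (hK : 0 < K) (hz : Nat.Coprime z K) (y : ℕ) (g : ℕ → ℝ) :
    nr K (fun x => g ((z * x + y) % K)) = nr K g := by
  unfold nr
  congr 1
  refine Finset.sum_nbij (fun x => (z * x + y) % K) ?_ ?_ ?_ ?_
  · intro x _
    exact Finset.mem_range.2 (Nat.mod_lt _ hK)
  · intro x hx x' hx' h
    have hx1 : x < K := Finset.mem_range.1 (Finset.mem_coe.1 hx)
    have hx2 : x' < K := Finset.mem_range.1 (Finset.mem_coe.1 hx')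
    have h1 : z * x + y ≡ z * x' + y [MOD K] := h
    have h2 : z * x ≡ z * x' [MOD K] := Nat.ModEq.add_right_cancel' y h1
    have h3 : x ≡ x' [MOD K] := Nat.ModEq.cancel_left_of_coprime hz.symm h2
    have h4 : x % K = x' % K := h3
    rwa [Nat.mod_eq_of_lt hx1, Nat.mod_eq_of_lt hx2] at h4
  · refine Finset.surjOn_of_injOn_of_card_le _ ?_ ?_ le_rfl
    · intro x _
      exact Finset.mem_coe.2 (Finset.mem_range.2 (Nat.mod_lt _ hK))
    · intro x hx x' hx' h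
      have hx1 : x < K := Finset.mem_range.1 (Finset.mem_coe.1 hx)
      have hx2 : x' < K := Finset.mem_range.1 (Finset.mem_coe.1 hx')
      have h1 : z * x + y ≡ z * x' + y [MOD K] := h
      have h2 : z * x ≡ z * x' [MOD K] := Nat.ModEq.add_right_cancel' y h1
      have h3 : x ≡ x' [MOD K] := Nat.ModEq.cancel_left_of_coprime hz.symm h2
      have h4 : x % K = x' % K := h3
      rwa [Nat.mod_eq_of_lt hx1, Nat.mod_eq_of_lt hx2] at h4
  · intro x _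
    rfl

private theorem h1_shift {K : ℕ} (hK : 0 < K) (y : ℕ) (g : ℕ → ℝ) :
    nr K (fun x => g ((y + x) % K)) = nr K g := by
  have h := h1_perm hK (Nat.coprime_one_left K) y g
  rw [← h]
  refine nr_congr fun x _ => ?_
  rw [one_mul, add_comm]

private theorem h1_div (κ : ℕ) (φ : ℕ → ℝ) :
    nr (4 ^ κ) (fun x => φ (x / 2 ^ κ)) = nr (2 ^ κ) φ := by
  have h4 : (4 : ℕ) ^ κ = 2 ^ κ * 2 ^ κ := by rw [← mul_pow]; norm_num
  have h2 : 0 < 2 ^ κ := by positivity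
  rw [h4, nr_mul (2 ^ κ) h2 (fun a _ => φ a)]
  exact nr_congr fun a _ => nr_const h2 _

private theorem h1_split (κ : ℕ) (F : ℕ → ℕ → ℝ) :
    nr (16 ^ κ) (fun q => F (q / 4 ^ κ) (q % 4 ^ κ)) =
      nr (4 ^ κ) (fun a => nr (4 ^ κ) (fun b => F a b)) := by
  have h16 : (16 : ℕ) ^ κ = 4 ^ κ * 4 ^ κ := by rw [← mul_pow]; norm_num
  have h4 : 0 < 4 ^ κ := by positivity
  rw [h16, nr_mul (4 ^ κ) h4 F]

private theorem h1_main {κ D : ℕ} (hD : 0 < D) (hD2 : D < 2 ^ κ) (y : ℕ) (φ : ℕ → ℝ) :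
    nr (4 ^ κ) (fun a => φ ((y + a * D) % 4 ^ κ / 2 ^ κ)) = nr (2 ^ κ) φ := by
  obtain ⟨s, z, hz, hDz⟩ := Nat.exists_eq_two_pow_mul_odd hD.ne'
  have hs : s < κ := by
    have h1 : 2 ^ s ≤ D := by
      rw [hDz]
      exact Nat.le_mul_of_pos_right _ hz.pos
    exact (Nat.pow_lt_pow_iff_right (by norm_num : 1 < 2)).1 (h1.trans_lt hD2)
  have hK : 0 < 4 ^ κ := by positivity
  have hcop : Nat.Coprime z (4 ^ κ) := by
    have h4 : (4 : ℕ) = 2 ^ 2 := by norm_num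
    rw [h4, ← pow_mul]
    exact Nat.Coprime.pow_right _ (Nat.coprime_two_right.2 hz)
  have e1 : nr (4 ^ κ) (fun a => φ ((y + a * D) % 4 ^ κ / 2 ^ κ)) =
      nr (4 ^ κ) (fun a => φ ((y + 2 ^ s * a) % 4 ^ κ / 2 ^ κ)) := by
    rw [← h1_perm hK hcop 0 (fun a => φ ((y + 2 ^ s * a) % 4 ^ κ / 2 ^ κ))]
    refine nr_congr fun a _ => ?_
    have h1 : y + a * D ≡ y + 2 ^ s * ((z * a + 0) % 4 ^ κ) [MOD 4 ^ κ] := by
      have h2 : (z * a + 0) % 4 ^ κ ≡ z * a + 0 [MOD 4 ^ κ] := Nat.mod_modEq _ _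
      have h3 := (h2.mul_left (2 ^ s)).add_left y
      have h4 : y + a * D = y + 2 ^ s * (z * a + 0) := by
        rw [hDz]
        ring
      rw [h4]
      exact h3.symm
    have h5 : (y + a * D) % 4 ^ κ = (y + 2 ^ s * ((z * a + 0) % 4 ^ κ)) % 4 ^ κ := h1
    simp only [h5]
  rw [e1]
  have hsplit : (4 : ℕ) ^ κ = 2 ^ (κ + s) * 2 ^ (κ - s) := by
    rw [← pow_add]
    have : κ + s + (κ - s) = 2 * κ := by omega
    rw [this, pow_mul]
    norm_num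
  have hB : 0 < 2 ^ (κ - s) := by positivity
  have h2 : 0 < 2 ^ κ := by positivity
  have e2 : nr (4 ^ κ) (fun a => φ ((y + 2 ^ s * a) % 4 ^ κ / 2 ^ κ)) =
      nr (2 ^ (κ + s) * 2 ^ (κ - s)) (fun a =>
        (fun c r => φ (((y + 2 ^ s * r) / 2 ^ κ + c) % 2 ^ κ)) (a / 2 ^ (κ - s))
          (a % 2 ^ (κ - s))) := by
    rw [← hsplit]
    refine nr_congr fun a _ => ?_
    have h3 : 2 ^ s * a = 2 ^ κ * (a / 2 ^ (κ - s)) + 2 ^ s * (a % 2 ^ (κ - s)) := by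
      have h4 : 2 ^ (κ - s) * (a / 2 ^ (κ - s)) + a % 2 ^ (κ - s) = a := Nat.div_add_mod _ _
      have h5 : 2 ^ κ = 2 ^ s * 2 ^ (κ - s) := by
        rw [← pow_add]
        congr 1
        omega
      calc 2 ^ s * a = 2 ^ s * (2 ^ (κ - s) * (a / 2 ^ (κ - s)) + a % 2 ^ (κ - s)) := by rw [h4]
        _ = _ := by rw [h5]; ring
    have h6 : (4 : ℕ) ^ κ = 2 ^ κ * 2 ^ κ := by rw [← mul_pow]; norm_num
    have h7 : (y + 2 ^ s * a) % 4 ^ κ / 2 ^ κ =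
        ((y + 2 ^ s * (a % 2 ^ (κ - s))) / 2 ^ κ + a / 2 ^ (κ - s)) % 2 ^ κ := by
      rw [h6, Nat.mod_mul_right_div_self, h3]
      have h8 : y + (2 ^ κ * (a / 2 ^ (κ - s)) + 2 ^ s * (a % 2 ^ (κ - s))) =
        (y + 2 ^ s * (a % 2 ^ (κ - s))) + 2 ^ κ * (a / 2 ^ (κ - s)) := by ring
      rw [h8, Nat.add_mul_div_left _ _ h2]
    simp only [h7]
  rw [e2, nr_mul _ hB (fun c r => φ (((y + 2 ^ s * r) / 2 ^ κ + c) % 2 ^ κ)), nr_comm]
  refine (nr_congr fun r _ => ?_).trans (nr_const hB _)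
  have h9 : (2 : ℕ) ^ (κ + s) = 2 ^ s * 2 ^ κ := by
    rw [pow_add, mul_comm]
  have e3 : nr (2 ^ (κ + s)) (fun c => φ (((y + 2 ^ s * r) / 2 ^ κ + c) % 2 ^ κ)) =
      nr (2 ^ s * 2 ^ κ) (fun c =>
        (fun _ c' => φ (((y + 2 ^ s * r) / 2 ^ κ + c') % 2 ^ κ)) (c / 2 ^ κ) (c % 2 ^ κ)) := by
    rw [← h9]
    refine nr_congr fun c _ => ?_
    simp only [Nat.add_mod_mod]
  rw [e3, nr_mul _ h2 (fun _ c' => φ (((y + 2 ^ s * r) / 2 ^ κ + c') % 2 ^ κ))]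
  refine (nr_congr fun c _ => ?_).trans (nr_const (by positivity) _)
  exact h1_shift h2 _ φ

theorem hs_lt (κ q i : ℕ) : hs κ q i < 2 ^ κ := by
  unfold hs
  rw [Nat.div_lt_iff_lt_mul (by positivity), ← mul_pow]
  exact Nat.mod_lt _ (by positivity)

theorem hs_one (κ i : ℕ) (φ : ℕ → ℝ) :
    nr (16 ^ κ) (fun q => φ (hs κ q i)) = nr (2 ^ κ) φ := by
  have hK : 0 < 4 ^ κ := by positivity
  have h1 : nr (16 ^ κ) (fun q => φ (hs κ q i)) =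
      nr (4 ^ κ) (fun a => nr (4 ^ κ) (fun b => φ ((a * i + b) % 4 ^ κ / 2 ^ κ))) :=
    h1_split κ (fun a b => φ ((a * i + b) % 4 ^ κ / 2 ^ κ))
  rw [h1]
  refine (nr_congr fun a _ => ?_).trans (nr_const hK _)
  rw [h1_shift hK (a * i) (fun x => φ (x / 2 ^ κ)), h1_div]

private theorem h1_pair {κ i' D : ℕ} (hD : 0 < D) (hD2 : D < 2 ^ κ) (φ ψ : ℕ → ℝ) :
    nr (16 ^ κ) (fun q => φ (hs κ q (i' + D)) * ψ (hs κ q i')) =
      nr (2 ^ κ) φ * nr (2 ^ κ) ψ := by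
  have hK : 0 < 4 ^ κ := by positivity
  have h1 : nr (16 ^ κ) (fun q => φ (hs κ q (i' + D)) * ψ (hs κ q i')) =
      nr (4 ^ κ) (fun a => nr (4 ^ κ) (fun b => φ ((a * (i' + D) + b) % 4 ^ κ / 2 ^ κ) *
        ψ ((a * i' + b) % 4 ^ κ / 2 ^ κ))) :=
    h1_split κ (fun a b => φ ((a * (i' + D) + b) % 4 ^ κ / 2 ^ κ) *
        ψ ((a * i' + b) % 4 ^ κ / 2 ^ κ))
  rw [h1]
  have h2 : ∀ a, nr (4 ^ κ) (fun b => φ ((a * (i' + D) + b) % 4 ^ κ / 2 ^ κ) *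
        ψ ((a * i' + b) % 4 ^ κ / 2 ^ κ)) =
      nr (4 ^ κ) (fun y => φ ((y + a * D) % 4 ^ κ / 2 ^ κ) * ψ (y / 2 ^ κ)) := by
    intro a
    rw [← h1_shift hK (a * i') (fun y => φ ((y + a * D) % 4 ^ κ / 2 ^ κ) * ψ (y / 2 ^ κ))]
    refine nr_congr fun b _ => ?_
    have h3 : (a * (i' + D) + b) % 4 ^ κ = ((a * i' + b) % 4 ^ κ + a * D) % 4 ^ κ := by
      rw [Nat.mod_add_mod]
      congr 1
      ring
    simp only [h3]
  rw [nr_congr fun a _ => h2 a, nr_comm]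
  have h4 : ∀ y, nr (4 ^ κ) (fun a => φ ((y + a * D) % 4 ^ κ / 2 ^ κ) * ψ (y / 2 ^ κ)) =
      nr (2 ^ κ) φ * ψ (y / 2 ^ κ) := by
    intro y
    rw [← h1_main hD hD2 y φ, mul_comm, ← nr_mul_left]
    exact nr_congr fun a _ => mul_comm _ _
  rw [nr_congr fun y _ => h4 y, nr_mul_left, h1_div]

theorem hs_pair {κ i i' : ℕ} (hi : i < 2 ^ κ) (hi' : i' < 2 ^ κ) (h : i ≠ i') (φ ψ : ℕ → ℝ) :
    nr (16 ^ κ) (fun q => φ (hs κ q i) * ψ (hs κ q i')) = nr (2 ^ κ) φ * nr (2 ^ κ) ψ := by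
  rcases lt_or_gt_of_ne h with h1 | h1
  · have h2 : i' = i + (i' - i) := by omega
    have h3 := h1_pair (κ := κ) (i' := i) (D := i' - i) (by omega) (by omega) ψ φ
    rw [← h2] at h3
    rw [mul_comm (nr (2 ^ κ) φ), ← h3]
    exact nr_congr fun q _ => mul_comm _ _
  · have h2 : i = i' + (i - i') := by omega
    have h3 := h1_pair (κ := κ) (i' := i') (D := i - i') (by omega) (by omega) φ ψ
    rw [← h2] at h3
    exact h3

end Pool.Agent.MP_ca1109_lc.Agp
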