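import Pool.Agent.MP_ca1109_lc.Agp.W1
import Pool.Agent.MP_ca1109_lc.Agp.H1

/-!
# The multi-scale generator: one scale suffices
-/

namespace Pool.Agent.MP_ca1109_lc.Agp

open Pool.Agent.MP_ca1109_lc.Mpg Finset

/- PROOF NOTES [AGP-B2].
`scl_le`: `scl u = Nat.clog 2 (u + 1) ≤ κ` for `u < 2^κ` (`Nat.clog_le_of_le_pow`).
`card_scl`: for `1 ≤ l ≤ κ`: `scl u = l ↔ 2^(l-1) ≤ u < 2^l` (`Nat.clog_eq_iff`/`Nat.clog_le_iff_le_pow`, `Nat.lt_clog_iff_pow_lt`..), so the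
set is `Finset.Ico (2^(l-1)) (2^l)`, of cardinality `2^(l-1)`.
`choose_scale`: let `l` be minimal with `1 ≤ l` and `K * 2^κ ≤ N * 2^(l-1)` (`Nat.find`; `l = κ` has this property as
`2 K ≤ N`, `κ ≥ 1` since `4 ≤ 2 K ≤ N ≤ 2^κ`).  `l = 1` would give `K * 2^κ ≤ N ≤ 2^κ`, impossible for `K ≥ 2`; so `l ≥ 2` and by
minimality `N * 2^(l-2) < K * 2^κ`, i.e. `N * 2^(l-1) < 2 K * 2^κ`.
`scale_bound`: put `κ = Nat.clog 2 n`, `M = 2 ^ E n`, `F l σ = χ (lin (fun i => if scl (hs κ q i) = l then α i else 0) (out G n (σ % M)))`,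
`‖F l σ‖ ≤ 1` (`AddChar.norm_apply`).  For the string `x i = G n (pos M v (scl (hs κ q i)) p e % M) i`:
`χ (lin α x) = ∏ l ∈ range (κ + 1), F l (pos M v l p e)`: `lin α x = ∑ i, [x i] α i`, group the coordinates by their scale
`scl (hs κ q i) ≤ κ` (`Finset.sum_fiberwise_of_maps_to` or `Finset.sum_comm` with `Finset.sum_ite_eq`), `AddChar.map_sum_eq_prod`.
The average over `s` is the double average over `p = s / 8^(v κ)`, `e = s % 8^(v κ)` (`na_mul`), so `walk` gives the bound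
`‖na (M * M) (F l₀)‖ + 2 (73/80)^v`, and `na (M * M) (F l₀) = na M (..)` by `na_mod`. -/

private theorem b2_sum {Γ J : Type*} [AddCommGroup Γ] (χ : AddChar Γ ℂ) (s : Finset J) (f : J → Γ) :
    χ (∑ i ∈ s, f i) = ∏ i ∈ s, χ (f i) := by
  classical
  induction s using Finset.induction_on with
  | empty => rw [Finset.sum_empty, Finset.prod_empty, AddChar.map_zero_eq_one]
  | insert j s hj ih => rw [Finset.sum_insert hj, Finset.prod_insert hj, AddChar.map_add_eq_mul, ih]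

private theorem b2_scl (u l : ℕ) : scl u ≤ l ↔ u < 2 ^ l := by
  unfold scl
  rw [Nat.clog_le_iff_le_pow (by norm_num)]
  omega

theorem scl_le {κ u : ℕ} (h : u < 2 ^ κ) : scl u ≤ κ := by
  rwa [b2_scl]

theorem card_scl {κ l : ℕ} (h1 : 1 ≤ l) (h2 : l ≤ κ) :
    ((range (2 ^ κ)).filter fun u => scl u = l).card = 2 ^ (l - 1) := by
  have h3 : ((range (2 ^ κ)).filter fun u => scl u = l) = Finset.Ico (2 ^ (l - 1)) (2 ^ l) := by
    ext u
    rw [Finset.mem_filter, Finset.mem_range, Finset.mem_Ico]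
    have h4 := b2_scl u l
    have h5 := b2_scl u (l - 1)
    have h6 : 2 ^ l ≤ 2 ^ κ := Nat.pow_le_pow_right (by norm_num) h2
    constructor
    · rintro ⟨_, hl⟩
      refine ⟨?_, h4.1 hl.le⟩
      by_contra hc
      have h7 := h5.2 (by omega)
      omega
    · rintro ⟨ha, hb⟩
      refine ⟨by omega, ?_⟩
      have h7 := h4.2 hb
      have h8 : ¬ scl u ≤ l - 1 := fun hc => by
        have := h5.1 hc
        omega
      omega
  rw [h3, Nat.card_Ico]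
  obtain ⟨k, rfl⟩ : ∃ k, l = k + 1 := ⟨l - 1, by omega⟩
  rw [Nat.add_sub_cancel, pow_succ]
  omega

theorem choose_scale {κ K N : ℕ} (hK : 2 ≤ K) (h1 : 2 * K ≤ N) (h2 : N ≤ 2 ^ κ) :
    ∃ l, 1 ≤ l ∧ l ≤ κ ∧ K * 2 ^ κ ≤ N * 2 ^ (l - 1) ∧ N * 2 ^ (l - 1) < 2 * K * 2 ^ κ := by
  classical
  have hκ : 1 ≤ κ := by
    by_contra hc
    have h3 : κ = 0 := by omega
    rw [h3, pow_zero] at h2
    omega
  have hex : ∃ l, 1 ≤ l ∧ K * 2 ^ κ ≤ N * 2 ^ (l - 1) := by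
    refine ⟨κ, hκ, ?_⟩
    obtain ⟨k, rfl⟩ : ∃ k, κ = k + 1 := ⟨κ - 1, by omega⟩
    rw [Nat.add_sub_cancel, pow_succ]
    calc K * (2 ^ k * 2) = (2 * K) * 2 ^ k := by ring
      _ ≤ N * 2 ^ k := Nat.mul_le_mul_right _ h1
  have hle : Nat.find hex ≤ κ := by
    refine Nat.find_le ⟨hκ, ?_⟩
    obtain ⟨k, rfl⟩ : ∃ k, κ = k + 1 := ⟨κ - 1, by omega⟩
    rw [Nat.add_sub_cancel, pow_succ]
    calc K * (2 ^ k * 2) = (2 * K) * 2 ^ k := by ring
      _ ≤ N * 2 ^ k := Nat.mul_le_mul_right _ h1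
  obtain ⟨h3, h4⟩ := Nat.find_spec hex
  refine ⟨Nat.find hex, h3, hle, h4, ?_⟩
  have h5 : Nat.find hex ≠ 1 := by
    intro hc
    rw [hc] at h4
    have h6 : K * 2 ^ κ ≤ 2 ^ κ := by
      refine h4.trans ?_
      simpa using h2
    have h7 : 2 * 2 ^ κ ≤ K * 2 ^ κ := Nat.mul_le_mul_right _ hK
    have h8 : 0 < 2 ^ κ := by positivity
    omega
  obtain ⟨k, hk⟩ : ∃ k, Nat.find hex = k + 2 := ⟨Nat.find hex - 2, by omega⟩
  have h6 := Nat.find_min hex (m := k + 1) (by omega)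
  have h7 : N * 2 ^ k < K * 2 ^ κ := by
    by_contra hc
    exact h6 ⟨by omega, by simpa using hc⟩
  rw [hk]
  have h8 : k + 2 - 1 = k + 1 := by omega
  rw [h8, pow_succ]
  calc N * (2 ^ k * 2) = 2 * (N * 2 ^ k) := by ring
    _ < 2 * (K * 2 ^ κ) := by omega
    _ = 2 * K * 2 ^ κ := by ring

theorem scale_bound (v : ℕ) (E : ℕ → ℕ) (G : ℕ → ℕ → ℕ → Bool) (n q : ℕ) {Γ : Type*}
    [AddCommGroup Γ] [Fintype Γ] (α : Fin n → Γ) (χ : AddChar Γ ℂ) {l₀ : ℕ}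
    (hl : l₀ ≤ Nat.clog 2 n) :
    ‖na (2 ^ E n * 2 ^ E n * 8 ^ (v * Nat.clog 2 n)) (fun s => χ (lin α (fun i : Fin n =>
      G n (pos (2 ^ E n) v (scl (hs (Nat.clog 2 n) q i)) (s / 8 ^ (v * Nat.clog 2 n))
        (s % 8 ^ (v * Nat.clog 2 n)) % 2 ^ E n) i)))‖ ≤
      ‖na (2 ^ E n) (fun p => χ (lin (fun i : Fin n =>
        if scl (hs (Nat.clog 2 n) q i) = l₀ then α i else 0) (out G n p)))‖ +
        2 * (73 / 80 : ℝ) ^ v := by
  have hM : 0 < 2 ^ E n := by positivity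
  have hkey : ∀ p e, χ (lin α (fun i : Fin n =>
      G n (pos (2 ^ E n) v (scl (hs (Nat.clog 2 n) q i)) p e % 2 ^ E n) i)) =
      ∏ l ∈ range (Nat.clog 2 n + 1), χ (lin (fun i : Fin n =>
        if scl (hs (Nat.clog 2 n) q i) = l then α i else 0)
          (out G n (pos (2 ^ E n) v l p e % 2 ^ E n))) := by
    intro p e
    rw [← b2_sum]
    congr 1
    unfold lin out
    rw [Finset.sum_comm]
    refine Finset.sum_congr rfl fun i _ => ?_
    rw [Finset.sum_eq_single (scl (hs (Nat.clog 2 n) q i))]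
    · simp only [if_true]
    · intro l _ hl
      simp only [if_neg (Ne.symm hl), ite_self]
    · intro hc
      exact absurd (Finset.mem_range.2 (Nat.lt_succ_of_le (scl_le (hs_lt _ _ _)))) hc
  have h1 : na (2 ^ E n * 2 ^ E n * 8 ^ (v * Nat.clog 2 n)) (fun s => χ (lin α (fun i : Fin n =>
      G n (pos (2 ^ E n) v (scl (hs (Nat.clog 2 n) q i)) (s / 8 ^ (v * Nat.clog 2 n))
        (s % 8 ^ (v * Nat.clog 2 n)) % 2 ^ E n) i))) =
      na (2 ^ E n * 2 ^ E n) (fun p => na (8 ^ (v * Nat.clog 2 n)) (fun e =>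
        ∏ l ∈ range (Nat.clog 2 n + 1), χ (lin (fun i : Fin n =>
        if scl (hs (Nat.clog 2 n) q i) = l then α i else 0)
          (out G n (pos (2 ^ E n) v l p e % 2 ^ E n))))) := by
    rw [← na_mul (2 ^ E n * 2 ^ E n) (B := 8 ^ (v * Nat.clog 2 n)) (by positivity)]
    exact na_congr fun s _ => hkey _ _
  rw [h1]
  have h2 := walk hM v (Nat.clog 2 n) (fun l σ => χ (lin (fun i : Fin n =>
        if scl (hs (Nat.clog 2 n) q i) = l then α i else 0) (out G n (σ % 2 ^ E n))))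
        (fun l σ => (AddChar.norm_apply _ _).le) hl
  have h3 : na (2 ^ E n * 2 ^ E n) (fun σ => χ (lin (fun i : Fin n =>
        if scl (hs (Nat.clog 2 n) q i) = l₀ then α i else 0) (out G n (σ % 2 ^ E n)))) =
      na (2 ^ E n) (fun p => χ (lin (fun i : Fin n =>
        if scl (hs (Nat.clog 2 n) q i) = l₀ then α i else 0) (out G n p))) :=
    na_mod hM hM (fun σ => χ (lin (fun i : Fin n =>
        if scl (hs (Nat.clog 2 n) q i) = l₀ then α i else 0) (out G n σ)))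
  rw [← h3]
  exact h2

end Pool.Agent.MP_ca1109_lc.Agp
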