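import Pool.Agent.MP_ca1109_lc.Agp.C3

/-!
# Uniform inputs spread linear forms with many coefficients of large order
-/

namespace Pool.Agent.MP_ca1109_lc.Agp

open Pool.Agent.MP_ca1109_lc.Mpg Finset

/- PROOF NOTES [AGP-C4].  For `‖z‖ = 1`: `‖1 + z‖ ^ 2 = 4 - ‖1 - z‖ ^ 2`, so `‖1 + z‖ / 2 ≤ exp (-‖1 - z‖ ^ 2 / 8)`
(`1 - t ≤ exp (-t)` with `t = ‖1 - z‖ ^ 2 / 4`, take square roots).  Hence
`∏ i ∈ J, ‖1 + χ (α i)‖ / 2 ≤ exp (-(∑ i ∈ J, ‖1 - χ (α i)‖ ^ 2) / 8)`.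
Given `ε`, choose `R` with `1 / (R + 1) ≤ ε / 2`, `C > 0` with `exp (-C / 8) ≤ ε / 2`, and `K₀ > (3 R + 3) ^ 2 * C / 2`.
For `K₀ ≤ J.card` the contrapositive of `card_le_of_close` gives `(R + 1) * card B ≤ card Γ` for
`B = {χ | ∑ ‖1 - χ (α i)‖ ^ 2 < C}`.  The average over the characters (`AddChar.card_eq`) is at most
`card B / card Γ + exp (-C / 8) ≤ 1 / (R + 1) + ε / 2 ≤ ε` (each factor is in `[0, 1]`, so the product is at most `1` on `B`). -/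

theorem c4_factor {z : ℂ} (hz : ‖z‖ = 1) : ‖1 + z‖ / 2 ≤ Real.exp (-(‖1 - z‖ ^ 2) / 8) := by
  have h1 := parallelogram_law_with_norm ℝ (1 : ℂ) z
  rw [hz, norm_one] at h1
  have h2 : (‖1 + z‖ / 2) ^ 2 ≤ (Real.exp (-(‖1 - z‖ ^ 2) / 8)) ^ 2 := by
    have h3 : (Real.exp (-(‖1 - z‖ ^ 2) / 8)) ^ 2 = Real.exp (-(‖1 - z‖ ^ 2 / 4)) := by
      rw [← Real.exp_nat_mul]
      congr 1
      push_cast
      ring
    rw [h3]
    have h4 := Real.add_one_le_exp (-(‖1 - z‖ ^ 2 / 4))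
    nlinarith
  exact (pow_le_pow_iff_left₀ (by positivity) (Real.exp_pos _).le two_ne_zero).1 h2

theorem c4_prod {n : ℕ} (J : Finset (Fin n)) (z : Fin n → ℂ) (hz : ∀ i, ‖z i‖ = 1) :
    (∏ i ∈ J, ‖1 + z i‖ / 2) ≤ 1 ∧
      (∏ i ∈ J, ‖1 + z i‖ / 2) ≤ Real.exp (-(∑ i ∈ J, ‖1 - z i‖ ^ 2) / 8) := by
  constructor
  · refine Finset.prod_le_one (fun i _ => by positivity) fun i _ => ?_
    have h := norm_add_le (1 : ℂ) (z i)
    rw [hz i, norm_one] at h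
    linarith
  · have h1 : Real.exp (-(∑ i ∈ J, ‖1 - z i‖ ^ 2) / 8) = ∏ i ∈ J, Real.exp (-(‖1 - z i‖ ^ 2) / 8) := by
      rw [← Real.exp_sum]
      congr 1
      rw [← Finset.sum_div, Finset.sum_neg_distrib]
    rw [h1]
    exact Finset.prod_le_prod (fun i _ => by positivity) fun i _ => c4_factor (hz i)

theorem uniform_spread (ε : ℝ) (hε : 0 < ε) : ∃ R K₀ : ℕ, ∀ (Γ : Type) [AddCommGroup Γ] [Fintype Γ]
    (n : ℕ) (J : Finset (Fin n)) (α : Fin n → Γ), (∀ i ∈ J, R.factorial • α i ≠ 0) →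
      K₀ ≤ J.card → avg (fun χ : AddChar Γ ℂ => ∏ i ∈ J, ‖1 + χ (α i)‖ / 2) ≤ ε := by
  obtain ⟨R, hR⟩ := exists_nat_one_div_lt (half_pos hε)
  obtain ⟨C, hC, hCe⟩ : ∃ C : ℝ, 0 < C ∧ Real.exp (-C / 8) ≤ ε / 2 := by
    refine ⟨8 * |Real.log (ε / 2)| + 1, by positivity, ?_⟩
    rw [← Real.le_log_iff_exp_le (half_pos hε)]
    have h := neg_abs_le (Real.log (ε / 2))
    linarith
  obtain ⟨K, hK⟩ := exists_nat_gt ((3 * (R : ℝ) + 3) ^ 2 * C / 2)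
  refine ⟨R, K, ?_⟩
  intro Γ _ _ n J α hα hJ
  have hB : ((R : ℝ) + 1) *
      ((univ.filter fun χ : AddChar Γ ℂ => ∑ i ∈ J, ‖1 - χ (α i)‖ ^ 2 < C).card : ℝ) ≤
      (Fintype.card Γ : ℝ) := by
    by_contra h
    have h1 := card_le_of_close J α R hC hα (not_le.1 h)
    have h2 : (K : ℝ) ≤ J.card := by exact_mod_cast hJ
    linarith
  have hcard : (Fintype.card (AddChar Γ ℂ) : ℝ) = Fintype.card Γ := by
    rw [AddChar.card_eq]
  have hpos : (0 : ℝ) < Fintype.card Γ := by exact_mod_cast Fintype.card_pos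
  have hle : ∀ χ : AddChar Γ ℂ, (∏ i ∈ J, ‖1 + χ (α i)‖ / 2) ≤
      (if ∑ i ∈ J, ‖1 - χ (α i)‖ ^ 2 < C then (1 : ℝ) else 0) + ε / 2 := by
    intro χ
    obtain ⟨h1, h2⟩ := c4_prod J (fun i => χ (α i)) (fun i => AddChar.norm_apply χ (α i))
    by_cases hχ : ∑ i ∈ J, ‖1 - χ (α i)‖ ^ 2 < C
    · rw [if_pos hχ]
      linarith
    · rw [if_neg hχ, zero_add]
      refine h2.trans (le_trans ?_ hCe)
      refine Real.exp_le_exp.2 ?_
      have h3 := not_lt.1 hχ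
      linarith
  unfold avg
  rw [hcard, div_le_iff₀ hpos]
  calc ∑ χ : AddChar Γ ℂ, (∏ i ∈ J, ‖1 + χ (α i)‖ / 2)
      ≤ ∑ χ : AddChar Γ ℂ, ((if ∑ i ∈ J, ‖1 - χ (α i)‖ ^ 2 < C then (1 : ℝ) else 0) + ε / 2) :=
        Finset.sum_le_sum fun χ _ => hle χ
    _ = ((univ.filter fun χ : AddChar Γ ℂ => ∑ i ∈ J, ‖1 - χ (α i)‖ ^ 2 < C).card : ℝ) +
        (Fintype.card Γ : ℝ) * (ε / 2) := by
        rw [Finset.sum_add_distrib, Finset.sum_boole, Finset.sum_const, Finset.card_univ,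
          nsmul_eq_mul, hcard]
    _ ≤ ε * (Fintype.card Γ : ℝ) := by
        have h4 : ((univ.filter fun χ : AddChar Γ ℂ => ∑ i ∈ J, ‖1 - χ (α i)‖ ^ 2 < C).card : ℝ) ≤
            (ε / 2) * (Fintype.card Γ : ℝ) := by
          have hR1 : (0 : ℝ) < (R : ℝ) + 1 := by positivity
          have h5 : (1 : ℝ) < (ε / 2) * ((R : ℝ) + 1) := by
            rwa [div_lt_iff₀ hR1] at hR
          have h6 : (0 : ℝ) ≤ ((univ.filter fun χ : AddChar Γ ℂ =>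
            ∑ i ∈ J, ‖1 - χ (α i)‖ ^ 2 < C).card : ℝ) := Nat.cast_nonneg _
          have h7 := mul_le_mul_of_nonneg_left hB (half_pos hε).le
          nlinarith
        linarith

end Pool.Agent.MP_ca1109_lc.Agp
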