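import Pool.Agent.MP_ca1109_lc.Agp.G1

/-!
# Independent copies and walks: explicit generators
-/

namespace Pool.Agent.MP_ca1109_lc.Agp

open Pool.Agent.H66 Pool.Agent.MP_ca1109_lc.Mpg Finset

/- PROOF NOTES [AGP-G2].  Tools as in `G1` (`pb_mul, pb_pow, pb_const, pb_clog, polyTime_hs, polyTime_out`) and `W2`
(`polyTime_pos, polyTime_scl`).
`polyTime_divpow`: `p / M ^ r` is the `r`-fold iterate of `p ↦ p / M` (`Nat.div_div_eq_div_mul`, `pow_succ`); `PolyTime.iterate` with the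
state `(M, p)` and the step `(M, p) ↦ (M, p / M)`, whose encodings stay bounded (`Nat.div_le_self`).
`NG.bucket`: the number of seeds is `2 ^ (4 (clog 2 n + t) + 2^t * E n) = 16^t * (2 ^ clog 2 n)^4 * (2 ^ E n) ^ (2^t)`;
`(2 ^ E n) ^ 2 ^ t` is a power with a constant exponent (`polyTime_pow`).
`NG.scale`: the number of seeds is `16 ^ clog 2 n * (2 ^ E n * 2 ^ E n * 8 ^ (v * clog 2 n))`, `8 ^ (v * clog 2 n) = (2 ^ clog 2 n) ^ (3 v)` (`nseed`);
the start `p % (M * M * W) / W` with `M = 2 ^ E n`, `W = 8 ^ (v * clog 2 n)` is below `M * M` (`Nat.div_lt_of_lt_mul`, `Nat.mod_lt`). -/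

private theorem g2_iter (M : ℕ) : ∀ i p : ℕ,
    (fun s : ℕ × ℕ => (s.1, s.2 / s.1))^[i] (M, p) = (M, p / M ^ i)
  | 0, p => by simp
  | i + 1, p => by
    rw [Function.iterate_succ_apply]
    show (fun s : ℕ × ℕ => (s.1, s.2 / s.1))^[i] (M, p / M) = _
    rw [g2_iter M i (p / M), Nat.div_div_eq_div_mul, pow_succ, mul_comm M]

private theorem g2_size (n t a : ℕ) : 2 ^ (4 * (Nat.clog 2 n + t) + 2 ^ t * a) =
    16 ^ t * nseed 4 n * (2 ^ a) ^ 2 ^ t := by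
  unfold nseed
  rw [pow_add, ← pow_mul, ← pow_mul, show (16 : ℕ) = 2 ^ 4 by norm_num, ← pow_mul, ← pow_add]
  ring

private theorem g2_eight (v n : ℕ) : 8 ^ (v * Nat.clog 2 n) = nseed (3 * v) n := by
  unfold nseed
  rw [show (8 : ℕ) = 2 ^ 3 by norm_num, ← pow_mul, ← pow_mul]
  congr 1
  ring

private theorem g2_size' (n v a : ℕ) : 2 ^ (4 * Nat.clog 2 n + (a + a + 3 * (v * Nat.clog 2 n))) =
    nseed 4 n * (2 ^ a * 2 ^ a * nseed (3 * v) n) := by
  unfold nseed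
  rw [← pow_mul, ← pow_mul, ← pow_add, ← pow_add, ← pow_add]
  congr 1
  ring

theorem polyTime_divpow {γ : Type} [Enc γ] {M p r : γ → ℕ} (hM : PolyTime M) (hp : PolyTime p)
    (hr : PolyTime r) : PolyTime fun c => p c / M c ^ r c := by
  obtain ⟨s1, hs1, hs1'⟩ := hM.size
  obtain ⟨s2, hs2, hs2'⟩ := hp.size
  have h := PolyTime.iterate (step := fun s : ℕ × ℕ => (s.1, s.2 / s.1))
    (ini := fun c => (M c, p c)) hr (hM.pair hp)
    (PolyTime.fst.pair (d3_div PolyTime.snd PolyTime.fst))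
    (fun k => s1 k + s2 k + 2) ((hs1.add hs2).add (PB.const 2)) (fun c i hi => by
      rw [g2_iter, enc_pair]
      have h1 := hs1' c
      have h2 := hs2' c
      rw [enc_nat_length] at h1 h2
      simp only [List.length_cons, List.length_append, enc_nat_length]
      have h3 : p c / M c ^ i ≤ p c := Nat.div_le_self _ _
      omega)
  refine (PolyTime.snd.comp h).of_eq fun c => ?_
  rw [g2_iter]

theorem NG.bucket (t : ℕ) {E : ℕ → ℕ} {G : ℕ → ℕ → ℕ → Bool} (h : NG E G) :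
    NG (fun n => 4 * (Nat.clog 2 n + t) + 2 ^ t * E n) (bucketG t E G) := by
  have hn : PolyTime fun q : ℕ × (ℕ × ℕ) => q.1 := PolyTime.fst
  have hp : PolyTime fun q : ℕ × (ℕ × ℕ) => q.2.1 := PolyTime.fst.comp PolyTime.snd
  have hi : PolyTime fun q : ℕ × (ℕ × ℕ) => q.2.2 := PolyTime.snd.comp PolyTime.snd
  have hM : PolyTime fun q : ℕ × (ℕ × ℕ) => 2 ^ E q.1 := h.poly_M.comp PolyTime.fst
  have hT : PolyTime fun q : ℕ × (ℕ × ℕ) => 2 ^ Nat.clog 2 q.1 :=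
    ((polyTime_nseed 1).comp hn).of_eq fun q => by
      unfold nseed
      rw [pow_one]
  have hB : PolyTime fun q : ℕ × (ℕ × ℕ) => (2 ^ E q.1) ^ 2 ^ t := polyTime_pow (2 ^ t) hM
  refine ⟨PolyTime.add (PolyTime.mul (PolyTime.const 4)
    (PolyTime.add polyTime_clog (PolyTime.const t)))
      (PolyTime.mul (PolyTime.const (2 ^ t)) h.poly_E), ?_, ?_, ?_⟩
  · exact (PolyTime.mul (PolyTime.mul (PolyTime.const (16 ^ t)) (polyTime_nseed 4))
      (polyTime_pow (2 ^ t) h.poly_M)).of_eq fun n => by rw [g2_size]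
  · obtain ⟨c, hc⟩ := pb_mul (pb_mul (pb_const (16 ^ t)) (pb_pow pb_clog 4))
      (pb_pow h.bound (2 ^ t))
    refine ⟨c, fun n => ?_⟩
    show 2 ^ (4 * (Nat.clog 2 n + t) + 2 ^ t * E n) ≤ _
    rw [g2_size]
    exact hc n
  · unfold bucketG
    exact polyTime_out h hn (d3_mod (polyTime_divpow hM (d3_mod hp hB)
      (d3_div (polyTime_hs t hn (d3_div hp hB) hi) hT)) hM) hi

theorem NG.scale (v : ℕ) {E : ℕ → ℕ} {G : ℕ → ℕ → ℕ → Bool} (h : NG E G) :
    NG (fun n => 4 * Nat.clog 2 n + (E n + E n + 3 * (v * Nat.clog 2 n))) (scaleG v E G) := by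
  have hn : PolyTime fun q : ℕ × (ℕ × ℕ) => q.1 := PolyTime.fst
  have hp : PolyTime fun q : ℕ × (ℕ × ℕ) => q.2.1 := PolyTime.fst.comp PolyTime.snd
  have hi : PolyTime fun q : ℕ × (ℕ × ℕ) => q.2.2 := PolyTime.snd.comp PolyTime.snd
  have hM : PolyTime fun q : ℕ × (ℕ × ℕ) => 2 ^ E q.1 := h.poly_M.comp PolyTime.fst
  have hW : PolyTime fun q : ℕ × (ℕ × ℕ) => 8 ^ (v * Nat.clog 2 q.1) :=
    ((polyTime_nseed (3 * v)).comp hn).of_eq fun q => (g2_eight v q.1).symm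
  have hB : PolyTime fun q : ℕ × (ℕ × ℕ) => 2 ^ E q.1 * 2 ^ E q.1 * 8 ^ (v * Nat.clog 2 q.1) :=
    PolyTime.mul (PolyTime.mul hM hM) hW
  refine ⟨PolyTime.add (PolyTime.mul (PolyTime.const 4) polyTime_clog)
      (PolyTime.add (PolyTime.add h.poly_E h.poly_E) (PolyTime.mul (PolyTime.const 3)
        (PolyTime.mul (PolyTime.const v) polyTime_clog))), ?_, ?_, ?_⟩
  · exact (PolyTime.mul (polyTime_nseed 4) (PolyTime.mul (PolyTime.mul h.poly_M h.poly_M)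
      (polyTime_nseed (3 * v)))).of_eq fun n => by rw [g2_size']
  · obtain ⟨c, hc⟩ := pb_mul (pb_pow pb_clog 4)
      (pb_mul (pb_mul h.bound h.bound) (pb_pow pb_clog (3 * v)))
    refine ⟨c, fun n => ?_⟩
    show 2 ^ (4 * Nat.clog 2 n + (E n + E n + 3 * (v * Nat.clog 2 n))) ≤ _
    rw [g2_size']
    exact hc n
  · have hh : PolyTime fun q : ℕ × (ℕ × ℕ) => hs (Nat.clog 2 q.1)
        (q.2.1 / (2 ^ E q.1 * 2 ^ E q.1 * 8 ^ (v * Nat.clog 2 q.1))) q.2.2 :=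
      (polyTime_hs 0 hn (d3_div hp hB) hi).of_eq fun q => by rw [Nat.add_zero]
    have hlt : ∀ q : ℕ × (ℕ × ℕ), q.2.1 % (2 ^ E q.1 * 2 ^ E q.1 * 8 ^ (v * Nat.clog 2 q.1)) /
        8 ^ (v * Nat.clog 2 q.1) < 2 ^ E q.1 * 2 ^ E q.1 := by
      intro q
      refine Nat.div_lt_of_lt_mul ?_
      rw [mul_comm (8 ^ (v * Nat.clog 2 q.1))]
      exact Nat.mod_lt _ (by positivity)
    unfold scaleG
    exact polyTime_out h hn (d3_mod (polyTime_pos v hM (polyTime_scl.comp hh)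
      (d3_div (d3_mod hp hB) hW) (d3_mod (d3_mod hp hB) hW) hlt) hM) hi

end Pool.Agent.MP_ca1109_lc.Agp
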