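import Pool.Agent.MP_ca1109_lc.Agp.G1

/-!
# From lists of bits to numbers and back
-/

namespace Pool.Agent.MP_ca1109_lc.Agp

open Pool.Agent.H66 Pool.Agent.MP_ca1109_lc.Mpg Finset

/- PROOF NOTES [AGP-G3].
`bts D p` is the list of `D` bits with `bval (bts D p) = p` for `p < 2 ^ D` (`bval` in `MonoPoly`; check the order of the bits; define
`bts` by `(List.range D).map fun i => decide (p / 2 ^ i % 2 = 1)` or its reverse accordingly).  `bts` is polynomial-time as
a function of `(n, p)` for `D = D n` with `2 ^ D n ≤ c (n+1)^c`: in `PolyTime.map` over `List.range (D n)` use `p / 2 ^ i` by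
`i` iterations of `· / 2` (as in `polyTime_divpow` of `G2`; do it here directly with `PolyTime.iterate`, state `p`, step `· / 2`).
`exists_ng`: given `Gen finTwoEquiv 𝒯 δ` with `D, G`, put `E = D` and
`G' n p i = decide ((G n (bts (D n) p)).getD i 0 = 1)`; `word finTwoEquiv n l i = decide (l.getD i 0 = 1)` for entries `< 2`
(see `g2_letter, g2_word` in `Mpg/G2`), so `out G' n p = word finTwoEquiv n (G n (bts (D n) p))`; the average over
`s : Fin (D n) → Bool` is the average over `p < 2 ^ D n` by `d4_sum_seeds` (`Mpg/D4`) for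
`F p = f (word finTwoEquiv n (G n (bts (D n) p)))`, as `bts (D n) (bval (List.ofFn s)) = List.ofFn s` (`bval_inj`, `bval_lt`).
`poly_M`: `polyTime_two_pow` (`W2`).
`logGen_of`: given `NG E G`, use `D = E` and `G' n s = (List.range n).map fun i => G n (cval (2 ^ E n) s) i` (as `d4_G, d4_G_poly` in
`Mpg/D4`); `cval (2 ^ E n) (List.ofFn s) = bval (List.ofFn s)` (`cval_eq` in `MonoPoly`), `bits n (G' n s) = out G n (bval s)`
(`bits` see `Mpg/G2`, `MonoThreshold`), `prob` over the seeds `= nr (2 ^ E n) (fun p => ind (T (out G n p)))` (real version of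
`d4_sum_seeds`, `prob_eq_avg` in `MonoProb`), and `growth` (`Mpg/G2`) for the eventual bounds. -/

/-- The list of `D` bits with value `p % 2 ^ D`, most significant bit first. -/
def g3_bts (D p : ℕ) : List Bool := (List.range D).map fun i => decide (p / 2 ^ (D - 1 - i) % 2 = 1)

theorem g3_bts_length (D p : ℕ) : (g3_bts D p).length = D := by
  unfold g3_bts
  rw [List.length_map, List.length_range]

theorem g3_bts_succ (D p : ℕ) : g3_bts (D + 1) p = decide (p / 2 ^ D % 2 = 1) :: g3_bts D p := by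
  unfold g3_bts
  rw [List.range_succ_eq_map, List.map_cons, List.map_map]
  congr 1
  refine List.map_congr_left fun i _ => ?_
  have h : D + 1 - 1 - (i + 1) = D - 1 - i := by omega
  show decide (p / 2 ^ (D + 1 - 1 - (i + 1)) % 2 = 1) = _
  rw [h]

theorem g3_bval_bts (D p : ℕ) : bval (g3_bts D p) = p % 2 ^ D := by
  induction D with
  | zero =>
    show bval [] = _
    rw [bval, pow_zero, Nat.mod_one]
  | succ D ih =>
    rw [g3_bts_succ, bval, g3_bts_length, ih, Nat.mod_pow_succ]
    have h : p / 2 ^ D % 2 = 0 ∨ p / 2 ^ D % 2 = 1 := by omega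
    rcases h with h | h
    · rw [h]
      simp
    · rw [h]
      simp [add_comm]

theorem g3_bts_bval {D : ℕ} (s : Fin D → Bool) : g3_bts D (bval (List.ofFn s)) = List.ofFn s := by
  apply bval_inj
  · rw [g3_bts_length, List.length_ofFn]
  · rw [g3_bval_bts]
    have h := bval_lt (List.ofFn s)
    rw [List.length_ofFn] at h
    exact Nat.mod_eq_of_lt h

theorem g3_iter (p i : ℕ) : (fun a : ℕ => a / 2)^[i] p = p / 2 ^ i := by
  induction i with
  | zero => simp
  | succ i ih =>
    rw [Function.iterate_succ_apply', ih, Nat.div_div_eq_div_mul, pow_succ]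

theorem g3_divpow {γ : Type} [Enc γ] {p r : γ → ℕ} (hp : PolyTime p) (hr : PolyTime r) :
    PolyTime fun c => p c / 2 ^ r c := by
  obtain ⟨s, hs, hs'⟩ := hp.size
  have hstep : PolyTime fun a : ℕ => a / 2 := d3_div PolyTime.id (PolyTime.const 2)
  have h := PolyTime.iterate (n := r) (ini := p) (step := fun a : ℕ => a / 2) hr hp hstep s hs
    (fun a i _ => by
      rw [g3_iter]
      have h1 := hs' a
      rw [enc_nat_length] at h1 ⊢
      have h2 : p a / 2 ^ i ≤ p a := Nat.div_le_self _ _
      omega)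
  exact h.of_eq fun c => g3_iter _ _

theorem g3_bts_poly {γ : Type} [Enc γ] {D p : γ → ℕ} (hD : PolyTime D) (hp : PolyTime p) :
    PolyTime fun c => g3_bts (D c) (p c) := by
  unfold g3_bts
  refine PolyTime.map (l := fun c => List.range (D c))
    (f := fun c i => decide (p c / 2 ^ (D c - 1 - i) % 2 = 1)) (PolyTime.range hD) ?_
  have h1 : PolyTime fun q : γ × ℕ => D q.1 - 1 - q.2 :=
    PolyTime.sub (PolyTime.sub (hD.comp PolyTime.fst) (PolyTime.const 1)) PolyTime.snd
  have h2 : PolyTime fun q : γ × ℕ => p q.1 / 2 ^ (D q.1 - 1 - q.2) :=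
    g3_divpow (hp.comp PolyTime.fst) h1
  exact PolyTime.eqb (d3_mod h2 (PolyTime.const 2)) (PolyTime.const 1)

theorem g3_letter (a : ℕ) (ha : a < 2) : decide (a = 1) = finTwoEquiv (Fin.ofNat 2 a) := by
  have h : a = 0 ∨ a = 1 := by omega
  rcases h with rfl | rfl <;> rfl

theorem g3_sum_seeds (D : ℕ) (F : ℕ → ℝ) :
    ∑ s : Fin D → Bool, F (bval (List.ofFn s)) = ∑ i ∈ range (2 ^ D), F i := by
  have h := d4_sum_seeds D (fun i => (F i : ℂ))
  exact_mod_cast h

theorem exists_ng {𝒯 : ∀ n : ℕ, Set ((Fin n → Bool) → ℂ)} {δ : ℝ} (h : Gen finTwoEquiv 𝒯 δ) :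
    ∃ E G, NG E G ∧ ∀ n, ∀ f ∈ 𝒯 n, ‖na (2 ^ E n) (fun p => f (out G n p)) - av f‖ ≤ δ := by
  obtain ⟨D, G, hD, hG, hgr, hl, hf⟩ := h
  refine ⟨D, fun n p i => decide ((G n (g3_bts (D n) p)).getD i 0 = 1),
    ⟨hD, polyTime_two_pow hD hgr, hgr, ?_⟩, ?_⟩
  · have h1 : PolyTime fun q : ℕ × (ℕ × ℕ) => g3_bts (D q.1) q.2.1 :=
      g3_bts_poly (hD.comp PolyTime.fst) (PolyTime.fst.comp PolyTime.snd)
    have h2 : PolyTime fun q : ℕ × (ℕ × ℕ) => G q.1 (g3_bts (D q.1) q.2.1) :=
      hG.comp (PolyTime.fst.pair h1)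
    have h3 : PolyTime fun q : ℕ × (ℕ × ℕ) => (G q.1 (g3_bts (D q.1) q.2.1)).getD q.2.2 0 :=
      PolyTime.getD (PolyTime.snd.comp PolyTime.snd) h2 0
    exact PolyTime.eqb h3 (PolyTime.const 1)
  · intro n f hfn
    refine le_trans (le_of_eq ?_) (hf n f hfn)
    congr 2
    unfold na av
    rw [Fintype.card_fun, Fintype.card_bool, Fintype.card_fin, ← d4_sum_seeds]
    congr 1
    refine Finset.sum_congr rfl fun s _ => ?_
    congr 1
    funext i
    show decide ((G n (g3_bts (D n) (bval (List.ofFn s)))).getD i 0 = 1) = _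
    rw [g3_bts_bval]
    unfold word
    refine g3_letter _ ?_
    rw [List.getD_eq_getElem?_getD]
    rcases lt_or_ge (i : ℕ) (G n (List.ofFn s)).length with hi | hi
    · rw [List.getElem?_eq_getElem hi]
      exact (hl n _).2 _ (List.getElem_mem hi)
    · rw [List.getElem?_eq_none hi]
      exact Nat.zero_lt_two

theorem logGen_of {E : ℕ → ℕ} {G : ℕ → ℕ → ℕ → Bool} (h : NG E G)
    {𝒯 : ∀ n : ℕ, ((Fin n → Bool) → Bool) → Prop} {ε : ℝ}
    (H : ∀ n T, 𝒯 n T → |nr (2 ^ E n) (fun p => ind (T (out G n p))) - prob T| ≤ ε) :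
    LogGen 𝒯 ε := by
  obtain ⟨c, hc⟩ := growth h.bound
  refine ⟨E, fun n s => (List.range n).map fun i => G n (cval (2 ^ E n) s) i, h.poly_E, ?_,
    fun n s _ => ?_, c, ?_⟩
  · refine PolyTime.map (l := fun p : ℕ × List Bool => List.range p.1)
      (f := fun p i => G p.1 (cval (2 ^ E p.1) p.2) i) (PolyTime.range PolyTime.fst) ?_
    have hc : PolyTime fun p : ℕ × List Bool => cval (2 ^ E p.1) p.2 :=
      polyTime_cval (h.poly_M.comp PolyTime.fst) PolyTime.snd
    exact polyTime_out h (PolyTime.fst.comp PolyTime.fst) (hc.comp PolyTime.fst) PolyTime.snd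
  · rw [List.length_map, List.length_range]
  · filter_upwards [hc] with n hn
    refine ⟨hn.1, hn.2, fun T hT => ?_⟩
    have key : prob (fun s : Fin (E n) → Bool =>
        T (bits n ((List.range n).map fun i => G n (cval (2 ^ E n) (List.ofFn s)) i))) =
        nr (2 ^ E n) (fun p => ind (T (out G n p))) := by
      rw [prob_eq_avg]
      unfold avg nr
      rw [Fintype.card_fun, Fintype.card_bool, Fintype.card_fin, ← g3_sum_seeds]
      congr 1
      refine Finset.sum_congr rfl fun s _ => ?_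
      suffices hb : bits n ((List.range n).map fun i => G n (cval (2 ^ E n) (List.ofFn s)) i) =
          out G n (bval (List.ofFn s)) by
        beta_reduce
        rw [hb]
      funext i
      have hs : (List.ofFn s).length = E n := List.length_ofFn
      have hcv : cval (2 ^ E n) (List.ofFn s) = bval (List.ofFn s) := by
        refine cval_eq _ _ ?_
        rw [hs]
        omega
      unfold bits out
      rw [hcv, List.getD_eq_getElem?_getD, List.getElem?_map, List.getElem?_range i.2]
      rfl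
    rw [key]
    exact H n T hT

end Pool.Agent.MP_ca1109_lc.Agp
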