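import Pool.Agent.MP_ca1109_lc.Agp.H1

/-!
# Chebyshev's inequality for the hash functions
-/

namespace Pool.Agent.MP_ca1109_lc.Agp

open Pool.Agent.MP_ca1109_lc.Mpg Finset

/- PROOF NOTES [AGP-H2].  `τ = T.card / 2^κ = nr (2^κ) (fun u => if u ∈ T then 1 else 0)` (`hT`), `μ = I.card * τ`.
Put `ξ i q = (if hs κ q i ∈ T then 1 else 0) - τ`.  For `i ≠ i'`: `nr (16^κ) (fun q => ξ i q * ξ i' q) = 0` by `hs_pair` with
`φ = ψ = fun u => (if u ∈ T then 1 else 0) - τ` (`nr (2^κ) φ = 0`); for `i = i'`: `nr (16^κ) (fun q => ξ i q ^ 2) = τ - τ^2 ≤ τ` by `hs_one`.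
`X q - μ = ∑ i ∈ I, ξ i q`, so `nr (16^κ) (fun q => (X q - μ)^2) ≤ I.card * τ = μ` (expand the square as a double sum, `nr_sum`).
The indicator of `¬ |X q - μ| < μ / 2` is at most `(X q - μ)^2 / (μ/2)^2`, so its average is at most `μ * 4 / μ^2 = 4 / μ`.
`good_sets`: `I = 𝒮.biUnion id`, `I.card = 𝒮.card * (j+1)` (`Finset.card_biUnion`), `T = range (2^(κ-t))`, `τ = 1 / 2^t`,
`μ = 𝒮.card * (j+1) / 2^t`, `X q = ∑ S ∈ 𝒮, x S q` with `x S q = (S.filter (hs κ q · < 2^(κ-t))).card`.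
Put `y S q = x S q * (x S q - 1)` (real).  Then `(if x S q = 1 then 1 else 0) ≥ x S q - y S q` (cases `x = 0, 1, ≥ 2`), so the
number of good sets is at least `X q - Y q`, `Y q = ∑ S ∈ 𝒮, y S q`.  `y S q = ∑ (i, i') ∈ S.offDiag, [hs κ q i ∈ T] [hs κ q i' ∈ T]`, so by
`hs_pair` `nr (16^κ) Y = 𝒮.card * (j+1) * j * τ^2 = μ * j * τ`.  Markov: the average of `[μ/4 ≤ Y q]` is at most `4 j τ`.
If `|X q - μ| < μ/2` and `Y q < μ/4` then the number of good sets is `> μ/4 ≥ 𝒮.card / (4 * 2^t)`.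
So the left side is at most `4/μ + 4 j τ ≤ 4 * 2^t / 𝒮.card + 4 j / 2^t`. -/

theorem h2_ind {κ : ℕ} (T : Finset ℕ) (hT : T ⊆ range (2 ^ κ)) :
    nr (2 ^ κ) (fun u => if u ∈ T then (1 : ℝ) else 0) = (T.card : ℝ) / 2 ^ κ := by
  unfold nr
  rw [← Finset.sum_filter, Finset.filter_mem_eq_inter, Finset.inter_eq_right.2 hT, Finset.sum_const,
    nsmul_eq_mul, mul_one]
  push_cast
  rfl

theorem h2_pairE {n κ : ℕ} (hn : n ≤ 2 ^ κ) (ξ : ℕ → ℝ) (i i' : Fin n) :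
    nr (16 ^ κ) (fun q => ξ (hs κ q i) * ξ (hs κ q i')) =
      if i' = i then nr (2 ^ κ) (fun u => ξ u * ξ u) else nr (2 ^ κ) ξ * nr (2 ^ κ) ξ := by
  split_ifs with h
  · subst h
    exact hs_one κ i' (fun u => ξ u * ξ u)
  · exact hs_pair (i.2.trans_le hn) (i'.2.trans_le hn) (fun h' => h (Fin.ext h'.symm)) ξ ξ

theorem h2_ite {n : ℕ} (S : Finset (Fin n)) (A B : ℝ) (i : Fin n) (hi : i ∈ S) :
    (∑ i' ∈ S, if i' = i then A else B) = S.card * B + (A - B) := by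
  have h3 : ∀ i' : Fin n, (if i' = i then A else B) = B + if i' = i then A - B else 0 := by
    intro i'
    split_ifs
    · ring
    · ring
  rw [Finset.sum_congr rfl fun i' _ => h3 i', Finset.sum_add_distrib, Finset.sum_const,
    Finset.sum_ite_eq', if_pos hi, nsmul_eq_mul]

theorem h2_sq {n κ : ℕ} (hn : n ≤ 2 ^ κ) (ξ : ℕ → ℝ) (S : Finset (Fin n)) :
    nr (16 ^ κ) (fun q => (∑ i ∈ S, ξ (hs κ q i)) ^ 2) =
      S.card * (S.card * (nr (2 ^ κ) ξ * nr (2 ^ κ) ξ) +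
        (nr (2 ^ κ) (fun u => ξ u * ξ u) - nr (2 ^ κ) ξ * nr (2 ^ κ) ξ)) := by
  have h1 : ∀ q, (∑ i ∈ S, ξ (hs κ q i)) ^ 2 =
      ∑ i ∈ S, ∑ i' ∈ S, ξ (hs κ q i) * ξ (hs κ q i') := fun q => by
    rw [sq, Finset.sum_mul_sum]
  rw [show (fun q => (∑ i ∈ S, ξ (hs κ q i)) ^ 2) =
    fun q => ∑ i ∈ S, ∑ i' ∈ S, ξ (hs κ q i) * ξ (hs κ q i') from funext h1, nr_sum]
  have h2 : ∀ i ∈ S, nr (16 ^ κ) (fun q => ∑ i' ∈ S, ξ (hs κ q i) * ξ (hs κ q i')) =
      S.card * (nr (2 ^ κ) ξ * nr (2 ^ κ) ξ) +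
        (nr (2 ^ κ) (fun u => ξ u * ξ u) - nr (2 ^ κ) ξ * nr (2 ^ κ) ξ) := by
    intro i hi
    rw [nr_sum, Finset.sum_congr rfl fun i' _ => h2_pairE hn ξ i i']
    exact h2_ite S _ _ i hi
  rw [Finset.sum_congr rfl h2, Finset.sum_const, nsmul_eq_mul]

theorem h2_card {n κ : ℕ} (q : ℕ) (T : Finset ℕ) (S : Finset (Fin n)) :
    ((S.filter fun i : Fin n => hs κ q i ∈ T).card : ℝ) =
      ∑ i ∈ S, if hs κ q i ∈ T then (1 : ℝ) else 0 := by
  rw [Finset.card_filter]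
  push_cast
  rfl

theorem h2_mul_self {κ : ℕ} (T : Finset ℕ) (hT : T ⊆ range (2 ^ κ)) :
    nr (2 ^ κ) (fun u => (if u ∈ T then (1 : ℝ) else 0) * (if u ∈ T then (1 : ℝ) else 0)) =
      (T.card : ℝ) / 2 ^ κ := by
  rw [← h2_ind T hT]
  refine nr_congr fun u _ => ?_
  split_ifs
  · rw [mul_one]
  · rw [mul_zero]

theorem h2_mean {κ : ℕ} (T : Finset ℕ) (hT : T ⊆ range (2 ^ κ)) :
    nr (2 ^ κ) (fun u => (if u ∈ T then (1 : ℝ) else 0) - (T.card : ℝ) / 2 ^ κ) = 0 := by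
  rw [nr_sub, h2_ind T hT, nr_const (by positivity), sub_self]

theorem h2_var {κ : ℕ} (T : Finset ℕ) (hT : T ⊆ range (2 ^ κ)) :
    nr (2 ^ κ) (fun u => ((if u ∈ T then (1 : ℝ) else 0) - (T.card : ℝ) / 2 ^ κ) *
      ((if u ∈ T then (1 : ℝ) else 0) - (T.card : ℝ) / 2 ^ κ)) ≤ (T.card : ℝ) / 2 ^ κ := by
  have h0 : 0 < 2 ^ κ := by positivity
  set τ := (T.card : ℝ) / 2 ^ κ with hτ
  have h1 : nr (2 ^ κ) (fun u => ((if u ∈ T then (1 : ℝ) else 0) - τ) *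
      ((if u ∈ T then (1 : ℝ) else 0) - τ)) =
      nr (2 ^ κ) (fun u => (1 - 2 * τ) * (if u ∈ T then (1 : ℝ) else 0) + τ ^ 2) := by
    refine nr_congr fun u _ => ?_
    split_ifs
    · ring
    · ring
  rw [h1, nr_add, nr_mul_left, nr_const h0, h2_ind T hT, ← hτ]
  nlinarith [sq_nonneg τ]

theorem h2_second {n κ : ℕ} (hn : n ≤ 2 ^ κ) (T : Finset ℕ) (hT : T ⊆ range (2 ^ κ))
    (I : Finset (Fin n)) {μ : ℝ} (hμ : μ = (I.card : ℝ) * T.card / 2 ^ κ) :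
    nr (16 ^ κ) (fun q => (((I.filter fun i : Fin n => hs κ q i ∈ T).card : ℝ) - μ) ^ 2) ≤ μ := by
  have h1 : ∀ q, ((I.filter fun i : Fin n => hs κ q i ∈ T).card : ℝ) - μ =
      ∑ i ∈ I, ((if hs κ q i ∈ T then (1 : ℝ) else 0) - (T.card : ℝ) / 2 ^ κ) := by
    intro q
    rw [h2_card, Finset.sum_sub_distrib, Finset.sum_const, nsmul_eq_mul, hμ, mul_div_assoc]
  have h2 := h2_sq hn (fun u => (if u ∈ T then (1 : ℝ) else 0) - (T.card : ℝ) / 2 ^ κ) I
  beta_reduce at h2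
  rw [h2_mean T hT, mul_zero, mul_zero, zero_add, sub_zero] at h2
  rw [show (fun q => (((I.filter fun i : Fin n => hs κ q i ∈ T).card : ℝ) - μ) ^ 2) =
    fun q => (∑ i ∈ I, ((if hs κ q i ∈ T then (1 : ℝ) else 0) - (T.card : ℝ) / 2 ^ κ)) ^ 2 from
    funext fun q => by rw [h1 q], h2, hμ, mul_div_assoc]
  exact mul_le_mul_of_nonneg_left (h2_var T hT) (Nat.cast_nonneg _)

theorem h2_x (x : ℕ) : (x : ℝ) - ((x : ℝ) ^ 2 - x) ≤ if x = 1 then 1 else 0 := by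
  split_ifs with h
  · subst h
    norm_num
  · rcases Nat.lt_or_ge x 2 with h1 | h1
    · have h2 : x = 0 := by omega
      subst h2
      norm_num
    · have h2 : (2 : ℝ) ≤ x := by exact_mod_cast h1
      nlinarith

theorem h2_x0 (x : ℕ) : 0 ≤ (x : ℝ) ^ 2 - x := by
  rcases Nat.eq_zero_or_pos x with h | h
  · subst h
    norm_num
  · have h2 : (1 : ℝ) ≤ x := by exact_mod_cast h
    nlinarith

theorem hs_dev {n κ : ℕ} (hn : n ≤ 2 ^ κ) (T : Finset ℕ) (hT : T ⊆ range (2 ^ κ))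
    (I : Finset (Fin n)) {μ : ℝ} (hμ : μ = (I.card : ℝ) * T.card / 2 ^ κ) (h0 : 0 < μ) :
    nr (16 ^ κ) (fun q => if |((I.filter fun i : Fin n => hs κ q i ∈ T).card : ℝ) - μ| < μ / 2 then 0
      else 1) ≤ 4 / μ := by
  have h1 : ∀ q < 16 ^ κ,
      (if |((I.filter fun i : Fin n => hs κ q i ∈ T).card : ℝ) - μ| < μ / 2 then (0 : ℝ) else 1) ≤
        4 / μ ^ 2 * (((I.filter fun i : Fin n => hs κ q i ∈ T).card : ℝ) - μ) ^ 2 := by
    intro q _
    split_ifs with h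
    · positivity
    · rw [not_lt] at h
      have h2 : (μ / 2) ^ 2 ≤ (((I.filter fun i : Fin n => hs κ q i ∈ T).card : ℝ) - μ) ^ 2 := by
        rw [← sq_abs (((I.filter fun i : Fin n => hs κ q i ∈ T).card : ℝ) - μ)]
        exact pow_le_pow_left₀ (by positivity) h 2
      have h3 : (1 : ℝ) = 4 / μ ^ 2 * (μ / 2) ^ 2 := by
        field_simp
        norm_num
      calc (1 : ℝ) = 4 / μ ^ 2 * (μ / 2) ^ 2 := h3
        _ ≤ _ := mul_le_mul_of_nonneg_left h2 (by positivity)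
  refine (nr_mono h1).trans ?_
  rw [nr_mul_left]
  calc 4 / μ ^ 2 * nr (16 ^ κ) (fun q =>
        (((I.filter fun i : Fin n => hs κ q i ∈ T).card : ℝ) - μ) ^ 2) ≤ 4 / μ ^ 2 * μ :=
        mul_le_mul_of_nonneg_left (h2_second hn T hT I hμ) (by positivity)
    _ = 4 / μ := by field_simp

theorem good_sets {n κ j t : ℕ} (hn : n ≤ 2 ^ κ) (ht : t ≤ κ) (𝒮 : Finset (Finset (Fin n)))
    (hd : (𝒮 : Set (Finset (Fin n))).PairwiseDisjoint id) (hS : ∀ S ∈ 𝒮, S.card = j + 1)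
    (h0 : 0 < 𝒮.card) :
    nr (16 ^ κ) (fun q => if (𝒮.card : ℝ) / (4 * 2 ^ t) ≤
      ((𝒮.filter fun S => (S.filter fun i : Fin n => hs κ q i < 2 ^ (κ - t)).card = 1).card : ℝ)
      then 0 else 1) ≤ 4 * 2 ^ t / 𝒮.card + 4 * j / 2 ^ t := by
  classical
  set T := range (2 ^ (κ - t)) with hTdef
  have hT : T ⊆ range (2 ^ κ) :=
    Finset.range_subset_range.2 (Nat.pow_le_pow_right (by norm_num) (Nat.sub_le κ t))
  have hτ : (T.card : ℝ) / 2 ^ κ = 1 / 2 ^ t := by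
    rw [hTdef, Finset.card_range]
    have h1 : (2 : ℝ) ^ κ = 2 ^ (κ - t) * 2 ^ t := by
      rw [← pow_add, Nat.sub_add_cancel ht]
    rw [h1]
    push_cast
    have h2 : (2 : ℝ) ^ (κ - t) ≠ 0 := by positivity
    field_simp
  set I : Finset (Fin n) := 𝒮.biUnion id with hI
  have hIc : (I.card : ℝ) = 𝒮.card * (j + 1) := by
    rw [hI, Finset.card_biUnion hd]
    push_cast
    rw [Finset.sum_congr rfl fun S hS' => show (((id S).card : ℕ) : ℝ) = (j : ℝ) + 1 by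
      rw [id, hS S hS']; push_cast; rfl, Finset.sum_const, nsmul_eq_mul]
  have hs0 : (0 : ℝ) < 𝒮.card := by exact_mod_cast h0
  set μ : ℝ := (I.card : ℝ) * T.card / 2 ^ κ with hμ
  have hμ' : μ = 𝒮.card * (j + 1) / 2 ^ t := by
    rw [hμ, mul_div_assoc, hτ, hIc]
    ring
  have hμ0 : 0 < μ := by
    rw [hμ']
    positivity
  -- the counts
  have hx : ∀ q (S : Finset (Fin n)),
      ((S.filter fun i : Fin n => hs κ q i < 2 ^ (κ - t)).card : ℝ) =
        ∑ i ∈ S, if hs κ q i ∈ T then (1 : ℝ) else 0 := by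
    intro q S
    rw [← h2_card]
    congr 2
    refine Finset.filter_congr fun i _ => ?_
    rw [hTdef, Finset.mem_range]
  have hX : ∀ q, ((I.filter fun i : Fin n => hs κ q i ∈ T).card : ℝ) =
      ∑ S ∈ 𝒮, ((S.filter fun i : Fin n => hs κ q i < 2 ^ (κ - t)).card : ℝ) := by
    intro q
    rw [h2_card, hI, Finset.sum_biUnion hd]
    exact Finset.sum_congr rfl fun S _ => (hx q S).symm
  set Y : ℕ → ℝ := fun q => ∑ S ∈ 𝒮,
    (((S.filter fun i : Fin n => hs κ q i < 2 ^ (κ - t)).card : ℝ) ^ 2 -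
      ((S.filter fun i : Fin n => hs κ q i < 2 ^ (κ - t)).card : ℝ)) with hY
  have hY0 : ∀ q, 0 ≤ Y q := fun q => Finset.sum_nonneg fun S _ => h2_x0 _
  have hEY : nr (16 ^ κ) Y = 𝒮.card * ((j + 1) * j * (1 / 2 ^ t) ^ 2) := by
    rw [hY, nr_sum]
    have h1 : ∀ S ∈ 𝒮, nr (16 ^ κ) (fun q =>
        ((S.filter fun i : Fin n => hs κ q i < 2 ^ (κ - t)).card : ℝ) ^ 2 -
          ((S.filter fun i : Fin n => hs κ q i < 2 ^ (κ - t)).card : ℝ)) =
        (j + 1) * j * (1 / 2 ^ t) ^ 2 := by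
      intro S hS'
      rw [show (fun q => ((S.filter fun i : Fin n => hs κ q i < 2 ^ (κ - t)).card : ℝ) ^ 2 -
          ((S.filter fun i : Fin n => hs κ q i < 2 ^ (κ - t)).card : ℝ)) =
        fun q => (∑ i ∈ S, if hs κ q i ∈ T then (1 : ℝ) else 0) ^ 2 -
          ∑ i ∈ S, (if hs κ q i ∈ T then (1 : ℝ) else 0) from funext fun q => by rw [hx q S],
        nr_sub, nr_sum]
      have h2 := h2_sq hn (fun u => if u ∈ T then (1 : ℝ) else 0) S
      beta_reduce at h2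
      rw [h2, h2_ind T hT, h2_mul_self T hT, hτ]
      have h3 : ∀ i ∈ S, nr (16 ^ κ) (fun q => if hs κ q i ∈ T then (1 : ℝ) else 0) = 1 / 2 ^ t := by
        intro i _
        rw [← hτ, ← h2_ind T hT]
        exact hs_one κ i (fun u => if u ∈ T then (1 : ℝ) else 0)
      rw [Finset.sum_congr rfl h3, Finset.sum_const, nsmul_eq_mul, hS S hS']
      push_cast
      ring
    rw [Finset.sum_congr rfl h1, Finset.sum_const, nsmul_eq_mul]
  -- pointwise
  have hpt : ∀ q < 16 ^ κ, (if (𝒮.card : ℝ) / (4 * 2 ^ t) ≤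
      ((𝒮.filter fun S => (S.filter fun i : Fin n => hs κ q i < 2 ^ (κ - t)).card = 1).card : ℝ)
      then (0 : ℝ) else 1) ≤
      (if |((I.filter fun i : Fin n => hs κ q i ∈ T).card : ℝ) - μ| < μ / 2 then 0 else 1) +
        4 / μ * Y q := by
    intro q _
    have hYq := hY0 q
    by_cases h1 : |((I.filter fun i : Fin n => hs κ q i ∈ T).card : ℝ) - μ| < μ / 2
    · by_cases h2 : Y q < μ / 4
      · rw [if_pos]
        · rw [if_pos h1]
          positivity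
        · have h3 : ((I.filter fun i : Fin n => hs κ q i ∈ T).card : ℝ) - Y q ≤
              ((𝒮.filter fun S =>
                (S.filter fun i : Fin n => hs κ q i < 2 ^ (κ - t)).card = 1).card : ℝ) := by
            rw [hX q, hY, ← Finset.sum_sub_distrib, Finset.card_filter]
            push_cast
            exact Finset.sum_le_sum fun S _ => h2_x _
          have h4 := (abs_lt.1 h1).1
          have h5 : (𝒮.card : ℝ) / (4 * 2 ^ t) ≤ μ / 4 := by
            rw [hμ', div_div, mul_comm (4 : ℝ)]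
            refine div_le_div_of_nonneg_right ?_ (by positivity)
            nlinarith [(Nat.cast_nonneg j : (0 : ℝ) ≤ j)]
          linarith
      · rw [not_lt] at h2
        have h3 : (1 : ℝ) ≤ 4 / μ * Y q := by
          calc (1 : ℝ) = 4 / μ * (μ / 4) := by field_simp
            _ ≤ 4 / μ * Y q := mul_le_mul_of_nonneg_left h2 (by positivity)
        rw [if_pos h1]
        split_ifs
        · positivity
        · linarith
    · rw [if_neg h1]
      have h3 : 0 ≤ 4 / μ * Y q := by positivity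
      split_ifs
      · linarith
      · linarith
  refine (nr_mono hpt).trans ?_
  rw [nr_add, nr_mul_left, hEY]
  have h6 := hs_dev hn T hT I hμ hμ0
  have h7 : 4 / μ ≤ 4 * 2 ^ t / 𝒮.card := by
    rw [hμ', div_div_eq_mul_div]
    refine div_le_div_of_nonneg_left (by positivity) hs0 ?_
    nlinarith [(Nat.cast_nonneg j : (0 : ℝ) ≤ j)]
  have h8 : 4 / μ * (𝒮.card * ((j + 1) * j * (1 / 2 ^ t) ^ 2)) = 4 * j / 2 ^ t := by
    rw [hμ']
    have h9 : (j : ℝ) + 1 ≠ 0 := by positivity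
    field_simp
  rw [h8]
  linarith

end Pool.Agent.MP_ca1109_lc.Agp
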