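import Pool.Agent.MP_ca1109_lc.Agp.B1
import Pool.Agent.MP_ca1109_lc.Agp.B2
import Pool.Agent.MP_ca1109_lc.Agp.C4
import Pool.Agent.MP_ca1109_lc.Agp.H2
import Pool.Agent.MP_ca1109_lc.Agp.G2
import Pool.Agent.MP_ca1109_lc.Agp.G3

/-!
# Generators which spread wide linear forms
-/

namespace Pool.Agent.MP_ca1109_lc.Agp

open Pool.Agent.MP_ca1109_lc.Mpg Finset

theorem scale_average (v : ℕ) (E : ℕ → ℕ) (G : ℕ → ℕ → ℕ → Bool) (n : ℕ)
    (f : (Fin n → Bool) → ℂ) :
    na (2 ^ (4 * Nat.clog 2 n + (E n + E n + 3 * (v * Nat.clog 2 n))))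
      (fun p => f (out (scaleG v E G) n p)) =
      na (16 ^ Nat.clog 2 n) (fun q => na (2 ^ E n * 2 ^ E n * 8 ^ (v * Nat.clog 2 n))
        (fun s => f (fun i : Fin n =>
          G n (pos (2 ^ E n) v (scl (hs (Nat.clog 2 n) q i)) (s / 8 ^ (v * Nat.clog 2 n))
            (s % 8 ^ (v * Nat.clog 2 n)) % 2 ^ E n) i))) := by
  have h1 : 2 ^ (4 * Nat.clog 2 n + (E n + E n + 3 * (v * Nat.clog 2 n))) =
      16 ^ Nat.clog 2 n * (2 ^ E n * 2 ^ E n * 8 ^ (v * Nat.clog 2 n)) := by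
    rw [pow_add, pow_add, pow_add, pow_mul 2 4, pow_mul 2 3]
    norm_num
  rw [h1]
  exact na_mul (16 ^ Nat.clog 2 n) (B := 2 ^ E n * 2 ^ E n * 8 ^ (v * Nat.clog 2 n))
    (by positivity) (fun q s => f (fun i : Fin n =>
          G n (pos (2 ^ E n) v (scl (hs (Nat.clog 2 n) q i)) (s / 8 ^ (v * Nat.clog 2 n))
            (s % 8 ^ (v * Nat.clog 2 n)) % 2 ^ E n) i))

/-- The number of coordinates of a scale. -/
theorem scale_count {n l K : ℕ} (hl1 : 1 ≤ l) (hl2 : l ≤ Nat.clog 2 n) (I : Finset (Fin n))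
    (h1 : K * 2 ^ Nat.clog 2 n ≤ I.card * 2 ^ (l - 1))
    (h2 : I.card * 2 ^ (l - 1) < 2 * K * 2 ^ Nat.clog 2 n) (hK : 0 < K) :
    nr (16 ^ Nat.clog 2 n) (fun q =>
      if K ≤ 2 * (I.filter fun i : Fin n => scl (hs (Nat.clog 2 n) q i) = l).card ∧
        (I.filter fun i : Fin n => scl (hs (Nat.clog 2 n) q i) = l).card ≤ 3 * K then 0 else 1) ≤
      4 / (K : ℝ) := by
  classical
  set κ := Nat.clog 2 n with hκ
  have hn : n ≤ 2 ^ κ := Nat.le_pow_clog one_lt_two n
  set T : Finset ℕ := (range (2 ^ κ)).filter fun u => scl u = l with hT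
  have hcard : T.card = 2 ^ (l - 1) := card_scl hl1 hl2
  have h2κ : (0 : ℝ) < 2 ^ κ := by positivity
  set μ : ℝ := (I.card : ℝ) * T.card / 2 ^ κ with hμ
  have hK' : (0 : ℝ) < K := by exact_mod_cast hK
  have hμ1 : (K : ℝ) ≤ μ := by
    rw [hμ, hcard, le_div_iff₀ h2κ]
    exact_mod_cast h1
  have hμ2 : μ < 2 * K := by
    rw [hμ, hcard, div_lt_iff₀ h2κ]
    exact_mod_cast h2
  have h := hs_dev hn T (Finset.filter_subset _ _) I hμ (by linarith)
  have h3 : 4 / μ ≤ 4 / (K : ℝ) := div_le_div_of_nonneg_left (by norm_num) hK' hμ1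
  refine le_trans (nr_mono fun q _ => ?_) (h.trans h3)
  have hfil : (I.filter fun i : Fin n => hs κ q i ∈ T) =
      I.filter fun i : Fin n => scl (hs κ q i) = l := by
    ext i
    simp only [hT, Finset.mem_filter, Finset.mem_range]
    exact ⟨fun h => ⟨h.1, h.2.2⟩, fun h => ⟨h.1, hs_lt _ _ _, h.2⟩⟩
  rw [hfil]
  by_cases hc : |((I.filter fun i : Fin n => scl (hs κ q i) = l).card : ℝ) - μ| < μ / 2
  · rw [if_pos hc, if_pos]
    obtain ⟨h5, h6⟩ := abs_lt.1 hc
    constructor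
    · have : (K : ℝ) ≤ 2 * ((I.filter fun i : Fin n => scl (hs κ q i) = l).card : ℝ) := by
        linarith
      exact_mod_cast this
    · have : ((I.filter fun i : Fin n => scl (hs κ q i) = l).card : ℝ) ≤ 3 * K := by linarith
      exact_mod_cast this
  · rw [if_neg hc]
    split_ifs <;> norm_num

theorem ls_zero (m : ℕ) [NeZero m] : LS m 0 := by
  classical
  intro ε hε
  obtain ⟨R, K₀, hRK⟩ := uniform_spread (ε / 4) (by positivity)
  obtain ⟨K', hK'⟩ := exists_nat_ge (16 / ε)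
  set K := 2 * K₀ + K' + 2 with hK
  have hfac : NeZero R.factorial := ⟨R.factorial_ne_zero⟩
  set δ : ℝ := ε / 4 / 2 ^ (3 * K) with hδ
  have hδ0 : 0 < δ := by positivity
  obtain ⟨E, G, hG, H⟩ := exists_ng (gen_phase (2 * R.factorial) 1 finTwoEquiv hδ0)
  obtain ⟨v, hv⟩ := exists_pow_lt_of_lt_one (show (0 : ℝ) < ε / 8 by positivity)
    (show (73 / 80 : ℝ) < 1 by norm_num)
  refine ⟨2 * K, R.factorial, R.factorial_pos, _, _, NG.scale v hG, fun n Γ _ _ α I hI hα u hu => ?_⟩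
  set κ := Nat.clog 2 n with hκ
  set I' := univ.filter fun i : Fin n => R.factorial • α i ≠ 0 with hI'
  have hII' : I ⊆ I' := fun i hi => Finset.mem_filter.2 ⟨Finset.mem_univ _, hα i hi⟩
  have hcard1 : 2 * K ≤ I'.card := hI.trans (Finset.card_le_card hII')
  have hcard2 : I'.card ≤ 2 ^ κ := by
    refine (Finset.card_le_univ _).trans ?_
    rw [Fintype.card_fin]
    exact Nat.le_pow_clog one_lt_two n
  obtain ⟨l, hl1, hl2, hl3, hl4⟩ := choose_scale (by omega) hcard1 hcard2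
  have hcount := scale_count hl1 hl2 I' hl3 hl4 (by omega)
  -- the strings
  set X : ℕ → ℕ → Fin n → Bool := fun q s i =>
    G n (pos (2 ^ E n) v (scl (hs κ q i)) (s / 8 ^ (v * κ)) (s % 8 ^ (v * κ)) % 2 ^ E n) i with hX
  set W := 2 ^ E n * 2 ^ E n * 8 ^ (v * κ) with hW
  have hW0 : 0 < W := by positivity
  have hbound1 : ∀ (χ : AddChar Γ ℂ) (q : ℕ), ‖na W (fun s => χ (lin α (X q s)))‖ ≤ 1 :=
    fun χ q => norm_na_le_of hW0 fun s _ => by rw [AddChar.norm_apply]
  have hgoodq : ∀ q, (K ≤ 2 * (I'.filter fun i : Fin n => scl (hs κ q i) = l).card ∧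
      (I'.filter fun i : Fin n => scl (hs κ q i) = l).card ≤ 3 * K) →
      avg (fun χ : AddChar Γ ℂ => ‖na W (fun s => χ (lin α (X q s)))‖) ≤ ε / 4 + ε / 4 + ε / 4 := by
    intro q hq
    set J := I'.filter fun i : Fin n => scl (hs κ q i) = l with hJ
    set β : Fin n → Γ := fun i => if scl (hs κ q i) = l then α i else 0 with hβ
    have hβJ : ∀ i ∈ J, β i = α i := by
      intro i hi
      simp only [hβ, (Finset.mem_filter.1 hi).2, if_true]
    have hβ0 : ∀ i, i ∉ J → R.factorial • β i = 0 := by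
      intro i hi
      by_cases hc : scl (hs κ q i) = l
      · simp only [hβ, hc, if_true]
        by_contra hne
        exact hi (Finset.mem_filter.2 ⟨Finset.mem_filter.2 ⟨Finset.mem_univ _, hne⟩, hc⟩)
      · simp only [hβ, hc, if_false, smul_zero]
    have e1 : ∀ χ : AddChar Γ ℂ, ‖na W (fun s => χ (lin α (X q s)))‖ ≤
        (∏ i ∈ J, ‖1 + χ (β i)‖ / 2 + ε / 4) + ε / 4 := by
      intro χ
      refine (scale_bound v E G n q α χ hl2).trans ?_
      have e2 := lin_fool (m := R.factorial) (out G n) (H n) β J hβ0 χ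
      have e3 : (2 : ℝ) ^ J.card * δ ≤ ε / 4 := by
        rw [hδ, mul_div_assoc', div_le_iff₀ (by positivity), mul_comm]
        refine mul_le_mul_of_nonneg_left ?_ (by positivity)
        exact pow_le_pow_right₀ (by norm_num) hq.2
      linarith
    refine (avg_mono e1).trans ?_
    rw [avg_add, avg_add, avg_const]
    have e4 : avg (fun χ : AddChar Γ ℂ => ∏ i ∈ J, ‖1 + χ (β i)‖ / 2) ≤ ε / 4 := by
      refine hRK Γ n J β (fun i hi => ?_) (by omega)
      rw [hβJ i hi]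
      exact (Finset.mem_filter.1 (Finset.mem_filter.1 hi).1).2
    linarith
  have hsplit : ∀ χ : AddChar Γ ℂ,
      ‖na (2 ^ (4 * Nat.clog 2 n + (E n + E n + 3 * (v * Nat.clog 2 n)))) (fun p =>
        u χ (out (scaleG v E G) n p) * χ (lin α (out (scaleG v E G) n p)))‖ ≤
      nr (16 ^ κ) (fun q => ‖na W (fun s => χ (lin α (X q s)))‖) := by
    intro χ
    obtain ⟨P, hP, hPu⟩ := hu χ
    have hconst : ∀ x, u χ x = u χ (fun _ => false) := by
      intro x
      rw [hPu]
      simp only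
      rw [lowDeg_zero hP x (fun _ => false)]
    have e5 : ∀ p, u χ (out (scaleG v E G) n p) * χ (lin α (out (scaleG v E G) n p)) =
        u χ (fun _ => false) * χ (lin α (out (scaleG v E G) n p)) := fun p => by rw [hconst]
    rw [na_congr fun p _ => e5 p, na_mul_left, norm_mul, tw_norm (hu χ), one_mul,
      scale_average v E G n (fun x => χ (lin α x))]
    exact norm_na_le _ _
  refine (avg_mono hsplit).trans ?_
  rw [avg_nr]
  have hfin : ∀ q, avg (fun χ : AddChar Γ ℂ => ‖na W (fun s => χ (lin α (X q s)))‖) ≤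
      (ε / 4 + ε / 4 + ε / 4) +
        if K ≤ 2 * (I'.filter fun i : Fin n => scl (hs κ q i) = l).card ∧
          (I'.filter fun i : Fin n => scl (hs κ q i) = l).card ≤ 3 * K then 0 else 1 := by
    intro q
    split_ifs with hc
    · rw [add_zero]
      exact hgoodq q hc
    · have : avg (fun χ : AddChar Γ ℂ => ‖na W (fun s => χ (lin α (X q s)))‖) ≤ 1 :=
        avg_le fun χ => hbound1 χ q
      linarith
  refine (nr_mono fun q _ => hfin q).trans ?_
  rw [nr_add, nr_const (by positivity)]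
  have hKr : 4 / (K : ℝ) ≤ ε / 4 := by
    have : (K' : ℝ) ≤ K := by
      rw [hK]
      push_cast
      have : (0 : ℝ) ≤ K₀ := Nat.cast_nonneg _
      linarith
    have hK0 : (0 : ℝ) < K := by
      have : 0 < K := by omega
      exact_mod_cast this
    rw [div_le_iff₀ hε] at hK'
    rw [div_le_iff₀ hK0]
    nlinarith
  linarith

end Pool.Agent.MP_ca1109_lc.Agp
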