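import Mathlib

/-!
# Large symmetric sets generate quickly
-/

namespace Pool.Agent.MP_ca1109_lc.Agp

open Finset

/- PROOF NOTES [AGP-C2].  `H = Subgroup.closure B`.  Every `x ∈ H` is a product of a list over `B`
(`Subgroup.exists_list_of_mem_closure`, with `hinv`; or `Subgroup.closure_induction`).  Take such a list `l` of minimal length `L`
(`Nat.find` / strong induction on the length).  Claim: `L < 3 * R + 3`.  Otherwise consider the `R + 1` prefixes
`w i = (l.take (3 * i)).prod`, `i ≤ R`.  If the translates `w i • B` (`B.image (w i * ·)`, `i ∈ range (R + 1)`) were pairwise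
disjoint, then `(R + 1) * B.card ≤ Fintype.card G` (`Finset.card_biUnion`, `card_image_of_injective`), a contradiction.
So there are `i < j ≤ R` and `b, b' ∈ B` with `w i * b = w j * b'`, i.e. `w j = w i * b * b'⁻¹`; then the list
`l.take (3 * i) ++ [b, b'⁻¹] ++ l.drop (3 * j)` over `B` has the product `x` and length `L - 3 (j - i) + 2 < L`. -/

theorem growth_closure {G : Type*} [CommGroup G] [Fintype G] [DecidableEq G] (B : Finset G)
    (hinv : ∀ b ∈ B, b⁻¹ ∈ B) (R : ℕ) (hR : Fintype.card G < (R + 1) * B.card) :
    ∃ H : Subgroup G, (∀ b ∈ B, b ∈ H) ∧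
      ∀ x ∈ H, ∃ l : List G, l.length ≤ 3 * R + 3 ∧ (∀ b ∈ l, b ∈ B) ∧ l.prod = x := by
  classical
  refine ⟨Subgroup.closure (B : Set G), fun b hb => Subgroup.subset_closure hb, fun x hx => ?_⟩
  have hex : ∃ k : ℕ, ∃ l : List G, l.length = k ∧ (∀ b ∈ l, b ∈ B) ∧ l.prod = x := by
    induction hx using Subgroup.closure_induction with
    | mem x hx =>
      exact ⟨_, [x], rfl, fun b hb => by rw [List.mem_singleton.1 hb]; exact hx,
        List.prod_singleton⟩
    | one => exact ⟨_, [], rfl, fun b hb => absurd hb List.not_mem_nil, List.prod_nil⟩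
    | mul x y _ _ h1 h2 =>
      obtain ⟨_, l, -, h1, h1'⟩ := h1
      obtain ⟨_, l', -, h2, h2'⟩ := h2
      refine ⟨_, l ++ l', rfl, fun b hb => ?_, by rw [List.prod_append, h1', h2']⟩
      rcases List.mem_append.1 hb with hb | hb
      · exact h1 b hb
      · exact h2 b hb
    | inv x _ h1 =>
      obtain ⟨_, l, -, h1, h1'⟩ := h1
      refine ⟨_, (l.map fun b => b⁻¹), rfl, fun b hb => ?_, ?_⟩
      · obtain ⟨c, hc, rfl⟩ := List.mem_map.1 hb
        exact hinv _ (h1 c hc)
      · rw [← h1', ← List.prod_inv]
  obtain ⟨l, hl, hB, hp⟩ := Nat.find_spec hex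
  refine ⟨l, ?_, hB, hp⟩
  by_contra hlong
  push Not at hlong
  have key : ∀ i j : ℕ, i < j → j ≤ R → ∀ b ∈ B, ∀ b' ∈ B,
      (l.take (3 * i)).prod * b = (l.take (3 * j)).prod * b' → False := by
    intro i j hij hj b hb b' hb' h
    have h1 : Nat.find hex ≤ (l.take (3 * i) ++ ([b, b'⁻¹] ++ l.drop (3 * j))).length := by
      refine Nat.find_min' hex ⟨_, rfl, ?_, ?_⟩
      · intro c hc
        rw [List.mem_append, List.mem_append] at hc
        rcases hc with hc | hc | hc
        · exact hB c (List.mem_of_mem_take hc)
        · rw [List.mem_cons, List.mem_singleton] at hc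
          rcases hc with rfl | rfl
          · exact hb
          · exact hinv _ hb'
        · exact hB c (List.mem_of_mem_drop hc)
      · rw [List.prod_append, List.prod_append, List.prod_cons, List.prod_singleton]
        have h2 : (l.take (3 * i)).prod * (b * b'⁻¹ * (l.drop (3 * j)).prod) =
            (l.take (3 * i)).prod * b * b'⁻¹ * (l.drop (3 * j)).prod := by
          simp only [mul_assoc]
        rw [h2, h, mul_inv_cancel_right, List.prod_take_mul_prod_drop, hp]
    rw [List.length_append, List.length_append, List.length_take, List.length_drop,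
      List.length_cons, List.length_singleton] at h1
    omega
  have hnd : ¬ (Set.PairwiseDisjoint (↑(Finset.range (R + 1)) : Set ℕ)
      (fun i => B.image fun b => (l.take (3 * i)).prod * b)) := by
    intro h
    have h1 := Finset.card_biUnion h
    have h2 : ∀ i ∈ Finset.range (R + 1),
        (B.image fun b => (l.take (3 * i)).prod * b).card = B.card :=
      fun i _ => Finset.card_image_of_injective _ (mul_right_injective _)
    rw [Finset.sum_congr rfl h2, Finset.sum_const, Finset.card_range, smul_eq_mul] at h1
    have h3 := Finset.card_le_univ ((Finset.range (R + 1)).biUnion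
      (fun i => B.image fun b => (l.take (3 * i)).prod * b))
    rw [h1] at h3
    exact absurd h3 (not_le.2 hR)
  apply hnd
  intro i hi j hj hij
  have hi' := Finset.mem_range.1 (Finset.mem_coe.1 hi)
  have hj' := Finset.mem_range.1 (Finset.mem_coe.1 hj)
  rw [Function.onFun, Finset.disjoint_left]
  intro c hc hc'
  obtain ⟨b, hb, rfl⟩ := Finset.mem_image.1 hc
  obtain ⟨b', hb', h⟩ := Finset.mem_image.1 hc'
  rcases lt_or_gt_of_ne hij with hlt | hlt
  · exact key i j hlt (by omega) b hb b' hb' h.symm
  · exact key j i hlt (by omega) b' hb' b hb h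

end Pool.Agent.MP_ca1109_lc.Agp
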