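import Pool.Agent.MP_ca1109_lc.Agp.N1
import Pool.Agent.MP_ca1109_lc.Agp.C2

/-!
# Many characters which are close to one on many elements
-/

namespace Pool.Agent.MP_ca1109_lc.Agp

open Pool.Agent.MP_ca1109_lc.Mpg Finset

/- PROOF NOTES [AGP-C3].  Put `N χ = √(∑ i ∈ s, ‖1 - χ (α i)‖ ^ 2)` and `B = {χ | N χ ^ 2 < C}`.
(1) `N (χ * ψ) ≤ N χ + N ψ`: `‖1 - χ z * ψ z‖ ≤ ‖1 - χ z‖ + ‖1 - ψ z‖` (as `1 - a b = (1 - a) + a (1 - b)`, `‖χ z‖ = 1`:
`AddChar.norm_apply`), and the triangle inequality for the Euclidean norm (`EuclideanSpace` norm, or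
`Real.Lp_add_le`, or Minkowski `Real.Lp_add_le_of_nonneg` with `p = 2`, or prove
`∑ (x + y)^2 ≤ (√∑x² + √∑y²)²` from `Finset.inner_mul_le_norm_mul_norm`/`Real.sum_mul_le_sqrt_mul_sqrt`).
(2) `N χ⁻¹ = N χ` (`χ⁻¹ z = conj (χ z)`: `AddChar.inv_apply_eq_conj`), so `B` is closed under inverses.
By `growth_closure` (with `G = AddChar Γ ℂ`, `card = card Γ`: `AddChar.card_eq`; `hB` cast to `ℕ`) there is a subgroup
`H ⊇ B` all of whose elements are products of at most `3 R + 3` elements of `B`, so `N χ ^ 2 ≤ (3 R + 3) ^ 2 * C` on `H`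
(induction on the list: `N l.prod ≤ l.length * √C`, `N 1 = 0`).
(3) Let `r = H.index`; `r * card H = card Γ` (`Subgroup.card_mul_index`) and `card H ≥ card B`, so
`r < R + 1` and `1 ≤ r`, hence `r ∣ R.factorial` (`Nat.dvd_factorial`).  `χ ^ r ∈ H` for all `χ`
(`Subgroup.pow_index_mem`, `H` is normal).  If `χ (α i) = 1` for all `χ ∈ H`, then `χ (r • α i) = (χ ^ r) (α i) = 1` for all
`χ` (`AddChar.pow_apply`, `AddChar.map_nsmul_eq_pow`), so `r • α i = 0` (`AddChar.exists_apply_ne_zero` /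
`AddChar.forall_apply_eq_zero`), so `R! • α i = 0`, a contradiction.
(4) So for every `i ∈ s` some `χ₀ ∈ H` has `χ₀ (α i) ≠ 1`, hence `∑ χ ∈ H, χ (α i) = 0` (multiply by `χ₀ (α i)`,
reindex), so `∑ χ ∈ H, ‖1 - χ (α i)‖ ^ 2 = ∑ (2 - 2 Re χ (α i)) = 2 card H`.
(5) Sum over `i ∈ s`: `2 card H * card s = ∑ χ ∈ H, N χ ^ 2 ≤ card H * (3 R + 3) ^ 2 * C`. -/

section c3aux

variable {Γ : Type*} [AddCommGroup Γ] [Fintype Γ] {n : ℕ}

/-- the vector of the values `1 - χ (α i)` -/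
noncomputable def c3_v (s : Finset (Fin n)) (α : Fin n → Γ) (χ : AddChar Γ ℂ) :
    EuclideanSpace ℂ s := WithLp.toLp 2 fun i => 1 - χ (α i)

omit [Fintype Γ] in
theorem c3_norm_v (s : Finset (Fin n)) (α : Fin n → Γ) (χ : AddChar Γ ℂ) :
    ‖c3_v s α χ‖ ^ 2 = ∑ i ∈ s, ‖1 - χ (α i)‖ ^ 2 := by
  rw [EuclideanSpace.norm_sq_eq]
  exact Finset.sum_coe_sort s (fun i => ‖1 - χ (α i)‖ ^ 2)

theorem c3_mul (s : Finset (Fin n)) (α : Fin n → Γ) (χ ψ : AddChar Γ ℂ) :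
    ‖c3_v s α (χ * ψ)‖ ≤ ‖c3_v s α χ‖ + ‖c3_v s α ψ‖ := by
  have h1 : c3_v s α (χ * ψ) = c3_v s α χ + WithLp.toLp 2 fun i : s => χ (α i) * (1 - ψ (α i)) := by
    apply PiLp.ext
    intro i
    show 1 - (χ * ψ) (α i) = (1 - χ (α i)) + χ (α i) * (1 - ψ (α i))
    rw [AddChar.mul_apply]
    ring
  have h2 : ‖(WithLp.toLp 2 fun i : s => χ (α i) * (1 - ψ (α i)) : EuclideanSpace ℂ s)‖ =
      ‖c3_v s α ψ‖ := by
    rw [EuclideanSpace.norm_eq, EuclideanSpace.norm_eq]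
    refine congrArg Real.sqrt (Finset.sum_congr rfl fun i _ => ?_)
    show ‖χ (α i) * (1 - ψ (α i))‖ ^ 2 = ‖1 - ψ (α i)‖ ^ 2
    rw [norm_mul, AddChar.norm_apply, one_mul]
  rw [h1, ← h2]
  exact norm_add_le _ _

omit [Fintype Γ] in
theorem c3_one (s : Finset (Fin n)) (α : Fin n → Γ) : ‖c3_v s α 1‖ = 0 := by
  have h : ‖c3_v s α 1‖ ^ 2 = 0 := by
    rw [c3_norm_v]
    refine Finset.sum_eq_zero fun i _ => ?_
    rw [AddChar.one_apply, sub_self, norm_zero]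
    norm_num
  exact pow_eq_zero_iff (two_ne_zero) |>.1 h

theorem c3_list (s : Finset (Fin n)) (α : Fin n → Γ) {D : ℝ} (l : List (AddChar Γ ℂ))
    (hl : ∀ b ∈ l, ‖c3_v s α b‖ ≤ D) : ‖c3_v s α l.prod‖ ≤ l.length * D := by
  induction l with
  | nil =>
    rw [List.prod_nil, c3_one, List.length_nil]
    norm_num
  | cons b l ih =>
    rw [List.prod_cons, List.length_cons]
    have h1 := c3_mul s α b l.prod
    have h2 := hl b (List.mem_cons_self)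
    have h3 := ih fun b hb => hl b (List.mem_cons_of_mem _ hb)
    push_cast
    linarith

theorem c3_inv (s : Finset (Fin n)) (α : Fin n → Γ) (χ : AddChar Γ ℂ) :
    ∑ i ∈ s, ‖1 - χ⁻¹ (α i)‖ ^ 2 = ∑ i ∈ s, ‖1 - χ (α i)‖ ^ 2 := by
  refine Finset.sum_congr rfl fun i _ => ?_
  rw [AddChar.inv_apply, AddChar.map_neg_eq_conj]
  have h : (1 : ℂ) - (starRingEnd ℂ) (χ (α i)) = (starRingEnd ℂ) (1 - χ (α i)) := by
    rw [map_sub, map_one]
  rw [h, RCLike.norm_conj]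

omit [Fintype Γ] in
theorem c3_sum_zero (H : Subgroup (AddChar Γ ℂ)) [Fintype H] (z : Γ)
    (hz : ∃ χ ∈ H, χ z ≠ 1) : ∑ χ : H, (χ : AddChar Γ ℂ) z = 0 := by
  obtain ⟨χ₀, h0, h1⟩ := hz
  have h2 : ∑ χ : H, (χ : AddChar Γ ℂ) z = χ₀ z * ∑ χ : H, (χ : AddChar Γ ℂ) z := by
    rw [Finset.mul_sum, ← Equiv.sum_comp (Equiv.mulLeft (⟨χ₀, h0⟩ : H))]
    refine Finset.sum_congr rfl fun χ _ => ?_
    show (χ₀ * (χ : AddChar Γ ℂ)) z = χ₀ z * (χ : AddChar Γ ℂ) z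
    rw [AddChar.mul_apply]
  have h3 : (1 - χ₀ z) * ∑ χ : H, (χ : AddChar Γ ℂ) z = 0 := by
    rw [sub_mul, one_mul, ← h2, sub_self]
  rcases mul_eq_zero.1 h3 with h4 | h4
  · exact absurd (sub_eq_zero.1 h4).symm h1
  · exact h4

theorem c3_sum_sq (H : Subgroup (AddChar Γ ℂ)) [Fintype H] (z : Γ)
    (hz : ∃ χ ∈ H, χ z ≠ 1) : ∑ χ : H, ‖1 - (χ : AddChar Γ ℂ) z‖ ^ 2 = 2 * Fintype.card H := by
  have h1 : ∀ χ : H, ‖1 - (χ : AddChar Γ ℂ) z‖ ^ 2 = 2 - 2 * ((χ : AddChar Γ ℂ) z).re := by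
    intro χ
    have h2 : ‖(χ : AddChar Γ ℂ) z‖ = 1 := AddChar.norm_apply _ _
    rw [← Complex.normSq_eq_norm_sq, Complex.normSq_sub, Complex.normSq_eq_norm_sq ((χ : AddChar Γ ℂ) z),
      h2, Complex.normSq_one, one_mul, Complex.conj_re]
    norm_num
  rw [Finset.sum_congr rfl fun χ _ => h1 χ, Finset.sum_sub_distrib, ← Finset.mul_sum,
    ← Complex.re_sum, c3_sum_zero H z hz, Complex.zero_re, Finset.sum_const, Finset.card_univ,
    nsmul_eq_mul]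
  ring

end c3aux

theorem card_le_of_close {Γ : Type*} [AddCommGroup Γ] [Fintype Γ] {n : ℕ} (s : Finset (Fin n))
    (α : Fin n → Γ) (R : ℕ) {C : ℝ} (hC : 0 < C) (hα : ∀ i ∈ s, R.factorial • α i ≠ 0)
    (hB : (Fintype.card Γ : ℝ) < ((R : ℝ) + 1) *
      ((univ.filter fun χ : AddChar Γ ℂ => ∑ i ∈ s, ‖1 - χ (α i)‖ ^ 2 < C).card : ℝ)) :
    (s.card : ℝ) ≤ (3 * (R : ℝ) + 3) ^ 2 * C / 2 := by
  classical
  have hcardB : Fintype.card (AddChar Γ ℂ) < (R + 1) *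
      (univ.filter fun χ : AddChar Γ ℂ => ∑ i ∈ s, ‖1 - χ (α i)‖ ^ 2 < C).card := by
    rw [AddChar.card_eq]
    exact_mod_cast hB
  obtain ⟨H, hBH, hH⟩ := growth_closure
    (univ.filter fun χ : AddChar Γ ℂ => ∑ i ∈ s, ‖1 - χ (α i)‖ ^ 2 < C)
    (by
      intro b hb
      rw [Finset.mem_filter] at hb ⊢
      refine ⟨Finset.mem_univ _, ?_⟩
      rw [c3_inv]
      exact hb.2) R hcardB
  have hFH : Fintype H := Fintype.ofFinite H
  -- norms on `H`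
  have hN : ∀ χ ∈ H, ∑ i ∈ s, ‖1 - χ (α i)‖ ^ 2 ≤ (3 * (R : ℝ) + 3) ^ 2 * C := by
    intro χ hχ
    obtain ⟨l, hl, hlB, rfl⟩ := hH χ hχ
    have h1 : ∀ b ∈ l, ‖c3_v s α b‖ ≤ Real.sqrt C := by
      intro b hb
      have h2 := (Finset.mem_filter.1 (hlB b hb)).2
      rw [← c3_norm_v] at h2
      exact Real.le_sqrt_of_sq_le h2.le
    have h2 := c3_list s α l h1
    have h3 : ((l.length : ℕ) : ℝ) ≤ 3 * (R : ℝ) + 3 := by exact_mod_cast hl
    have h4 : ‖c3_v s α l.prod‖ ≤ (3 * (R : ℝ) + 3) * Real.sqrt C :=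
      h2.trans (mul_le_mul_of_nonneg_right h3 (Real.sqrt_nonneg _))
    rw [← c3_norm_v]
    calc ‖c3_v s α l.prod‖ ^ 2 ≤ ((3 * (R : ℝ) + 3) * Real.sqrt C) ^ 2 :=
          pow_le_pow_left₀ (norm_nonneg _) h4 2
      _ = (3 * (R : ℝ) + 3) ^ 2 * C := by rw [mul_pow, Real.sq_sqrt hC.le]
  -- the index
  have hcardH : (univ.filter fun χ : AddChar Γ ℂ => ∑ i ∈ s, ‖1 - χ (α i)‖ ^ 2 < C).card ≤
      Nat.card H := by
    rw [Nat.card_eq_fintype_card, Fintype.card_subtype]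
    refine Finset.card_le_card fun χ hχ => ?_
    rw [Finset.mem_filter]
    exact ⟨Finset.mem_univ _, hBH χ hχ⟩
  have hidx : H.index * Nat.card H = Fintype.card (AddChar Γ ℂ) := by
    rw [mul_comm, H.card_mul_index, Nat.card_eq_fintype_card]
  have hr1 : 1 ≤ H.index := Nat.one_le_iff_ne_zero.2 H.index_ne_zero_of_finite
  have hr2 : H.index ≤ R := by
    by_contra hcon
    have h1 : R + 1 ≤ H.index := by omega
    have h2 := Nat.mul_le_mul h1 hcardH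
    rw [hidx] at h2
    exact absurd h2 (not_le.2 hcardB)
  have hdvd : H.index ∣ R.factorial := Nat.dvd_factorial hr1 hr2
  -- nontrivial characters in `H`
  have hnt : ∀ i ∈ s, ∃ χ ∈ H, χ (α i) ≠ 1 := by
    intro i hi
    by_contra hcon
    have h1 : ∀ χ ∈ H, χ (α i) = 1 := by
      intro χ hχ
      by_contra h2
      exact hcon ⟨χ, hχ, h2⟩
    have h2 : H.index • α i = 0 := by
      rw [← AddChar.forall_apply_eq_zero]
      intro χ
      rw [AddChar.map_nsmul_eq_pow, ← AddChar.pow_apply]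
      exact h1 _ (H.pow_index_mem χ)
    obtain ⟨k, hk⟩ := hdvd
    refine hα i hi ?_
    rw [hk, mul_comm, mul_smul, h2, smul_zero]
  -- double counting
  have hsum : ∑ i ∈ s, ∑ χ : H, ‖1 - (χ : AddChar Γ ℂ) (α i)‖ ^ 2 =
      (s.card : ℝ) * (2 * Fintype.card H) := by
    rw [Finset.sum_congr rfl fun i hi => c3_sum_sq H (α i) (hnt i hi), Finset.sum_const,
      nsmul_eq_mul]
  have hle : ∑ i ∈ s, ∑ χ : H, ‖1 - (χ : AddChar Γ ℂ) (α i)‖ ^ 2 ≤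
      (Fintype.card H : ℝ) * ((3 * (R : ℝ) + 3) ^ 2 * C) := by
    rw [Finset.sum_comm]
    calc ∑ χ : H, ∑ i ∈ s, ‖1 - (χ : AddChar Γ ℂ) (α i)‖ ^ 2
        ≤ ∑ _χ : H, (3 * (R : ℝ) + 3) ^ 2 * C := Finset.sum_le_sum fun χ _ => hN χ.1 χ.2
      _ = (Fintype.card H : ℝ) * ((3 * (R : ℝ) + 3) ^ 2 * C) := by
          rw [Finset.sum_const, Finset.card_univ, nsmul_eq_mul]
  rw [hsum] at hle
  have hHpos : (0 : ℝ) < Fintype.card H := by
    exact_mod_cast Fintype.card_pos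
  have h5 : (Fintype.card H : ℝ) * ((s.card : ℝ) * 2) ≤
      (Fintype.card H : ℝ) * ((3 * (R : ℝ) + 3) ^ 2 * C) := by
    calc (Fintype.card H : ℝ) * ((s.card : ℝ) * 2) = (s.card : ℝ) * (2 * Fintype.card H) := by ring
      _ ≤ _ := hle
  have h6 := le_of_mul_le_mul_left h5 hHpos
  linarith

end Pool.Agent.MP_ca1109_lc.Agp
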