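import Pool.Agent.MP_ca1109_lc.Mpg.K4

/-!
# Equations of low degree over arbitrary abelian groups: definitions

* `na`, `nr`: averages over `p < M`.
* `lin α x`, `pol c x`: linear forms and polynomials in bits with coefficients in an abelian group.
* `Deg j c`: the degree is at most `j`; `Wide N m j c`: there are `N` disjoint sets of size `j` whose
  coefficients are not killed by `m`.
* `NG E G`: `G n p i` is the `i`-th bit for the seed `p < 2 ^ E n`, everything is explicit and the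
  number of seeds is polynomial.
* `LS`, `SP`: generators which make wide linear forms resp. polynomials spread over the group, even
  if they are twisted by phases of degree `d` modulo `m`.
* `FJ m d j`: generators which fool averages over the characters of twisted polynomials.
* `hs κ q i`: pairwise independent hash functions; `pos`: positions of a walk.
* `GroupTest`: functions of the answers to `k` questions `P i x = 0`.
-/

namespace Pool.Agent.MP_ca1109_lc.Agp

open Pool.Agent.H66 Pool.Agent.MP_ca1109_lc.Mpg Finset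

/-- The average of a complex function over `p < M`. -/
noncomputable def na (M : ℕ) (F : ℕ → ℂ) : ℂ := (∑ p ∈ range M, F p) / (M : ℂ)

/-- The average of a real function over `p < M`. -/
noncomputable def nr (M : ℕ) (F : ℕ → ℝ) : ℝ := (∑ p ∈ range M, F p) / (M : ℝ)

section poly

variable {Γ : Type*} [AddCommGroup Γ] {n : ℕ}

/-- The linear form with coefficients `α i`. -/
def lin (α : Fin n → Γ) (x : Fin n → Bool) : Γ := ∑ i, if x i = true then α i else 0

/-- The polynomial with coefficients `c S`. -/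
def pol (c : Finset (Fin n) → Γ) (x : Fin n → Bool) : Γ :=
  ∑ S, if ∀ i ∈ S, x i = true then c S else 0

/-- The degree is at most `j`. -/
def Deg (j : ℕ) (c : Finset (Fin n) → Γ) : Prop := ∀ S, j < S.card → c S = 0

/-- There are `N` disjoint sets of size `j` whose coefficients are not killed by `m`. -/
def Wide (N m j : ℕ) (c : Finset (Fin n) → Γ) : Prop :=
  ∃ 𝒮 : Finset (Finset (Fin n)), N ≤ 𝒮.card ∧ (∀ S ∈ 𝒮, S.card = j ∧ m • c S ≠ 0) ∧
    (𝒮 : Set (Finset (Fin n))).PairwiseDisjoint id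

/-- The average over the characters of the twisted polynomials. -/
noncomputable def fam [Fintype Γ] (u : AddChar Γ ℂ → (Fin n → Bool) → ℂ)
    (c : Finset (Fin n) → Γ) (x : Fin n → Bool) : ℂ :=
  (∑ χ : AddChar Γ ℂ, u χ x * χ (pol c x)) / (Fintype.card Γ : ℂ)

end poly

/-- The parity character of a set. -/
noncomputable def sgn {n : ℕ} (T : Finset (Fin n)) (x : Fin n → Bool) : ℂ :=
  ∏ i ∈ T, if x i = true then -1 else 1

/-- Explicit generators with a polynomial number of seeds. -/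
structure NG (E : ℕ → ℕ) (G : ℕ → ℕ → ℕ → Bool) : Prop where
  poly_E : PolyTime E
  poly_M : PolyTime fun n : ℕ => 2 ^ E n
  bound : ∃ c : ℕ, ∀ n, 2 ^ E n ≤ c * (n + 1) ^ c
  poly_G : PolyTime fun q : ℕ × (ℕ × ℕ) => G q.1 q.2.1 q.2.2

/-- The output. -/
def out (G : ℕ → ℕ → ℕ → Bool) (n p : ℕ) : Fin n → Bool := fun i => G n p i

/-- The strings `X p`, `p < M`, spread wide linear forms over every finite abelian group. -/
def LSok (m d N m' : ℕ) [NeZero m] (ε : ℝ) {n : ℕ} (M : ℕ) (X : ℕ → Fin n → Bool) : Prop :=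
  ∀ (Γ : Type) [AddCommGroup Γ] [Fintype Γ] (α : Fin n → Γ) (I : Finset (Fin n)),
    N ≤ I.card → (∀ i ∈ I, m' • α i ≠ 0) →
    ∀ u : AddChar Γ ℂ → (Fin n → Bool) → ℂ, (∀ χ, u χ ∈ phCls m Bool d n) →
      avg (fun χ : AddChar Γ ℂ => ‖na M (fun p => u χ (X p) * χ (lin α (X p)))‖) ≤ ε

/-- Generators which spread wide linear forms. -/
def LS (m d : ℕ) [NeZero m] : Prop :=
  ∀ ε > 0, ∃ N m' : ℕ, 0 < m' ∧ ∃ E G, NG E G ∧
    ∀ n, LSok m d N m' ε (2 ^ E n) (out G n)

/-- The strings `X p`, `p < M`, spread wide polynomials of degree `j`. -/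
def SPok (m d j N m' : ℕ) [NeZero m] (ε : ℝ) {n : ℕ} (M : ℕ) (X : ℕ → Fin n → Bool) : Prop :=
  ∀ (Γ : Type) [AddCommGroup Γ] [Fintype Γ] (c : Finset (Fin n) → Γ), Deg j c → Wide N m' j c →
    ∀ u : AddChar Γ ℂ → (Fin n → Bool) → ℂ, (∀ χ, u χ ∈ phCls m Bool d n) →
      avg (fun χ : AddChar Γ ℂ => ‖na M (fun p => u χ (X p) * χ (pol c (X p)))‖) ≤ ε

/-- Generators which spread wide polynomials of degree `j`. -/
def SP (m d j : ℕ) [NeZero m] : Prop :=
  ∀ ε > 0, ∃ N m' : ℕ, 0 < m' ∧ ∃ E G, NG E G ∧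
    ∀ n, SPok m d j N m' ε (2 ^ E n) (out G n)

/-- The strings `X p`, `p < M`, fool the averages of twisted polynomials of degree `j`. -/
def FJok (m d j : ℕ) [NeZero m] (ε : ℝ) {n : ℕ} (M : ℕ) (X : ℕ → Fin n → Bool) : Prop :=
  ∀ (Γ : Type) [AddCommGroup Γ] [Fintype Γ] (c : Finset (Fin n) → Γ), Deg j c →
    ∀ u : AddChar Γ ℂ → (Fin n → Bool) → ℂ, (∀ χ, u χ ∈ phCls m Bool d n) →
      ‖na M (fun p => fam u c (X p)) - av (fam u c)‖ ≤ ε

/-- Generators which fool the averages of twisted polynomials of degree `j`. -/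
def FJ (m d j : ℕ) [NeZero m] : Prop :=
  ∀ ε > 0, ∃ E G, NG E G ∧ ∀ n, FJok m d j ε (2 ^ E n) (out G n)

/-! ## Combinations of generators -/

/-- Pairwise independent hash functions, `q < 16 ^ κ`, `i < 2 ^ κ`, with values below `2 ^ κ`. -/
def hs (κ q i : ℕ) : ℕ := (((q / 4 ^ κ) * i + q % 4 ^ κ) % 4 ^ κ) / 2 ^ κ

/-- The sum modulo two. -/
def xorG (E₂ : ℕ → ℕ) (G₁ G₂ : ℕ → ℕ → ℕ → Bool) (n p i : ℕ) : Bool :=
  xor (G₁ n (p / 2 ^ E₂ n) i) (G₂ n (p % 2 ^ E₂ n) i)

/-- The coordinates with small hash values are taken from `G₁`, the others from `G₂`; the density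
of the former is `2 ^ (-t)`. -/
def selG (t : ℕ) (E₁ E₂ : ℕ → ℕ) (G₁ G₂ : ℕ → ℕ → ℕ → Bool) (n p i : ℕ) : Bool :=
  if hs (Nat.clog 2 n + t) (p / 2 ^ E₂ n / 2 ^ E₁ n) i < 2 ^ Nat.clog 2 n then
    G₁ n (p / 2 ^ E₂ n % 2 ^ E₁ n) i
  else G₂ n (p % 2 ^ E₂ n) i

/-- The coordinates are distributed over `2 ^ t` independent copies of `G`. -/
def bucketG (t : ℕ) (E : ℕ → ℕ) (G : ℕ → ℕ → ℕ → Bool) (n p i : ℕ) : Bool :=
  G n (p % (2 ^ E n) ^ 2 ^ t /
    (2 ^ E n) ^ (hs (Nat.clog 2 n + t) (p / (2 ^ E n) ^ 2 ^ t) i / 2 ^ Nat.clog 2 n) % 2 ^ E n) i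

/-- The position after `l` steps of the walk; a step is a walk of length `v` in the graph of
Margulis, Gabber and Galil. -/
def pos (M v : ℕ) : ℕ → ℕ → ℕ → ℕ
  | 0, p, _ => p
  | l + 1, p, e => pos M v l (wk M v p (e % 8 ^ v)) (e / 8 ^ v)

/-- The scale of a hash value. -/
def scl (u : ℕ) : ℕ := Nat.clog 2 (u + 1)

/-- The coordinates of scale `l` are taken from `G` with the seed which is the `l`-th position of a
walk. -/
def scaleG (v : ℕ) (E : ℕ → ℕ) (G : ℕ → ℕ → ℕ → Bool) (n p i : ℕ) : Bool :=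
  G n (pos (2 ^ E n) v
    (scl (hs (Nat.clog 2 n) (p / (2 ^ E n * 2 ^ E n * 8 ^ (v * Nat.clog 2 n))) i))
    (p % (2 ^ E n * 2 ^ E n * 8 ^ (v * Nat.clog 2 n)) / 8 ^ (v * Nat.clog 2 n))
    (p % (2 ^ E n * 2 ^ E n * 8 ^ (v * Nat.clog 2 n)) % 8 ^ (v * Nat.clog 2 n)) % 2 ^ E n) i

/-! ## Tests -/

/-- The function `T` is a function of the answers to `k` questions `P i x = 0`, where `P i` is a sum
of functions of at most `d` bits with values in some abelian group `Γ i`. -/
def GroupTest (d k n : ℕ) (T : (Fin n → Bool) → Bool) : Prop :=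
  ∃ (Γ : Fin k → Type) (_ : ∀ i, AddCommGroup (Γ i)) (P : ∀ i, (Fin n → Bool) → Γ i)
    (F : (Fin k → Prop) → Prop), (∀ i, P i ∈ lowDeg (Fin n) Bool (Γ i) d) ∧
    ∀ x, T x = true ↔ F (fun i => P i x = 0)

end Pool.Agent.MP_ca1109_lc.Agp
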