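import Pool.Agent.MP_ca1109_lc.Agp.P2
import Pool.Agent.MP_ca1109_lc.Agp.J1

/-!
# Polynomials which are not wide
-/

namespace Pool.Agent.MP_ca1109_lc.Agp

open Pool.Agent.MP_ca1109_lc.Mpg Finset

/- PROOF NOTES [AGP-F1].
`not_wide`: take a family `𝒮` of disjoint sets `S` with `S.card = j`, `m • c S ≠ 0` of maximal cardinality
(`Finset.exists_max_image` over the filtered powerset of `univ`); `𝒮.card < N` as `¬ Wide`.  `A = 𝒮.biUnion id`,
`A.card ≤ 𝒮.card * j` (`Finset.card_biUnion_le_card_mul`).  If `S.card = j`, `m • c S ≠ 0` and `S` is disjoint from `A`, then `S ∉ 𝒮`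
(`S` is nonempty as `1 ≤ j`, and would be contained in `A`) and `insert S 𝒮` is a larger such family.
`low_part`: let `c₁` be given by `pol_fix` (`P2`) for `A τ`; `c_top S = if S.card = j + 1 then c₁ S else 0`,
`c_low S = if S.card = j + 1 then 0 else c₁ S`; `Deg j c_low`, `Deg (j+1) c_top`, `m' • c_top S = 0` for all `S` (if `S.card = j + 1` then
`c₁ S = 0` or `S` is disjoint from `A` and `c₁ S = c S`, and then `m' • c S = 0` by the property of `A`), `pol c₁ = pol c_top + pol c_low`
(`pol_add`).  `u' χ x = u χ (fix x) * χ (pol c_top x)` where `fix x = fun i => if i ∈ A then τ i else x i`: in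
`phCls (m * m') Bool d n` by `tw_fix, tw_mul, tw_mono` (`N2`) and `tors_phase` (`P1`).
`not_wide_fool`: with `A` from `not_wide`, `fam u c x = ∑ U ∈ A.powerset, g U x * fam u c (fix_U x)`, where
`g U x = if ∀ i ∈ A, (x i = true ↔ i ∈ U) then 1 else 0` and `fix_U` uses `τ = fun i => decide (i ∈ U)` (exactly one `U`, namely
`A.filter (x · = true)`, contributes).  By `low_part`, `fam u c ∘ fix_U = fam u'_U c_U`.  `junta_fool` (`J1`) with `J = A`, `g = g U`,
`f = fam u'_U c_U`: for `T ⊆ A`, `sgn T * f = fam (fun χ x => sgn T x * u'_U χ x) c_U` with `sgn T * u'_U χ ∈ phCls (2 * (m * m')) Bool d n`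
(`sgn_mem, tw_mono, tw_mul`, `1 ≤ d`), so `hX` bounds the difference by `ε₁`.  Each `U` contributes at most `2 ^ A.card * ε₁` and there
are `2 ^ A.card` of them: total `4 ^ A.card * ε₁ ≤ 4 ^ ((j + 1) * N) * ε₁` (`0 ≤ ε₁`). -/

theorem f1_av_sum {A J : Type*} [Fintype A] (s : Finset J) (F : J → A → ℂ) :
    av (fun a => ∑ j ∈ s, F j a) = ∑ j ∈ s, av (F j) := by
  unfold av
  rw [Finset.sum_comm, Finset.sum_div]

theorem not_wide {Γ : Type*} [AddCommGroup Γ] {n N m j : ℕ} (hj : 1 ≤ j)
    {c : Finset (Fin n) → Γ} (h : ¬ Wide N m j c) :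
    ∃ A : Finset (Fin n), A.card ≤ j * N ∧
      ∀ S : Finset (Fin n), S.card = j → m • c S ≠ 0 → ¬ Disjoint S A := by
  classical
  let Fm : Finset (Finset (Finset (Fin n))) := (univ : Finset (Finset (Finset (Fin n)))).filter
    (fun 𝒮 => (∀ S ∈ 𝒮, S.card = j ∧ m • c S ≠ 0) ∧
      (𝒮 : Set (Finset (Fin n))).PairwiseDisjoint id)
  have hne : Fm.Nonempty := ⟨∅, by
    refine Finset.mem_filter.2 ⟨Finset.mem_univ _, ?_, ?_⟩
    · intro S hS
      exact absurd hS (Finset.notMem_empty S)
    · rw [Finset.coe_empty]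
      exact Set.pairwiseDisjoint_empty⟩
  obtain ⟨𝒮, h𝒮, hmax⟩ := Finset.exists_max_image Fm Finset.card hne
  obtain ⟨_, h1, h2⟩ := Finset.mem_filter.1 h𝒮
  have hlt : 𝒮.card < N := by
    by_contra hc
    exact h ⟨𝒮, not_lt.1 hc, h1, h2⟩
  refine ⟨𝒮.biUnion id, ?_, ?_⟩
  · refine (Finset.card_biUnion_le_card_mul 𝒮 id j fun S hS => (h1 S hS).1.le).trans ?_
    rw [mul_comm]
    exact Nat.mul_le_mul_left j hlt.le
  · intro S hS hc hd
    have hd' : ∀ T ∈ 𝒮, Disjoint S T := fun T hT =>
      Finset.disjoint_of_subset_right (Finset.subset_biUnion_of_mem id hT) hd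
    have hnot : S ∉ 𝒮 := by
      intro hmem
      have h3 := hd' S hmem
      rw [Finset.disjoint_self_iff_empty] at h3
      rw [h3, Finset.card_empty] at hS
      omega
    have hin : insert S 𝒮 ∈ Fm := by
      refine Finset.mem_filter.2 ⟨Finset.mem_univ _, ?_, ?_⟩
      · intro T hT
        rcases Finset.mem_insert.1 hT with rfl | hT
        · exact ⟨hS, hc⟩
        · exact h1 T hT
      · rw [Finset.coe_insert]
        exact h2.insert fun T hT _ => hd' T (Finset.mem_coe.1 hT)
    have h4 := hmax _ hin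
    rw [Finset.card_insert_of_notMem hnot] at h4
    omega

theorem low_part {Γ : Type} [AddCommGroup Γ] [Fintype Γ] {n m m' d j : ℕ} [NeZero m] [NeZero m']
    [NeZero (m * m')] (hd : j + 1 ≤ d) {c : Finset (Fin n) → Γ} (hc : Deg (j + 1) c)
    {A : Finset (Fin n)} (hA : ∀ S : Finset (Fin n), S.card = j + 1 → m' • c S ≠ 0 → ¬ Disjoint S A)
    {u : AddChar Γ ℂ → (Fin n → Bool) → ℂ} (hu : ∀ χ, u χ ∈ phCls m Bool d n) (τ : Fin n → Bool) :
    ∃ (c' : Finset (Fin n) → Γ) (u' : AddChar Γ ℂ → (Fin n → Bool) → ℂ), Deg j c' ∧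
      (∀ χ, u' χ ∈ phCls (m * m') Bool d n) ∧
      ∀ x, fam u c (fun i => if i ∈ A then τ i else x i) = fam u' c' x := by
  obtain ⟨c₁, hd1, h1, h2⟩ := pol_fix hc A τ
  let ct : Finset (Fin n) → Γ := fun S => if S.card = j + 1 then c₁ S else 0
  let cl : Finset (Fin n) → Γ := fun S => if S.card = j + 1 then 0 else c₁ S
  have hcl : Deg j cl := by
    intro S hS
    show (if S.card = j + 1 then 0 else c₁ S) = 0
    split_ifs with h3
    · rfl
    · exact hd1 S (by omega)
  have hct : Deg (j + 1) ct := by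
    intro S hS
    show (if S.card = j + 1 then c₁ S else 0) = 0
    rw [if_neg (by omega)]
  have htors : ∀ S, m' • ct S = 0 := by
    intro S
    show m' • (if S.card = j + 1 then c₁ S else 0) = 0
    split_ifs with h3
    · rcases h1 S h3 with h4 | ⟨h4, h5⟩
      · rw [h4, smul_zero]
      · rw [h5]
        by_contra hne
        exact hA S h3 hne h4
    · rw [smul_zero]
  have hsum : ∀ x, pol c₁ x = pol ct x + pol cl x := by
    intro x
    rw [← pol_add]
    congr 1
    funext S
    show c₁ S = (if S.card = j + 1 then c₁ S else 0) + (if S.card = j + 1 then 0 else c₁ S)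
    split_ifs
    · rw [add_zero]
    · rw [zero_add]
  refine ⟨cl, fun χ x => u χ (fun i => if i ∈ A then τ i else x i) * χ (pol ct x), hcl,
    fun χ => ?_, fun x => ?_⟩
  · exact tw_mul (tw_fix (hu χ) A τ) (tw_mono hd (tors_phase hct htors χ))
  · unfold fam
    congr 1
    refine Finset.sum_congr rfl fun χ _ => ?_
    rw [h2, hsum, AddChar.map_add_eq_mul]
    ring

theorem not_wide_fool {Γ : Type} [AddCommGroup Γ] [Fintype Γ] {n m m' d j N M : ℕ} [NeZero m]
    [NeZero m'] (hd : j + 1 ≤ d) {c : Finset (Fin n) → Γ} (hc : Deg (j + 1) c)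
    (hw : ¬ Wide N m' (j + 1) c)
    {u : AddChar Γ ℂ → (Fin n → Bool) → ℂ} (hu : ∀ χ, u χ ∈ phCls m Bool d n)
    {X : ℕ → Fin n → Bool} {ε₁ : ℝ} (h0 : 0 ≤ ε₁) [NeZero (2 * (m * m'))]
    (hX : FJok (2 * (m * m')) d j ε₁ M X) :
    ‖na M (fun p => fam u c (X p)) - av (fam u c)‖ ≤ 4 ^ ((j + 1) * N) * ε₁ := by
  classical
  haveI : NeZero (m * m') := ⟨mul_ne_zero (NeZero.ne m) (NeZero.ne m')⟩
  obtain ⟨A, hA1, hA2⟩ := not_wide (Nat.le_add_left 1 j) hw
  choose cU uU hU1 hU2 hU3 using fun U : Finset (Fin n) =>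
    low_part hd hc hA2 hu (fun i => decide (i ∈ U))
  let g : Finset (Fin n) → (Fin n → Bool) → ℂ := fun U x =>
    if ∀ i ∈ A, (x i = true ↔ i ∈ U) then 1 else 0
  have hdec : ∀ x, fam u c x = ∑ U ∈ A.powerset, g U x * fam (uU U) (cU U) x := by
    intro x
    have hmem : A.filter (fun i => x i = true) ∈ A.powerset :=
      Finset.mem_powerset.2 (Finset.filter_subset _ _)
    rw [Finset.sum_eq_single_of_mem _ hmem]
    · have h1 : g (A.filter (fun i => x i = true)) x = 1 := by
        refine if_pos fun i hi => ?_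
        rw [Finset.mem_filter]
        exact ⟨fun h => ⟨hi, h⟩, fun h => h.2⟩
      rw [h1, one_mul, ← hU3]
      congr 1
      funext i
      split_ifs with hi
      · rw [Bool.eq_iff_iff, decide_eq_true_iff, Finset.mem_filter]
        exact ⟨fun h => ⟨hi, h⟩, fun h => h.2⟩
      · rfl
    · intro U hU hne
      have h1 : g U x = 0 := by
        refine if_neg fun hall => hne ?_
        ext i
        rw [Finset.mem_filter]
        constructor
        · intro hi
          have hiA := Finset.mem_powerset.1 hU hi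
          exact ⟨hiA, (hall i hiA).2 hi⟩
        · rintro ⟨hi, hx⟩
          exact (hall i hi).1 hx
      rw [h1, zero_mul]
  have hterm : ∀ U ∈ A.powerset,
      ‖na M (fun p => g U (X p) * fam (uU U) (cU U) (X p)) -
        av (fun x => g U x * fam (uU U) (cU U) x)‖ ≤ 2 ^ A.card * ε₁ := by
    intro U _
    refine junta_fool X A (g U) ?_ ?_ _ ?_
    · intro x y hxy
      have h1 : (∀ i ∈ A, (x i = true ↔ i ∈ U)) ↔ (∀ i ∈ A, (y i = true ↔ i ∈ U)) := by
        refine forall_congr' fun i => forall_congr' fun hi => ?_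
        rw [hxy i (Finset.mem_coe.2 hi)]
      show (if ∀ i ∈ A, (x i = true ↔ i ∈ U) then (1 : ℂ) else 0) =
        if ∀ i ∈ A, (y i = true ↔ i ∈ U) then (1 : ℂ) else 0
      by_cases h2 : ∀ i ∈ A, (x i = true ↔ i ∈ U)
      · rw [if_pos h2, if_pos (h1.1 h2)]
      · rw [if_neg h2, if_neg fun h3 => h2 (h1.2 h3)]
    · intro x
      show ‖(if ∀ i ∈ A, (x i = true ↔ i ∈ U) then (1 : ℂ) else 0)‖ ≤ 1
      split_ifs <;> simp
    · intro T _
      have hsg : ∀ x, sgn T x * fam (uU U) (cU U) x =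
          fam (fun χ x => sgn T x * uU U χ x) (cU U) x := by
        intro x
        unfold fam
        rw [← mul_div_assoc, Finset.mul_sum]
        congr 1
        refine Finset.sum_congr rfl fun χ _ => ?_
        rw [mul_assoc]
      have h1 := hX Γ (cU U) (hU1 U) (fun χ x => sgn T x * uU U χ x) (fun χ =>
        tw_mul (tw_mono (by omega) (sgn_mem T)) (hU2 U χ))
      have h2 : na M (fun p => sgn T (X p) * fam (uU U) (cU U) (X p)) =
          na M (fun p => fam (fun χ x => sgn T x * uU U χ x) (cU U) (X p)) :=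
        na_congr fun p _ => hsg (X p)
      have h3 : (fun x => sgn T x * fam (uU U) (cU U) x) =
          fam (fun χ x => sgn T x * uU U χ x) (cU U) := funext hsg
      rw [h2, h3]
      exact h1
  have e1 : na M (fun p => fam u c (X p)) =
      ∑ U ∈ A.powerset, na M (fun p => g U (X p) * fam (uU U) (cU U) (X p)) := by
    rw [← na_sum]
    exact na_congr fun p _ => hdec (X p)
  have e2 : av (fam u c) = ∑ U ∈ A.powerset, av (fun x => g U x * fam (uU U) (cU U) x) := by
    rw [← f1_av_sum]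
    exact congrArg av (funext hdec)
  rw [e1, e2, ← Finset.sum_sub_distrib]
  refine (norm_sum_le _ _).trans ((Finset.sum_le_sum hterm).trans ?_)
  rw [Finset.sum_const, Finset.card_powerset, nsmul_eq_mul, ← mul_assoc]
  refine mul_le_mul_of_nonneg_right ?_ h0
  have h4 : ((2 ^ A.card : ℕ) : ℝ) * 2 ^ A.card = 4 ^ A.card := by
    push_cast
    rw [← mul_pow]
    norm_num
  rw [h4]
  exact pow_le_pow_right₀ (by norm_num) hA1

end Pool.Agent.MP_ca1109_lc.Agp
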