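import Pool.Agent.MP_ca1109_lc.Agp.K2

/-!
# Generators which spread wide linear forms twisted by phases of any degree
-/

namespace Pool.Agent.MP_ca1109_lc.Agp

open Pool.Agent.MP_ca1109_lc.Mpg Finset

/-- The bucket of a coordinate. -/
def bk (t n q : ℕ) (i : Fin n) : Fin (2 ^ t) :=
  ⟨hs (Nat.clog 2 n + t) q i / 2 ^ Nat.clog 2 n, by
    rw [Nat.div_lt_iff_lt_mul (by positivity), ← pow_add, add_comm t]
    exact hs_lt _ _ _⟩

theorem bucket_average (t : ℕ) (E : ℕ → ℕ) (G : ℕ → ℕ → ℕ → Bool) (n : ℕ)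
    (f : (Fin n → Bool) → ℂ) :
    na (2 ^ (4 * (Nat.clog 2 n + t) + 2 ^ t * E n)) (fun p => f (out (bucketG t E G) n p)) =
      na (16 ^ (Nat.clog 2 n + t)) (fun q => av (fun y : Fin (2 ^ t) → Fin (2 ^ E n) =>
        f (xx G (bk t n q) y))) := by
  have h1 : 2 ^ (4 * (Nat.clog 2 n + t) + 2 ^ t * E n) =
      16 ^ (Nat.clog 2 n + t) * (2 ^ E n) ^ 2 ^ t := by
    rw [pow_add, pow_mul, mul_comm (2 ^ t) (E n), pow_mul 2 (E n)]
    norm_num
  rw [h1]
  refine (na_mul (16 ^ (Nat.clog 2 n + t)) (B := (2 ^ E n) ^ 2 ^ t) (by positivity) (fun q s =>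
    f (fun i : Fin n => G n (s / (2 ^ E n) ^ (bk t n q i : ℕ) % 2 ^ E n) i))).trans ?_
  refine na_congr fun q _ => ?_
  exact na_digits (M := 2 ^ E n) (by positivity) (2 ^ t)
    (fun y => f (fun i : Fin n => G n (y (bk t n q i)) i))

theorem bucket_count {n t : ℕ} (r : Fin (2 ^ t)) (I : Finset (Fin n)) (N₀ : ℕ)
    (hI : (2 * N₀ : ℝ) ≤ (I.card : ℝ) / 2 ^ t) (h0 : 0 < I.card) :
    nr (16 ^ (Nat.clog 2 n + t)) (fun q =>
      if N₀ ≤ (I.filter fun i => bk t n q i = r).card then 0 else 1) ≤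
      4 / ((I.card : ℝ) / 2 ^ t) := by
  classical
  set κ := Nat.clog 2 n + t with hκ
  have hn : n ≤ 2 ^ κ := by
    rw [hκ, pow_add]
    exact (Nat.le_pow_clog one_lt_two n).trans (Nat.le_mul_of_pos_right _ (by positivity))
  set T : Finset ℕ := (range (2 ^ κ)).filter fun u => u / 2 ^ Nat.clog 2 n = r with hT
  have hcard : T.card = 2 ^ Nat.clog 2 n := by
    have : T = (range (2 ^ Nat.clog 2 n)).image fun w => (r : ℕ) * 2 ^ Nat.clog 2 n + w := by
      ext u
      rw [hT, Finset.mem_filter, Finset.mem_range, Finset.mem_image]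
      constructor
      · rintro ⟨h1, h2⟩
        refine ⟨u % 2 ^ Nat.clog 2 n, Finset.mem_range.2 (Nat.mod_lt _ (by positivity)), ?_⟩
        rw [← h2, mul_comm]
        exact Nat.div_add_mod u _
      · rintro ⟨w, hw, rfl⟩
        rw [Finset.mem_range] at hw
        have h3 : ((r : ℕ) * 2 ^ Nat.clog 2 n + w) / 2 ^ Nat.clog 2 n = r := by
          rw [mul_comm, Nat.mul_add_div (by positivity), Nat.div_eq_of_lt hw, add_zero]
        refine ⟨?_, h3⟩
        have h4 : (r : ℕ) + 1 ≤ 2 ^ t := r.2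
        calc (r : ℕ) * 2 ^ Nat.clog 2 n + w < ((r : ℕ) + 1) * 2 ^ Nat.clog 2 n := by
              rw [Nat.add_mul, one_mul]
              omega
          _ ≤ 2 ^ t * 2 ^ Nat.clog 2 n := Nat.mul_le_mul_right _ h4
          _ = 2 ^ κ := by rw [hκ, pow_add, mul_comm]
    rw [this, Finset.card_image_of_injective _ (fun a b h => by simpa using h), card_range]
  have hμ : (I.card : ℝ) / 2 ^ t = (I.card : ℝ) * T.card / 2 ^ κ := by
    rw [hcard, hκ, pow_add]
    push_cast
    field_simp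
  have hI0 : (0 : ℝ) < I.card := by exact_mod_cast h0
  have h := hs_dev hn T (Finset.filter_subset _ _) I hμ (by positivity)
  refine le_trans (nr_mono fun q _ => ?_) h
  have hfil : (I.filter fun i : Fin n => hs κ q i ∈ T) = I.filter fun i => bk t n q i = r := by
    ext i
    simp only [hT, Finset.mem_filter, Finset.mem_range]
    unfold bk
    rw [Fin.ext_iff]
    exact ⟨fun h => ⟨h.1, h.2.2⟩, fun h => ⟨h.1, hs_lt _ _ _, h.2⟩⟩
  rw [hfil]
  by_cases hc : |((I.filter fun i => bk t n q i = r).card : ℝ) - (I.card : ℝ) / 2 ^ t| <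
      (I.card : ℝ) / 2 ^ t / 2
  · rw [if_pos hc, if_pos]
    have h5 := (abs_lt.1 hc).1
    have h6 : (N₀ : ℝ) ≤ ((I.filter fun i => bk t n q i = r).card : ℝ) := by linarith
    exact_mod_cast h6
  · rw [if_neg hc]
    split_ifs <;> norm_num

theorem ls_succ {m d : ℕ} [NeZero m] (h : LS m d) : LS m (d + 1) := by
  classical
  intro ε hε
  have hm : 0 < m := Nat.pos_of_ne_zero (NeZero.ne m)
  set η : ℝ := ε ^ m / 3 with hη
  have hη0 : 0 < η := by positivity
  obtain ⟨N₀, m₀, hm₀, E, G, hG, H⟩ := h η hη0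
  obtain ⟨t, ht⟩ := pow_unbounded_of_one_lt (((m : ℝ) / η) ^ 2) (one_lt_two)
  obtain ⟨N', hN'⟩ := exists_nat_ge (4 / η)
  refine ⟨2 ^ t * (2 * N₀ + N' + 1), m₀ * m, Nat.mul_pos hm₀ hm, _, _, NG.bucket t hG,
    fun n Γ _ _ α I hI hα u hu => ?_⟩
  have h2t : (0 : ℝ) < 2 ^ t := by positivity
  have hIr : (2 ^ t * (2 * N₀ + N' + 1) : ℝ) ≤ I.card := by exact_mod_cast hI
  have hIdiv : (2 * N₀ + N' + 1 : ℝ) ≤ (I.card : ℝ) / 2 ^ t := by
    rw [le_div_iff₀ h2t]
    linarith
  have hI0 : 0 < I.card := lt_of_lt_of_le (by positivity) hI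
  have hM : 0 < 2 ^ E n := by positivity
  have hne : Nonempty (Fin (2 ^ E n)) := ⟨⟨0, hM⟩⟩
  set F : AddChar Γ ℂ → ℕ → (Fin (2 ^ t) → Fin (2 ^ E n)) → ℂ := fun χ q y =>
    u χ (xx G (bk t n q) y) * χ (lin α (xx G (bk t n q) y)) with hF
  have hF1 : ∀ χ q y, ‖F χ q y‖ ≤ 1 := by
    intro χ q y
    rw [hF]
    simp only
    rw [norm_mul, tw_norm (hu χ), AddChar.norm_apply, one_mul]
  -- the inequality for the powers
  have hpow : ∀ q, avg (fun χ : AddChar Γ ℂ => ‖av (F χ q)‖ ^ m) ≤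
      η + (∑ r : Fin (2 ^ t), (η + if N₀ ≤ (I.filter fun i => bk t n q i = r).card then 0 else 1)) /
        (2 ^ t : ℕ) := by
    intro q
    have e1 : ∀ χ : AddChar Γ ℂ, ‖av (F χ q)‖ ^ m ≤ (∑ r : Fin (2 ^ t),
        ‖av (fun a : Fin (2 ^ E n) => (av (fun y => F χ q (Function.update y r a))) ^ m)‖) /
          (2 ^ t : ℕ) + η := by
      intro χ
      refine (bucket_abs (k := 2 ^ t) (by positivity) (F χ q) (hF1 χ q) m).trans ?_
      have e2 : (m : ℝ) / √((2 ^ t : ℕ) : ℝ) ≤ η := by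
        have e3 : (m : ℝ) / η ≤ √((2 ^ t : ℕ) : ℝ) := by
          push_cast
          exact Real.le_sqrt_of_sq_le ht.le
        rw [div_le_iff₀ (by positivity)]
        rwa [div_le_iff₀ hη0, mul_comm] at e3
      linarith
    refine (avg_mono e1).trans ?_
    rw [avg_add, avg_const, add_comm]
    refine add_le_add_right ?_ _
    have e4 : avg (fun χ : AddChar Γ ℂ => (∑ r : Fin (2 ^ t),
        ‖av (fun a : Fin (2 ^ E n) => (av (fun y => F χ q (Function.update y r a))) ^ m)‖) /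
          ((2 ^ t : ℕ) : ℝ)) =
        (∑ r : Fin (2 ^ t), avg (fun χ : AddChar Γ ℂ =>
        ‖av (fun a : Fin (2 ^ E n) => (av (fun y => F χ q (Function.update y r a))) ^ m)‖)) /
          ((2 ^ t : ℕ) : ℝ) := by
      rw [← avg_sum]
      unfold avg
      rw [← Finset.sum_div]
      ring
    rw [e4]
    refine div_le_div_of_nonneg_right (Finset.sum_le_sum fun r _ => ?_) (Nat.cast_nonneg _)
    by_cases hc : N₀ ≤ (I.filter fun i => bk t n q i = r).card
    · rw [if_pos hc, add_zero]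
      exact one_bucket G (H n) (bk t n q) α r I hc hα hM u hu
    · rw [if_neg hc]
      have : avg (fun χ : AddChar Γ ℂ =>
          ‖av (fun a : Fin (2 ^ E n) => (av (fun y => F χ q (Function.update y r a))) ^ m)‖) ≤ 1 := by
        refine avg_le fun χ => (norm_av_le _).trans (avg_le fun a => ?_)
        rw [norm_pow]
        exact pow_le_one₀ (norm_nonneg _) ((norm_av_le _).trans (avg_le fun y => hF1 _ _ _))
      linarith
  -- the total
  have hsplit : ∀ χ : AddChar Γ ℂ,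
      ‖na (2 ^ (4 * (Nat.clog 2 n + t) + 2 ^ t * E n)) (fun p =>
        u χ (out (bucketG t E G) n p) * χ (lin α (out (bucketG t E G) n p)))‖ ≤
      nr (16 ^ (Nat.clog 2 n + t)) (fun q => ‖av (F χ q)‖) := by
    intro χ
    rw [bucket_average t E G n (fun x => u χ x * χ (lin α x))]
    exact norm_na_le _ _
  refine le_of_pow_le_pow_left₀ hm.ne' hε.le ?_
  refine (pow_le_pow_left₀ (avg_nonneg fun χ => norm_nonneg _) (avg_mono hsplit) m).trans ?_
  refine (avg_pow_le (fun χ => nr_nonneg fun q _ => norm_nonneg _) m).trans ?_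
  refine (avg_mono fun χ => nr_pow_le (by positivity) (fun q _ => norm_nonneg _) m).trans ?_
  rw [avg_nr]
  refine (nr_mono fun q _ => hpow q).trans ?_
  rw [nr_add, nr_const (by positivity)]
  have hsum : nr (16 ^ (Nat.clog 2 n + t)) (fun q => (∑ r : Fin (2 ^ t),
      (η + if N₀ ≤ (I.filter fun i => bk t n q i = r).card then 0 else 1)) / ((2 ^ t : ℕ) : ℝ)) ≤
      η + η := by
    have e5 : nr (16 ^ (Nat.clog 2 n + t)) (fun q => (∑ r : Fin (2 ^ t),
        (η + if N₀ ≤ (I.filter fun i => bk t n q i = r).card then 0 else 1)) / ((2 ^ t : ℕ) : ℝ)) =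
        (∑ r : Fin (2 ^ t), nr (16 ^ (Nat.clog 2 n + t)) (fun q =>
        (η + if N₀ ≤ (I.filter fun i => bk t n q i = r).card then 0 else 1))) / ((2 ^ t : ℕ) : ℝ) := by
      rw [← nr_sum]
      unfold nr
      rw [← Finset.sum_div]
      ring
    rw [e5, div_le_iff₀ (by positivity)]
    have e6 : ∀ r : Fin (2 ^ t), nr (16 ^ (Nat.clog 2 n + t)) (fun q =>
        (η + if N₀ ≤ (I.filter fun i => bk t n q i = r).card then 0 else 1)) ≤ η + η := by
      intro r
      rw [nr_add, nr_const (by positivity)]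
      have hN0 : (0 : ℝ) ≤ N₀ := Nat.cast_nonneg _
      have hN1 : (0 : ℝ) ≤ N' := Nat.cast_nonneg _
      have e7 := bucket_count r I N₀ (by linarith) hI0
      have e8 : 4 / ((I.card : ℝ) / 2 ^ t) ≤ η := by
        rw [div_le_iff₀ (by linarith)]
        rw [div_le_iff₀ hη0] at hN'
        nlinarith
      linarith
    calc (∑ r : Fin (2 ^ t), nr (16 ^ (Nat.clog 2 n + t)) (fun q =>
        (η + if N₀ ≤ (I.filter fun i => bk t n q i = r).card then 0 else 1)))
        ≤ ∑ _r : Fin (2 ^ t), (η + η) := Finset.sum_le_sum fun r _ => e6 r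
      _ = (η + η) * ((2 ^ t : ℕ) : ℝ) := by
        rw [Finset.sum_const, Finset.card_univ, Fintype.card_fin, nsmul_eq_mul, mul_comm]
  have : η + η + η = ε ^ m := by rw [hη]; ring
  linarith

end Pool.Agent.MP_ca1109_lc.Agp
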