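import Pool.Agent.MP_ca1109_lc.Agp.W2

/-!
# Sums modulo two and mixtures of explicit generators
-/

namespace Pool.Agent.MP_ca1109_lc.Agp

open Pool.Agent.H66 Pool.Agent.MP_ca1109_lc.Mpg Finset

/- PROOF NOTES [AGP-G1].  Naturals are encoded in unary.  Tools: `d3_div, d3_mod` (`Mpg/D3`), `polyTime_clog` (`MonoPoly`),
`polyTime_nseed` (`SymGen`: `nseed e n = (2 ^ Nat.clog 2 n) ^ e`), `polyTime_pow, polyTime_xor` (`MonoStep`), `PolyTime.mul, add, sub, ite, ltb,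
fst, snd, pair, comp, const` (`Lib/helper66/{Closure,Iterate}`); `2 ^ Nat.clog 2 n ≤ 2 * n + 1` (`nseed_le`, see `d4_M_le` in `Mpg/D4`).
`pb_mul, pb_pow, pb_const, pb_clog`: elementary, e.g. `c₁ (n+1)^c₁ * (c₂ (n+1)^c₂) = c₁ c₂ (n+1)^(c₁+c₂) ≤ c (n+1)^c` with
`c = c₁ * c₂ + c₁ + c₂` (`Nat.pow_le_pow_right`).
`polyTime_hs`: `4 ^ (clog 2 n + t) = 4^t * (2 ^ clog 2 n)^2 = 4^t * nseed 2 n`, `2 ^ (clog 2 n + t) = 2^t * nseed 1 n`.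
`NG.xor`: `2 ^ (E₁ n + E₂ n) = 2 ^ E₁ n * 2 ^ E₂ n`.  `NG.sel`: `2 ^ (4 * (clog 2 n + t)) = 16^t * (2 ^ clog 2 n)^4`. -/

theorem pb_mul {f g : ℕ → ℕ} (hf : ∃ c : ℕ, ∀ n, f n ≤ c * (n + 1) ^ c)
    (hg : ∃ c : ℕ, ∀ n, g n ≤ c * (n + 1) ^ c) : ∃ c : ℕ, ∀ n, f n * g n ≤ c * (n + 1) ^ c := by
  obtain ⟨c₁, h₁⟩ := hf
  obtain ⟨c₂, h₂⟩ := hg
  refine ⟨c₁ * c₂ + c₁ + c₂, fun n => ?_⟩
  calc f n * g n ≤ (c₁ * (n + 1) ^ c₁) * (c₂ * (n + 1) ^ c₂) := Nat.mul_le_mul (h₁ n) (h₂ n)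
    _ = (c₁ * c₂) * (n + 1) ^ (c₁ + c₂) := by rw [pow_add]; ring
    _ ≤ _ := Nat.mul_le_mul (by omega) (Nat.pow_le_pow_right (by omega) (by omega))

theorem pb_const (a : ℕ) : ∃ c : ℕ, ∀ n : ℕ, a ≤ c * (n + 1) ^ c :=
  ⟨a, fun n => Nat.le_mul_of_pos_right _ (by positivity)⟩

theorem pb_pow {f : ℕ → ℕ} (hf : ∃ c : ℕ, ∀ n, f n ≤ c * (n + 1) ^ c) (k : ℕ) :
    ∃ c : ℕ, ∀ n, f n ^ k ≤ c * (n + 1) ^ c := by
  induction k with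
  | zero =>
    simp only [pow_zero]
    exact pb_const 1
  | succ k ih =>
    simp only [pow_succ]
    exact pb_mul ih hf

theorem pb_clog : ∃ c : ℕ, ∀ n : ℕ, 2 ^ Nat.clog 2 n ≤ c * (n + 1) ^ c := by
  refine ⟨2, fun n => ?_⟩
  have h := nseed_le 1 n
  unfold nseed at h
  rw [pow_one, pow_one] at h
  nlinarith

theorem polyTime_hs (t : ℕ) {γ : Type} [Enc γ] {n q i : γ → ℕ} (hn : PolyTime n) (hq : PolyTime q)
    (hi : PolyTime i) : PolyTime fun c => hs (Nat.clog 2 (n c) + t) (q c) (i c) := by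
  have h4 : PolyTime fun c => 4 ^ (Nat.clog 2 (n c) + t) :=
    (PolyTime.mul (PolyTime.const (4 ^ t)) ((polyTime_nseed 2).comp hn)).of_eq fun c => by
      unfold nseed
      rw [← pow_mul, mul_comm (Nat.clog 2 (n c)) 2, pow_mul, pow_add, mul_comm]
      norm_num
  have h2 : PolyTime fun c => 2 ^ (Nat.clog 2 (n c) + t) :=
    (PolyTime.mul (PolyTime.const (2 ^ t)) ((polyTime_nseed 1).comp hn)).of_eq fun c => by
      unfold nseed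
      rw [pow_one, pow_add, mul_comm]
  exact d3_div (d3_mod (PolyTime.add (PolyTime.mul (d3_div hq h4) hi) (d3_mod hq h4)) h4) h2

theorem polyTime_out {E : ℕ → ℕ} {G : ℕ → ℕ → ℕ → Bool} (h : NG E G) {γ : Type} [Enc γ]
    {n p i : γ → ℕ} (hn : PolyTime n) (hp : PolyTime p) (hi : PolyTime i) :
    PolyTime fun c => G (n c) (p c) (i c) :=
  h.poly_G.comp (hn.pair (hp.pair hi))

theorem NG.xor {E₁ E₂ : ℕ → ℕ} {G₁ G₂ : ℕ → ℕ → ℕ → Bool} (h₁ : NG E₁ G₁) (h₂ : NG E₂ G₂) :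
    NG (fun n => E₁ n + E₂ n) (xorG E₂ G₁ G₂) := by
  have hn : PolyTime fun q : ℕ × (ℕ × ℕ) => q.1 := PolyTime.fst
  have hp : PolyTime fun q : ℕ × (ℕ × ℕ) => q.2.1 := PolyTime.fst.comp PolyTime.snd
  have hi : PolyTime fun q : ℕ × (ℕ × ℕ) => q.2.2 := PolyTime.snd.comp PolyTime.snd
  have hM : PolyTime fun q : ℕ × (ℕ × ℕ) => 2 ^ E₂ q.1 := h₂.poly_M.comp PolyTime.fst
  refine ⟨PolyTime.add h₁.poly_E h₂.poly_E, ?_, ?_, ?_⟩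
  · exact (PolyTime.mul h₁.poly_M h₂.poly_M).of_eq fun n => (pow_add _ _ _).symm
  · obtain ⟨c, hc⟩ := pb_mul h₁.bound h₂.bound
    exact ⟨c, fun n => (pow_add _ _ _).le.trans (hc n)⟩
  · exact polyTime_xor (polyTime_out h₁ hn (d3_div hp hM) hi) (polyTime_out h₂ hn (d3_mod hp hM) hi)

private theorem g1_size (n t a b : ℕ) : 2 ^ (4 * (Nat.clog 2 n + t) + a + b) =
    16 ^ t * nseed 4 n * 2 ^ a * 2 ^ b := by
  unfold nseed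
  rw [pow_add, pow_add, ← pow_mul, show (16 : ℕ) = 2 ^ 4 by norm_num, ← pow_mul, ← pow_add]
  congr 3
  ring

theorem NG.sel (t : ℕ) {E₁ E₂ : ℕ → ℕ} {G₁ G₂ : ℕ → ℕ → ℕ → Bool} (h₁ : NG E₁ G₁)
    (h₂ : NG E₂ G₂) :
    NG (fun n => 4 * (Nat.clog 2 n + t) + E₁ n + E₂ n) (selG t E₁ E₂ G₁ G₂) := by
  have hn : PolyTime fun q : ℕ × (ℕ × ℕ) => q.1 := PolyTime.fst
  have hp : PolyTime fun q : ℕ × (ℕ × ℕ) => q.2.1 := PolyTime.fst.comp PolyTime.snd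
  have hi : PolyTime fun q : ℕ × (ℕ × ℕ) => q.2.2 := PolyTime.snd.comp PolyTime.snd
  have hM₁ : PolyTime fun q : ℕ × (ℕ × ℕ) => 2 ^ E₁ q.1 := h₁.poly_M.comp PolyTime.fst
  have hM₂ : PolyTime fun q : ℕ × (ℕ × ℕ) => 2 ^ E₂ q.1 := h₂.poly_M.comp PolyTime.fst
  have hT : PolyTime fun q : ℕ × (ℕ × ℕ) => 2 ^ Nat.clog 2 q.1 :=
    ((polyTime_nseed 1).comp hn).of_eq fun q => by
      unfold nseed
      rw [pow_one]
  refine ⟨PolyTime.add (PolyTime.add (PolyTime.mul (PolyTime.const 4)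
    (PolyTime.add polyTime_clog (PolyTime.const t))) h₁.poly_E) h₂.poly_E, ?_, ?_, ?_⟩
  · exact (PolyTime.mul (PolyTime.mul (PolyTime.mul (PolyTime.const (16 ^ t)) (polyTime_nseed 4))
      h₁.poly_M) h₂.poly_M).of_eq fun n => by rw [g1_size]
  · obtain ⟨c, hc⟩ := pb_mul (pb_mul (pb_mul (pb_const (16 ^ t)) (pb_pow pb_clog 4)) h₁.bound)
      h₂.bound
    refine ⟨c, fun n => ?_⟩
    show 2 ^ (4 * (Nat.clog 2 n + t) + E₁ n + E₂ n) ≤ _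
    rw [g1_size]
    exact hc n
  · refine (PolyTime.ite (PolyTime.ltb (polyTime_hs t hn (d3_div (d3_div hp hM₂) hM₁) hi) hT)
      (polyTime_out h₁ hn (d3_mod (d3_div hp hM₂) hM₁) hi)
      (polyTime_out h₂ hn (d3_mod hp hM₂) hi)).of_eq fun q => ?_
    unfold selG
    simp only [decide_eq_true_eq]

end Pool.Agent.MP_ca1109_lc.Agp
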