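import Pool.Agent.MP_ca1109_lc.Agp.N2

/-!
# Polynomials with coefficients in an abelian group
-/

namespace Pool.Agent.MP_ca1109_lc.Agp

open Pool.Agent.MP_ca1109_lc.Mpg Finset

/- PROOF NOTES [AGP-P1].
`pol_add, pol_sub, pol_hom`: termwise (`Finset.sum_add_distrib`, `map_sum`, `apply_ite`).
`pol_mem`: `AddSubgroup.sum_mem`; the term of `S` is `0` if `j < S.card`, otherwise it depends on the
coordinates in `S` only (`junta_mem` of `Mpg/A4`).
`exists_pol`: `lowDeg_induction` (`Mpg/A4`).  For `g` with `DependsOn g T`, `T.card ≤ j`, put (Moebius inversion)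
`c S = if S ⊆ T then ∑ U ∈ S.powerset, (-1)^(S.card - U.card) • g (fun i => decide (i ∈ U)) else 0`; then
`pol c x = ∑ S ⊆ T.filter (x · = true), c S = g (1_{T.filter x}) = g x` (Moebius inversion over subsets, e.g. by
`Finset.sum_powerset_neg_one_pow_card` / exchange the sums; alternatively prove
`∀ T, ∀ g, DependsOn g T → ∃ c, (∀ S, ¬ S ⊆ T → c S = 0) ∧ ∀ x, g x = pol c x` by induction on `T`: for
`insert a T` write `g x = g (x with x_a = false) + (if x a then g (x with x_a = true) - g (x with x_a = false) else 0)`,
with `Function.update x a _`, and the two functions `g ∘ (update · a false)`, `g ∘ (update · a true) - g ∘ (update · a false)`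
depend on `T` only; if they are `pol c₀`, `pol c₁` with coefficients on subsets of `T` then
`c S = if a ∈ S then c₁ (S.erase a) else c₀ S`).
`pol_lin`: `Deg 1 c`: the sum over all `S` reduces to `S = ∅` and the singletons
(`Finset.sum_subset` from the image of `{a} ` and `∅`; or use `Finset.sum_eq_..`).
`tors_phase`: `χ (pol c x) = ∏ S, (if ∀ i ∈ S, x i = true then χ (c S) else 1)` (`AddChar.map_sum_eq_prod`), and
`χ (c S) ^ m' = χ (m' • c S) = 1` (`AddChar.map_nsmul_eq_pow`), so there is `a S : ZMod m'` with `ph m' (a S) = χ (c S)`
(`root_phase`; choose `a S = 0` when `c S = 0`); hence `χ (pol c x) = ph m' (pol a x)` with `Deg j a` and `pol_mem`.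
`root_phase`: an `m'`-th root of unity is `exp (2 π i j / m')` with `j < m'` (`Complex.mem_rootsOfUnity` /
`Complex.isPrimitiveRoot_exp` with `IsPrimitiveRoot.eq_pow_of_pow_eq_one`) `= ph m' j` (`ZMod.stdAddChar_coe`). -/

section

variable {Γ Γ' : Type*} [AddCommGroup Γ] [AddCommGroup Γ'] {n : ℕ}

theorem pol_add (c c' : Finset (Fin n) → Γ) (x : Fin n → Bool) :
    pol (fun S => c S + c' S) x = pol c x + pol c' x := by
  unfold pol
  rw [← Finset.sum_add_distrib]
  refine Finset.sum_congr rfl fun S _ => ?_
  split_ifs
  · rfl
  · rw [add_zero]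

theorem pol_hom (φ : Γ →+ Γ') (c : Finset (Fin n) → Γ) (x : Fin n → Bool) :
    φ (pol c x) = pol (fun S => φ (c S)) x := by
  unfold pol
  rw [map_sum]
  refine Finset.sum_congr rfl fun S _ => ?_
  split_ifs
  · rfl
  · rw [map_zero]

theorem pol_mem {j : ℕ} {c : Finset (Fin n) → Γ} (hc : Deg j c) :
    pol c ∈ lowDeg (Fin n) Bool Γ j := by
  have h1 : pol c = ∑ S, fun x => if ∀ i ∈ S, x i = true then c S else 0 := by
    funext x
    rw [Finset.sum_apply]
    rfl
  rw [h1]
  refine AddSubgroup.sum_mem _ fun S _ => ?_
  by_cases hS : j < S.card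
  · have h2 : (fun x : Fin n → Bool => if ∀ i ∈ S, x i = true then c S else 0) = 0 := by
      funext x
      rw [hc S hS]
      split_ifs <;> rfl
    rw [h2]
    exact AddSubgroup.zero_mem _
  · refine junta_mem S (not_lt.1 hS) (fun x y h => ?_)
    have h3 : (∀ i ∈ S, x i = true) ↔ ∀ i ∈ S, y i = true := by
      constructor
      · intro h4 i hi
        rw [← h i hi]
        exact h4 i hi
      · intro h4 i hi
        rw [h i hi]
        exact h4 i hi
    show (if ∀ i ∈ S, x i = true then c S else 0) = if ∀ i ∈ S, y i = true then c S else 0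
    by_cases h4 : ∀ i ∈ S, y i = true
    · rw [if_pos h4, if_pos (h3.2 h4)]
    · rw [if_neg h4, if_neg (fun h5 => h4 (h3.1 h5))]

/-- Moebius inversion for functions which depend on the coordinates in `T` only. -/
theorem p1_dep (T : Finset (Fin n)) : ∀ g : (Fin n → Bool) → Γ, DependsOn g (T : Set (Fin n)) →
    ∃ c : Finset (Fin n) → Γ, (∀ S, ¬ S ⊆ T → c S = 0) ∧ ∀ x, g x = pol c x := by
  classical
  induction T using Finset.induction_on with
  | empty =>
    intro g hg
    refine ⟨fun S => if S = ∅ then g (fun _ => false) else 0, fun S hS => ?_, fun x => ?_⟩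
    · exact if_neg (fun h => hS (by rw [h]))
    · unfold pol
      rw [Finset.sum_eq_single ∅]
      · rw [if_pos (by simp)]
        show g x = if (∅ : Finset (Fin n)) = ∅ then g (fun _ => false) else 0
        rw [if_pos rfl]
        exact hg (fun i hi => absurd hi (by simp))
      · intro S _ hS
        show (if ∀ i ∈ S, x i = true then (if S = ∅ then g (fun _ => false) else 0) else 0) = 0
        rw [if_neg hS]
        split_ifs <;> rfl
      · intro h
        exact absurd (Finset.mem_univ _) h
  | insert a T ha ih =>
    intro g hg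
    have hd : ∀ b : Bool, DependsOn (fun x : Fin n → Bool => g (Function.update x a b))
        (T : Set (Fin n)) := by
      intro b x y hxy
      refine hg fun i hi => ?_
      by_cases hia : i = a
      · rw [hia, Function.update_self, Function.update_self]
      · rw [Function.update_of_ne hia, Function.update_of_ne hia]
        refine hxy i ?_
        rw [Finset.mem_coe] at hi ⊢
        exact (Finset.mem_insert.1 hi).resolve_left hia
    obtain ⟨c0, h01, h02⟩ := ih (fun x => g (Function.update x a false)) (hd false)
    obtain ⟨c1, h11, h12⟩ := ih (fun x => g (Function.update x a true) -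
      g (Function.update x a false)) (fun x y hxy => by
        have h1 : g (Function.update x a true) = g (Function.update y a true) := hd true hxy
        have h2 : g (Function.update x a false) = g (Function.update y a false) := hd false hxy
        show g _ - g _ = g _ - g _
        rw [h1, h2])
    have hmem : ∀ S : Finset (Fin n), a ∈ S → ¬ S ⊆ T := fun S hS h => ha (h hS)
    refine ⟨fun S => if a ∈ S then c1 (S.erase a) else c0 S, fun S hS => ?_, fun x => ?_⟩
    · show (if a ∈ S then c1 (S.erase a) else c0 S) = 0
      by_cases haS : a ∈ S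
      · rw [if_pos haS]
        refine h11 _ fun h => hS ?_
        intro i hi
        by_cases hia : i = a
        · rw [hia]; exact Finset.mem_insert_self _ _
        · exact Finset.mem_insert_of_mem (h (Finset.mem_erase.2 ⟨hia, hi⟩))
      · rw [if_neg haS]
        exact h01 _ fun h => hS (h.trans (Finset.subset_insert _ _))
    · have e0 : pol c0 x = ∑ S ∈ univ.filter (fun S : Finset (Fin n) => a ∉ S),
          if ∀ i ∈ S, x i = true then c0 S else 0 := by
        unfold pol
        rw [← Finset.sum_filter_add_sum_filter_not univ (fun S : Finset (Fin n) => a ∈ S)]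
        rw [Finset.sum_eq_zero, zero_add]
        intro S hS
        rw [h01 S (hmem S (Finset.mem_filter.1 hS).2)]
        split_ifs <;> rfl
      have e1 : pol c1 x = ∑ S ∈ univ.filter (fun S : Finset (Fin n) => a ∉ S),
          if ∀ i ∈ S, x i = true then c1 S else 0 := by
        unfold pol
        rw [← Finset.sum_filter_add_sum_filter_not univ (fun S : Finset (Fin n) => a ∈ S)]
        rw [Finset.sum_eq_zero, zero_add]
        intro S hS
        rw [h11 S (hmem S (Finset.mem_filter.1 hS).2)]
        split_ifs <;> rfl
      have e2 : (∑ S ∈ univ.filter (fun S : Finset (Fin n) => a ∈ S),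
          if ∀ i ∈ S, x i = true then (if a ∈ S then c1 (S.erase a) else c0 S) else 0) =
          ∑ S ∈ univ.filter (fun S : Finset (Fin n) => a ∉ S),
            if x a = true then (if ∀ i ∈ S, x i = true then c1 S else 0) else 0 := by
        refine Finset.sum_nbij' (fun S => S.erase a) (fun S => insert a S) ?_ ?_ ?_ ?_ ?_
        · intro S hS
          rw [Finset.mem_filter]
          exact ⟨Finset.mem_univ _, Finset.notMem_erase _ _⟩
        · intro S hS
          rw [Finset.mem_filter]
          exact ⟨Finset.mem_univ _, Finset.mem_insert_self _ _⟩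
        · intro S hS
          exact Finset.insert_erase (Finset.mem_filter.1 hS).2
        · intro S hS
          exact Finset.erase_insert (Finset.mem_filter.1 hS).2
        · intro S hS
          have haS : a ∈ S := (Finset.mem_filter.1 hS).2
          rw [if_pos haS]
          by_cases hx : ∀ i ∈ S, x i = true
          · rw [if_pos hx, if_pos (hx a haS), if_pos (fun i hi => hx i (Finset.mem_of_mem_erase hi))]
          · rw [if_neg hx]
            by_cases hxa : x a = true
            · rw [if_pos hxa, if_neg]
              intro h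
              apply hx
              intro i hi
              by_cases hia : i = a
              · rw [hia]; exact hxa
              · exact h i (Finset.mem_erase.2 ⟨hia, hi⟩)
            · rw [if_neg hxa]
      have e3 : pol (fun S => if a ∈ S then c1 (S.erase a) else c0 S) x =
          (if x a = true then pol c1 x else 0) + pol c0 x := by
        have e4 : pol (fun S => if a ∈ S then c1 (S.erase a) else c0 S) x =
            ∑ S : Finset (Fin n),
              if ∀ i ∈ S, x i = true then (if a ∈ S then c1 (S.erase a) else c0 S) else 0 := rfl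
        rw [e4, ← Finset.sum_filter_add_sum_filter_not univ (fun S : Finset (Fin n) => a ∈ S), e2]
        congr 1
        · by_cases hxa : x a = true
          · simp only [if_pos hxa]
            exact e1.symm
          · simp only [if_neg hxa, Finset.sum_const_zero]
        · rw [e0]
          refine Finset.sum_congr rfl fun S hS => ?_
          rw [if_neg (Finset.mem_filter.1 hS).2]
      rw [e3, ← h12 x, ← h02 x]
      by_cases hxa : x a = true
      · rw [if_pos hxa]
        show g x = g (Function.update x a true) - g (Function.update x a false) +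
          g (Function.update x a false)
        rw [sub_add_cancel, ← hxa, Function.update_eq_self]
      · rw [if_neg hxa, zero_add]
        show g x = g (Function.update x a false)
        have h5 : x a = false := by simpa using hxa
        rw [← h5, Function.update_eq_self]

theorem exists_pol {j : ℕ} {P : (Fin n → Bool) → Γ} (hP : P ∈ lowDeg (Fin n) Bool Γ j) :
    ∃ c : Finset (Fin n) → Γ, Deg j c ∧ ∀ x, P x = pol c x := by
  refine lowDeg_induction (p := fun P => ∃ c : Finset (Fin n) → Γ, Deg j c ∧ ∀ x, P x = pol c x)
    hP ?_ ?_ ?_ ?_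
  · intro g T hT hg
    obtain ⟨c, h1, h2⟩ := p1_dep T g hg
    exact ⟨c, fun S hS => h1 S fun h => absurd (Finset.card_le_card h) (by omega), h2⟩
  · refine ⟨fun _ => 0, fun _ _ => rfl, fun x => ?_⟩
    unfold pol
    exact (Finset.sum_eq_zero fun S _ => by split_ifs <;> rfl).symm
  · rintro f g ⟨c, h1, h2⟩ ⟨c', h1', h2'⟩
    refine ⟨fun S => c S + c' S, fun S hS => ?_, fun x => ?_⟩
    · show c S + c' S = 0
      rw [h1 S hS, h1' S hS, add_zero]
    · show f x + g x = _
      rw [h2, h2', pol_add]
  · rintro f ⟨c, h1, h2⟩
    refine ⟨fun S => - c S, fun S hS => ?_, fun x => ?_⟩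
    · show - c S = 0
      rw [h1 S hS, neg_zero]
    · show - f x = _
      rw [h2]
      exact pol_hom (negAddMonoidHom : Γ →+ Γ) c x

theorem pol_lin {c : Finset (Fin n) → Γ} (hc : Deg 1 c) (x : Fin n → Bool) :
    pol c x = c ∅ + lin (fun i => c {i}) x := by
  classical
  unfold pol lin
  have hsub := Finset.sum_subset (f := fun S : Finset (Fin n) =>
    if ∀ i ∈ S, x i = true then c S else 0) (Finset.subset_univ (insert ∅ ((univ : Finset (Fin n)).image
    (fun i => ({i} : Finset (Fin n)))))) (fun S _ hS => by
      have h1 : 1 < S.card := by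
        by_contra h
        apply hS
        rw [Finset.mem_insert]
        rcases Nat.lt_or_ge S.card 1 with h2 | h2
        · exact Or.inl (Finset.card_eq_zero.1 (by omega))
        · obtain ⟨i, hi⟩ := Finset.card_eq_one.1 (le_antisymm (not_lt.1 h) h2)
          exact Or.inr (Finset.mem_image.2 ⟨i, Finset.mem_univ _, hi.symm⟩)
      rw [hc S h1]
      split_ifs <;> rfl)
  rw [← hsub]
  · rw [Finset.sum_insert, Finset.sum_image]
    · have he : (if ∀ i ∈ (∅ : Finset (Fin n)), x i = true then c ∅ else 0) = c ∅ :=
        if_pos (fun i hi => absurd hi (Finset.notMem_empty i))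
      rw [he]
      congr 1
      refine Finset.sum_congr rfl fun i _ => ?_
      by_cases hi : x i = true
      · rw [if_pos hi, if_pos]
        intro k hk
        rw [Finset.mem_singleton.1 hk]
        exact hi
      · rw [if_neg hi, if_neg]
        intro h
        exact hi (h i (Finset.mem_singleton_self i))
    · intro a _ b _ h
      exact Finset.singleton_injective h
    · intro h
      obtain ⟨i, _, hi⟩ := Finset.mem_image.1 h
      exact Finset.singleton_ne_empty i hi

end

theorem root_phase {m : ℕ} [NeZero m] {z : ℂ} (hz : z ^ m = 1) : ∃ a : ZMod m, ph m a = z := by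
  obtain ⟨i, _, hi⟩ := (Complex.isPrimitiveRoot_exp m (NeZero.ne m)).eq_pow_of_pow_eq_one hz
  refine ⟨((i : ℤ) : ZMod m), ?_⟩
  unfold ph
  rw [ZMod.stdAddChar_coe, ← hi, ← Complex.exp_nat_mul]
  congr 1
  push_cast
  ring

/-- characters of sums -/
theorem p1_map_sum {Γ J : Type*} [AddCommGroup Γ] (χ : AddChar Γ ℂ) (s : Finset J) (f : J → Γ) :
    χ (∑ S ∈ s, f S) = ∏ S ∈ s, χ (f S) := by
  classical
  induction s using Finset.induction_on with
  | empty => rw [Finset.sum_empty, Finset.prod_empty, AddChar.map_zero_eq_one]
  | insert a s ha ih =>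
    rw [Finset.sum_insert ha, Finset.prod_insert ha, AddChar.map_add_eq_mul, ih]

theorem tors_phase {Γ : Type*} [AddCommGroup Γ] {n j m : ℕ} [NeZero m] {c : Finset (Fin n) → Γ}
    (hc : Deg j c) (hm : ∀ S, m • c S = 0) (χ : AddChar Γ ℂ) :
    (fun x => χ (pol c x)) ∈ phCls m Bool j n := by
  have h : ∀ S, ∃ a : ZMod m, ph m a = χ (c S) ∧ (c S = 0 → a = 0) := by
    intro S
    by_cases hS : c S = 0
    · refine ⟨0, ?_, fun _ => rfl⟩
      rw [ph_zero, hS, AddChar.map_zero_eq_one]
    · obtain ⟨a, ha⟩ := root_phase (m := m) (z := χ (c S)) (by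
        rw [← AddChar.map_nsmul_eq_pow, hm S, AddChar.map_zero_eq_one])
      exact ⟨a, ha, fun h => absurd h hS⟩
  choose a ha1 ha2 using h
  refine ⟨pol a, pol_mem (fun S hS => ha2 S (hc S hS)), ?_⟩
  funext x
  show χ (pol c x) = ph m (pol a x)
  unfold pol
  rw [ph_sum, p1_map_sum]
  refine Finset.prod_congr rfl fun S _ => ?_
  split_ifs
  · exact (ha1 S).symm
  · rw [ph_zero, AddChar.map_zero_eq_one]

end Pool.Agent.MP_ca1109_lc.Agp
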