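import Pool.Agent.MP_ca1109_lc.Agp.N2
import Pool.Agent.MP_ca1109_lc.Agp.P1

/-!
# The inequality of Cauchy and Schwarz for mixtures
-/

namespace Pool.Agent.MP_ca1109_lc.Agp

open Pool.Agent.MP_ca1109_lc.Mpg Finset

/- PROOF NOTES [AGP-S2].  `f χ x = u χ x * χ (pol c x)`, `‖f χ x‖ ≤ 1` (`tw_norm`, `AddChar.norm_apply`).  For fixed `χ`:
`‖na M₁ (fun p => na M₂ (fun a => f χ (sel V (X₁ p) (X₂ a))))‖ ^ 2 = ‖na M₂ (fun a => na M₁ ..)‖ ^ 2` (`na_comm`)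
`≤ nr M₂ (fun a => ‖na M₁ (fun p => ..)‖ ^ 2)` (`norm_na_sq_le`), whose complex cast is (`norm_na_sq`, `na_comm` twice)
`na M₁ (fun p => na M₁ (fun q => na M₂ (fun a => f χ (sel V (X₁ p) (X₂ a)) * conj (f χ (sel V (X₁ q) (X₂ a))))))`, so it is at most
`nr M₁ (fun p => nr M₁ (fun q => ‖na M₂ (fun a => ..)‖))`.  Average over `χ` (`avg_nr`): for each `(p, q)`, if there is `c'` as in the
definition of `Good`, then `f χ (sel V b x) * conj (f χ (sel V b' x)) = (u χ (sel V b x) * conj (u χ (sel V b' x))) * χ (pol c' x)`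
(`χ z * conj (χ z') = χ (z - z')`: `AddChar.map_sub_eq_div`, `AddChar.map_neg_eq_conj`), with a twist in `phCls m Bool d n` (`tw_diff`), so
`h₂` bounds the average over `χ` by `ε₂`; otherwise it is at most `1`.  So
`avg (fun χ => ‖..‖) ^ 2 ≤ avg (fun χ => ‖..‖ ^ 2) ≤ ε₂ + (the average of the bad indicator) ≤ ε₂ + ε₁` (`avg_pow_le` of `N1`; `0 ≤ ε₂`). -/

private theorem s2_vdc {M₁ M₂ : ℕ} (hM₂ : 0 < M₂) (F : ℕ → ℕ → ℂ) :
    ‖na M₁ (fun p => na M₂ (fun a => F p a))‖ ^ 2 ≤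
      nr M₁ (fun p => nr M₁ (fun q => ‖na M₂ (fun a => F p a * (starRingEnd ℂ) (F q a))‖)) := by
  rw [na_comm]
  refine (norm_na_sq_le hM₂ fun a => na M₁ (fun p => F p a)).trans ?_
  have h1 : ((nr M₂ (fun a => ‖na M₁ (fun p => F p a)‖ ^ 2) : ℝ) : ℂ) =
      na M₁ (fun p => na M₁ (fun q => na M₂ (fun a => F p a * (starRingEnd ℂ) (F q a)))) := by
    rw [nr_ofReal]
    have h2 : ∀ a, ((‖na M₁ (fun p => F p a)‖ ^ 2 : ℝ) : ℂ) =
        na M₁ (fun p => na M₁ (fun q => F p a * (starRingEnd ℂ) (F q a))) :=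
      fun a => norm_na_sq M₁ (fun p => F p a)
    rw [na_congr fun a _ => h2 a, na_comm]
    exact na_congr fun p _ => na_comm M₂ M₁ (fun a q => F p a * (starRingEnd ℂ) (F q a))
  have h0 : 0 ≤ nr M₂ (fun a => ‖na M₁ (fun p => F p a)‖ ^ 2) := nr_nonneg fun a _ => by positivity
  have h3 : nr M₂ (fun a => ‖na M₁ (fun p => F p a)‖ ^ 2) =
      ‖na M₁ (fun p => na M₁ (fun q => na M₂ (fun a => F p a * (starRingEnd ℂ) (F q a))))‖ := by
    rw [← h1, Complex.norm_real, Real.norm_eq_abs, abs_of_nonneg h0]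
  rw [h3]
  refine (norm_na_le _ _).trans (nr_mono fun p _ => norm_na_le _ _)

open Classical in
theorem sel_cs {Γ : Type} [AddCommGroup Γ] [Fintype Γ] {n m d j N₂ m₂ M₁ M₂ : ℕ} [NeZero m]
    {ε₁ ε₂ : ℝ} {c : Finset (Fin n) → Γ} (V : Fin n → Bool) (hM₁ : 0 < M₁) (hM₂ : 0 < M₂)
    (X₁ X₂ : ℕ → Fin n → Bool) (h0 : 0 ≤ ε₂) (h₂ : SPok m d j N₂ m₂ ε₂ M₂ X₂)
    (h₁ : nr M₁ (fun p => nr M₁ (fun q => if ∃ c' : Finset (Fin n) → Γ, Deg j c' ∧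
      Wide N₂ m₂ j c' ∧ ∀ a, pol c (sel V (X₁ p) a) - pol c (sel V (X₁ q) a) = pol c' a
      then 0 else 1)) ≤ ε₁)
    (u : AddChar Γ ℂ → (Fin n → Bool) → ℂ) (hu : ∀ χ, u χ ∈ phCls m Bool d n) :
    (avg (fun χ : AddChar Γ ℂ => ‖na M₁ (fun p => na M₂ (fun a =>
      u χ (sel V (X₁ p) (X₂ a)) * χ (pol c (sel V (X₁ p) (X₂ a)))))‖)) ^ 2 ≤ ε₂ + ε₁ := by
  refine (avg_pow_le (fun χ => norm_nonneg _) 2).trans ?_
  refine (avg_mono fun χ => s2_vdc (M₁ := M₁) hM₂ fun p a =>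
    u χ (sel V (X₁ p) (X₂ a)) * χ (pol c (sel V (X₁ p) (X₂ a)))).trans ?_
  rw [avg_nr]
  have key : ∀ p q, avg (fun χ : AddChar Γ ℂ => ‖na M₂ (fun a =>
      (u χ (sel V (X₁ p) (X₂ a)) * χ (pol c (sel V (X₁ p) (X₂ a)))) * (starRingEnd ℂ)
      (u χ (sel V (X₁ q) (X₂ a)) * χ (pol c (sel V (X₁ q) (X₂ a)))))‖) ≤
      ε₂ + (if ∃ c' : Finset (Fin n) → Γ, Deg j c' ∧
      Wide N₂ m₂ j c' ∧ ∀ a, pol c (sel V (X₁ p) a) - pol c (sel V (X₁ q) a) = pol c' a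
      then 0 else 1) := by
    intro p q
    by_cases hg : ∃ c' : Finset (Fin n) → Γ, Deg j c' ∧
      Wide N₂ m₂ j c' ∧ ∀ a, pol c (sel V (X₁ p) a) - pol c (sel V (X₁ q) a) = pol c' a
    · rw [if_pos hg, add_zero]
      obtain ⟨c', hd, hw, he⟩ := hg
      have h3 := h₂ Γ c' hd hw
        (fun χ a => u χ (sel V (X₁ p) a) * (starRingEnd ℂ) (u χ (sel V (X₁ q) a)))
        (fun χ => tw_diff (hu χ) V (X₁ p) (X₁ q))
      refine le_of_eq_of_le ?_ h3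
      congr 1
      funext χ
      congr 2
      funext a
      rw [← he (X₂ a), sub_eq_add_neg, AddChar.map_add_eq_mul, AddChar.map_neg_eq_conj, map_mul]
      ring
    · rw [if_neg hg]
      have h3 : avg (fun χ : AddChar Γ ℂ => ‖na M₂ (fun a =>
          (u χ (sel V (X₁ p) (X₂ a)) * χ (pol c (sel V (X₁ p) (X₂ a)))) * (starRingEnd ℂ)
          (u χ (sel V (X₁ q) (X₂ a)) * χ (pol c (sel V (X₁ q) (X₂ a)))))‖) ≤ 1 := by
        refine avg_le fun χ => norm_na_le_of hM₂ fun a _ => ?_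
        rw [norm_mul, norm_mul, RCLike.norm_conj, norm_mul, tw_norm (hu χ), tw_norm (hu χ),
          AddChar.norm_apply, AddChar.norm_apply]
        norm_num
      linarith
  have h4 : nr M₁ (fun p => avg (fun χ : AddChar Γ ℂ => nr M₁ (fun q => ‖na M₂ (fun a =>
      (u χ (sel V (X₁ p) (X₂ a)) * χ (pol c (sel V (X₁ p) (X₂ a)))) * (starRingEnd ℂ)
      (u χ (sel V (X₁ q) (X₂ a)) * χ (pol c (sel V (X₁ q) (X₂ a)))))‖))) ≤
      nr M₁ (fun p => nr M₁ (fun q => ε₂ + (if ∃ c' : Finset (Fin n) → Γ, Deg j c' ∧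
      Wide N₂ m₂ j c' ∧ ∀ a, pol c (sel V (X₁ p) a) - pol c (sel V (X₁ q) a) = pol c' a
      then 0 else 1))) := by
    refine nr_mono fun p _ => ?_
    rw [avg_nr]
    exact nr_mono fun q _ => key p q
  refine h4.trans ?_
  have h5 : ∀ p, nr M₁ (fun q => ε₂ + (if ∃ c' : Finset (Fin n) → Γ, Deg j c' ∧
      Wide N₂ m₂ j c' ∧ ∀ a, pol c (sel V (X₁ p) a) - pol c (sel V (X₁ q) a) = pol c' a
      then (0 : ℝ) else 1)) = ε₂ + nr M₁ (fun q => (if ∃ c' : Finset (Fin n) → Γ, Deg j c' ∧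
      Wide N₂ m₂ j c' ∧ ∀ a, pol c (sel V (X₁ p) a) - pol c (sel V (X₁ q) a) = pol c' a
      then (0 : ℝ) else 1)) := fun p => by
    rw [nr_add, nr_const hM₁]
  rw [nr_congr fun p _ => h5 p, nr_add, nr_const hM₁]
  linarith

end Pool.Agent.MP_ca1109_lc.Agp
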