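import Pool.Agent.MP_ca1109_lc.Agp.S1
import Pool.Agent.MP_ca1109_lc.Agp.S2
import Pool.Agent.MP_ca1109_lc.Agp.H2
import Pool.Agent.MP_ca1109_lc.Agp.G1

/-!
# Generators which spread wide polynomials of every degree
-/

namespace Pool.Agent.MP_ca1109_lc.Agp

open Pool.Agent.MP_ca1109_lc.Mpg Finset

theorem ls_sp {m d : ℕ} [NeZero m] (h : LS m d) : SP m d 1 := by
  classical
  intro ε hε
  obtain ⟨N, m', hm', E, G, hG, H⟩ := h ε hε
  refine ⟨N, m', hm', E, G, hG, fun n Γ _ _ c hc hw u hu => ?_⟩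
  obtain ⟨𝒮, h1, h2, h3⟩ := hw
  have hI : N ≤ (univ.filter fun i : Fin n => m' • c {i} ≠ 0).card := by
    refine h1.trans ?_
    have hsub : 𝒮 ⊆ (univ.filter fun i : Fin n => m' • c {i} ≠ 0).image
        (fun i => ({i} : Finset (Fin n))) := by
      intro S hS
      obtain ⟨hS1, hS2⟩ := h2 S hS
      obtain ⟨i, rfl⟩ := Finset.card_eq_one.1 hS1
      exact Finset.mem_image.2 ⟨i, Finset.mem_filter.2 ⟨Finset.mem_univ _, hS2⟩, rfl⟩
    exact (Finset.card_le_card hsub).trans Finset.card_image_le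
  have h4 := H n Γ (fun i => c {i}) _ hI (fun i hi => (Finset.mem_filter.1 hi).2) u hu
  refine le_trans (le_of_eq ?_) h4
  congr 1
  funext χ
  have h5 : ∀ p, u χ (out G n p) * χ (pol c (out G n p)) =
      χ (c ∅) * (u χ (out G n p) * χ (lin (fun i => c {i}) (out G n p))) := by
    intro p
    rw [pol_lin hc, AddChar.map_add_eq_mul]
    ring
  rw [na_congr fun p _ => h5 p, na_mul_left, norm_mul, AddChar.norm_apply, one_mul]


/-- Twisted polynomials are bounded by one. -/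
theorem tw_bound {Γ : Type*} [AddCommGroup Γ] [Fintype Γ] {m d n : ℕ} [NeZero m]
    {u : (Fin n → Bool) → ℂ} (hu : u ∈ phCls m Bool d n) (χ : AddChar Γ ℂ) (g : Γ)
    (x : Fin n → Bool) : ‖u x * χ g‖ ≤ 1 := by
  rw [norm_mul, tw_norm hu, AddChar.norm_apply, one_mul]

theorem s3_out (t : ℕ) (E₁ E₂ : ℕ → ℕ) (G₁ G₂ : ℕ → ℕ → ℕ → Bool) (n p : ℕ) :
    out (selG t E₁ E₂ G₁ G₂) n p =
      sel (fun i : Fin n => decide (hs (Nat.clog 2 n + t) (p / 2 ^ E₂ n / 2 ^ E₁ n) i <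
        2 ^ Nat.clog 2 n)) (out G₁ n (p / 2 ^ E₂ n % 2 ^ E₁ n)) (out G₂ n (p % 2 ^ E₂ n)) := by
  funext i
  unfold out selG sel
  simp only [decide_eq_true_eq]

theorem s3_average (t : ℕ) (E₁ E₂ : ℕ → ℕ) (G₁ G₂ : ℕ → ℕ → ℕ → Bool) (n : ℕ)
    (f : (Fin n → Bool) → ℂ) :
    na (2 ^ (4 * (Nat.clog 2 n + t) + E₁ n + E₂ n)) (fun p => f (out (selG t E₁ E₂ G₁ G₂) n p)) =
      na (16 ^ (Nat.clog 2 n + t)) (fun q => na (2 ^ E₁ n) (fun b => na (2 ^ E₂ n) (fun a =>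
        f (sel (fun i : Fin n => decide (hs (Nat.clog 2 n + t) q i < 2 ^ Nat.clog 2 n))
          (out G₁ n b) (out G₂ n a))))) := by
  have h1 : 2 ^ (4 * (Nat.clog 2 n + t) + E₁ n + E₂ n) =
      16 ^ (Nat.clog 2 n + t) * 2 ^ E₁ n * 2 ^ E₂ n := by
    rw [pow_add, pow_add, pow_mul]
    norm_num
  rw [h1]
  simp only [s3_out]
  refine (na_mul (16 ^ (Nat.clog 2 n + t) * 2 ^ E₁ n) (by positivity) (fun r a => f (sel
    (fun i : Fin n => decide (hs (Nat.clog 2 n + t) (r / 2 ^ E₁ n) i < 2 ^ Nat.clog 2 n))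
      (out G₁ n (r % 2 ^ E₁ n)) (out G₂ n a)))).trans ?_
  exact na_mul (16 ^ (Nat.clog 2 n + t)) (by positivity) (fun q b => na (2 ^ E₂ n) (fun a =>
    f (sel (fun i : Fin n => decide (hs (Nat.clog 2 n + t) q i < 2 ^ Nat.clog 2 n))
      (out G₁ n b) (out G₂ n a))))

theorem sp_succ {m d j : ℕ} [NeZero m] (hj : 1 ≤ j) (h0 : LS 1 0) (h : SP m d j) :
    SP m d (j + 1) := by
  classical
  intro ε hε
  obtain ⟨N₂, m₂, hm₂, E₂, G₂, hG₂, H₂⟩ := h (ε ^ 2 / 16) (by positivity)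
  obtain ⟨N₁, m₁, hm₁, E₁, G₁, hG₁, H₁⟩ := h0 (ε ^ 2 / (16 * ((N₂ : ℝ) + 1))) (by positivity)
  obtain ⟨t, ht⟩ := pow_unbounded_of_one_lt (16 * (j : ℝ) / ε) (one_lt_two)
  obtain ⟨N', hN'⟩ := exists_nat_ge (16 * (2 : ℝ) ^ t / ε)
  refine ⟨4 * 2 ^ t * (N₂ * N₁) + N' + 1, m₁ * m₂, Nat.mul_pos hm₁ hm₂, _, _,
    NG.sel t hG₁ hG₂, fun n Γ _ _ c hc hw u hu => ?_⟩
  obtain ⟨𝒮, h1, h2, h3⟩ := hw
  set κ := Nat.clog 2 n + t with hκ
  have hn : n ≤ 2 ^ κ := by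
    rw [hκ, pow_add]
    exact (Nat.le_pow_clog one_lt_two n).trans (Nat.le_mul_of_pos_right _ (by positivity))
  have hκt : κ - t = Nat.clog 2 n := by omega
  set Vq : ℕ → Fin n → Bool := fun q i => decide (hs κ q i < 2 ^ Nat.clog 2 n) with hVq
  have hcard : (0 : ℝ) < 𝒮.card := by
    have : 0 < 𝒮.card := by omega
    exact_mod_cast this
  have hcard2 : (4 * 2 ^ t * (N₂ * N₁) + N' + 1 : ℝ) ≤ 𝒮.card := by exact_mod_cast h1
  have hgood := good_sets (j := j) (t := t) hn (by omega) 𝒮 h3 (fun S hS => (h2 S hS).1)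
    (by omega)
  rw [hκt] at hgood
  have h2t : (0 : ℝ) < 2 ^ t := by positivity
  -- the probability of a bad hash function
  have hbad : 4 * (2 : ℝ) ^ t / 𝒮.card + 4 * j / 2 ^ t ≤ ε / 2 := by
    have e1 : 4 * (2 : ℝ) ^ t / 𝒮.card ≤ ε / 4 := by
      rw [div_le_iff₀ hcard]
      have : 16 * (2 : ℝ) ^ t ≤ N' * ε := by
        rwa [div_le_iff₀ hε] at hN'
      have e3 : (N' : ℝ) * ε ≤ 𝒮.card * ε := by
        refine mul_le_mul_of_nonneg_right ?_ hε.le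
        have : (0 : ℝ) ≤ 4 * 2 ^ t * (N₂ * N₁) := by positivity
        linarith
      nlinarith
    have e2 : 4 * (j : ℝ) / 2 ^ t ≤ ε / 4 := by
      rw [div_le_iff₀ h2t]
      rw [div_lt_iff₀ hε] at ht
      nlinarith
    linarith
  -- the bound for a good hash function
  have hq : ∀ q, (𝒮.card : ℝ) / (4 * 2 ^ t) ≤
      ((𝒮.filter fun S => (S.filter fun i : Fin n => hs κ q i < 2 ^ Nat.clog 2 n).card = 1).card :
        ℝ) →
      avg (fun χ : AddChar Γ ℂ => ‖na (2 ^ E₁ n) (fun b => na (2 ^ E₂ n) (fun a =>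
        u χ (sel (Vq q) (out G₁ n b) (out G₂ n a)) *
          χ (pol c (sel (Vq q) (out G₁ n b) (out G₂ n a)))))‖) ≤ ε / 2 := by
    intro q hgd
    set 𝒮q := 𝒮.filter fun S => (S.filter fun i : Fin n => hs κ q i < 2 ^ Nat.clog 2 n).card = 1
      with h𝒮q
    have hcount : N₂ * N₁ ≤ 𝒮q.card := by
      have e1 : (N₂ * N₁ : ℝ) ≤ (𝒮.card : ℝ) / (4 * 2 ^ t) := by
        rw [le_div_iff₀ (by positivity)]
        have : (0 : ℝ) ≤ N' := Nat.cast_nonneg _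
        nlinarith
      exact_mod_cast e1.trans hgd
    have hwide := sel_wide (ε₁ := ε ^ 2 / (16 * ((N₂ : ℝ) + 1))) (N₁ := N₁) (m₁ := m₁) (N₂ := N₂)
      (m₂ := m₂) hc hj (Vq q) 𝒮q hcount
      (h3.subset fun S hS => Finset.mem_coe.2 (Finset.mem_filter.1 (Finset.mem_coe.1 hS)).1)
      (fun S hS => by
        obtain ⟨hS1, hS2⟩ := Finset.mem_filter.1 hS
        refine ⟨(h2 S hS1).1, (h2 S hS1).2, ?_⟩
        simpa only [hVq, decide_eq_true_eq] using hS2)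
      (M := 2 ^ E₁ n) (by positivity) (out G₁ n) (H₁ n)
    have hcs := sel_cs (Vq q) (M₁ := 2 ^ E₁ n) (M₂ := 2 ^ E₂ n) (by positivity) (by positivity)
      (out G₁ n) (out G₂ n) (by positivity) (H₂ n) hwide u hu
    have e4 : ε ^ 2 / 16 + N₂ * (ε ^ 2 / (16 * ((N₂ : ℝ) + 1))) ≤ (ε / 2) ^ 2 := by
      have e5 : (N₂ : ℝ) * (ε ^ 2 / (16 * ((N₂ : ℝ) + 1))) ≤ ε ^ 2 / 16 := by
        rw [mul_div_assoc', div_le_div_iff₀ (by positivity) (by norm_num)]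
        nlinarith [sq_nonneg ε, Nat.cast_nonneg (α := ℝ) N₂]
      nlinarith [sq_nonneg ε]
    exact (abs_le_of_sq_le_sq' (hcs.trans e4) (by positivity)).2
  -- all together
  have hM₁ : 0 < 2 ^ E₁ n := by positivity
  have hM₂ : 0 < 2 ^ E₂ n := by positivity
  have hsplit : ∀ χ : AddChar Γ ℂ,
      ‖na (2 ^ (4 * (Nat.clog 2 n + t) + E₁ n + E₂ n)) (fun p =>
        u χ (out (selG t E₁ E₂ G₁ G₂) n p) * χ (pol c (out (selG t E₁ E₂ G₁ G₂) n p)))‖ ≤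
      nr (16 ^ κ) (fun q => ‖na (2 ^ E₁ n) (fun b => na (2 ^ E₂ n) (fun a =>
        u χ (sel (Vq q) (out G₁ n b) (out G₂ n a)) *
          χ (pol c (sel (Vq q) (out G₁ n b) (out G₂ n a)))))‖) := by
    intro χ
    rw [s3_average t E₁ E₂ G₁ G₂ n (fun x => u χ x * χ (pol c x))]
    exact norm_na_le _ _
  refine (avg_mono hsplit).trans ?_
  rw [avg_nr]
  have hbound : ∀ q, avg (fun χ : AddChar Γ ℂ => ‖na (2 ^ E₁ n) (fun b => na (2 ^ E₂ n) (fun a =>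
      u χ (sel (Vq q) (out G₁ n b) (out G₂ n a)) *
        χ (pol c (sel (Vq q) (out G₁ n b) (out G₂ n a)))))‖) ≤
      ε / 2 + if (𝒮.card : ℝ) / (4 * 2 ^ t) ≤
      ((𝒮.filter fun S => (S.filter fun i : Fin n => hs κ q i < 2 ^ Nat.clog 2 n).card = 1).card :
        ℝ) then 0 else 1 := by
    intro q
    split_ifs with hgd
    · rw [add_zero]
      exact hq q hgd
    · have : avg (fun χ : AddChar Γ ℂ => ‖na (2 ^ E₁ n) (fun b => na (2 ^ E₂ n) (fun a =>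
          u χ (sel (Vq q) (out G₁ n b) (out G₂ n a)) *
            χ (pol c (sel (Vq q) (out G₁ n b) (out G₂ n a)))))‖) ≤ 1 :=
        avg_le fun χ => norm_na_le_of hM₁ fun b _ => norm_na_le_of hM₂ fun a _ =>
          tw_bound (hu χ) χ _ _
      linarith
  refine (nr_mono fun q _ => hbound q).trans ?_
  rw [nr_add, nr_const (by positivity)]
  linarith [hgood.trans hbad]

end Pool.Agent.MP_ca1109_lc.Agp
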