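import Pool.Agent.MP_ca1109_lc.Agp.F1
import Pool.Agent.MP_ca1109_lc.Agp.S3
import Pool.Agent.MP_ca1109_lc.Agp.K3
import Pool.Agent.MP_ca1109_lc.Agp.B3

/-!
# Generators which fool averages of twisted polynomials
-/

namespace Pool.Agent.MP_ca1109_lc.Agp

open Pool.Agent.MP_ca1109_lc.Mpg Finset

section

variable {Γ : Type} [AddCommGroup Γ] [Fintype Γ] {n : ℕ}
  (u : AddChar Γ ℂ → (Fin n → Bool) → ℂ) (c : Finset (Fin n) → Γ)

theorem card_char : Fintype.card (AddChar Γ ℂ) = Fintype.card Γ := AddChar.card_eq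

theorem fam_na (M : ℕ) (X : ℕ → Fin n → Bool) :
    na M (fun p => fam u c (X p)) =
      (∑ χ : AddChar Γ ℂ, na M (fun p => u χ (X p) * χ (pol c (X p)))) / (Fintype.card Γ : ℂ) := by
  unfold fam na
  rw [← Finset.sum_div, Finset.sum_comm, ← Finset.sum_div, div_div, div_div,
    mul_comm (Fintype.card Γ : ℂ)]

theorem fam_av : av (fam u c) =
      (∑ χ : AddChar Γ ℂ, av (fun x => u χ x * χ (pol c x))) / (Fintype.card Γ : ℂ) := by
  unfold fam av
  rw [← Finset.sum_div, Finset.sum_comm, ← Finset.sum_div, div_div, div_div,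
    mul_comm (Fintype.card Γ : ℂ)]

theorem norm_sum_char (f : AddChar Γ ℂ → ℂ) :
    ‖(∑ χ, f χ) / (Fintype.card Γ : ℂ)‖ ≤ avg (fun χ : AddChar Γ ℂ => ‖f χ‖) := by
  rw [norm_div, Complex.norm_natCast]
  unfold avg
  rw [card_char]
  exact div_le_div_of_nonneg_right (norm_sum_le _ _) (Nat.cast_nonneg _)

end

theorem pol_zero {Γ : Type*} [AddCommGroup Γ] {n : ℕ} {c : Finset (Fin n) → Γ} (hc : Deg 0 c)
    (x : Fin n → Bool) : pol c x = c ∅ := by
  rw [pol_lin fun S hS => hc S (by omega)]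
  have : lin (fun i => c {i}) x = 0 := by
    unfold lin
    refine Finset.sum_eq_zero fun i _ => ?_
    have h := hc {i} (by simp)
    simp only [h, ite_self]
  rw [this, add_zero]

theorem fj_zero (m d : ℕ) [NeZero m] : FJ m d 0 := by
  intro ε hε
  obtain ⟨E, G, hG, H⟩ := exists_ng (gen_phase m d finTwoEquiv hε)
  refine ⟨E, G, hG, fun n Γ _ _ c hc u hu => ?_⟩
  rw [fam_na, fam_av, ← sub_div, ← Finset.sum_sub_distrib]
  refine (norm_sum_char _).trans (avg_le fun χ => ?_)
  have h1 : (fun p => u χ (out G n p) * χ (pol c (out G n p))) =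
      fun p => u χ (out G n p) * χ (c ∅) := by
    funext p
    rw [pol_zero hc]
  have h2 : (fun x => u χ x * χ (pol c x)) = fun x => χ (c ∅) * u χ x := by
    funext x
    rw [pol_zero hc, mul_comm]
  have h3 : av (fun x => χ (c ∅) * u χ x) = χ (c ∅) * av (u χ) := by
    unfold av
    rw [← Finset.mul_sum, mul_div_assoc]
  rw [h1, h2, h3, na_mul_right, mul_comm (χ (c ∅)), ← sub_mul, norm_mul, AddChar.norm_apply, mul_one]
  exact H n (u χ) (hu χ)

theorem av_shift {n : ℕ} (f : (Fin n → Bool) → ℂ) (a : Fin n → Bool) :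
    av (fun x : Fin n → Bool => f (fun i => xor (x i) (a i))) = av f := by
  have h : Function.Involutive fun (x : Fin n → Bool) (i : Fin n) => xor (x i) (a i) := by
    intro x
    funext i
    simp
  exact e2_av_equiv h.toPerm f

theorem xor_average (E₁ E₂ : ℕ → ℕ) (G₁ G₂ : ℕ → ℕ → ℕ → Bool) (n : ℕ) (f : (Fin n → Bool) → ℂ) :
    na (2 ^ (E₁ n + E₂ n)) (fun p => f (out (xorG E₂ G₁ G₂) n p)) =
      na (2 ^ E₁ n) (fun p => na (2 ^ E₂ n) (fun q =>
        f (fun i => xor (out G₁ n p i) (out G₂ n q i)))) := by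
  rw [pow_add]
  exact na_mul (2 ^ E₁ n) (B := 2 ^ E₂ n) (by positivity)
    (fun p q => f (fun i => xor (out G₁ n p i) (out G₂ n q i)))

theorem wide_shift {Γ : Type} [AddCommGroup Γ] [Fintype Γ] {n m d j N m' M : ℕ} [NeZero m] {ε : ℝ}
    {X : ℕ → Fin n → Bool} (hX : SPok m d j N m' ε M X) {c : Finset (Fin n) → Γ}
    (hc : Deg j c) (hw : Wide N m' j c) {u : AddChar Γ ℂ → (Fin n → Bool) → ℂ}
    (hu : ∀ χ, u χ ∈ phCls m Bool d n) (a : Fin n → Bool) :
    ‖na M (fun q => fam u c (fun i => xor (a i) (X q i)))‖ ≤ ε := by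
  obtain ⟨c', hc', h1, h2⟩ := pol_xor hc a
  have hw' : Wide N m' j c' := (wide_xor h1).1 hw
  have h3 : ∀ q, fam u c (fun i => xor (a i) (X q i)) =
      fam (fun χ e => u χ (fun i => xor (a i) (e i))) c' (X q) := by
    intro q
    unfold fam
    simp only [h2]
  rw [na_congr fun q _ => h3 q, fam_na]
  refine (norm_sum_char _).trans ?_
  exact hX Γ c' hc' hw' (fun χ e => u χ (fun i => xor (a i) (e i))) fun χ => tw_xor (hu χ) a

theorem fj_succ {d j : ℕ} (hd : j + 1 ≤ d) (h : ∀ (m : ℕ) [NeZero m], FJ m d j)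
    (hs : ∀ (m : ℕ) [NeZero m], SP m d (j + 1)) (m : ℕ) [NeZero m] : FJ m d (j + 1) := by
  intro ε hε
  obtain ⟨N, m', hm', E₂, G₂, hG₂, H₂⟩ := hs m (ε / 2) (by positivity)
  have : NeZero m' := ⟨hm'.ne'⟩
  have : NeZero (2 * (m * m')) :=
    ⟨Nat.mul_ne_zero (by norm_num) (Nat.mul_ne_zero (NeZero.ne m) hm'.ne')⟩
  have hε₁ : 0 < ε / 4 ^ ((j + 1) * N) := by positivity
  obtain ⟨E₁, G₁, hG₁, H₁⟩ := h (2 * (m * m')) (ε / 4 ^ ((j + 1) * N)) hε₁
  refine ⟨_, _, NG.xor hG₁ hG₂, fun n Γ _ _ c hc u hu => ?_⟩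
  have hM₁ : 0 < 2 ^ E₁ n := by positivity
  have hM₂ : 0 < 2 ^ E₂ n := by positivity
  rw [xor_average E₁ E₂ G₁ G₂ n (fam u c)]
  by_cases hw : Wide N m' (j + 1) c
  · have h1 : ‖na (2 ^ E₁ n) (fun p => na (2 ^ E₂ n) (fun q =>
        fam u c (fun i => xor (out G₁ n p i) (out G₂ n q i))))‖ ≤ ε / 2 :=
      norm_na_le_of hM₁ fun p _ => wide_shift (H₂ n) hc hw hu (out G₁ n p)
    have h2 : ‖av (fam u c)‖ ≤ ε / 2 := by
      have h3 : av (fam u c) = av (fun a : Fin n → Bool => na (2 ^ E₂ n) (fun q =>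
          fam u c (fun i => xor (a i) (out G₂ n q i)))) := by
        rw [av_na]
        rw [na_congr fun q _ => av_shift (fam u c) (out G₂ n q), na_const hM₂]
      rw [h3]
      exact (norm_av_le _).trans (avg_le fun a => wide_shift (H₂ n) hc hw hu a)
    calc _ ≤ _ := norm_sub_le _ _
      _ ≤ ε / 2 + ε / 2 := add_le_add h1 h2
      _ = ε := by ring
  · have h1 : ∀ q, ‖na (2 ^ E₁ n) (fun p => fam u c
        (fun i => xor (out G₁ n p i) (out G₂ n q i))) - av (fam u c)‖ ≤ ε := by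
      intro q
      obtain ⟨c', hc', h2, h3⟩ := pol_xor hc (out G₂ n q)
      have hw' : ¬ Wide N m' (j + 1) c' := fun h => hw ((wide_xor h2).2 h)
      set u' : AddChar Γ ℂ → (Fin n → Bool) → ℂ :=
        fun χ e => u χ (fun i => xor (out G₂ n q i) (e i)) with hu'
      have h4 : ∀ x : Fin n → Bool, fam u c (fun i => xor (x i) (out G₂ n q i)) =
          fam u' c' x := by
        intro x
        have h5 : (fun i => xor (x i) (out G₂ n q i)) = fun i => xor (out G₂ n q i) (x i) := by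
          funext i
          exact Bool.xor_comm _ _
        rw [h5]
        unfold fam
        simp only [h3, hu']
      have h6 : av (fam u c) = av (fam u' c') := by
        rw [← av_shift (fam u c) (out G₂ n q)]
        congr 1
        funext x
        exact h4 x
      rw [na_congr fun p _ => h4 (out G₁ n p), h6]
      refine (not_wide_fool hd hc' hw' (fun χ => tw_xor (hu χ) _) hε₁.le (H₁ n)).trans ?_
      rw [mul_div_cancel₀ _ (by positivity)]
    rw [na_comm, ← na_const hM₂ (av (fam u c)), ← na_sub]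
    exact norm_na_le_of hM₂ fun q _ => h1 q

theorem ls_all (m d : ℕ) [NeZero m] : LS m d := by
  induction d with
  | zero => exact ls_zero m
  | succ d ih => exact ls_succ ih

theorem sp_all (m d j : ℕ) [NeZero m] : SP m d (j + 1) := by
  induction j with
  | zero => exact ls_sp (ls_all m d)
  | succ j ih => exact sp_succ (by omega) (ls_zero 1) ih

theorem fj_all (d j : ℕ) (hd : j ≤ d) : ∀ (m : ℕ) [NeZero m], FJ m d j := by
  induction j with
  | zero =>
    intro m _
    exact fj_zero m d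
  | succ j ih =>
    intro m _
    exact fj_succ hd (ih (by omega)) (fun m _ => sp_all m d j) m

end Pool.Agent.MP_ca1109_lc.Agp
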