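import Pool.Agent.MP_ca1109_lc.Agp.T1
import Pool.Agent.MP_ca1109_lc.Mpg.H1

/-!
# Beyond logarithmic degree or logarithmic number of questions
-/

namespace Pool.Agent.MP_ca1109_lc.Agp

open Pool.Agent.H66 Pool.Agent.MP_ca1109_lc.Mpg Finset

/-- Generators against all functions of `g m` bits. -/
theorem hard_of_junta {g : ℕ → ℕ}
    (hg : Filter.Tendsto (fun m : ℕ => (g m : ℝ) / Real.logb 2 m) Filter.atTop Filter.atTop)
    {𝒯 : ∀ m : ℕ, ((Fin m → Bool) → Bool) → Prop}
    (hJ : ∀ (m : ℕ) (T : (Fin m → Bool) → Bool),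
      DependsOn T ((univ.filter fun i : Fin m => (i : ℕ) < g m : Finset (Fin m)) : Set (Fin m)) →
        𝒯 m T) {δ : ℝ} (hδ : δ < 1)
    (h : GenExists (fun m C => 𝒯 m C.eval) δ) : HardLanguage := by
  obtain ⟨d, G, hd, hG, hl, c, hc⟩ := h
  set e := ⌈c⌉₊ with he
  have hce : c ≤ e := Nat.le_ceil c
  set K := e + 1 with hK
  have hK0 : 0 < K := by omega
  refine ⟨hpre d G e K, polyTime_hpre hd hG e K, 1 / (2 * K), by positivity, ?_⟩
  have ht := tendsto_rt hK0
  obtain ⟨M, hM⟩ := exists_nat_gt (1 / (1 - δ))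
  filter_upwards [ht.eventually hc, ht.eventually (hg.eventually_ge_atTop (2 * K)),
    ht.eventually (eventually_le_root K),
    ht.eventually (Filter.eventually_ge_atTop 64), ht.eventually (Filter.eventually_ge_atTop M),
    Filter.eventually_ge_atTop (2 * K)]
    with n hn1 hn2 hn3 hn4 hn5 hn6 D hD
  obtain ⟨hn7, -, hn8⟩ := hn1
  obtain ⟨hr1, hr2⟩ := rt_spec hK0 (2 ^ n)
  set m := rt K (2 ^ n) with hm
  obtain ⟨hb1, hb2⟩ := seed_bounds (by omega : 1 ≤ m) hce hn7
  have hm0 : (0 : ℝ) < m := by exact_mod_cast (by omega : 0 < m)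
  have hnm : n ≤ m := by
    have h1 : 2 ^ n < 2 ^ m := hr2.trans hn3
    exact ((Nat.pow_lt_pow_iff_right (by norm_num)).1 h1).le
  have hgn : n ≤ g m := by
    have hlog : 0 < Real.logb 2 m := Real.logb_pos (by norm_num) (by exact_mod_cast (by omega : 1 < m))
    rw [le_div_iff₀ hlog] at hn2
    have h1 : (2 : ℝ) ^ n ≤ (m : ℝ) ^ (2 * K) := by
      have h2 : (2 : ℕ) ^ n ≤ m ^ (2 * K) := by
        refine hr2.le.trans ?_
        rw [pow_mul]
        refine Nat.pow_le_pow_left ?_ K
        nlinarith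
      exact_mod_cast h2
    have h2 := Real.logb_le_logb_of_le (by norm_num : (1 : ℝ) < 2) (by positivity) h1
    rw [Real.logb_pow, Real.logb_pow, Real.logb_self_eq_one (by norm_num), mul_one] at h2
    push_cast at h2
    exact_mod_cast h2.trans hn2
  have hsize : m ≤ D.size := by
    by_contra hcon
    obtain ⟨C, hC1, hC2, hC3, hC4⟩ := pre_test (by omega : 0 < m) hnm hb1 hm.symm D hD
    have hlow : 𝒯 m C.eval := by
      refine hJ m C.eval (hC2.mono ?_)
      intro i hi
      simp only [Finset.coe_filter, Finset.mem_univ, true_and, Set.mem_setOf_eq] at hi ⊢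
      omega
    have h1 := hn8 C hlow (by omega)
    unfold advantage at h1
    have h2 : prob (fun s : Fin (d m) → Bool => C.eval (bits m (G m (List.ofFn s)))) = 0 := by
      unfold prob
      rw [Finset.filter_false_of_mem, Finset.card_empty, Nat.cast_zero, zero_div]
      intro s _ hs
      have h3 : C.eval (bits m (G m (List.ofFn s))) = true := hs
      rw [hC4 s] at h3
      exact absurd h3 (by simp)
    rw [h2, zero_sub, abs_neg] at h1
    have h3 := (le_abs_self _).trans h1
    have h4 : (2 : ℝ) ^ d m / 2 ^ n ≤ 1 / m := by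
      rw [div_le_div_iff₀ (by positivity) hm0, one_mul]
      have h5 : 2 ^ d m * m ≤ 2 ^ n := by
        calc 2 ^ d m * m ≤ m ^ e * m := Nat.mul_le_mul_right _ hb2
          _ = m ^ K := by rw [hK, pow_succ]
          _ ≤ 2 ^ n := hr1
      exact_mod_cast h5
    have h5 : 1 / (m : ℝ) < 1 - δ := by
      have h6 : 0 < 1 - δ := by linarith
      have h7 : 1 / (1 - δ) < m := hM.trans_le (by exact_mod_cast hn5)
      rw [div_lt_iff₀ h6] at h7
      rw [div_lt_iff₀ hm0]
      linarith
    have h6 : 1 - (2 : ℝ) ^ d m / 2 ^ n ≤ prob C.eval := hC3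
    have h7 : prob (fun x : Fin m → Bool => C.eval x) = prob C.eval := rfl
    rw [h7] at h3
    linarith
  have h1 : 2 ^ n < (2 * D.size) ^ K := by
    refine hr2.trans_le (Nat.pow_le_pow_left ?_ K)
    omega
  by_contra hcon
  rw [not_le] at hcon
  have h2 : ((2 * D.size : ℕ) : ℝ) ^ K ≤ (2 : ℝ) ^ n := by
    have h3 : ((2 * D.size : ℕ) : ℝ) ≤ 2 * (2 : ℝ) ^ (1 / (2 * K) * n : ℝ) := by
      push_cast
      linarith
    calc ((2 * D.size : ℕ) : ℝ) ^ K ≤ (2 * (2 : ℝ) ^ (1 / (2 * K) * n : ℝ)) ^ K :=
          pow_le_pow_left₀ (Nat.cast_nonneg _) h3 K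
      _ = (2 : ℝ) ^ ((K : ℝ) + n / 2) := by
          rw [mul_pow, ← Real.rpow_natCast ((2 : ℝ) ^ (1 / (2 * K) * n : ℝ)) K,
            ← Real.rpow_mul (by norm_num), ← Real.rpow_natCast 2 K,
            ← Real.rpow_add (by norm_num)]
          congr 1
          have : (K : ℝ) ≠ 0 := by positivity
          field_simp
      _ ≤ (2 : ℝ) ^ (n : ℝ) := by
          refine Real.rpow_le_rpow_of_exponent_le (by norm_num) ?_
          have : (2 * K : ℝ) ≤ n := by exact_mod_cast hn6
          linarith
      _ = (2 : ℝ) ^ n := Real.rpow_natCast _ _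
  have h3 : (2 * D.size) ^ K ≤ 2 ^ n := by exact_mod_cast h2
  omega

/-- All functions of `g` bits are functions of one polynomial of degree `g`. -/
theorem groupTest_degree {m g : ℕ} (T : (Fin m → Bool) → Bool)
    (hT : DependsOn T ((univ.filter fun i : Fin m => (i : ℕ) < g : Finset (Fin m)) : Set (Fin m))) :
    GroupTest g 1 m T := by
  refine ⟨fun _ => ZMod 2, fun _ => inferInstance, fun _ x => if T x then 0 else 1,
    fun b => b 0, fun _ => ?_, fun x => ?_⟩
  · refine junta_mem (univ.filter fun i : Fin m => (i : ℕ) < g) ?_ ?_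
    · have h1 : (univ.filter fun i : Fin m => (i : ℕ) < g).card ≤ (range g).card := by
        refine Finset.card_le_card_of_injOn (fun i => (i : ℕ)) ?_ ?_
        · intro i hi
          simpa using hi
        · intro i _ j _ hij
          exact Fin.ext hij
      simpa using h1
    · intro x y hxy
      show (if T x = true then (0 : ZMod 2) else 1) = if T y = true then 0 else 1
      rw [hT hxy]
  · cases hx : T x <;> simp [hx]

/-- All functions of `g` bits are functions of the answers to `g` questions of degree one. -/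
theorem groupTest_number {m g : ℕ} (T : (Fin m → Bool) → Bool)
    (hT : DependsOn T ((univ.filter fun i : Fin m => (i : ℕ) < g : Finset (Fin m)) : Set (Fin m))) :
    GroupTest 1 g m T := by
  classical
  let P : Fin g → (Fin m → Bool) → ZMod 2 := fun i x =>
    if h : (i : ℕ) < m then (if x ⟨i, h⟩ then 1 else 0) else 0
  refine ⟨fun _ => ZMod 2, fun _ => inferInstance, P,
    fun b => ∃ y, T y = true ∧ ∀ i, (P i y = 0 ↔ b i), fun i => ?_, fun x => ?_⟩
  · by_cases h : (i : ℕ) < m
    · refine junta_mem {⟨i, h⟩} (by simp) ?_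
      intro x y hxy
      show P i x = P i y
      simp only [P, h, dif_pos]
      rw [hxy ⟨i, h⟩ (by simp)]
    · have : P i = fun _ => 0 := by
        funext x
        simp only [P, h, dif_neg, not_false_eq_true]
      rw [this]
      exact lowDeg_const 0
  · constructor
    · intro hx
      exact ⟨x, hx, fun i => Iff.rfl⟩
    · rintro ⟨y, hy, h⟩
      rw [← hy]
      apply hT
      intro i hi
      simp only [Finset.coe_filter, Finset.mem_univ, true_and, Set.mem_setOf_eq] at hi
      have h1 := h ⟨i, hi⟩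
      simp only [P, i.2, dif_pos] at h1
      revert h1
      cases x i <;> cases y i <;> simp

theorem hard_of_group_degree {g : ℕ → ℕ}
    (hg : Filter.Tendsto (fun m : ℕ => (g m : ℝ) / Real.logb 2 m) Filter.atTop Filter.atTop)
    {δ : ℝ} (hδ : δ < 1) (h : GenExists (fun m C => GroupTest (g m) 1 m C.eval) δ) :
    HardLanguage :=
  hard_of_junta hg (fun _ T hT => groupTest_degree T hT) hδ h

theorem hard_of_group_number {g : ℕ → ℕ}
    (hg : Filter.Tendsto (fun m : ℕ => (g m : ℝ) / Real.logb 2 m) Filter.atTop Filter.atTop)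
    {δ : ℝ} (hδ : δ < 1) (h : GenExists (fun m C => GroupTest 1 (g m) m C.eval) δ) :
    HardLanguage :=
  hard_of_junta hg (fun _ T hT => groupTest_number T hT) hδ h

end Pool.Agent.MP_ca1109_lc.Agp
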