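import Pool.Agent.MP_ca1109_lc.Agp.N1

/-!
# Functions of many independent variables depend little on one of them
-/

namespace Pool.Agent.MP_ca1109_lc.Agp

open Pool.Agent.MP_ca1109_lc.Mpg Finset

/- PROOF NOTES [AGP-K1].  `A = av f`, `h r a = av (fun y => f (Function.update y r a))`.
(0) `av (fun y => φ (y r) * f y) = av (fun a => φ a * h r a)` for every `φ : Ω → ℂ`: both are
`av (fun a => av (fun y => φ a * f (update y r a)))` (the map `(a, y) ↦ update y r a` is `card Ω` to one onto `Fin k → Ω`; e.g.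
`Equiv.piSplitAt`/`Fintype.sum_prod_type` with the bijection `(y, a) ↦ (update y r a, y r)` of `(Fin k → Ω) × Ω`, which is its own
inverse).  In particular `av (h r) = A`, and `av (fun y => φ (y r)) = av φ`, and for `r ≠ s`
`av (fun y => φ (y r) * ψ (y s)) = av φ * av ψ`.
(1) `∑ r, avg (fun a => ‖h r a - A‖ ^ 2) ≤ 1`.  Put `g y = ∑ r, (h r (y r) - A)`.  By (0), with `B r = avg (fun a => ‖h r a - A‖ ^ 2)`:
`av (fun y => (f y - A) * conj (g y)) = ∑ r, B r` and `avg (fun y => ‖g y‖ ^ 2) = ∑ r, B r` (the terms with `r ≠ s` vanish).  So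
`0 ≤ avg (fun y => ‖f y - A - g y‖ ^ 2) = avg (fun y => ‖f y - A‖ ^ 2) - ∑ r, B r` and `avg ‖f - A‖ ^ 2 = avg ‖f‖ ^ 2 - ‖A‖ ^ 2 ≤ 1`.
(2) For every `r`: `‖A‖ ^ m ≤ ‖av (fun a => h r a ^ m)‖ + avg (fun a => ‖A ^ m - h r a ^ m‖)` and
`‖A ^ m - h r a ^ m‖ ≤ m * ‖A - h r a‖` (`pow_sub_pow_norm_le` in `Mpg/A8`, `‖A‖ ≤ 1`, `‖h r a‖ ≤ 1`).
(3) `∑ r, avg (fun a => ‖h r a - A‖) ≤ ∑ r, √(B r) ≤ √k * √(∑ r, B r) ≤ √k` (Cauchy-Schwarz, `avg_pow_le` of `N1`).
Sum (2) over `r` and divide by `k`: `m * √k / k = m / √k`. -/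

private theorem k1_shift {Ω : Type*} [Fintype Ω] [Nonempty Ω] {k : ℕ} (r : Fin k)
    (F : Ω → (Fin k → Ω) → ℂ) :
    av (fun a : Ω => av (fun y : Fin k → Ω => F a (Function.update y r a))) =
      av (fun y : Fin k → Ω => F (y r) y) := by
  classical
  have hc : (Fintype.card Ω : ℂ) ≠ 0 := by exact_mod_cast Fintype.card_ne_zero
  let e : (Ω × (Fin k → Ω)) ≃ (Ω × (Fin k → Ω)) :=
    { toFun := fun p => (p.2 r, Function.update p.2 r p.1)
      invFun := fun p => (p.2 r, Function.update p.2 r p.1)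
      left_inv := by
        rintro ⟨a, y⟩
        simp
      right_inv := by
        rintro ⟨a, y⟩
        simp }
  have h1 : ∑ a : Ω, ∑ y : Fin k → Ω, F a (Function.update y r a) =
      ∑ a : Ω, ∑ y : Fin k → Ω, F (y r) y := by
    rw [← Fintype.sum_prod_type' (fun (a : Ω) (y : Fin k → Ω) => F a (Function.update y r a)),
      ← Fintype.sum_prod_type' (fun (_ : Ω) (y : Fin k → Ω) => F (y r) y),
      ← Equiv.sum_comp e (fun q : Ω × (Fin k → Ω) => F (q.2 r) q.2)]
    refine Finset.sum_congr rfl fun q _ => ?_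
    simp [e]
  unfold av
  rw [← Finset.sum_div, h1, Finset.sum_const, Finset.card_univ, nsmul_eq_mul]
  field_simp

private theorem k1_av_mul {Ω : Type*} [Fintype Ω] (c : ℂ) (f : Ω → ℂ) :
    av (fun a => c * f a) = c * av f := by
  unfold av
  rw [← Finset.mul_sum, mul_div_assoc]

private theorem k1_av_const {Ω : Type*} [Fintype Ω] [Nonempty Ω] (c : ℂ) :
    av (fun _ : Ω => c) = c := by
  have hc : (Fintype.card Ω : ℂ) ≠ 0 := by exact_mod_cast Fintype.card_ne_zero
  unfold av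
  rw [Finset.sum_const, Finset.card_univ, nsmul_eq_mul]
  field_simp

private theorem k1_av_add {Ω : Type*} [Fintype Ω] (f g : Ω → ℂ) :
    av (fun a => f a + g a) = av f + av g := by
  unfold av
  rw [Finset.sum_add_distrib, add_div]

private theorem k1_av_sub {Ω : Type*} [Fintype Ω] (f g : Ω → ℂ) :
    av (fun a => f a - g a) = av f - av g := by
  unfold av
  rw [Finset.sum_sub_distrib, sub_div]

private theorem k1_av_sum {Ω ι : Type*} [Fintype Ω] (s : Finset ι) (f : ι → Ω → ℂ) :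
    av (fun a => ∑ i ∈ s, f i a) = ∑ i ∈ s, av (f i) := by
  unfold av
  rw [Finset.sum_comm, Finset.sum_div]

private theorem k1_av_conj {Ω : Type*} [Fintype Ω] (f : Ω → ℂ) :
    av (fun a => (starRingEnd ℂ) (f a)) = (starRingEnd ℂ) (av f) := by
  unfold av
  rw [map_div₀, map_sum, Complex.conj_natCast]

private theorem k1_av_re {Ω : Type*} [Fintype Ω] (f : Ω → ℂ) :
    (av f).re = avg (fun a => (f a).re) := by
  unfold av avg
  rw [Complex.div_natCast_re, Complex.re_sum]

private theorem k1_avg_ofReal {Ω : Type*} [Fintype Ω] (f : Ω → ℝ) :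
    ((avg f : ℝ) : ℂ) = av (fun a => (f a : ℂ)) := by
  unfold av avg
  push_cast
  rfl

/-- The conditional average. -/
private noncomputable def k1h {Ω : Type*} [Fintype Ω] {k : ℕ} (f : (Fin k → Ω) → ℂ) (r : Fin k)
    (a : Ω) : ℂ :=
  av (fun y : Fin k → Ω => f (Function.update y r a))

private theorem k1_h {Ω : Type*} [Fintype Ω] [Nonempty Ω] {k : ℕ} (r : Fin k)
    (φ : Ω → ℂ) (f : (Fin k → Ω) → ℂ) :
    av (fun y : Fin k → Ω => φ (y r) * f y) = av (fun a => φ a * k1h f r a) := by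
  rw [← k1_shift r (fun a y => φ a * f y)]
  congr 1
  funext a
  exact k1_av_mul _ _

private theorem k1_h1 {Ω : Type*} [Fintype Ω] [Nonempty Ω] {k : ℕ} (r : Fin k)
    (f : (Fin k → Ω) → ℂ) : av (fun a => k1h f r a) = av f :=
  k1_shift r (fun _ y => f y)

private theorem k1_one {Ω : Type*} [Fintype Ω] [Nonempty Ω] {k : ℕ} (r : Fin k)
    (φ : Ω → ℂ) : av (fun y : Fin k → Ω => φ (y r)) = av φ := by
  rw [← k1_shift r (fun a _ => φ a)]
  congr 1
  funext a
  exact k1_av_const _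

private theorem k1_two {Ω : Type*} [Fintype Ω] [Nonempty Ω] {k : ℕ} {r s : Fin k} (hrs : r ≠ s)
    (φ ψ : Ω → ℂ) :
    av (fun y : Fin k → Ω => φ (y r) * ψ (y s)) = av φ * av ψ := by
  rw [k1_h r φ (fun y => ψ (y s))]
  have h1 : ∀ a, k1h (fun y : Fin k → Ω => ψ (y s)) r a = av ψ := by
    intro a
    unfold k1h
    have h2 : (fun y : Fin k → Ω => ψ (Function.update y r a s)) = fun y => ψ (y s) := by
      funext y
      rw [Function.update_of_ne hrs.symm]
    rw [h2, k1_one]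
  simp only [h1]
  have h3 : (fun a => φ a * av ψ) = fun a => av ψ * φ a := by
    funext a
    ring
  rw [h3, k1_av_mul, mul_comm]

private theorem k1_bessel {Ω : Type*} [Fintype Ω] [Nonempty Ω] {k : ℕ}
    (f : (Fin k → Ω) → ℂ) (hf : ∀ y, ‖f y‖ ≤ 1) :
    ∑ r : Fin k, avg (fun a => ‖k1h f r a - av f‖ ^ 2) ≤ 1 := by
  classical
  set A : ℂ := av f with hA
  let c : Fin k → Ω → ℂ := fun r a => k1h f r a - A
  let B : Fin k → ℝ := fun r => avg (fun a => ‖c r a‖ ^ 2)
  let g : (Fin k → Ω) → ℂ := fun y => ∑ r, c r (y r)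
  have hc0 : ∀ r, av (c r) = 0 := by
    intro r
    have h1 : av (c r) = av (fun a => k1h f r a) - av (fun _ : Ω => A) := k1_av_sub _ _
    rw [h1, k1_h1, k1_av_const, sub_self]
  have hB : ∀ r, ((B r : ℝ) : ℂ) = av (fun a => (starRingEnd ℂ) (c r a) * c r a) := by
    intro r
    have h1 : ((B r : ℝ) : ℂ) = av (fun a => ((‖c r a‖ ^ 2 : ℝ) : ℂ)) := k1_avg_ofReal _
    rw [h1]
    congr 1
    funext a
    rw [mul_comm, Complex.mul_conj, Complex.normSq_eq_norm_sq]
  have h1 : av (fun y => f y * (starRingEnd ℂ) (g y)) = ((∑ r, B r : ℝ) : ℂ) := by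
    have h2 : (fun y => f y * (starRingEnd ℂ) (g y)) =
        fun y => ∑ r, (starRingEnd ℂ) (c r (y r)) * f y := by
      funext y
      rw [← Finset.sum_mul, ← map_sum, mul_comm]
    rw [h2, k1_av_sum]
    push_cast
    refine Finset.sum_congr rfl fun r _ => ?_
    rw [k1_h r (fun a => (starRingEnd ℂ) (c r a)) f, hB r]
    have h3 : (fun a => (starRingEnd ℂ) (c r a) * k1h f r a) =
        fun a => (starRingEnd ℂ) (c r a) * c r a + A * (starRingEnd ℂ) (c r a) := by
      funext a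
      simp only [c]
      ring
    rw [h3, k1_av_add, k1_av_mul, k1_av_conj, hc0]
    simp
  have h2 : av (fun y => g y * (starRingEnd ℂ) (g y)) = ((∑ r, B r : ℝ) : ℂ) := by
    have h2 : (fun y => g y * (starRingEnd ℂ) (g y)) =
        fun y => ∑ r, ∑ s, c r (y r) * (starRingEnd ℂ) (c s (y s)) := by
      funext y
      simp only [g]
      rw [map_sum, Finset.sum_mul_sum]
    rw [h2, k1_av_sum]
    push_cast
    refine Finset.sum_congr rfl fun r _ => ?_
    rw [k1_av_sum, Finset.sum_eq_single r]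
    · rw [hB r]
      have h3 := k1_one (k := k) r (fun a => c r a * (starRingEnd ℂ) (c r a))
      rw [h3]
      congr 1
      funext a
      ring
    · intro s _ hs
      have h3 := k1_two (k := k) hs.symm (c r) (fun a => (starRingEnd ℂ) (c s a))
      rw [h3, hc0, zero_mul]
    · intro h
      exact absurd (Finset.mem_univ r) h
  have h3 : avg (fun y => ‖g y‖ ^ 2) = ∑ r, B r := by
    have h4 : ((avg (fun y => ‖g y‖ ^ 2) : ℝ) : ℂ) = ((∑ r, B r : ℝ) : ℂ) := by
      rw [← h2, k1_avg_ofReal]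
      congr 1
      funext y
      rw [Complex.mul_conj, Complex.normSq_eq_norm_sq]
    exact_mod_cast h4
  have h4 : avg (fun y => (f y * (starRingEnd ℂ) (g y)).re) = ∑ r, B r := by
    rw [← k1_av_re, h1, Complex.ofReal_re]
  have h5 : avg (fun y => ‖f y - g y‖ ^ 2) =
      avg (fun y => ‖f y‖ ^ 2) + ∑ r, B r - 2 * ∑ r, B r := by
    have h6 : (fun y => ‖f y - g y‖ ^ 2) =
        fun y => (‖f y‖ ^ 2 + ‖g y‖ ^ 2) - 2 * (f y * (starRingEnd ℂ) (g y)).re := by
      funext y
      rw [← Complex.normSq_eq_norm_sq, ← Complex.normSq_eq_norm_sq, ← Complex.normSq_eq_norm_sq,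
        Complex.normSq_sub]
    rw [h6, avg_sub, avg_add, avg_mul_left, h3, h4]
  have h6 : 0 ≤ avg (fun y => ‖f y - g y‖ ^ 2) := avg_nonneg fun y => by positivity
  have h7 : avg (fun y => ‖f y‖ ^ 2) ≤ 1 := avg_le fun y => pow_le_one₀ (norm_nonneg _) (hf y)
  have h8 : ∑ r, B r ≤ 1 := by linarith
  exact h8

theorem bucket_abs {Ω : Type*} [Fintype Ω] [Nonempty Ω] {k : ℕ} (hk : 0 < k)
    (f : (Fin k → Ω) → ℂ) (hf : ∀ y, ‖f y‖ ≤ 1) (m : ℕ) :
    ‖av f‖ ^ m ≤ (∑ r : Fin k,
      ‖av (fun a : Ω => (av (fun y : Fin k → Ω => f (Function.update y r a))) ^ m)‖) / k +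
      m / √(k : ℝ) := by
  have hA1 : ‖av f‖ ≤ 1 := (norm_av_le f).trans (avg_le hf)
  have hh1 : ∀ r a, ‖k1h f r a‖ ≤ 1 := fun r a =>
    (norm_av_le _).trans (avg_le fun y => hf _)
  have h2 : ∀ r : Fin k, ‖av f‖ ^ m ≤ ‖av (fun a : Ω => (k1h f r a) ^ m)‖ +
      m * avg (fun a => ‖k1h f r a - av f‖) := by
    intro r
    have h3 : (av f) ^ m = av (fun a : Ω => (k1h f r a) ^ m) +
        av (fun a : Ω => (av f) ^ m - (k1h f r a) ^ m) := by
      rw [k1_av_sub, k1_av_const]
      ring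
    rw [← norm_pow, h3]
    refine (norm_add_le _ _).trans (add_le_add le_rfl ?_)
    refine (norm_av_le _).trans ?_
    rw [← avg_mul_left]
    refine avg_mono fun a => ?_
    rw [norm_sub_rev (k1h f r a)]
    exact pow_sub_pow_norm_le m hA1 (hh1 r a)
  have h3 : ∑ r : Fin k, avg (fun a => ‖k1h f r a - av f‖) ≤ √(k : ℝ) := by
    refine Real.le_sqrt_of_sq_le ?_
    have h4 := sq_sum_le_card_mul_sum_sq (s := (Finset.univ : Finset (Fin k)))
      (f := fun r => avg (fun a => ‖k1h f r a - av f‖))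
    rw [Finset.card_univ, Fintype.card_fin] at h4
    refine h4.trans ?_
    have h5 : ∑ r : Fin k, (avg (fun a => ‖k1h f r a - av f‖)) ^ 2 ≤ 1 := by
      refine le_trans (Finset.sum_le_sum fun r _ => ?_) (k1_bessel f hf)
      exact avg_pow_le (fun a => norm_nonneg _) 2
    have hk0 : (0 : ℝ) ≤ k := Nat.cast_nonneg _
    nlinarith
  have hk' : (0 : ℝ) < k := by exact_mod_cast hk
  have h4 : (k : ℝ) * ‖av f‖ ^ m ≤ ∑ r : Fin k, ‖av (fun a : Ω => (k1h f r a) ^ m)‖ +
      m * √(k : ℝ) := by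
    have h5 := Finset.sum_le_sum fun (r : Fin k) (_ : r ∈ Finset.univ) => h2 r
    rw [Finset.sum_const, Finset.card_univ, Fintype.card_fin, nsmul_eq_mul,
      Finset.sum_add_distrib, ← Finset.mul_sum] at h5
    refine h5.trans (add_le_add le_rfl ?_)
    exact mul_le_mul_of_nonneg_left h3 (Nat.cast_nonneg _)
  have h5 : ‖av f‖ ^ m ≤ (∑ r : Fin k, ‖av (fun a : Ω => (k1h f r a) ^ m)‖ +
      m * √(k : ℝ)) / k := by
    rw [le_div_iff₀ hk', mul_comm]
    exact h4
  refine h5.trans_eq ?_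
  rw [add_div]
  congr 1
  rw [mul_div_assoc, Real.sqrt_div_self', mul_one_div]

theorem av_pow {Ω : Type*} [Fintype Ω] (f : Ω → ℂ) (m : ℕ) :
    (av f) ^ m = av (fun Y : Fin m → Ω => ∏ l, f (Y l)) := by
  unfold av
  rw [div_pow, Fintype.sum_pow, Fintype.card_fun, Fintype.card_fin, Nat.cast_pow]

theorem av_comm {A B : Type*} [Fintype A] [Fintype B] (f : A → B → ℂ) :
    av (fun a => av (fun b => f a b)) = av (fun b => av (fun a => f a b)) := by
  unfold av
  rw [← Finset.sum_div, ← Finset.sum_div, Finset.sum_comm, div_div, div_div,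
    mul_comm (Fintype.card A : ℂ)]

theorem av_fin (M : ℕ) (F : ℕ → ℂ) : av (fun a : Fin M => F a) = na M F := by
  unfold av na
  rw [Fintype.card_fin, Fin.sum_univ_eq_sum_range F M]

/-- Digits. -/
theorem na_digits {M : ℕ} (hM : 0 < M) (k : ℕ) (F : (Fin k → ℕ) → ℂ) :
    na (M ^ k) (fun p => F (fun r => p / M ^ (r : ℕ) % M)) =
      av (fun y : Fin k → Fin M => F (fun r => (y r : ℕ))) := by
  have : Nonempty (Fin M) := ⟨⟨0, hM⟩⟩
  induction k with
  | zero =>
    unfold na av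
    simp only [pow_zero, Finset.sum_range_one, Nat.cast_one, div_one]
    rw [Fintype.sum_unique]
    simp only [Fintype.card_unique, Nat.cast_one, div_one]
    congr 1
    funext r
    exact r.elim0
  | succ k ih =>
    have h1 : na (M ^ (k + 1)) (fun p => F (fun r => p / M ^ (r : ℕ) % M)) =
        na (M ^ k * M) (fun p => (fun a b => F (Fin.cons b (fun r : Fin k => a / M ^ (r : ℕ) % M)))
          (p / M) (p % M)) := by
      rw [← pow_succ]
      refine na_congr fun p _ => ?_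
      simp only
      congr 1
      funext r
      refine Fin.cases ?_ (fun r => ?_) r
      · simp
      · simp only [Fin.val_succ, Fin.cons_succ]
        rw [pow_succ', Nat.div_div_eq_div_mul]
    rw [h1, na_mul _ hM (fun a b => F (Fin.cons b (fun r : Fin k => a / M ^ (r : ℕ) % M))), na_comm]
    have h2 : ∀ b, na (M ^ k) (fun a => F (Fin.cons b (fun r : Fin k => a / M ^ (r : ℕ) % M))) =
        av (fun y : Fin k → Fin M => F (Fin.cons b (fun r => (y r : ℕ)))) :=
      fun b => ih (fun v => F (Fin.cons b v))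
    rw [na_congr fun b _ => h2 b,
      ← av_fin M (fun b => av (fun y : Fin k → Fin M => F (Fin.cons b (fun r => (y r : ℕ)))))]
    unfold av
    rw [← Finset.sum_div, div_div]
    have h3 : ∑ b : Fin M, ∑ y : Fin k → Fin M, F (Fin.cons (b : ℕ) (fun r => (y r : ℕ))) =
        ∑ y : Fin (k + 1) → Fin M, F (fun r => (y r : ℕ)) := by
      rw [← Fintype.sum_prod_type'
        (fun (b : Fin M) (y : Fin k → Fin M) => F (Fin.cons (b : ℕ) (fun r => (y r : ℕ)))),
        ← Equiv.sum_comp (Fin.consEquiv (fun _ : Fin (k + 1) => Fin M))]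
      refine Finset.sum_congr rfl fun q _ => ?_
      congr 1
      funext r
      refine Fin.cases ?_ (fun r => ?_) r
      · simp [Fin.consEquiv]
      · simp [Fin.consEquiv]
    rw [h3]
    congr 1
    rw [Fintype.card_fun, Fintype.card_fun, Fintype.card_fin, Fintype.card_fin, Fintype.card_fin]
    push_cast
    ring

end Pool.Agent.MP_ca1109_lc.Agp
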