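import Pool.Agent.MP_ca1109_lc.Agp.K1
import Pool.Agent.MP_ca1109_lc.Agp.B1
import Pool.Agent.MP_ca1109_lc.Agp.H2
import Pool.Agent.MP_ca1109_lc.Agp.G2

/-!
# Independent copies: twists of higher degree
-/

namespace Pool.Agent.MP_ca1109_lc.Agp

open Pool.Agent.MP_ca1109_lc.Mpg Finset

theorem k2_avg_comm {A B : Type*} [Fintype A] [Fintype B] (f : A → B → ℝ) :
    avg (fun a => avg (fun b => f a b)) = avg (fun b => avg (fun a => f a b)) := by
  unfold avg
  rw [← Finset.sum_div, ← Finset.sum_div, Finset.sum_comm, div_div, div_div,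
    mul_comm (Fintype.card B : ℝ)]

/-- The word made of several words. -/
def xx {n k M : ℕ} (G : ℕ → ℕ → ℕ → Bool) (rr : Fin n → Fin k) (y : Fin k → Fin M) :
    Fin n → Bool := fun i => G n (y (rr i)) i

theorem xx_update {n k M : ℕ} (G : ℕ → ℕ → ℕ → Bool) (rr : Fin n → Fin k) (y : Fin k → Fin M)
    (r : Fin k) (a : Fin M) :
    xx G rr (Function.update y r a) =
      sel (fun i => decide (rr i = r)) (out G n a) (xx G rr y) := by
  funext i
  unfold xx sel out
  by_cases h : rr i = r
  · simp only [h, Function.update_self, decide_true, if_true]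
  · simp only [h, ne_eq, not_false_eq_true, Function.update_of_ne, decide_false,
      Bool.false_eq_true, if_false]

theorem lin_sel {Γ : Type*} [AddCommGroup Γ] {n : ℕ} (α : Fin n → Γ) (V x y : Fin n → Bool) :
    lin α (sel V x y) = lin (fun i => if V i = true then α i else 0) x +
      lin (fun i => if V i = true then 0 else α i) y := by
  unfold lin sel
  rw [← Finset.sum_add_distrib]
  refine Finset.sum_congr rfl fun i _ => ?_
  by_cases h : V i = true
  · simp [h]
  · simp [h]

theorem lin_nsmul {Γ : Type*} [AddCommGroup Γ] {n : ℕ} (m : ℕ) (α : Fin n → Γ)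
    (x : Fin n → Bool) : m • lin α x = lin (fun i => m • α i) x := by
  unfold lin
  rw [Finset.smul_sum]
  refine Finset.sum_congr rfl fun i _ => ?_
  split_ifs
  · rfl
  · exact smul_zero m

/-- One bucket. -/
theorem one_bucket {Γ : Type} [AddCommGroup Γ] [Fintype Γ] {n k M m d N₀ m₀ : ℕ} [NeZero m]
    {η : ℝ} (G : ℕ → ℕ → ℕ → Bool) (hL : LSok m d N₀ m₀ η M (out G n)) (rr : Fin n → Fin k)
    (α : Fin n → Γ) (r : Fin k) (I : Finset (Fin n)) (hI : N₀ ≤ (I.filter fun i => rr i = r).card)
    (hα : ∀ i ∈ I, (m₀ * m) • α i ≠ 0) (hM : 0 < M)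
    (u : AddChar Γ ℂ → (Fin n → Bool) → ℂ) (hu : ∀ χ, u χ ∈ phCls m Bool (d + 1) n) :
    avg (fun χ : AddChar Γ ℂ => ‖av (fun a : Fin M => (av (fun y : Fin k → Fin M =>
      u χ (xx G rr (Function.update y r a)) *
        χ (lin α (xx G rr (Function.update y r a))))) ^ m)‖) ≤ η := by
  classical
  set V : Fin n → Bool := fun i => decide (rr i = r) with hV
  have hne : Nonempty (Fin M) := ⟨⟨0, hM⟩⟩
  have h1 : ∀ χ : AddChar Γ ℂ, ‖av (fun a : Fin M => (av (fun y : Fin k → Fin M =>
      u χ (xx G rr (Function.update y r a)) *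
        χ (lin α (xx G rr (Function.update y r a))))) ^ m)‖ ≤
      avg (fun Y : Fin m → Fin k → Fin M => ‖na M (fun p =>
        (∏ l, u χ (sel V (out G n p) (xx G rr (Y l)))) *
          χ (lin (fun i => if V i = true then m • α i else 0) (out G n p)))‖) := by
    intro χ
    have e1 : av (fun a : Fin M => (av (fun y : Fin k → Fin M =>
        u χ (xx G rr (Function.update y r a)) *
          χ (lin α (xx G rr (Function.update y r a))))) ^ m) =
        av (fun Y : Fin m → Fin k → Fin M => av (fun a : Fin M => ∏ l,
          (u χ (xx G rr (Function.update (Y l) r a)) *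
            χ (lin α (xx G rr (Function.update (Y l) r a)))))) := by
      rw [← av_comm]
      congr 1
      funext a
      rw [av_pow]
    rw [e1]
    refine (norm_av_le _).trans (avg_mono fun Y => le_of_eq ?_)
    have e2 : ∀ a : Fin M, ∏ l, (u χ (xx G rr (Function.update (Y l) r a)) *
        χ (lin α (xx G rr (Function.update (Y l) r a)))) =
        (∏ l, χ (lin (fun i => if V i = true then 0 else α i) (xx G rr (Y l)))) *
        ((∏ l, u χ (sel V (out G n a) (xx G rr (Y l)))) *
          χ (lin (fun i => if V i = true then m • α i else 0) (out G n a))) := by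
      intro a
      simp only [xx_update, lin_sel, AddChar.map_add_eq_mul]
      rw [Finset.prod_mul_distrib, Finset.prod_mul_distrib, Finset.prod_const,
        Finset.card_univ, Fintype.card_fin, ← AddChar.map_nsmul_eq_pow, lin_nsmul]
      have e3 : (fun i => m • (if V i = true then α i else 0)) =
          fun i => if V i = true then m • α i else 0 := by
        funext i
        split_ifs
        · rfl
        · exact smul_zero m
      rw [e3]
      ring
    simp only [e2]
    have e4 := av_fin M (fun p : ℕ => (∏ l, χ (lin (fun i => if V i = true then 0 else α i)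
      (xx G rr (Y l)))) * ((∏ l, u χ (sel V (out G n p) (xx G rr (Y l)))) *
          χ (lin (fun i => if V i = true then m • α i else 0) (out G n p))))
    refine (congrArg norm e4).trans ?_
    rw [na_mul_left, norm_mul, norm_prod]
    simp only [AddChar.norm_apply, Finset.prod_const_one, one_mul]
  refine (avg_mono h1).trans ?_
  rw [k2_avg_comm]
  have hne2 : Nonempty (Fin m → Fin k → Fin M) := inferInstance
  refine avg_le fun Y => ?_
  refine hL Γ (fun i => if V i = true then m • α i else 0) (I.filter fun i => rr i = r) hI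
    (fun i hi => ?_) (fun χ a => ∏ l, u χ (sel V a (xx G rr (Y l))))
    (fun χ => tw_rep (hu χ) V fun l => xx G rr (Y l))
  obtain ⟨hi1, hi2⟩ := Finset.mem_filter.1 hi
  have h3 := hα i hi1
  simp only [hV, hi2, decide_true, if_true]
  rwa [mul_comm, mul_smul, smul_comm] at h3

end Pool.Agent.MP_ca1109_lc.Agp
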