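import Pool.Agent.MP_ca1109_lc.Agp.Defs

/-!
# Averages over ranges: basic rules
-/

namespace Pool.Agent.MP_ca1109_lc.Agp

open Pool.Agent.MP_ca1109_lc.Mpg Finset

theorem na_congr {M : ℕ} {F G : ℕ → ℂ} (h : ∀ p < M, F p = G p) : na M F = na M G := by
  unfold na
  rw [Finset.sum_congr rfl fun p hp => h p (Finset.mem_range.1 hp)]

theorem nr_congr {M : ℕ} {F G : ℕ → ℝ} (h : ∀ p < M, F p = G p) : nr M F = nr M G := by
  unfold nr
  rw [Finset.sum_congr rfl fun p hp => h p (Finset.mem_range.1 hp)]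

theorem na_const {M : ℕ} (hM : 0 < M) (c : ℂ) : na M (fun _ => c) = c := by
  unfold na
  have h : (M : ℂ) ≠ 0 := by exact_mod_cast hM.ne'
  rw [Finset.sum_const, Finset.card_range, nsmul_eq_mul]
  field_simp

theorem nr_const {M : ℕ} (hM : 0 < M) (c : ℝ) : nr M (fun _ => c) = c := by
  unfold nr
  have h : (M : ℝ) ≠ 0 := by exact_mod_cast hM.ne'
  rw [Finset.sum_const, Finset.card_range, nsmul_eq_mul]
  field_simp

theorem na_add (M : ℕ) (F G : ℕ → ℂ) : na M (fun p => F p + G p) = na M F + na M G := by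
  unfold na
  rw [Finset.sum_add_distrib, add_div]

theorem na_sub (M : ℕ) (F G : ℕ → ℂ) : na M (fun p => F p - G p) = na M F - na M G := by
  unfold na
  rw [Finset.sum_sub_distrib, sub_div]

theorem na_mul_left (M : ℕ) (c : ℂ) (F : ℕ → ℂ) : na M (fun p => c * F p) = c * na M F := by
  unfold na
  rw [← Finset.mul_sum, mul_div_assoc]

theorem na_mul_right (M : ℕ) (c : ℂ) (F : ℕ → ℂ) : na M (fun p => F p * c) = na M F * c := by
  unfold na
  rw [← Finset.sum_mul, mul_div_right_comm]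

theorem na_sum {J : Type*} (M : ℕ) (s : Finset J) (F : J → ℕ → ℂ) :
    na M (fun p => ∑ j ∈ s, F j p) = ∑ j ∈ s, na M (F j) := by
  unfold na
  rw [Finset.sum_comm, Finset.sum_div]

theorem na_conj (M : ℕ) (F : ℕ → ℂ) :
    na M (fun p => (starRingEnd ℂ) (F p)) = (starRingEnd ℂ) (na M F) := by
  unfold na
  rw [map_div₀, map_sum, Complex.conj_natCast]

theorem nr_add (M : ℕ) (F G : ℕ → ℝ) : nr M (fun p => F p + G p) = nr M F + nr M G := by
  unfold nr
  rw [Finset.sum_add_distrib, add_div]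

theorem nr_sub (M : ℕ) (F G : ℕ → ℝ) : nr M (fun p => F p - G p) = nr M F - nr M G := by
  unfold nr
  rw [Finset.sum_sub_distrib, sub_div]

theorem nr_mul_left (M : ℕ) (c : ℝ) (F : ℕ → ℝ) : nr M (fun p => c * F p) = c * nr M F := by
  unfold nr
  rw [← Finset.mul_sum, mul_div_assoc]

theorem nr_sum {J : Type*} (M : ℕ) (s : Finset J) (F : J → ℕ → ℝ) :
    nr M (fun p => ∑ j ∈ s, F j p) = ∑ j ∈ s, nr M (F j) := by
  unfold nr
  rw [Finset.sum_comm, Finset.sum_div]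

theorem nr_mono {M : ℕ} {F G : ℕ → ℝ} (h : ∀ p < M, F p ≤ G p) : nr M F ≤ nr M G := by
  unfold nr
  exact div_le_div_of_nonneg_right
    (Finset.sum_le_sum fun p hp => h p (Finset.mem_range.1 hp)) (Nat.cast_nonneg _)

theorem nr_nonneg {M : ℕ} {F : ℕ → ℝ} (h : ∀ p < M, 0 ≤ F p) : 0 ≤ nr M F := by
  unfold nr
  exact div_nonneg (Finset.sum_nonneg fun p hp => h p (Finset.mem_range.1 hp)) (Nat.cast_nonneg _)

theorem nr_le {M : ℕ} (hM : 0 < M) {F : ℕ → ℝ} {C : ℝ} (h : ∀ p < M, F p ≤ C) : nr M F ≤ C :=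
  (nr_mono h).trans_eq (nr_const hM C)

theorem norm_na_le (M : ℕ) (F : ℕ → ℂ) : ‖na M F‖ ≤ nr M (fun p => ‖F p‖) := by
  unfold na nr
  rw [norm_div, Complex.norm_natCast]
  exact div_le_div_of_nonneg_right (norm_sum_le _ _) (Nat.cast_nonneg _)

theorem norm_na_le_of {M : ℕ} (hM : 0 < M) {F : ℕ → ℂ} {C : ℝ} (h : ∀ p < M, ‖F p‖ ≤ C) :
    ‖na M F‖ ≤ C :=
  (norm_na_le M F).trans (nr_le hM h)

theorem na_mul (A : ℕ) {B : ℕ} (hB : 0 < B) (F : ℕ → ℕ → ℂ) :
    na (A * B) (fun p => F (p / B) (p % B)) = na A (fun a => na B (fun b => F a b)) := by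
  unfold na
  rw [d2_sum_div B hB F A, Nat.cast_mul, ← Finset.sum_div, div_div, mul_comm (B : ℂ)]

theorem nr_ofReal (M : ℕ) (F : ℕ → ℝ) : ((nr M F : ℝ) : ℂ) = na M (fun p => (F p : ℂ)) := by
  unfold na nr
  push_cast
  rfl

theorem nr_mul (A : ℕ) {B : ℕ} (hB : 0 < B) (F : ℕ → ℕ → ℝ) :
    nr (A * B) (fun p => F (p / B) (p % B)) = nr A (fun a => nr B (fun b => F a b)) := by
  have h : ((nr (A * B) (fun p => F (p / B) (p % B)) : ℝ) : ℂ) =
      ((nr A (fun a => nr B (fun b => F a b)) : ℝ) : ℂ) := by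
    rw [nr_ofReal, nr_ofReal]
    refine (na_mul A hB fun a b => (F a b : ℂ)).trans (na_congr fun a _ => ?_)
    exact (nr_ofReal B (F a)).symm
  exact_mod_cast h

theorem na_mod {A : ℕ} (hA : 0 < A) {B : ℕ} (hB : 0 < B) (F : ℕ → ℂ) :
    na (A * B) (fun p => F (p % B)) = na B F :=
  (na_mul A hB fun _ b => F b).trans (na_const hA _)

theorem na_comm (M N : ℕ) (F : ℕ → ℕ → ℂ) :
    na M (fun p => na N (fun q => F p q)) = na N (fun q => na M (fun p => F p q)) := by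
  unfold na
  rw [← Finset.sum_div, ← Finset.sum_div, Finset.sum_comm, div_div, div_div, mul_comm (N : ℂ)]

theorem nr_comm (M N : ℕ) (F : ℕ → ℕ → ℝ) :
    nr M (fun p => nr N (fun q => F p q)) = nr N (fun q => nr M (fun p => F p q)) := by
  unfold nr
  rw [← Finset.sum_div, ← Finset.sum_div, Finset.sum_comm, div_div, div_div, mul_comm (N : ℝ)]

theorem avg_nr {A : Type*} [Fintype A] (M : ℕ) (F : A → ℕ → ℝ) :
    avg (fun a => nr M (fun p => F a p)) = nr M (fun p => avg (fun a => F a p)) := by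
  unfold avg nr
  rw [← Finset.sum_div, ← Finset.sum_div, Finset.sum_comm, div_div, div_div,
    mul_comm (Fintype.card A : ℝ)]

theorem av_na {A : Type*} [Fintype A] (M : ℕ) (F : A → ℕ → ℂ) :
    av (fun a => na M (fun p => F a p)) = na M (fun p => av (fun a => F a p)) := by
  unfold av na
  rw [← Finset.sum_div, ← Finset.sum_div, Finset.sum_comm, div_div, div_div,
    mul_comm (Fintype.card A : ℂ)]

theorem norm_na_sq (M : ℕ) (F : ℕ → ℂ) :
    ((‖na M F‖ ^ 2 : ℝ) : ℂ) = na M (fun p => na M (fun q => F p * (starRingEnd ℂ) (F q))) := by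
  have h : ∀ p, na M (fun q => F p * (starRingEnd ℂ) (F q)) = F p * (starRingEnd ℂ) (na M F) := by
    intro p
    rw [na_mul_left, na_conj]
  rw [na_congr fun p _ => h p, na_mul_right, Complex.mul_conj, Complex.normSq_eq_norm_sq]

theorem norm_na_sq_le {M : ℕ} (hM : 0 < M) (F : ℕ → ℂ) :
    ‖na M F‖ ^ 2 ≤ nr M (fun p => ‖F p‖ ^ 2) := by
  have hM' : (0 : ℝ) < M := by exact_mod_cast hM
  have h1 : (∑ p ∈ range M, ‖F p‖) ^ 2 ≤ M * ∑ p ∈ range M, ‖F p‖ ^ 2 := by
    have := sq_sum_le_card_mul_sum_sq (s := range M) (f := fun p => ‖F p‖)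
    rwa [Finset.card_range] at this
  refine (pow_le_pow_left₀ (norm_nonneg _) (norm_na_le M F) 2).trans ?_
  unfold nr
  rw [div_pow, div_le_div_iff₀ (by positivity) hM']
  nlinarith

theorem nr_pow_le {M : ℕ} (hM : 0 < M) {F : ℕ → ℝ} (hF : ∀ p < M, 0 ≤ F p) (k : ℕ) :
    (nr M F) ^ k ≤ nr M (fun p => F p ^ k) := by
  have hM' : (0 : ℝ) < M := by exact_mod_cast hM
  have h := Real.pow_arith_mean_le_arith_mean_pow (range M) (fun _ => 1 / (M : ℝ)) F
    (fun _ _ => by positivity) (by simp [hM'.ne']) (fun p hp => hF p (Finset.mem_range.1 hp)) k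
  unfold nr
  simp only [div_eq_mul_inv, Finset.sum_mul] at h ⊢
  simpa [mul_comm] using h

theorem nr_sq_le {M : ℕ} (hM : 0 < M) {F : ℕ → ℝ} (hF : ∀ p < M, 0 ≤ F p) :
    (nr M F) ^ 2 ≤ nr M (fun p => F p ^ 2) := nr_pow_le hM hF 2

theorem avg_pow_le {A : Type*} [Fintype A] [Nonempty A] {F : A → ℝ} (hF : ∀ a, 0 ≤ F a) (k : ℕ) :
    (avg F) ^ k ≤ avg (fun a => F a ^ k) := by
  have hM' : (0 : ℝ) < Fintype.card A := by exact_mod_cast Fintype.card_pos
  have h := Real.pow_arith_mean_le_arith_mean_pow (univ : Finset A)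
    (fun _ => 1 / (Fintype.card A : ℝ)) F
    (fun _ _ => by positivity) (by simp [hM'.ne']) (fun a _ => hF a) k
  unfold avg
  simp only [div_eq_mul_inv, Finset.sum_mul] at h ⊢
  simpa [mul_comm] using h

theorem norm_av_le {A : Type*} [Fintype A] (F : A → ℂ) : ‖av F‖ ≤ avg (fun a => ‖F a‖) := by
  unfold av avg
  rw [norm_div, Complex.norm_natCast]
  exact div_le_div_of_nonneg_right (norm_sum_le _ _) (Nat.cast_nonneg _)

theorem avg_le {A : Type*} [Fintype A] [Nonempty A] {F : A → ℝ} {C : ℝ} (h : ∀ a, F a ≤ C) :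
    avg F ≤ C :=
  (avg_mono h).trans_eq (avg_const C)

end Pool.Agent.MP_ca1109_lc.Agp
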