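import Pool.Agent.MP_ca1109_lc.Agp.N1

/-!
# Phases of low degree: closure properties
-/

namespace Pool.Agent.MP_ca1109_lc.Agp

open Pool.Agent.MP_ca1109_lc.Mpg Finset

/- PROOF NOTES [AGP-N2].  `phCls m Bool d n = {f | ∃ P ∈ lowDeg (Fin n) Bool (ZMod m) d, f = fun x => ph m (P x)}`
(`Mpg/Defs`).  Rules for `ph`: `norm_ph, ph_add, ph_sub, ph_sum, ph_zero` (`Mpg/A5`); for `lowDeg`:
`lowDeg_comp, lowDeg_mono, lowDeg_hom, lowDeg_rep, junta_mem` (`Mpg/A4`), `AddSubgroup.sub_mem`, `sum_mem`.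
`tw_sel`: for fixed `V b` the map `a ↦ sel V b a` is of the form `a ↦ fun i => β i (a i)` with
`β i z = if V i then b i else z` (`lowDeg_comp`).  `tw_xor`: `β i z = xor (a i) z`.
`tw_diff`: `ph m (P (sel V b a)) * conj (ph m (P (sel V b' a))) = ph m (P (sel V b a) - P (sel V b' a))`.
`tw_rep`: `∏ l, ph m (P (sel V a (Y l))) = ph m (∑ l, P (sel V a (Y l)))` and `lowDeg_rep`.
`ph_lift`: for `m ∣ M`, `M = m * r`, use `φ = ZMod.lift m ⟨(Int.castAddHom _) composed with r * ·, _⟩ : ZMod m →+ ZMod M`,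
`φ (j : ℤ) = (r * j : ℤ)`; every element of `ZMod m` is `((j : ℤ) : ZMod m)` (`ZMod.intCast_surjective`), and
`ZMod.stdAddChar_coe : stdAddChar (j : ZMod N) = exp (2 * π * I * j / N)`.
`tw_mul`: `ph m (P x) * ph m' (P' x) = ph (m*m') (φ (P x) + φ' (P' x))`.
`sgn_mem`: `(if b then -1 else 1) = ph 2 (if b then 1 else 0)` (`ph 2 1 = -1`: `ZMod.stdAddChar_coe` with
`j = 1, N = 2`, `Complex.exp_pi_mul_I`), `∏ = ph 2 (∑ i ∈ T, if x i then 1 else 0)`, a sum of functions of one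
coordinate.  `const_mem`: constants `ph m z`. -/

theorem tw_norm {m d n : ℕ} [NeZero m] {u : (Fin n → Bool) → ℂ} (hu : u ∈ phCls m Bool d n)
    (x : Fin n → Bool) : ‖u x‖ = 1 := by
  obtain ⟨P, _, rfl⟩ := hu
  exact norm_ph m _

theorem tw_mono {m d d' n : ℕ} [NeZero m] (h : d ≤ d') {u : (Fin n → Bool) → ℂ}
    (hu : u ∈ phCls m Bool d n) : u ∈ phCls m Bool d' n := by
  obtain ⟨P, hP, rfl⟩ := hu
  exact ⟨P, lowDeg_mono h hP, rfl⟩

theorem tw_one {m d n : ℕ} [NeZero m] : (fun _ => 1 : (Fin n → Bool) → ℂ) ∈ phCls m Bool d n := by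
  refine ⟨fun _ => 0, lowDeg_const 0, ?_⟩
  funext x
  rw [ph_zero]

theorem tw_sel {m d n : ℕ} [NeZero m] {u : (Fin n → Bool) → ℂ} (hu : u ∈ phCls m Bool d n)
    (V b : Fin n → Bool) : (fun a => u (sel V b a)) ∈ phCls m Bool d n := by
  obtain ⟨P, hP, rfl⟩ := hu
  refine ⟨fun a => P (sel V b a), ?_, rfl⟩
  exact lowDeg_comp (fun i z => if V i then b i else z) hP

theorem tw_diff {m d n : ℕ} [NeZero m] {u : (Fin n → Bool) → ℂ} (hu : u ∈ phCls m Bool d n)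
    (V b b' : Fin n → Bool) :
    (fun a => u (sel V b a) * (starRingEnd ℂ) (u (sel V b' a))) ∈ phCls m Bool d n := by
  obtain ⟨P, hP, rfl⟩ := hu
  refine ⟨fun a => P (sel V b a) - P (sel V b' a), ?_, ?_⟩
  · exact AddSubgroup.sub_mem _ (lowDeg_comp (fun i z => if V i then b i else z) hP)
      (lowDeg_comp (fun i z => if V i then b' i else z) hP)
  · funext a
    rw [ph_sub]

theorem tw_rep {m d n : ℕ} [NeZero m] {u : (Fin n → Bool) → ℂ} (hu : u ∈ phCls m Bool (d + 1) n)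
    (V : Fin n → Bool) (Y : Fin m → Fin n → Bool) :
    (fun a => ∏ l, u (sel V a (Y l))) ∈ phCls m Bool d n := by
  obtain ⟨P, hP, rfl⟩ := hu
  refine ⟨fun a => ∑ l, P (sel V a (Y l)), lowDeg_rep hP V Y, ?_⟩
  funext a
  rw [ph_sum]

theorem tw_xor {m d n : ℕ} [NeZero m] {u : (Fin n → Bool) → ℂ} (hu : u ∈ phCls m Bool d n)
    (a : Fin n → Bool) : (fun e => u (fun i => xor (a i) (e i))) ∈ phCls m Bool d n := by
  obtain ⟨P, hP, rfl⟩ := hu
  exact ⟨fun e => P (fun i => xor (a i) (e i)), lowDeg_comp (fun i z => xor (a i) z) hP, rfl⟩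

/-- Substitution of fixed values for some variables. -/
theorem tw_fix {m d n : ℕ} [NeZero m] {u : (Fin n → Bool) → ℂ} (hu : u ∈ phCls m Bool d n)
    (A : Finset (Fin n)) (τ : Fin n → Bool) :
    (fun x => u (fun i => if i ∈ A then τ i else x i)) ∈ phCls m Bool d n := by
  obtain ⟨P, hP, rfl⟩ := hu
  exact ⟨fun x => P (fun i => if i ∈ A then τ i else x i),
    lowDeg_comp (fun i z => if i ∈ A then τ i else z) hP, rfl⟩

theorem ph_lift {m M : ℕ} [NeZero m] [NeZero M] (h : m ∣ M) :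
    ∃ φ : ZMod m →+ ZMod M, ∀ z, ph M (φ z) = ph m z := by
  obtain ⟨r, rfl⟩ := h
  have hr : r ≠ 0 := by
    rintro rfl
    exact NeZero.ne (m * 0) (Nat.mul_zero m)
  have hm : m ≠ 0 := NeZero.ne m
  have h0 : ((Int.castAddHom (ZMod (m * r))).comp (AddMonoidHom.mulLeft (r : ℤ))) (m : ℤ) = 0 := by
    show (((r : ℤ) * (m : ℤ) : ℤ) : ZMod (m * r)) = 0
    have h1 : ((r : ℤ) * (m : ℤ) : ℤ) = ((m * r : ℕ) : ℤ) := by
      push_cast
      ring
    rw [h1, Int.cast_natCast, ZMod.natCast_self]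
  refine ⟨ZMod.lift m ⟨(Int.castAddHom (ZMod (m * r))).comp (AddMonoidHom.mulLeft (r : ℤ)), h0⟩,
    fun z => ?_⟩
  obtain ⟨j, rfl⟩ := ZMod.intCast_surjective z
  rw [ZMod.lift_coe]
  show ph (m * r) (((r : ℤ) * j : ℤ) : ZMod (m * r)) = _
  unfold ph
  rw [ZMod.stdAddChar_coe, ZMod.stdAddChar_coe]
  congr 1
  have hr' : (r : ℂ) ≠ 0 := by exact_mod_cast hr
  have hm' : (m : ℂ) ≠ 0 := by exact_mod_cast hm
  push_cast
  field_simp

theorem tw_mul {m m' d n : ℕ} [NeZero m] [NeZero m'] [NeZero (m * m')] {u u' : (Fin n → Bool) → ℂ}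
    (hu : u ∈ phCls m Bool d n) (hu' : u' ∈ phCls m' Bool d n) :
    (fun x => u x * u' x) ∈ phCls (m * m') Bool d n := by
  obtain ⟨P, hP, rfl⟩ := hu
  obtain ⟨P', hP', rfl⟩ := hu'
  obtain ⟨φ, hφ⟩ := ph_lift (m := m) (M := m * m') (Dvd.intro m' rfl)
  obtain ⟨φ', hφ'⟩ := ph_lift (m := m') (M := m * m') (Dvd.intro_left m rfl)
  refine ⟨fun x => φ (P x) + φ' (P' x),
    AddSubgroup.add_mem _ (lowDeg_hom φ hP) (lowDeg_hom φ' hP'), ?_⟩
  funext x
  rw [ph_add, hφ, hφ']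

theorem sgn_mem {n : ℕ} (T : Finset (Fin n)) : sgn T ∈ phCls 2 Bool 1 n := by
  have h1 : ph 2 1 = -1 := by
    have h2 := ZMod.stdAddChar_coe (N := 2) 1
    rw [Int.cast_one] at h2
    unfold ph
    rw [h2]
    have h3 : 2 * (Real.pi : ℂ) * Complex.I * ((1 : ℤ) : ℂ) / ((2 : ℕ) : ℂ) =
        (Real.pi : ℂ) * Complex.I := by
      push_cast
      ring
    rw [h3, Complex.exp_pi_mul_I]
  refine ⟨fun x => ∑ i ∈ T, if x i = true then 1 else 0, ?_, ?_⟩
  · have h2 : (fun x : Fin n → Bool => ∑ i ∈ T, if x i = true then (1 : ZMod 2) else 0) =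
        ∑ i ∈ T, fun x : Fin n → Bool => if x i = true then (1 : ZMod 2) else 0 := by
      funext x
      rw [Finset.sum_apply]
    rw [h2]
    refine AddSubgroup.sum_mem _ fun i _ => ?_
    refine junta_mem {i} (by rw [Finset.card_singleton]) fun x y h => ?_
    show (if x i = true then (1 : ZMod 2) else 0) = if y i = true then (1 : ZMod 2) else 0
    rw [h i (by
      rw [Finset.coe_singleton]
      exact Set.mem_singleton i)]
  · funext x
    rw [ph_sum]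
    unfold sgn
    refine Finset.prod_congr rfl fun i _ => ?_
    by_cases hx : x i = true
    · rw [if_pos hx, if_pos hx, h1]
    · rw [if_neg hx, if_neg hx, ph_zero]

end Pool.Agent.MP_ca1109_lc.Agp
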