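import Pool.Agent.MP_ca1109_lc.Agp.P1

/-!
# Substitutions in polynomials
-/

namespace Pool.Agent.MP_ca1109_lc.Agp

open Pool.Agent.MP_ca1109_lc.Mpg Finset

variable {Γ : Type*} [AddCommGroup Γ] {n : ℕ}

/- PROOF NOTES [AGP-P2].
`pol_subst`: put `κ i : ℤ = if r i false then 1 else 0`, `lam (r i) : ℤ = (if r i true then 1 else 0) - κ i`, so that
`(if r i b then 1 else 0 : ℤ) = κ i + lam (r i) * (if b then 1 else 0)`.  Hence
`(if ∀ i ∈ S, r i (x i) then 1 else 0 : ℤ) = ∏ i ∈ S, (lam (r i) * [x i] + κ i)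
 = ∑ T ∈ S.powerset, (∏ i ∈ T, lam (r i) * [x i]) * ∏ i ∈ S \ T, κ i` (`Finset.prod_add`), and
`∏ i ∈ T, lam (r i) * [x i] = (∏ i ∈ T, lam (r i)) * (if ∀ i ∈ T, x i then 1 else 0)`.  So
`c' T = ∑ S, if T ⊆ S then ((∏ i ∈ T, lam (r i)) * ∏ i ∈ S \ T, κ i) • c S else 0` works
(exchange the two sums).  `Deg j c'`: if `j < T.card` and `T ⊆ S` then `j < S.card`, `c S = 0`.
For `T.card = j` and `T ⊆ S`, `T ≠ S` we have `j < S.card` (`Finset.card_lt_card`), so only `S = T` remains.
`pol_xor`: `r i z = xor (a i) z`, `lam = 1` or `-1`; the product is `1` or `-1` (`Finset.prod_induction` or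
`Int.units`/`Finset.prod_eq_one_or..`: show `∀ T, ∏ i ∈ T, lam (r i) = 1 ∨ ∏ = -1` by induction on `T`).
`pol_fix`: `r i z = if i ∈ A then τ i else z`, `lam = 0` for `i ∈ A` and `1` for `i ∉ A`; if `S` meets `A` the product is
`0` (`Finset.prod_eq_zero`), otherwise it is `1`. -/

/-- The slope of a function on bits. -/
def lam (r : Bool → Bool) : ℤ := (if r true = true then 1 else 0) - (if r false = true then 1 else 0)

theorem p2_key (r : Bool → Bool) (b : Bool) : (if r b = true then (1 : ℤ) else 0) =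
    lam r * (if b = true then 1 else 0) + (if r false = true then 1 else 0) := by
  unfold lam
  cases b <;> cases r true <;> cases r false <;> simp

/-- the new coefficients -/
def p2c (c : Finset (Fin n) → Γ) (r : Fin n → Bool → Bool) (T : Finset (Fin n)) : Γ :=
  ∑ S, if T ⊆ S then ((∏ i ∈ T, lam (r i)) * ∏ i ∈ S \ T, (if r i false = true then (1 : ℤ) else 0)) • c S
    else 0

theorem p2_pol (c : Finset (Fin n) → Γ) (x : Fin n → Bool) :
    pol c x = ∑ S, (∏ i ∈ S, (if x i = true then (1 : ℤ) else 0)) • c S := by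
  unfold pol
  refine Finset.sum_congr rfl fun S _ => ?_
  rw [Finset.prod_boole, ite_smul, one_smul, zero_smul]
  by_cases h : ∀ i ∈ S, x i = true
  · rw [if_pos h, if_pos h]
  · rw [if_neg h, if_neg h]

theorem p2_main (c : Finset (Fin n) → Γ) (r : Fin n → Bool → Bool) (x : Fin n → Bool) :
    pol c (fun i => r i (x i)) = pol (p2c c r) x := by
  rw [p2_pol, p2_pol]
  have h1 : ∀ S : Finset (Fin n), (∏ i ∈ S, (if r i (x i) = true then (1 : ℤ) else 0)) • c S =
      ∑ T : Finset (Fin n), if T ⊆ S then ((∏ i ∈ T, (if x i = true then (1 : ℤ) else 0)) *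
        ((∏ i ∈ T, lam (r i)) * ∏ i ∈ S \ T, (if r i false = true then (1 : ℤ) else 0))) • c S
        else 0 := by
    intro S
    have h2 : (∏ i ∈ S, (if r i (x i) = true then (1 : ℤ) else 0)) =
        ∏ i ∈ S, (lam (r i) * (if x i = true then 1 else 0) +
          (if r i false = true then (1 : ℤ) else 0)) :=
      Finset.prod_congr rfl fun i _ => p2_key (r i) (x i)
    rw [h2, Finset.prod_add, Finset.sum_smul, ← Finset.sum_filter]
    refine Finset.sum_congr ?_ fun T _ => ?_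
    · ext T
      rw [Finset.mem_powerset, Finset.mem_filter]
      exact ⟨fun h => ⟨Finset.mem_univ _, h⟩, fun h => h.2⟩
    · rw [Finset.prod_mul_distrib]
      congr 1
      ring
  rw [Finset.sum_congr rfl fun S _ => h1 S, Finset.sum_comm]
  refine Finset.sum_congr rfl fun T _ => ?_
  unfold p2c
  rw [Finset.smul_sum]
  refine Finset.sum_congr rfl fun S _ => ?_
  by_cases h : T ⊆ S
  · rw [if_pos h, if_pos h, smul_smul]
  · rw [if_neg h, if_neg h, smul_zero]

theorem pol_subst {j : ℕ} {c : Finset (Fin n) → Γ} (hc : Deg j c) (r : Fin n → Bool → Bool) :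
    ∃ c' : Finset (Fin n) → Γ, Deg j c' ∧ (∀ S, S.card = j → c' S = (∏ i ∈ S, lam (r i)) • c S) ∧
      ∀ x, pol c (fun i => r i (x i)) = pol c' x := by
  refine ⟨p2c c r, fun T hT => ?_, fun T hT => ?_, fun x => p2_main c r x⟩
  · unfold p2c
    refine Finset.sum_eq_zero fun S _ => ?_
    by_cases h : T ⊆ S
    · rw [if_pos h, hc S (lt_of_lt_of_le hT (Finset.card_le_card h)), smul_zero]
    · rw [if_neg h]
  · unfold p2c
    rw [Finset.sum_eq_single T]
    · rw [if_pos (Finset.Subset.refl T), Finset.sdiff_self, Finset.prod_empty, mul_one]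
    · intro S _ hS
      by_cases h : T ⊆ S
      · have h1 : T.card < S.card := Finset.card_lt_card (Finset.ssubset_iff_subset_ne.2 ⟨h, hS.symm⟩)
        rw [if_pos h, hc S (by omega), smul_zero]
      · rw [if_neg h]
    · intro h
      exact absurd (Finset.mem_univ T) h

theorem pol_xor {j : ℕ} {c : Finset (Fin n) → Γ} (hc : Deg j c) (a : Fin n → Bool) :
    ∃ c' : Finset (Fin n) → Γ, Deg j c' ∧ (∀ S, S.card = j → c' S = c S ∨ c' S = - c S) ∧
      ∀ e, pol c (fun i => xor (a i) (e i)) = pol c' e := by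
  obtain ⟨c', h1, h2, h3⟩ := pol_subst hc (fun i z => xor (a i) z)
  refine ⟨c', h1, fun S hS => ?_, h3⟩
  have h4 : ∀ T : Finset (Fin n), (∏ i ∈ T, lam (fun z => xor (a i) z)) = 1 ∨
      (∏ i ∈ T, lam (fun z => xor (a i) z)) = -1 := by
    intro T
    refine Finset.prod_induction _ (fun z : ℤ => z = 1 ∨ z = -1) ?_ (Or.inl rfl) fun i _ => ?_
    · rintro u v (rfl | rfl) (rfl | rfl)
      · exact Or.inl rfl
      · exact Or.inr rfl
      · exact Or.inr rfl
      · exact Or.inl rfl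
    · cases a i
      · exact Or.inl rfl
      · exact Or.inr rfl
  rcases h4 S with h | h
  · left
    rw [h2 S hS, h, one_smul]
  · right
    rw [h2 S hS, h, neg_smul, one_smul]

theorem pol_fix {j : ℕ} {c : Finset (Fin n) → Γ} (hc : Deg j c) (A : Finset (Fin n))
    (τ : Fin n → Bool) :
    ∃ c' : Finset (Fin n) → Γ, Deg j c' ∧
      (∀ S, S.card = j → c' S = 0 ∨ (Disjoint S A ∧ c' S = c S)) ∧
      ∀ x, pol c (fun i => if i ∈ A then τ i else x i) = pol c' x := by
  obtain ⟨c', h1, h2, h3⟩ := pol_subst hc (fun i z => if i ∈ A then τ i else z)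
  refine ⟨c', h1, fun S hS => ?_, h3⟩
  have h4 : ∀ i ∈ A, lam (fun z => if i ∈ A then τ i else z) = 0 := by
    intro i hi
    have h6 : (fun z => if i ∈ A then τ i else z) = fun _ => τ i := funext fun z => if_pos hi
    rw [h6]
    exact sub_self _
  have h5 : ∀ i, i ∉ A → lam (fun z => if i ∈ A then τ i else z) = 1 := by
    intro i hi
    unfold lam
    simp [hi]
  by_cases hd : Disjoint S A
  · right
    refine ⟨hd, ?_⟩
    rw [h2 S hS, Finset.prod_eq_one fun i hi => h5 i (Finset.disjoint_left.1 hd hi), one_smul]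
  · left
    rw [Finset.not_disjoint_iff] at hd
    obtain ⟨i, hi, hi'⟩ := hd
    rw [h2 S hS, Finset.prod_eq_zero hi (h4 i hi'), zero_smul]

theorem wide_xor {j N m : ℕ} {c c' : Finset (Fin n) → Γ}
    (h : ∀ S : Finset (Fin n), S.card = j → c' S = c S ∨ c' S = - c S) :
    Wide N m j c ↔ Wide N m j c' := by
  have h1 : ∀ S : Finset (Fin n), S.card = j → (m • c S ≠ 0 ↔ m • c' S ≠ 0) := by
    intro S hS
    rcases h S hS with h | h
    · rw [h]
    · rw [h, smul_neg, neg_ne_zero]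
  constructor
  · rintro ⟨U, hU, h2, h3⟩
    exact ⟨U, hU, fun S hS => ⟨(h2 S hS).1, (h1 S (h2 S hS).1).1 (h2 S hS).2⟩, h3⟩
  · rintro ⟨U, hU, h2, h3⟩
    exact ⟨U, hU, fun S hS => ⟨(h2 S hS).1, (h1 S (h2 S hS).1).2 (h2 S hS).2⟩, h3⟩

end Pool.Agent.MP_ca1109_lc.Agp
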