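import Pool.Agent.MP_ca1109_lc.Agp.P1

/-!
# Differences of polynomials
-/

namespace Pool.Agent.MP_ca1109_lc.Agp

open Pool.Agent.MP_ca1109_lc.Mpg Finset

variable {Γ : Type*} [AddCommGroup Γ] {n : ℕ}

/- PROOF NOTES [AGP-P3].  Write `W = univ.filter (V · = true)`.
For a set `S` put `S₁ = S.filter (V · = true)` and `S₀ = S.filter (V · = false)`; then
`(∀ i ∈ S, sel V b a i = true) ↔ (∀ i ∈ S₁, b i = true) ∧ (∀ i ∈ S₀, a i = true)`.
`S ↦ (S₀, S₁)` is a bijection onto the pairs `(S', U)` with `S'` disjoint from `W`, `U ⊆ W`, with inverse `S' ∪ U`.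
Hence `pol c (sel V b a) = ∑ S', if ∀ i ∈ S', a i = true then B b S' else 0` with
`B b S' = if ∀ i ∈ S', V i = false then ∑ U ∈ W.powerset, (if ∀ i ∈ U, b i = true then c (S' ∪ U) else 0) else 0`
(`Finset.sum_fiberwise`-type regrouping of `∑ S` by `S₀ = S'`; or `Finset.sum_nbij'`).
`c' S' = B b S' - B b' S'`.
`Deg j c'`: for `j < S'.card`, `U ≠ ∅`, `U ⊆ W`, `S'` disjoint from `W` we have `(S' ∪ U).card ≥ j + 2`, so `c (S' ∪ U) = 0`,
and the terms with `U = ∅` of `B b` and `B b'` cancel.
`S'.card = j`, `∀ i ∈ S', V i = false`: the terms with `U.card ≥ 2` vanish, those with `U = ∅` cancel, and the terms with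
`U = {i}`, `V i = true` give `if b i = true then c (insert i S') else 0`. -/

theorem p3_sel (V b a : Fin n → Bool) (S : Finset (Fin n)) :
    (∀ i ∈ S, sel V b a i = true) ↔
      (∀ i ∈ S.filter (fun i => V i = false), a i = true) ∧
        (∀ i ∈ S.filter (fun i => V i = true), b i = true) := by
  constructor
  · intro h
    refine ⟨fun i hi => ?_, fun i hi => ?_⟩
    · obtain ⟨h1, h2⟩ := Finset.mem_filter.1 hi
      have h3 := h i h1
      unfold sel at h3
      rwa [h2, if_neg (by decide)] at h3
    · obtain ⟨h1, h2⟩ := Finset.mem_filter.1 hi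
      have h3 := h i h1
      unfold sel at h3
      rwa [h2, if_pos rfl] at h3
  · rintro ⟨h1, h2⟩ i hi
    unfold sel
    by_cases hV : V i = true
    · rw [if_pos hV]
      exact h2 i (Finset.mem_filter.2 ⟨hi, hV⟩)
    · rw [if_neg hV]
      exact h1 i (Finset.mem_filter.2 ⟨hi, by simpa using hV⟩)

theorem p3_union (V : Fin n → Bool) (S : Finset (Fin n)) :
    S.filter (fun i => V i = false) ∪ S.filter (fun i => V i = true) = S := by
  ext i
  rw [Finset.mem_union, Finset.mem_filter, Finset.mem_filter]
  cases V i <;> simp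

theorem p3_group (c : Finset (Fin n) → Γ) (V b a : Fin n → Bool) :
    pol c (sel V b a) = ∑ S ∈ univ.filter (fun S : Finset (Fin n) => ∀ i ∈ S, V i = false),
      ∑ U ∈ (univ.filter (fun i => V i = true)).powerset,
        if (∀ i ∈ S, a i = true) ∧ (∀ i ∈ U, b i = true) then c (S ∪ U) else 0 := by
  rw [← Finset.sum_product']
  unfold pol
  refine Finset.sum_nbij' (fun S => (S.filter (fun i => V i = false), S.filter (fun i => V i = true)))
    (fun p => p.1 ∪ p.2) ?_ ?_ ?_ ?_ ?_
  · intro S _
    refine Finset.mem_product.2 ⟨Finset.mem_filter.2 ⟨Finset.mem_univ _, fun i hi =>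
      (Finset.mem_filter.1 hi).2⟩, Finset.mem_powerset.2 fun i hi =>
      Finset.mem_filter.2 ⟨Finset.mem_univ _, (Finset.mem_filter.1 hi).2⟩⟩
  · intro p _
    exact Finset.mem_univ _
  · intro S _
    exact p3_union V S
  · rintro ⟨S, U⟩ hp
    obtain ⟨h1, h2⟩ := Finset.mem_product.1 hp
    have h3 : ∀ i ∈ S, V i = false := (Finset.mem_filter.1 h1).2
    have h4 : ∀ i ∈ U, V i = true := fun i hi =>
      (Finset.mem_filter.1 (Finset.mem_powerset.1 h2 hi)).2
    refine Prod.ext ?_ ?_
    · ext i
      show i ∈ (S ∪ U).filter (fun i => V i = false) ↔ i ∈ S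
      rw [Finset.mem_filter, Finset.mem_union]
      constructor
      · rintro ⟨hi | hi, hV⟩
        · exact hi
        · rw [h4 i hi] at hV
          exact absurd hV (by decide)
      · intro hi
        exact ⟨Or.inl hi, h3 i hi⟩
    · ext i
      show i ∈ (S ∪ U).filter (fun i => V i = true) ↔ i ∈ U
      rw [Finset.mem_filter, Finset.mem_union]
      constructor
      · rintro ⟨hi | hi, hV⟩
        · rw [h3 i hi] at hV
          exact absurd hV (by decide)
        · exact hi
      · intro hi
        exact ⟨Or.inr hi, h4 i hi⟩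
  · intro S _
    show (if ∀ i ∈ S, sel V b a i = true then c S else 0) = if
      (∀ i ∈ S.filter (fun i => V i = false), a i = true) ∧
        (∀ i ∈ S.filter (fun i => V i = true), b i = true) then
        c (S.filter (fun i => V i = false) ∪ S.filter (fun i => V i = true)) else 0
    rw [p3_union V S]
    exact if_congr (p3_sel V b a S) rfl rfl

/-- the coefficients after the substitution -/
def p3_B (c : Finset (Fin n) → Γ) (V b : Fin n → Bool) (S : Finset (Fin n)) : Γ :=
  ∑ U ∈ (univ.filter (fun i => V i = true)).powerset,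
    if ∀ i ∈ U, b i = true then c (S ∪ U) else 0

theorem p3_pol (c : Finset (Fin n) → Γ) (V b a : Fin n → Bool) :
    pol c (sel V b a) = ∑ S : Finset (Fin n), if ∀ i ∈ S, a i = true then
      (if ∀ i ∈ S, V i = false then p3_B c V b S else 0) else 0 := by
  rw [p3_group, Finset.sum_filter]
  refine Finset.sum_congr rfl fun S _ => ?_
  by_cases hA : ∀ i ∈ S, a i = true
  · rw [if_pos hA]
    refine if_congr Iff.rfl ?_ rfl
    unfold p3_B
    exact Finset.sum_congr rfl fun U _ => if_congr (and_iff_right hA) rfl rfl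
  · rw [if_neg hA]
    by_cases hV : ∀ i ∈ S, V i = false
    · rw [if_pos hV]
      exact Finset.sum_eq_zero fun U _ => if_neg fun h => hA h.1
    · rw [if_neg hV]

theorem p3_card {V : Fin n → Bool} {S U : Finset (Fin n)} (hS : ∀ i ∈ S, V i = false)
    (hU : U ∈ (univ.filter (fun i => V i = true)).powerset) :
    (S ∪ U).card = S.card + U.card := by
  refine Finset.card_union_of_disjoint (Finset.disjoint_left.2 fun i hi hi' => ?_)
  have h4 : V i = true := (Finset.mem_filter.1 (Finset.mem_powerset.1 hU hi')).2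
  rw [hS i hi] at h4
  exact absurd h4 (by decide)

theorem p3_B_lin {j : ℕ} {c : Finset (Fin n) → Γ} (hc : Deg (j + 1) c) (V b : Fin n → Bool)
    {S : Finset (Fin n)} (hj : j ≤ S.card) (hS : ∀ i ∈ S, V i = false) :
    p3_B c V b S = c S + lin (fun i => if V i = true then c (insert i S) else 0) b := by
  unfold p3_B
  have hinj : Function.Injective (fun i : Fin n => ({i} : Finset (Fin n))) :=
    Finset.singleton_injective
  have hsub : insert ∅ ((univ.filter (fun i => V i = true)).image
      (fun i : Fin n => ({i} : Finset (Fin n)))) ⊆ (univ.filter (fun i => V i = true)).powerset := by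
    intro U hU
    rcases Finset.mem_insert.1 hU with rfl | hU
    · exact Finset.empty_mem_powerset _
    · obtain ⟨i, hi, rfl⟩ := Finset.mem_image.1 hU
      exact Finset.mem_powerset.2 (Finset.singleton_subset_iff.2 hi)
  rw [← Finset.sum_subset hsub, Finset.sum_insert]
  · congr 1
    · rw [if_pos (fun i hi => absurd hi (Finset.notMem_empty i)), Finset.union_empty]
    · rw [Finset.sum_image fun i _ i' _ h => hinj h, Finset.sum_filter]
      unfold lin
      refine Finset.sum_congr rfl fun i _ => ?_
      beta_reduce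
      by_cases hV : V i = true
      · rw [if_pos hV, if_pos hV, Finset.union_comm]
        refine if_congr ?_ rfl rfl
        simp
      · rw [if_neg hV, if_neg hV, ite_self]
  · intro h
    obtain ⟨i, -, hi⟩ := Finset.mem_image.1 h
    exact Finset.singleton_ne_empty i hi
  · intro U hU hU'
    have h2 : 2 ≤ U.card := by
      by_contra hlt
      have h3 : U.card = 0 ∨ U.card = 1 := by omega
      rcases h3 with h3 | h3
      · exact hU' (Finset.mem_insert.2 (Or.inl (Finset.card_eq_zero.1 h3)))
      · obtain ⟨i, rfl⟩ := Finset.card_eq_one.1 h3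
        exact hU' (Finset.mem_insert.2 (Or.inr (Finset.mem_image.2
          ⟨i, Finset.singleton_subset_iff.1 (Finset.mem_powerset.1 hU), rfl⟩)))
    have h3 : c (S ∪ U) = 0 := hc _ (by rw [p3_card hS hU]; omega)
    rw [h3, ite_self]

theorem p3_B_deg {j : ℕ} {c : Finset (Fin n) → Γ} (hc : Deg (j + 1) c) (V b : Fin n → Bool)
    {S : Finset (Fin n)} (hj : j < S.card) (hS : ∀ i ∈ S, V i = false) : p3_B c V b S = c S := by
  rw [p3_B_lin hc V b hj.le hS]
  have h1 : lin (fun i => if V i = true then c (insert i S) else 0) b = 0 := by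
    unfold lin
    refine Finset.sum_eq_zero fun i _ => ?_
    beta_reduce
    by_cases hV : V i = true
    · have h2 : i ∉ S := fun hi => by
        rw [hS i hi] at hV
        exact absurd hV (by decide)
      have h3 : c (insert i S) = 0 := hc _ (by rw [Finset.card_insert_of_notMem h2]; omega)
      rw [if_pos hV, h3, ite_self]
    · rw [if_neg hV, ite_self]
  rw [h1, add_zero]

theorem sel_diff {j : ℕ} {c : Finset (Fin n) → Γ} (hc : Deg (j + 1) c) (V b b' : Fin n → Bool) :
    ∃ c' : Finset (Fin n) → Γ, Deg j c' ∧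
      (∀ S : Finset (Fin n), S.card = j → (∀ i ∈ S, V i = false) →
        c' S = lin (fun i => if V i = true then c (insert i S) else 0) b -
          lin (fun i => if V i = true then c (insert i S) else 0) b') ∧
      ∀ a, pol c (sel V b a) - pol c (sel V b' a) = pol c' a := by
  refine ⟨fun S => if ∀ i ∈ S, V i = false then p3_B c V b S - p3_B c V b' S else 0, ?_, ?_, ?_⟩
  · intro S hS
    show (if ∀ i ∈ S, V i = false then p3_B c V b S - p3_B c V b' S else 0) = 0
    by_cases hV : ∀ i ∈ S, V i = false
    · rw [if_pos hV, p3_B_deg hc V b hS hV, p3_B_deg hc V b' hS hV, sub_self]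
    · rw [if_neg hV]
  · intro S hS hV
    show (if ∀ i ∈ S, V i = false then p3_B c V b S - p3_B c V b' S else 0) = _
    rw [if_pos hV, p3_B_lin hc V b hS.ge hV, p3_B_lin hc V b' hS.ge hV]
    abel
  · intro a
    rw [p3_pol, p3_pol, ← Finset.sum_sub_distrib]
    unfold pol
    refine Finset.sum_congr rfl fun S _ => ?_
    beta_reduce
    by_cases hA : ∀ i ∈ S, a i = true
    · rw [if_pos hA, if_pos hA, if_pos hA]
      by_cases hV : ∀ i ∈ S, V i = false
      · rw [if_pos hV, if_pos hV, if_pos hV]
      · rw [if_neg hV, if_neg hV, if_neg hV, sub_self]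
    · rw [if_neg hA, if_neg hA, if_neg hA, sub_self]

end Pool.Agent.MP_ca1109_lc.Agp
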