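import Pool.Agent.MP_ca1109_lc.Agp.T1

/-!
# Products of arbitrarily many ring elements modulo a nilpotent ideal
-/

namespace Pool.Agent.MP_ca1109_lc.Agp

open Pool.Agent.MP_ca1109_lc.Mpg Finset

/-- The value of a program over a ring: every instruction reads one bit and multiplies by one of
two elements. -/
def ringVal {R : Type*} [Ring R] {n : ℕ} (l : List (Fin n × R × R)) (x : Fin n → Bool) : R :=
  (l.map fun t => if x t.1 then t.2.2 else t.2.1).prod

/-- `J` is a two-sided ideal and all products of `c + 1` elements of `J` vanish. -/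
structure NilIdeal {R : Type*} [Ring R] (J : AddSubgroup R) (c : ℕ) : Prop where
  left : ∀ r : R, ∀ a ∈ J, r * a ∈ J
  right : ∀ r : R, ∀ a ∈ J, a * r ∈ J
  nil : ∀ l : List R, (∀ a ∈ l, a ∈ J) → l.length = c + 1 → l.prod = 0

/-- The function `T` is a function of the answers to `k` questions `do all programs of the i-th family
have prescribed values`.  The programs have any length and are over arbitrary rings; the two
elements of every instruction are congruent modulo an ideal `J` with `J ^ (c + 1) = 0`. -/
def RingTest (c k n : ℕ) (T : (Fin n → Bool) → Bool) : Prop :=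
  ∃ (L : ℕ) (R : Fin k → Fin L → Type) (_ : ∀ i j, Ring (R i j))
    (J : ∀ i j, AddSubgroup (R i j)) (l : ∀ i j, List (Fin n × R i j × R i j))
    (γ : ∀ i j, R i j) (F : (Fin k → Prop) → Prop),
    (∀ i j, NilIdeal (J i j) c ∧ ∀ t ∈ l i j, t.2.2 - t.2.1 ∈ J i j) ∧
    ∀ x, T x = true ↔ F (fun i => ∀ j, ringVal (l i j) x = γ i j)

/- PROOF NOTES [AGP-R1].  `Jk 0 = ⊤`, `Jk (k+1) = AddSubgroup.closure {r | ∃ a ∈ Jk k, ∃ b ∈ J, r = a * b}`.
(1) `Jk k * R ⊆ Jk k` (for `k + 1`: `(a * b) * r = a * (b * r)`; closure induction), `Jk k * J ⊆ Jk (k+1)`.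
(2) `Jk (c+1) = ⊥`: by induction on `k` every element of `Jk k` is in the closure of the elements `r * l.prod` with
`l.length = k`, all entries of `l` in `J`; for `k = c + 1` these are `0`.  Also `Jk k = ⊥` for `k ≥ c + 1` (then `Jk (k+1) = ⊥`).
(3) Let `𝓛 = AddSubgroup.closure {g : (Fin n → Bool) → R | ∃ k T, T.card ≤ k ∧ DependsOn g T ∧ ∀ x, g x ∈ Jk k}`.
If `g ∈ 𝓛` and `t = (i, r₀, r₁)` with `r₁ - r₀ ∈ J` then `x ↦ g x * (if x i then r₁ else r₀)` is in `𝓛`: it is
`g x * r₀ + (if x i then g x * (r₁ - r₀) else 0)`, for a generator `(k, T)` the first summand has `(k, T)`, the second one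
`(k + 1, insert i T)`.  The constant `1` is in `𝓛` (`k = 0`).  By induction on the list from the right
(`List.reverseRecOn`, `List.prod_append`) `ringVal l ∈ 𝓛`.
(4) `𝓛 ≤ lowDeg (Fin n) Bool R c`: a generator with `k ≤ c` is a junta (`junta_mem` of `Mpg/A4`), one with `k ≥ c + 1` is zero by (2).
`RingTest.group`: `Γ i = ∀ j, R i j`, `P i x = fun j => ringVal (l i j) x - γ i j`, in `lowDeg` by `ring_low`, `lowDeg_const`, `sub_mem`
and `prod_low` (`T1`); `P i x = 0 ↔ ∀ j, ringVal (l i j) x = γ i j` (`funext_iff`, `sub_eq_zero`); use `Iff.of_eq`/`propext` to rewrite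
inside `F`. -/

/-- the subgroup generated by the products with at least `k` factors in `J` -/
def r1_J {R : Type*} [Ring R] (J : AddSubgroup R) (k : ℕ) : AddSubgroup R :=
  AddSubgroup.closure {r | ∃ (s : R) (l : List R), (∀ a ∈ l, a ∈ J) ∧ l.length = k ∧ r = s * l.prod}

theorem r1_zero {R : Type*} [Ring R] (J : AddSubgroup R) (r : R) : r ∈ r1_J J 0 := by
  refine AddSubgroup.subset_closure ⟨r, [], ?_, rfl, ?_⟩
  · intro a ha
    exact absurd ha List.not_mem_nil
  · rw [List.prod_nil, mul_one]

theorem r1_mulJ {R : Type*} [Ring R] {J : AddSubgroup R} {k : ℕ} {a b : R} (ha : a ∈ r1_J J k)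
    (hb : b ∈ J) : a * b ∈ r1_J J (k + 1) := by
  unfold r1_J at ha
  refine AddSubgroup.closure_induction (p := fun a _ => a * b ∈ r1_J J (k + 1)) ?_ ?_ ?_ ?_ ha
  · rintro a ⟨s, l, hl, hk, rfl⟩
    refine AddSubgroup.subset_closure ⟨s, l ++ [b], ?_, ?_, ?_⟩
    · intro a ha
      rcases List.mem_append.1 ha with h | h
      · exact hl a h
      · rw [List.mem_singleton] at h
        rw [h]
        exact hb
    · rw [List.length_append, hk, List.length_singleton]
    · rw [List.prod_append, List.prod_singleton, mul_assoc]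
  · rw [zero_mul]
    exact AddSubgroup.zero_mem _
  · intro x y _ _ hx hy
    rw [add_mul]
    exact AddSubgroup.add_mem _ hx hy
  · intro x _ hx
    rw [neg_mul]
    exact AddSubgroup.neg_mem _ hx

theorem r1_mulR {R : Type*} [Ring R] {J : AddSubgroup R} {c k : ℕ} (hJ : NilIdeal J c) {a : R}
    (ha : a ∈ r1_J J k) (r : R) : a * r ∈ r1_J J k := by
  unfold r1_J at ha
  refine AddSubgroup.closure_induction (p := fun a _ => a * r ∈ r1_J J k) ?_ ?_ ?_ ?_ ha
  · rintro a ⟨s, l, hl, hk, rfl⟩
    rcases List.eq_nil_or_concat l with h | ⟨l', b, h⟩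
    · subst h
      refine AddSubgroup.subset_closure ⟨s * r, [], hl, hk, ?_⟩
      rw [List.prod_nil, mul_one, mul_one]
    · rw [List.concat_eq_append] at h
      subst h
      refine AddSubgroup.subset_closure ⟨s, l' ++ [b * r], ?_, ?_, ?_⟩
      · intro a ha
        rcases List.mem_append.1 ha with h | h
        · exact hl a (List.mem_append.2 (Or.inl h))
        · rw [List.mem_singleton] at h
          rw [h]
          exact hJ.right r b (hl b (List.mem_append.2 (Or.inr (List.mem_singleton.2 rfl))))
      · rw [← hk, List.length_append, List.length_append, List.length_singleton,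
          List.length_singleton]
      · rw [List.prod_append, List.prod_append, List.prod_singleton, List.prod_singleton]
        simp only [mul_assoc]
  · rw [zero_mul]
    exact AddSubgroup.zero_mem _
  · intro x y _ _ hx hy
    rw [add_mul]
    exact AddSubgroup.add_mem _ hx hy
  · intro x _ hx
    rw [neg_mul]
    exact AddSubgroup.neg_mem _ hx

theorem r1_bot {R : Type*} [Ring R] {J : AddSubgroup R} {c k : ℕ} (hJ : NilIdeal J c)
    (hk : c + 1 ≤ k) {a : R} (ha : a ∈ r1_J J k) : a = 0 := by
  have h1 : r1_J J k ≤ ⊥ := by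
    unfold r1_J
    rw [AddSubgroup.closure_le]
    rintro a ⟨s, l, hl, hlk, rfl⟩
    have h2 : l.prod = 0 := by
      rw [← List.take_append_drop (c + 1) l, List.prod_append,
        hJ.nil (l.take (c + 1)) (fun a ha => hl a (List.mem_of_mem_take ha)) (by
          rw [List.length_take, hlk]
          omega), zero_mul]
    rw [h2, mul_zero]
    exact AddSubgroup.zero_mem _
  exact AddSubgroup.mem_bot.1 (h1 ha)

/-- sums of functions of few coordinates with values in the powers of `J` -/
def r1_L {R : Type*} [Ring R] (J : AddSubgroup R) (n : ℕ) : AddSubgroup ((Fin n → Bool) → R) :=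
  AddSubgroup.closure {g | ∃ (k : ℕ) (T : Finset (Fin n)), T.card ≤ k ∧
    DependsOn g (T : Set (Fin n)) ∧ ∀ x, g x ∈ r1_J J k}

theorem r1_step {R : Type*} [Ring R] {J : AddSubgroup R} {c n : ℕ} (hJ : NilIdeal J c)
    {g : (Fin n → Bool) → R} (hg : g ∈ r1_L J n) (i : Fin n) (a b : R) (hab : b - a ∈ J) :
    (fun x => g x * (if x i then b else a)) ∈ r1_L J n := by
  unfold r1_L at hg
  refine AddSubgroup.closure_induction
    (p := fun g _ => (fun x => g x * (if x i then b else a)) ∈ r1_L J n) ?_ ?_ ?_ ?_ hg
  · rintro g ⟨k, T, hT, hd, hk⟩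
    have h1 : (fun x => g x * (if x i then b else a)) =
        (fun x => g x * a) + (fun x => if x i then g x * (b - a) else 0) := by
      funext x
      rw [Pi.add_apply]
      by_cases h : x i = true
      · rw [if_pos h, if_pos h, mul_sub]
        abel
      · rw [if_neg h, if_neg h, add_zero]
    rw [h1]
    refine AddSubgroup.add_mem _ (AddSubgroup.subset_closure ⟨k, T, hT, ?_, ?_⟩)
      (AddSubgroup.subset_closure ⟨k + 1, insert i T, ?_, ?_, ?_⟩)
    · intro x y h
      show g x * a = g y * a
      rw [hd h]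
    · intro x
      exact r1_mulR hJ (hk x) a
    · exact (Finset.card_insert_le i T).trans (Nat.succ_le_succ hT)
    · intro x y h
      show (if x i then g x * (b - a) else 0) = if y i then g y * (b - a) else 0
      have h2 : x i = y i := h i (by
        rw [Finset.coe_insert]
        exact Set.mem_insert i _)
      have h3 : g x = g y := hd fun j hj => h j (by
        rw [Finset.coe_insert]
        exact Set.mem_insert_of_mem i hj)
      rw [h2, h3]
    · intro x
      show (if x i then g x * (b - a) else 0) ∈ r1_J J (k + 1)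
      by_cases h : x i = true
      · rw [if_pos h]
        exact r1_mulJ (hk x) hab
      · rw [if_neg h]
        exact AddSubgroup.zero_mem _
  · have h1 : (fun x : Fin n → Bool => (0 : (Fin n → Bool) → R) x * (if x i then b else a)) = 0 := by
      funext x
      exact zero_mul _
    rw [h1]
    exact AddSubgroup.zero_mem _
  · intro f f' _ _ hf hf'
    have h1 : (fun x : Fin n → Bool => (f + f') x * (if x i then b else a)) =
        (fun x => f x * (if x i then b else a)) + (fun x => f' x * (if x i then b else a)) := by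
      funext x
      rw [Pi.add_apply, Pi.add_apply, add_mul]
    rw [h1]
    exact AddSubgroup.add_mem _ hf hf'
  · intro f _ hf
    have h1 : (fun x : Fin n → Bool => (-f) x * (if x i then b else a)) =
        -(fun x => f x * (if x i then b else a)) := by
      funext x
      rw [Pi.neg_apply, Pi.neg_apply, neg_mul]
    rw [h1]
    exact AddSubgroup.neg_mem _ hf

theorem r1_ring {R : Type*} [Ring R] {J : AddSubgroup R} {c n : ℕ} (hJ : NilIdeal J c)
    (l : List (Fin n × R × R)) (hl : ∀ t ∈ l, t.2.2 - t.2.1 ∈ J) :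
    (fun x => ringVal l x) ∈ r1_L J n := by
  induction l using List.reverseRecOn with
  | nil =>
    refine AddSubgroup.subset_closure ⟨0, ∅, by rw [Finset.card_empty], ?_, ?_⟩
    · intro x y _
      rfl
    · intro x
      exact r1_zero J _
  | append_singleton l t ih =>
    have h1 := r1_step hJ (ih fun t ht => hl t (List.mem_append.2 (Or.inl ht))) t.1 t.2.1 t.2.2
      (hl t (List.mem_append.2 (Or.inr (List.mem_singleton.2 rfl))))
    have h2 : (fun x => ringVal (l ++ [t]) x) =
        fun x => ringVal l x * (if x t.1 then t.2.2 else t.2.1) := by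
      funext x
      unfold ringVal
      rw [List.map_append, List.prod_append, List.map_singleton, List.prod_singleton]
    rw [h2]
    exact h1

theorem ring_low {R : Type*} [Ring R] {J : AddSubgroup R} {c n : ℕ} (hJ : NilIdeal J c)
    (l : List (Fin n × R × R)) (hl : ∀ t ∈ l, t.2.2 - t.2.1 ∈ J) :
    (fun x => ringVal l x) ∈ lowDeg (Fin n) Bool R c := by
  have h1 : r1_L J n ≤ lowDeg (Fin n) Bool R c := by
    unfold r1_L
    rw [AddSubgroup.closure_le]
    rintro g ⟨k, T, hT, hd, hk⟩
    by_cases h : k ≤ c
    · exact junta_mem T (hT.trans h) hd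
    · have h2 : g = 0 := by
        funext x
        exact r1_bot hJ (by omega) (hk x)
      rw [h2]
      exact AddSubgroup.zero_mem _
  exact h1 (r1_ring hJ l hl)

theorem RingTest.group {c k n : ℕ} {T : (Fin n → Bool) → Bool} (h : RingTest c k n T) :
    GroupTest c k n T := by
  obtain ⟨L, R, inst, J, l, γ, F, hJ, hT⟩ := h
  refine ⟨fun i => ∀ j, R i j, fun i => inferInstance, fun i x j => ringVal (l i j) x - γ i j, F,
    ?_, ?_⟩
  · intro i
    refine prod_low (Γ := fun j => R i j) (P := fun j x => ringVal (l i j) x - γ i j) fun j => ?_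
    exact AddSubgroup.sub_mem _ (ring_low (hJ i j).1 (l i j) (hJ i j).2) (lowDeg_const (γ i j))
  · intro x
    rw [hT x]
    have h1 : (fun i => ∀ j, ringVal (l i j) x = γ i j) =
        fun i => (fun j => ringVal (l i j) x - γ i j) = (0 : ∀ j, R i j) := by
      funext i
      refine propext ⟨fun h => ?_, fun h j => ?_⟩
      · funext j
        exact sub_eq_zero.2 (h j)
      · exact sub_eq_zero.1 (congrFun h j)
    rw [h1]

end Pool.Agent.MP_ca1109_lc.Agp
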