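import Pool.Agent.MP_ca1109_lc.Agp.P3
import Pool.Agent.MP_ca1109_lc.Agp.C1

/-!
# Differences of wide polynomials are wide
-/

namespace Pool.Agent.MP_ca1109_lc.Agp

open Pool.Agent.MP_ca1109_lc.Mpg Finset

/- PROOF NOTES [AGP-S1].  Let `β S' i = if V i = true then c (insert i S') else 0` (`S'` a finset).  For `b = X p`, `b' = X q` take
`c'` from `sel_diff` (`P3`).
(1) Index the sets: since `N₂ * N₁ ≤ 𝒮.card` there is an injective `σ : Fin N₂ × Fin N₁ → Finset (Fin n)` with values in `𝒮`
(`Finset.exists_subset_card_eq`, `Finset.equivFin`, `finProdFinEquiv`, or `Finset.exists_..`/`Function.Embedding` from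
`Fintype.card_le`).  For `S ∈ 𝒮` let `i(S)` be the unique element of `S.filter (V · = true)` (`Finset.card_eq_one`) and
`S⁻ = S.erase i(S)`; then `S⁻.card = j`, `V = false` on `S⁻`, `insert i(S) S⁻ = S`.  The sets `S⁻` are disjoint, and nonempty because
`1 ≤ j`, so they are distinct.
(2) For the group `g : Fin N₂` let `α g i : Fin N₁ → Γ := fun r => m₂ • β (σ (g, r))⁻ i`.  For `i = i(σ (g, r))` the component `r` of
`m₁ • α g i` is `(m₁ * m₂) • c (σ (g, r)) ≠ 0`; these `N₁` indices `i` are distinct (the sets `σ (g, r)` are disjoint), so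
`hX` (with the group `Fin N₁ → Γ`, `u = 1`: `tw_one`, `I` the image of these indices) gives
`avg (fun χ => ‖na M (fun p => χ (lin (α g) (X p)))‖) ≤ ε₁`, hence by `collision` (`C1`) the average over `(p, q)` of
`[lin (α g) (X p) = lin (α g) (X q)]` is at most `ε₁`.
(3) If for every `g` there is some `r` with `m₂ • (lin (β (σ (g, r))⁻) (X p) - lin (β (σ (g, r))⁻) (X q)) ≠ 0` (that is:
`lin (α g) (X p) ≠ lin (α g) (X q)`), then the sets `(σ (g, r_g))⁻`, `g : Fin N₂`, show `Wide N₂ m₂ j c'`.
So the indicator of the bad event is at most `∑ g, [lin (α g) (X p) = lin (α g) (X q)]`; average. -/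

open Classical in
theorem sel_wide {Γ : Type} [AddCommGroup Γ] [Fintype Γ] {n N₁ m₁ N₂ m₂ j : ℕ} {ε₁ : ℝ}
    {c : Finset (Fin n) → Γ} (hc : Deg (j + 1) c) (hj : 1 ≤ j) (V : Fin n → Bool)
    (𝒮 : Finset (Finset (Fin n))) (hN : N₂ * N₁ ≤ 𝒮.card)
    (hd : (𝒮 : Set (Finset (Fin n))).PairwiseDisjoint id)
    (hS : ∀ S ∈ 𝒮, S.card = j + 1 ∧ (m₁ * m₂) • c S ≠ 0 ∧ (S.filter fun i => V i = true).card = 1)
    {M : ℕ} (hM : 0 < M) (X : ℕ → Fin n → Bool) (hX : LSok 1 0 N₁ m₁ ε₁ M X) :
    nr M (fun p => nr M (fun q => if ∃ c' : Finset (Fin n) → Γ, Deg j c' ∧ Wide N₂ m₂ j c' ∧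
      ∀ a, pol c (sel V (X p) a) - pol c (sel V (X q) a) = pol c' a then 0 else 1)) ≤
      N₂ * ε₁ := by
  have hcard : Fintype.card (Fin N₂ × Fin N₁) ≤ Fintype.card {x // x ∈ 𝒮} := by
    rw [Fintype.card_prod, Fintype.card_fin, Fintype.card_fin, Fintype.card_coe]
    exact hN
  obtain ⟨e⟩ := Function.Embedding.nonempty_of_card_le hcard
  have hmem : ∀ g r, (e (g, r)).1 ∈ 𝒮 := fun g r => (e (g, r)).2
  obtain ⟨σ, hσ⟩ : ∃ σ : Fin N₂ → Fin N₁ → Finset (Fin n), ∀ g r, σ g r = (e (g, r)).1 :=
    ⟨fun g r => (e (g, r)).1, fun _ _ => rfl⟩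
  have hσm : ∀ g r, σ g r ∈ 𝒮 := fun g r => by rw [hσ]; exact hmem g r
  have hσd : ∀ g r g' r', (g, r) ≠ (g', r') → Disjoint (σ g r) (σ g' r') := by
    intro g r g' r' h
    refine hd (hσm g r) (hσm g' r') fun h' => h ?_
    rw [hσ, hσ] at h'
    exact e.injective (Subtype.ext h')
  have hex : ∀ g r, ∃ i, (σ g r).filter (fun i => V i = true) = {i} := fun g r =>
    Finset.card_eq_one.1 (hS _ (hσm g r)).2.2
  choose ι hι using hex
  have hι1 : ∀ g r, ι g r ∈ σ g r ∧ V (ι g r) = true := fun g r => by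
    have h : ι g r ∈ (σ g r).filter (fun i => V i = true) := by
      rw [hι]
      exact Finset.mem_singleton_self _
    exact Finset.mem_filter.1 h
  have hV0 : ∀ g r, ∀ i ∈ (σ g r).erase (ι g r), V i = false := by
    intro g r i hi
    obtain ⟨h1, h2⟩ := Finset.mem_erase.1 hi
    by_contra h
    have h3 : V i = true := by
      cases h4 : V i
      · exact absurd h4 h
      · rfl
    have h5 : i ∈ (σ g r).filter (fun i => V i = true) := Finset.mem_filter.2 ⟨h2, h3⟩
    rw [hι] at h5
    exact h1 (Finset.mem_singleton.1 h5)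
  have hcd : ∀ g r, ((σ g r).erase (ι g r)).card = j := by
    intro g r
    rw [Finset.card_erase_of_mem (hι1 g r).1, (hS _ (hσm g r)).1, Nat.add_sub_cancel]
  obtain ⟨β, hβ⟩ : ∃ β : Fin N₂ → Fin N₁ → Fin n → Γ, ∀ g r, β g r =
      fun i => if V i = true then c (insert i ((σ g r).erase (ι g r))) else 0 :=
    ⟨fun g r i => if V i = true then c (insert i ((σ g r).erase (ι g r))) else 0,
      fun _ _ => rfl⟩
  obtain ⟨α, hα⟩ : ∃ α : Fin N₂ → Fin n → (Fin N₁ → Γ), ∀ g i r, α g i r = m₂ • β g r i :=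
    ⟨fun g i r => m₂ • β g r i, fun _ _ _ => rfl⟩
  have hlin : ∀ g (x : Fin n → Bool) r, lin (α g) x r = m₂ • lin (β g r) x := by
    intro g x r
    unfold lin
    rw [Finset.sum_apply, Finset.smul_sum]
    refine Finset.sum_congr rfl fun i _ => ?_
    by_cases hx : x i = true
    · rw [if_pos hx, if_pos hx, hα]
    · rw [if_neg hx, if_neg hx, smul_zero]
      rfl
  have hco : ∀ g, nr M (fun p => nr M (fun q =>
      if lin (α g) (X p) = lin (α g) (X q) then (1 : ℝ) else 0)) ≤ ε₁ := by
    intro g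
    refine (collision hM (fun p => lin (α g) (X p))).trans ?_
    have hI : N₁ ≤ ((univ : Finset (Fin N₁)).image (ι g)).card := by
      rw [Finset.card_image_of_injective, Finset.card_univ, Fintype.card_fin]
      intro r r' hr
      by_contra hne
      have h1 := hσd g r g r' (fun h => hne (Prod.mk.inj h).2)
      refine Finset.disjoint_left.1 h1 (hι1 g r).1 ?_
      rw [hr]
      exact (hι1 g r').1
    have hI2 : ∀ i ∈ (univ : Finset (Fin N₁)).image (ι g), m₁ • α g i ≠ 0 := by
      intro i hi h0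
      obtain ⟨r, _, rfl⟩ := Finset.mem_image.1 hi
      have h1 := congrFun h0 r
      have h2 : β g r (ι g r) = c (σ g r) := by
        rw [hβ]
        show (if V (ι g r) = true then c (insert (ι g r) ((σ g r).erase (ι g r))) else 0) = _
        rw [if_pos (hι1 g r).2, Finset.insert_erase (hι1 g r).1]
      rw [Pi.smul_apply, hα, h2, smul_smul] at h1
      exact (hS _ (hσm g r)).2.1 h1
    have h := hX (Fin N₁ → Γ) (α g) _ hI hI2 (fun _ _ => 1) (fun _ => tw_one)
    refine le_trans (le_of_eq ?_) h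
    congr 1
    funext χ
    congr 2
    funext p
    rw [one_mul]
  have hkey : ∀ p q : ℕ, (if ∃ c' : Finset (Fin n) → Γ, Deg j c' ∧ Wide N₂ m₂ j c' ∧
      ∀ a, pol c (sel V (X p) a) - pol c (sel V (X q) a) = pol c' a then (0 : ℝ) else 1) ≤
      ∑ g : Fin N₂, if lin (α g) (X p) = lin (α g) (X q) then (1 : ℝ) else 0 := by
    intro p q
    by_cases hg : ∃ g, lin (α g) (X p) = lin (α g) (X q)
    · obtain ⟨g, hg⟩ := hg
      have h1 : (1 : ℝ) ≤ ∑ g : Fin N₂, if lin (α g) (X p) = lin (α g) (X q) then (1 : ℝ) else 0 := by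
        have h2 := Finset.single_le_sum
          (f := fun g : Fin N₂ => if lin (α g) (X p) = lin (α g) (X q) then (1 : ℝ) else 0)
          (fun i _ => by
            show (0 : ℝ) ≤ if lin (α i) (X p) = lin (α i) (X q) then (1 : ℝ) else 0
            split_ifs
            · exact zero_le_one
            · exact le_rfl) (Finset.mem_univ g)
        have h3 : (if lin (α g) (X p) = lin (α g) (X q) then (1 : ℝ) else 0) = 1 := if_pos hg
        exact h3.symm.le.trans h2
      refine le_trans ?_ h1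
      split_ifs
      · exact zero_le_one
      · exact le_rfl
    · have hr : ∀ g, ∃ r, m₂ • lin (β g r) (X p) ≠ m₂ • lin (β g r) (X q) := by
        intro g
        by_contra h
        push Not at h
        refine hg ⟨g, ?_⟩
        funext r
        rw [hlin, hlin]
        exact h r
      choose ρ hρ using hr
      obtain ⟨c', hc1, hc2, hc3⟩ := sel_diff hc V (X p) (X q)
      have hw : Wide N₂ m₂ j c' := by
        have hTd : ∀ g g', g ≠ g' → Disjoint ((σ g (ρ g)).erase (ι g (ρ g)))
            ((σ g' (ρ g')).erase (ι g' (ρ g'))) := by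
          intro g g' h
          exact Finset.disjoint_of_subset_left (Finset.erase_subset _ _)
            (Finset.disjoint_of_subset_right (Finset.erase_subset _ _)
              (hσd _ _ _ _ (fun h' => h (Prod.mk.inj h').1)))
        have hTi : Function.Injective fun g => (σ g (ρ g)).erase (ι g (ρ g)) := by
          intro g g' h
          by_contra hne
          have h1 := hTd g g' hne
          have h' : (σ g (ρ g)).erase (ι g (ρ g)) = (σ g' (ρ g')).erase (ι g' (ρ g')) := h
          rw [← h', disjoint_self] at h1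
          have h2 := hcd g (ρ g)
          rw [h1] at h2
          have h3 : (0 : ℕ) = j := h2
          omega
        refine ⟨univ.image fun g => (σ g (ρ g)).erase (ι g (ρ g)), ?_, ?_, ?_⟩
        · rw [Finset.card_image_of_injective _ hTi, Finset.card_univ, Fintype.card_fin]
        · intro S hSm
          obtain ⟨g, _, rfl⟩ := Finset.mem_image.1 hSm
          refine ⟨hcd g _, fun h0 => hρ g ?_⟩
          have h1 := hc2 _ (hcd g (ρ g)) (hV0 g (ρ g))
          have h2 : c' ((σ g (ρ g)).erase (ι g (ρ g))) =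
              lin (β g (ρ g)) (X p) - lin (β g (ρ g)) (X q) := by
            rw [h1, hβ]
          have h0' : m₂ • c' ((σ g (ρ g)).erase (ι g (ρ g))) = 0 := h0
          rw [h2, smul_sub] at h0'
          exact sub_eq_zero.1 h0'
        · intro S hS1 S' hS2 hne
          obtain ⟨g, _, rfl⟩ := Finset.mem_image.1 (Finset.mem_coe.1 hS1)
          obtain ⟨g', _, rfl⟩ := Finset.mem_image.1 (Finset.mem_coe.1 hS2)
          exact hTd g g' fun h => hne (by rw [h])
      rw [if_pos ⟨c', hc1, hw, hc3⟩]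
      refine Finset.sum_nonneg fun g _ => ?_
      split_ifs
      · exact zero_le_one
      · exact le_rfl
  calc nr M (fun p => nr M (fun q => if ∃ c' : Finset (Fin n) → Γ, Deg j c' ∧ Wide N₂ m₂ j c' ∧
        ∀ a, pol c (sel V (X p) a) - pol c (sel V (X q) a) = pol c' a then (0 : ℝ) else 1))
      ≤ nr M (fun p => nr M (fun q =>
          ∑ g : Fin N₂, if lin (α g) (X p) = lin (α g) (X q) then (1 : ℝ) else 0)) :=
        nr_mono fun p _ => nr_mono fun q _ => hkey p q
    _ = ∑ g : Fin N₂, nr M (fun p => nr M (fun q =>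
          if lin (α g) (X p) = lin (α g) (X q) then (1 : ℝ) else 0)) := by
        rw [← nr_sum]
        congr 1
        funext p
        rw [← nr_sum]
    _ ≤ ∑ _g : Fin N₂, ε₁ := Finset.sum_le_sum fun g _ => hco g
    _ = N₂ * ε₁ := by
        rw [Finset.sum_const, Finset.card_univ, Fintype.card_fin, nsmul_eq_mul]

end Pool.Agent.MP_ca1109_lc.Agp
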