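import Pool.Agent.MP_ca1109_lc.Agp.P1
import Pool.Agent.MP_ca1109_lc.Agp.C1

/-!
# Equations over arbitrary abelian groups
-/

namespace Pool.Agent.MP_ca1109_lc.Agp

open Pool.Agent.MP_ca1109_lc.Mpg Finset

/- PROOF NOTES [AGP-T1].
`to_finite`: for every `x : Fin n → Bool` with `P x ≠ 0` there is a homomorphism `φ x : Γ →+ AddCircle (1 : ℚ)` with `φ x (P x) ≠ 0`
(`CharacterModule.exists_character_apply_ne_zero_of_ne_zero`); for the other `x` take `φ x = 0`.  Let
`Φ : Γ →+ ((Fin n → Bool) → AddCircle (1 : ℚ))`, `Φ g x = φ x g` (`AddMonoidHom.pi`/`Pi.addMonoidHom`).  Then `Φ (P y) = 0 ↔ P y = 0`.  By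
`exists_pol` (`P1`) `P = pol c`, `Φ (P y) = pol (Φ ∘ c) y` (`pol_hom`).  Let `Λ` be the subgroup generated by the finitely many
`Φ (c S)`; it is finitely generated and torsion (every element of `AddCircle (1 : ℚ)` has finite order: a rational `a / b` is
killed by `b`; finite products too), hence finite (`AddCommGroup.finite_of_fg_torsion`/`CommGroup.finite_of_fg_torsion`/
`Module.finite_of_fg_torsion`).  `Γ' = Λ` (a type in `Type`: `AddCircle (1 : ℚ)` is in `Type`), `c' S = ⟨Φ (c S), _⟩`, `Deg j c'`, and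
`pol c' y = 0 ↔ Φ (P y) = 0` (apply `pol_hom` to the inclusion `Λ → _`, injective).
`zero_fam`: `fam (fun _ _ => 1) c x = (∑ χ, χ (pol c x)) / card Γ = if pol c x = 0 then 1 else 0` (`ind_zero` of `C1`).
`prod_low`: a family `P i ∈ lowDeg (Fin n) Bool (Γ i) d`, `i ∈ Fin k`, gives `(fun x i => P i x) ∈ lowDeg (Fin n) Bool (∀ i, Γ i) d`: it
is `∑ i, Pi.single i (P i x)`, and `Pi.single i` is a homomorphism (`AddMonoidHom.single`, `lowDeg_hom` of `Mpg/A4`,
`Finset.univ_sum_single`). -/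

/-- Elements of `AddCircle (1 : ℚ)` have finite order. -/
theorem t1_circle (a : AddCircle (1 : ℚ)) : ∃ k : ℕ, 0 < k ∧ k • a = 0 := by
  obtain ⟨q, rfl⟩ := QuotientAddGroup.mk_surjective a
  refine ⟨q.den, q.den_pos, ?_⟩
  have h : q.den • (QuotientAddGroup.mk q : AddCircle (1 : ℚ)) = ((q.den • q : ℚ) : AddCircle (1 : ℚ)) := rfl
  rw [h, AddCircle.coe_eq_zero_iff]
  refine ⟨q.num, ?_⟩
  rw [zsmul_one, nsmul_eq_mul, Rat.den_mul_eq_num]

/-- Functions on a finite type with values in `AddCircle (1 : ℚ)` have finite order. -/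
theorem t1_fun {A : Type} [Fintype A] (f : A → AddCircle (1 : ℚ)) : ∃ k : ℕ, 0 < k ∧ k • f = 0 := by
  choose k hk hk' using fun a => t1_circle (f a)
  refine ⟨∏ a, k a, Finset.prod_pos fun a _ => hk a, ?_⟩
  funext a
  obtain ⟨j, hj⟩ := Finset.dvd_prod_of_mem k (Finset.mem_univ a)
  show (∏ a, k a) • f a = 0
  rw [hj, mul_comm, mul_smul, hk' a, smul_zero]

/-- Finitely generated subgroups of the functions with values in `AddCircle (1 : ℚ)` are finite. -/
theorem t1_finite {A B : Type} [Fintype A] [Finite B] (w : B → A → AddCircle (1 : ℚ)) :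
    Finite (AddSubgroup.closure (Set.range w)) := by
  have hfg : AddGroup.FG (AddSubgroup.closure (Set.range w)) := by
    rw [AddGroup.fg_iff_addSubgroup_fg]
    exact (AddSubgroup.fg_iff _).2 ⟨Set.range w, rfl, Set.finite_range w⟩
  apply AddCommGroup.finite_of_fg_isAddTorsion
  intro x
  rw [isOfFinAddOrder_iff_nsmul_eq_zero]
  obtain ⟨k, hk, hk'⟩ := t1_fun x.1
  refine ⟨k, hk, Subtype.ext ?_⟩
  exact hk'

theorem to_finite {Γ : Type*} [AddCommGroup Γ] {n d : ℕ} {P : (Fin n → Bool) → Γ}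
    (hP : P ∈ lowDeg (Fin n) Bool Γ d) :
    ∃ (Γ' : Type) (_ : AddCommGroup Γ') (_ : Fintype Γ') (c : Finset (Fin n) → Γ'), Deg d c ∧
      ∀ x, P x = 0 ↔ pol c x = 0 := by
  have h1 : ∀ x : Fin n → Bool, ∃ φ : Γ →+ AddCircle (1 : ℚ), P x ≠ 0 → φ (P x) ≠ 0 := by
    intro x
    by_cases h : P x = 0
    · exact ⟨0, fun h' => absurd h h'⟩
    · obtain ⟨c, hc⟩ := CharacterModule.exists_character_apply_ne_zero_of_ne_zero h
      exact ⟨c, fun _ => hc⟩
  choose φ hφ using h1
  obtain ⟨c, hc, hPc⟩ := exists_pol hP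
  obtain ⟨Φ, hΦ⟩ : ∃ Φ : Γ →+ ((Fin n → Bool) → AddCircle (1 : ℚ)), ∀ g x, Φ g x = φ x g :=
    ⟨{ toFun := fun g x => φ x g
       map_zero' := by
        funext x
        exact map_zero (φ x)
       map_add' := fun g g' => by
        funext x
        exact map_add (φ x) g g' }, fun _ _ => rfl⟩
  have hΦ0 : ∀ y, P y = 0 ↔ Φ (P y) = 0 := by
    intro y
    constructor
    · intro h
      rw [h, map_zero]
    · intro h
      by_contra h'
      refine hφ y h' ?_
      rw [← hΦ, h]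
      rfl
  have hfin : Finite (AddSubgroup.closure (Set.range fun S => Φ (c S))) :=
    t1_finite fun S => Φ (c S)
  refine ⟨AddSubgroup.closure (Set.range fun S => Φ (c S)), inferInstance, Fintype.ofFinite _,
    fun S => ⟨Φ (c S), AddSubgroup.subset_closure ⟨S, rfl⟩⟩, ?_, ?_⟩
  · intro S hS
    apply Subtype.ext
    show Φ (c S) = 0
    rw [hc S hS, map_zero]
  · intro x
    have h2 := pol_hom (AddSubgroup.subtype (AddSubgroup.closure (Set.range fun S => Φ (c S))))
      (fun S => ⟨Φ (c S), AddSubgroup.subset_closure ⟨S, rfl⟩⟩) x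
    have h3 : Φ (P x) = (AddSubgroup.subtype (AddSubgroup.closure (Set.range fun S => Φ (c S))))
        (pol (fun S => ⟨Φ (c S), AddSubgroup.subset_closure ⟨S, rfl⟩⟩) x) := by
      rw [h2, hPc x, pol_hom]
      rfl
    rw [hΦ0, h3]
    constructor
    · intro h
      exact Subtype.ext h
    · intro h
      rw [h, map_zero]

theorem zero_fam {Γ : Type*} [AddCommGroup Γ] [Fintype Γ] [DecidableEq Γ] {n : ℕ}
    (c : Finset (Fin n) → Γ) (x : Fin n → Bool) :
    fam (fun _ _ => 1) c x = if pol c x = 0 then 1 else 0 := by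
  rw [← ind_zero]
  unfold fam
  simp only [one_mul]

theorem prod_low {n d k : ℕ} {Γ : Fin k → Type} [∀ i, AddCommGroup (Γ i)]
    {P : ∀ i, (Fin n → Bool) → Γ i} (hP : ∀ i, P i ∈ lowDeg (Fin n) Bool (Γ i) d) :
    (fun x i => P i x) ∈ lowDeg (Fin n) Bool (∀ i, Γ i) d := by
  have h : (fun x i => P i x) = ∑ i, fun x : Fin n → Bool => (AddMonoidHom.single Γ i) (P i x) := by
    funext x
    rw [Finset.sum_apply]
    exact (Finset.univ_sum_single (fun i => P i x)).symm
  rw [h]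
  exact AddSubgroup.sum_mem _ fun i _ => lowDeg_hom (AddMonoidHom.single Γ i) (hP i)

end Pool.Agent.MP_ca1109_lc.Agp
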