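import Pool.Agent.MP_ca1109_lc.Agp.T1
import Pool.Agent.MP_ca1109_lc.Agp.G3

/-!
# Functions of the answers to several equations
-/

namespace Pool.Agent.MP_ca1109_lc.Agp

open Pool.Agent.H66 Pool.Agent.MP_ca1109_lc.Mpg Finset

/- PROOF NOTES [AGP-T2].  Model: `Mpg/K1.lean` (`k1_expand`, `sys_error`).
`group_error`: let `T x = true ↔ F (fun i => P i x = 0)`.  As in `k1_expand`:
`(ind (T x) : ℂ) = ∑ U : Finset (Fin k), a U * ∏ i ∈ U, [P i x = 0]` with `‖a U‖ ≤ 2 ^ k`
(copy the private lemma `k1_expand` for the Boolean function `b ↦ decide (F (fun i => b i = true))`, classical).  For `U` let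
`P_U x = fun i => if i ∈ U then P i x else 0`, in `lowDeg (Fin n) Bool (∀ i, Γ i) d` (`prod_low`, zero functions are in `lowDeg`), so that
`∏ i ∈ U, [P i x = 0] = [P_U x = 0]`.  By `to_finite` and `zero_fam` (`T1`) `[P_U x = 0] = fam (fun _ _ => 1) c_U x` with a finite group, and
`hX` (with `u = 1`, `tw_one` of `N2`) bounds `‖na M (fun p => fam 1 c_U (X p)) - av (fam 1 c_U)‖ ≤ δ`.  Sum over the `2 ^ k` sets `U`:
`2 ^ k * 2 ^ k * δ = 4 ^ k * δ`.  (`prob T = av (ind ∘ T)`: `prob_eq_avg`; `nr_ofReal` of `N1`.)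
`logGen_group`: from `h` with `ε / 4 ^ k`, then `group_error` and `logGen_of` (`G3`). -/

private theorem t2_av {A : Type*} [Fintype A] (g : A → Bool) :
    ((prob g : ℝ) : ℂ) = av (fun a => ((ind (g a) : ℝ) : ℂ)) := by
  rw [prob_eq_avg]
  unfold avg av
  push_cast
  rfl

private theorem t2_av_sum {A C : Type*} [Fintype A] (s : Finset C) (b : C → ℂ) (f : C → A → ℂ) :
    av (fun a => ∑ c ∈ s, b c * f c a) = ∑ c ∈ s, b c * av (f c) := by
  unfold av
  rw [Finset.sum_comm, Finset.sum_div]
  refine Finset.sum_congr rfl fun c _ => ?_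
  rw [← Finset.mul_sum, mul_div_assoc]

/-- The expansion of an arbitrary function of bits in products of bits. -/
private theorem t2_expand {k : ℕ} (F : (Fin k → Bool) → Bool) :
    ∃ a : Finset (Fin k) → ℂ, (∀ U, ‖a U‖ ≤ 2 ^ k) ∧ ∀ b : Fin k → Bool,
      ((ind (F b) : ℝ) : ℂ) = ∑ U, a U * ∏ i ∈ U, ((ind (b i) : ℝ) : ℂ) := by
  classical
  refine ⟨fun U => ∑ c ∈ U.powerset, (-1 : ℂ) ^ (U \ c).card *
    ((ind (F fun i => decide (i ∈ c)) : ℝ) : ℂ), fun U => ?_, fun b => ?_⟩
  · refine (norm_sum_le _ _).trans ?_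
    have h1 : ∀ c ∈ U.powerset, ‖(-1 : ℂ) ^ (U \ c).card *
        ((ind (F fun i => decide (i ∈ c)) : ℝ) : ℂ)‖ ≤ 1 := by
      intro c _
      rw [norm_mul, norm_pow, norm_neg, norm_one, one_pow, one_mul, Complex.norm_real,
        Real.norm_of_nonneg (ind_nonneg _)]
      exact ind_le_one _
    refine (Finset.sum_le_sum h1).trans ?_
    rw [Finset.sum_const, Finset.card_powerset, nsmul_eq_mul, mul_one]
    push_cast
    refine pow_le_pow_right₀ (by norm_num) ?_
    exact (Finset.card_le_univ U).trans (by simp)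
  · set B : Finset (Fin k) := univ.filter fun i => b i = true with hB
    have hprod : ∀ U : Finset (Fin k), (∏ i ∈ U, ((ind (b i) : ℝ) : ℂ)) = if U ⊆ B then 1 else 0 := by
      intro U
      by_cases hU : U ⊆ B
      · rw [if_pos hU]
        refine Finset.prod_eq_one fun i hi => ?_
        have : b i = true := (Finset.mem_filter.1 (hU hi)).2
        rw [this]
        simp [ind]
      · rw [if_neg hU]
        obtain ⟨i, hi, hi'⟩ := Finset.not_subset.1 hU
        refine Finset.prod_eq_zero hi ?_
        have : b i = false := by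
          rw [← Bool.not_eq_true]
          exact fun h => hi' (Finset.mem_filter.2 ⟨Finset.mem_univ _, h⟩)
        rw [this]
        simp [ind]
    have hb : b = fun i => decide (i ∈ B) := by
      funext i
      rw [hB]
      cases h : b i <;> simp [h]
    simp only [hprod, mul_ite, mul_one, mul_zero]
    rw [← Finset.sum_filter]
    have e1 : (univ.filter fun U : Finset (Fin k) => U ⊆ B) = B.powerset := by
      ext U
      simp
    rw [e1]
    -- swap the two sums
    have e2 : ∑ U ∈ B.powerset, ∑ c ∈ U.powerset, (-1 : ℂ) ^ (U \ c).card *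
        ((ind (F fun i => decide (i ∈ c)) : ℝ) : ℂ) =
        ∑ c ∈ B.powerset, (∑ U ∈ (B \ c).powerset, (-1 : ℂ) ^ U.card) *
          ((ind (F fun i => decide (i ∈ c)) : ℝ) : ℂ) := by
      rw [Finset.sum_comm' (s := B.powerset) (t := fun U => U.powerset) (t' := B.powerset)
        (s' := fun c => B.powerset.filter fun U => c ⊆ U)]
      · refine Finset.sum_congr rfl fun c hc => ?_
        rw [← Finset.sum_mul]
        congr 1
        rw [Finset.mem_powerset] at hc
        refine Finset.sum_bij (fun U _ => U \ c) ?_ ?_ ?_ ?_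
        · intro U hU
          rw [Finset.mem_filter, Finset.mem_powerset] at hU
          rw [Finset.mem_powerset]
          exact Finset.sdiff_subset_sdiff hU.1 (le_refl c)
        · intro U hU U' hU' h
          rw [Finset.mem_filter] at hU hU'
          rw [← Finset.sdiff_union_of_subset hU.2, ← Finset.sdiff_union_of_subset hU'.2, h]
        · intro V hV
          rw [Finset.mem_powerset] at hV
          refine ⟨V ∪ c, ?_, ?_⟩
          · rw [Finset.mem_filter, Finset.mem_powerset]
            exact ⟨Finset.union_subset (hV.trans Finset.sdiff_subset) hc,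
              Finset.subset_union_right⟩
          · rw [Finset.union_sdiff_cancel_right]
            rw [Finset.disjoint_left]
            intro i hi
            exact (Finset.mem_sdiff.1 (hV hi)).2
        · intro U _
          rfl
      · intro U c
        rw [Finset.mem_powerset, Finset.mem_powerset, Finset.mem_filter, Finset.mem_powerset,
          Finset.mem_powerset]
        constructor
        · rintro ⟨h1, h2⟩
          exact ⟨⟨h1, h2⟩, h2.trans h1⟩
        · rintro ⟨⟨h1, h2⟩, -⟩
          exact ⟨h1, h2⟩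
    rw [e2]
    have e3 : ∀ c ∈ B.powerset, c ≠ B → (∑ U ∈ (B \ c).powerset, (-1 : ℂ) ^ U.card) *
        ((ind (F fun i => decide (i ∈ c)) : ℝ) : ℂ) = 0 := by
      intro c hc hne
      have h1 : (∑ U ∈ (B \ c).powerset, (-1 : ℂ) ^ U.card) = 0 := by
        have h2 : ((∑ U ∈ (B \ c).powerset, (-1 : ℤ) ^ U.card : ℤ) : ℂ) = 0 := by
          rw [Finset.sum_powerset_neg_one_pow_card_of_nonempty]
          · simp
          · rw [Finset.sdiff_nonempty]
            exact fun h => hne (Finset.Subset.antisymm (Finset.mem_powerset.1 hc) h)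
        push_cast at h2
        exact h2
      rw [h1, zero_mul]
    rw [Finset.sum_eq_single_of_mem B (Finset.mem_powerset_self B) e3]
    rw [Finset.sdiff_self, Finset.powerset_empty, Finset.sum_singleton, Finset.card_empty,
      pow_zero, one_mul, ← hb]

private theorem t2_na_sum {C : Type*} (M : ℕ) (s : Finset C) (b : C → ℂ) (f : C → ℕ → ℂ) :
    na M (fun a => ∑ c ∈ s, b c * f c a) = ∑ c ∈ s, b c * na M (f c) := by
  rw [na_sum]
  exact Finset.sum_congr rfl fun c _ => na_mul_left _ _ _

theorem group_error {n d k M : ℕ} {T : (Fin n → Bool) → Bool} (hT : GroupTest d k n T)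
    (X : ℕ → Fin n → Bool) {δ : ℝ} (hX : FJok 1 d d δ M X) :
    |nr M (fun p => ind (T (X p))) - prob T| ≤ (4 : ℝ) ^ k * δ := by
  classical
  obtain ⟨Γ, instΓ, P, F, hP, hTF⟩ := hT
  obtain ⟨a, ha, hF⟩ := t2_expand (k := k) (fun b => decide (F (fun i => b i = true)))
  let PU : Finset (Fin k) → (Fin n → Bool) → (∀ i, Γ i) := fun U x i => if i ∈ U then P i x else 0
  let f : Finset (Fin k) → (Fin n → Bool) → ℂ := fun U x => if PU U x = 0 then 1 else 0
  have hfam : ∀ U, ‖na M (fun p => f U (X p)) - av (f U)‖ ≤ δ := by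
    intro U
    have hlow : PU U ∈ lowDeg (Fin n) Bool (∀ i, Γ i) d := by
      refine prod_low (P := fun i x => if i ∈ U then P i x else 0) fun i => ?_
      by_cases hi : i ∈ U
      · simp only [if_pos hi]
        exact hP i
      · simp only [if_neg hi]
        exact AddSubgroup.zero_mem _
    obtain ⟨Γ', i1, i2, c, hc, hPc⟩ := to_finite hlow
    have h1 : f U = fam (fun _ _ => 1) c := by
      funext x
      rw [zero_fam]
      show (if PU U x = 0 then (1 : ℂ) else 0) = _
      by_cases hx : PU U x = 0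
      · rw [if_pos hx, if_pos ((hPc x).1 hx)]
      · rw [if_neg hx, if_neg fun h => hx ((hPc x).2 h)]
    rw [h1]
    exact hX Γ' c hc (fun _ _ => 1) fun _ => tw_one
  have hind : ∀ x, ((ind (T x) : ℝ) : ℂ) = ∑ U, a U * f U x := by
    intro x
    have h1 : T x = decide (F (fun i => (decide (P i x = 0)) = true)) := by
      simp only [decide_eq_true_eq]
      rw [Bool.eq_iff_iff, hTF, decide_eq_true_eq]
    rw [h1, hF]
    refine Finset.sum_congr rfl fun U _ => ?_
    congr 1
    show _ = if PU U x = 0 then (1 : ℂ) else 0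
    by_cases hall : ∀ i ∈ U, P i x = 0
    · have h2 : PU U x = 0 := by
        funext i
        show (if i ∈ U then P i x else 0) = 0
        split_ifs with hi
        · exact hall i hi
        · rfl
      rw [if_pos h2]
      refine Finset.prod_eq_one fun i hi => ?_
      rw [decide_eq_true (hall i hi)]
      simp [ind]
    · have h2 : PU U x ≠ 0 := by
        intro h
        apply hall
        intro i hi
        have := congrFun h i
        simpa [PU, hi] using this
      rw [if_neg h2]
      push Not at hall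
      obtain ⟨i, hi, hix⟩ := hall
      refine Finset.prod_eq_zero hi ?_
      rw [decide_eq_false hix]
      simp [ind]
  have h1 : ((nr M (fun p => ind (T (X p))) : ℝ) : ℂ) =
      ∑ U, a U * na M (fun p => f U (X p)) := by
    rw [nr_ofReal, ← t2_na_sum]
    exact na_congr fun p _ => hind (X p)
  have h2 : ((prob T : ℝ) : ℂ) = ∑ U, a U * av (f U) := by
    rw [t2_av, ← t2_av_sum]
    congr 1
    funext x
    exact hind x
  have h3 : |nr M (fun p => ind (T (X p))) - prob T|
      = ‖((nr M (fun p => ind (T (X p))) : ℝ) : ℂ) - ((prob T : ℝ) : ℂ)‖ := by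
    rw [← Complex.ofReal_sub, Complex.norm_real, Real.norm_eq_abs]
  rw [h3, h1, h2, ← Finset.sum_sub_distrib]
  refine (norm_sum_le _ _).trans ?_
  have h4 : ∀ U ∈ (Finset.univ : Finset (Finset (Fin k))),
      ‖a U * na M (fun p => f U (X p)) - a U * av (f U)‖ ≤ 2 ^ k * δ := by
    intro U _
    rw [← mul_sub, norm_mul]
    exact mul_le_mul (ha U) (hfam U) (norm_nonneg _) (by positivity)
  refine (Finset.sum_le_sum h4).trans (le_of_eq ?_)
  rw [Finset.sum_const, Finset.card_univ, Fintype.card_finset, Fintype.card_fin, nsmul_eq_mul]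
  push_cast
  rw [← mul_assoc, ← mul_pow]
  norm_num

theorem logGen_group {d k : ℕ} (h : FJ 1 d d) {ε : ℝ} (hε : 0 < ε) : LogGen (GroupTest d k) ε := by
  obtain ⟨E, G, hNG, hG⟩ := h (ε / 4 ^ k) (by positivity)
  refine logGen_of hNG fun n T hT => ?_
  refine (group_error hT (out G n) (hG n)).trans (le_of_eq ?_)
  field_simp

end Pool.Agent.MP_ca1109_lc.Agp
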