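import Pool.Agent.MP_ca1109_lc.Agp.F2
import Pool.Agent.MP_ca1109_lc.Agp.T2
import Pool.Agent.MP_ca1109_lc.Agp.R1
import Pool.Agent.MP_ca1109_lc.Agp.H3

/-!
# The final theorem
-/

namespace Pool.Agent.MP_ca1109_lc.Agp

open Pool.Agent.MP_ca1109_lc.Mpg Finset

theorem logGen_groupTest (d k : ℕ) {ε : ℝ} (hε : 0 < ε) : LogGen (GroupTest d k) ε :=
  logGen_group (fj_all d d le_rfl 1) hε

theorem pi_low {n d : ℕ} {J : Type*} [Fintype J] {R : Type*} [AddCommGroup R]
    {P : J → (Fin n → Bool) → R} (hP : ∀ j, P j ∈ lowDeg (Fin n) Bool R d) :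
    (fun x j => P j x) ∈ lowDeg (Fin n) Bool (J → R) d := by
  classical
  have h : (fun x j => P j x) = ∑ j, fun x : Fin n → Bool => (Pi.single j (P j x) : J → R) := by
    funext x
    rw [Finset.sum_apply, Finset.univ_sum_single]
  rw [h]
  exact AddSubgroup.sum_mem _ fun j _ => lowDeg_hom (AddMonoidHom.single (fun _ : J => R) j) (hP j)

/-- Systems of equations modulo `m` are equations over a power of `ZMod m`. -/
theorem _root_.Pool.Agent.MP_ca1109_lc.Mpg.SysTest.group {m d k n : ℕ} {T : (Fin n → Bool) → Bool}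
    (h : SysTest m d k n T) : GroupTest d k n T := by
  classical
  obtain ⟨L, P, F, hP, hT⟩ := h
  refine ⟨fun _ => Fin L → ZMod m, fun _ => inferInstance, fun i x j => P i j x,
    fun b => F (fun i => decide (b i)) = true, fun i => pi_low fun j => hP i j, fun x => ?_⟩
  have h1 : (fun i => decide (∀ j, P i j x = 0)) =
      fun i => decide ((fun i => (fun j => P i j x) = (0 : Fin L → ZMod m)) i) := by
    funext i
    exact decide_eq_decide.2 ⟨fun h => funext h, fun h j => congrFun h j⟩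
  rw [hT x, h1]
  exact iff_of_eq (congrArg (fun b : Fin k → Bool => F b = true)
    (funext fun i => decide_eq_decide.2 Iff.rfl))

theorem group_generators :
    (∀ d k : ℕ, ∀ ε > 0,
      LogGen (GroupTest d k) ε ∧ GenExists (fun n C => GroupTest d k n C.eval) ε) ∧
    (∀ c k : ℕ, ∀ ε > 0, LogGen (RingTest c k) ε) ∧
    (∀ (k h : ℕ) (Q : Finset ℕ), (∀ q ∈ Q, IsPrimePow q) → ∀ ε > 0,
      LogGen (CircSysTest k h Q) ε) ∧
    (∀ (Γ : Type) [Group Γ] [Finite Γ], Group.IsNilpotent Γ → ∀ k : ℕ, ∀ ε > 0,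
      LogGen (ProgSysTest Γ k) ε) ∧
    ∀ (g : ℕ → ℕ) (δ : ℝ),
      Filter.Tendsto (fun n : ℕ => (g n : ℝ) / Real.logb 2 n) Filter.atTop Filter.atTop → δ < 1 →
        GenExists (fun n C => GroupTest (g n) 1 n C.eval) δ ∨
          GenExists (fun n C => GroupTest 1 (g n) n C.eval) δ → HardLanguage := by
  refine ⟨fun d k ε hε => ⟨logGen_groupTest d k hε, (logGen_groupTest d k hε).toCircuits⟩,
    fun c k ε hε => (logGen_groupTest c k hε).mono fun n T hT => hT.group,
    fun k h Q hQ ε hε => ?_, fun Γ _ _ hΓ k ε hε => ?_, fun g δ hg hδ h => ?_⟩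
  · obtain ⟨m, d, k', -, H⟩ := circ_sys k h Q hQ
    exact (logGen_groupTest d k' hε).mono fun n T hT => (H n T hT).group
  · obtain ⟨m, d, k', -, H⟩ := prog_sys Γ hΓ k
    exact (logGen_groupTest d k' hε).mono fun n T hT => (H n T hT).group
  · rcases h with h | h
    · exact hard_of_group_degree hg hδ h
    · exact hard_of_group_number hg hδ h

end Pool.Agent.MP_ca1109_lc.Agp
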