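import Pool.Agent.MP_ca1109_lc.Agp.N1

/-!
# Products along a walk
-/

namespace Pool.Agent.MP_ca1109_lc.Agp

open Pool.Agent.MP_ca1109_lc.Mpg Finset

/- PROOF NOTES [AGP-W1].  `λ = (73/80)^v`.  Put `TW M v g p = na (8^v) (fun e => g (wk M v p e))`.
(a) `nr (M*M) (fun p => ‖TW M v g p‖) ≤ nr (M*M) (fun p => ‖g p‖)`: `wk_sum` (`Mpg/D1`) for `fun p => (‖g p‖ : ℂ)`.
(b) If `‖g p‖ ≤ 1` for all `p` and `c = na (M*M) g`, then `nr (M*M) (fun p => ‖TW M v g p - c‖) ≤ λ`: apply `wk_contract` to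
`f = g - c` (sum zero over `range (M*M)`), so `nr (M*M) ‖TW f‖^2 ≤ ((73/10)^v / 8^v)^2 * nr (M*M) ‖f‖^2 ≤ λ^2`
(`nr ‖f‖^2 = nr ‖g‖^2 - ‖c‖^2 ≤ 1`), and `nr ‖TW f‖ ≤ √(nr ‖TW f‖^2)` (`nr_sq_le`).
(c) Put `WU M v κ F p = na (8^(v*κ)) (fun e => ∏ l ∈ range (κ+1), F l (pos M v l p e))`.  Then
`WU M v 0 F p = F 0 p` and `WU M v (κ+1) F p = F 0 p * TW M v (WU M v κ (fun l => F (l+1))) p`
(`8^(v*(κ+1)) = 8^(v*κ) * 8^v`, `na_mul`, `na_comm`, `Finset.prod_range_succ'`, the definition of `pos`), and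
`‖WU M v κ F p‖ ≤ 1`.
(d) Claim: `nr (M*M) (fun p => ‖TW M v (WU M v κ F) p‖) ≤ ‖na (M*M) (F l)‖ + 2 λ` for all `l ≤ κ`, all `F` bounded by 1; induction on `l`
(generalizing `κ F`).  `l = 0`: `WU κ F = F 0 * (c + r)` with `c = na (M*M) (WU (κ-1) F')`, `‖c‖ ≤ 1`, `nr ‖r‖ ≤ λ` by (b) (for
`κ = 0` take `c = 1`, `r = 0`); so `TW (WU κ F) = c * TW (F 0) + TW (F 0 * r)`; by (b) `nr ‖TW (F 0)‖ ≤ ‖na (M*M) (F 0)‖ + λ` and by (a)
`nr ‖TW (F 0 * r)‖ ≤ nr ‖r‖ ≤ λ`.  `l + 1 ≤ κ`: by (a) `nr ‖TW (WU κ F)‖ ≤ nr ‖WU κ F‖ ≤ nr ‖TW (WU (κ-1) F')‖` and the induction hypothesis.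
(e) The theorem: for `l₀ = 0`, `‖na (M*M) (WU κ F)‖ ≤ ‖c‖ * ‖na (M*M) (F 0)‖ + nr ‖F 0 * r‖ ≤ ‖na (M*M) (F 0)‖ + λ`; for `l₀ = l + 1`:
`‖na (M*M) (WU κ F)‖ ≤ nr ‖TW (WU (κ-1) F')‖` and (d). -/

private noncomputable def w1_TW (M v : ℕ) (g : ℕ → ℂ) (p : ℕ) : ℂ :=
  na (8 ^ v) (fun e => g (wk M v p e))

private noncomputable def w1_WU (M v κ : ℕ) (F : ℕ → ℕ → ℂ) (p : ℕ) : ℂ :=
  na (8 ^ (v * κ)) (fun e => ∏ l ∈ range (κ + 1), F l (pos M v l p e))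

private theorem w1_wk_nr {M : ℕ} (hM : 0 < M) (v : ℕ) (g : ℕ → ℝ) :
    nr (M * M) (fun p => nr (8 ^ v) (fun e => g (wk M v p e))) = nr (M * M) g := by
  have h := wk_sum M v (fun p => (g p : ℂ))
  have h2 : ∑ p ∈ range (M * M), ∑ e ∈ range (8 ^ v), g (wk M v p e) =
      8 ^ v * ∑ p ∈ range (M * M), g p := by
    exact_mod_cast h
  have h8 : (8 : ℝ) ^ v ≠ 0 := by positivity
  unfold nr
  rw [← Finset.sum_div, h2]
  push_cast
  field_simp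

private theorem w1_a {M : ℕ} (hM : 0 < M) (v : ℕ) (g : ℕ → ℂ) :
    nr (M * M) (fun p => ‖w1_TW M v g p‖) ≤ nr (M * M) (fun p => ‖g p‖) := by
  rw [← w1_wk_nr hM v (fun p => ‖g p‖)]
  exact nr_mono fun p _ => norm_na_le _ _

private theorem w1_var {N : ℕ} (hN : 0 < N) (g : ℕ → ℂ) (hg : ∀ p, ‖g p‖ ≤ 1) :
    nr N (fun p => ‖g p - na N g‖ ^ 2) ≤ 1 := by
  set c := na N g with hc
  have h1 : ((nr N (fun p => ‖g p - c‖ ^ 2) : ℝ) : ℂ) =
      ((nr N (fun p => ‖g p‖ ^ 2) - ‖c‖ ^ 2 : ℝ) : ℂ) := by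
    rw [nr_ofReal, Complex.ofReal_sub, nr_ofReal]
    have e1 : ∀ z : ℂ, ((‖z‖ ^ 2 : ℝ) : ℂ) = z * (starRingEnd ℂ) z := by
      intro z
      rw [Complex.mul_conj, Complex.normSq_eq_norm_sq]
    simp only [e1]
    have e2 : ∀ p, (g p - c) * (starRingEnd ℂ) (g p - c) =
        g p * (starRingEnd ℂ) (g p) - g p * (starRingEnd ℂ) c - c * (starRingEnd ℂ) (g p)
          + c * (starRingEnd ℂ) c := by
      intro p
      rw [map_sub]
      ring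
    simp only [e2]
    rw [na_add, na_sub, na_sub, na_mul_right, na_mul_left, na_conj, na_const hN, ← hc]
    ring
  have h2 : nr N (fun p => ‖g p - c‖ ^ 2) = nr N (fun p => ‖g p‖ ^ 2) - ‖c‖ ^ 2 := by
    exact_mod_cast h1
  rw [h2]
  have h3 : nr N (fun p => ‖g p‖ ^ 2) ≤ 1 :=
    nr_le hN fun p _ => pow_le_one₀ (norm_nonneg _) (hg p)
  have := sq_nonneg ‖c‖
  linarith

private theorem w1_b {M : ℕ} (hM : 0 < M) (v : ℕ) (g : ℕ → ℂ) (hg : ∀ p, ‖g p‖ ≤ 1) :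
    nr (M * M) (fun p => ‖w1_TW M v g p - na (M * M) g‖) ≤ (73 / 80 : ℝ) ^ v := by
  have hN : 0 < M * M := Nat.mul_pos hM hM
  have hNR : (0 : ℝ) < ((M * M : ℕ) : ℝ) := by exact_mod_cast hN
  have hNC : ((M * M : ℕ) : ℂ) ≠ 0 := by exact_mod_cast hN.ne'
  set c := na (M * M) g with hc
  have h8 : 0 < 8 ^ v := by positivity
  have h8C : (8 : ℂ) ^ v ≠ 0 := pow_ne_zero _ (by norm_num)
  have hsum : ∑ p ∈ range (M * M), (g p - c) = 0 := by
    rw [Finset.sum_sub_distrib, Finset.sum_const, Finset.card_range, nsmul_eq_mul, hc]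
    unfold na
    rw [mul_div_cancel₀ _ hNC, sub_self]
  have h1 := wk_contract M v (fun p => g p - c) hsum
  have h2 : ∀ p, w1_TW M v g p - c = (∑ e ∈ range (8 ^ v), (g (wk M v p e) - c)) / 8 ^ v := by
    intro p
    have : w1_TW M v g p - c = na (8 ^ v) (fun e => g (wk M v p e) - c) := by
      rw [na_sub, na_const h8]
      rfl
    rw [this]
    unfold na
    push_cast
    rfl
  have h3 : ∀ p, ‖w1_TW M v g p - c‖ ^ 2 =
      ‖∑ e ∈ range (8 ^ v), (g (wk M v p e) - c)‖ ^ 2 / (8 ^ v) ^ 2 := by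
    intro p
    rw [h2, norm_div, div_pow, norm_pow]
    norm_num
  have h4 : nr (M * M) (fun p => ‖w1_TW M v g p - c‖ ^ 2) ≤ ((73 / 80 : ℝ) ^ v) ^ 2 := by
    have h5 := w1_var hN g hg
    rw [← hc] at h5
    unfold nr at h5 ⊢
    rw [div_le_iff₀ hNR] at h5 ⊢
    simp only [h3]
    rw [← Finset.sum_div]
    have h6 : (0 : ℝ) < (8 ^ v) ^ 2 := by positivity
    rw [div_le_iff₀ h6]
    refine h1.trans ?_
    have h7 : ((73 / 10 : ℝ) ^ v) ^ 2 = ((73 / 80 : ℝ) ^ v) ^ 2 * (8 ^ v) ^ 2 := by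
      rw [← mul_pow, ← mul_pow]
      norm_num
    rw [h7]
    have h8' : 0 ≤ ((73 / 80 : ℝ) ^ v) ^ 2 * (8 ^ v) ^ 2 := by positivity
    calc ((73 / 80 : ℝ) ^ v) ^ 2 * (8 ^ v) ^ 2 * ∑ p ∈ range (M * M), ‖g p - c‖ ^ 2
        ≤ ((73 / 80 : ℝ) ^ v) ^ 2 * (8 ^ v) ^ 2 * (1 * ((M * M : ℕ) : ℝ)) :=
          mul_le_mul_of_nonneg_left h5 h8'
      _ = _ := by ring
  have h9 := nr_sq_le hN (F := fun p => ‖w1_TW M v g p - c‖) fun p _ => norm_nonneg _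
  exact (pow_le_pow_iff_left₀ (nr_nonneg fun p _ => norm_nonneg _) (by positivity)
    two_ne_zero).1 (h9.trans h4)

private theorem w1_WU_zero {M v : ℕ} (F : ℕ → ℕ → ℂ) (p : ℕ) : w1_WU M v 0 F p = F 0 p := by
  unfold w1_WU
  have h : ∀ e, ∏ l ∈ range (0 + 1), F l (pos M v l p e) = F 0 p := by
    intro e
    rw [Finset.prod_range_one]
    rfl
  simp only [h]
  exact na_const (by positivity) _

private theorem w1_WU_succ {M v κ : ℕ} (F : ℕ → ℕ → ℂ) (p : ℕ) :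
    w1_WU M v (κ + 1) F p = F 0 p * w1_TW M v (w1_WU M v κ (fun l => F (l + 1))) p := by
  have h8 : 0 < 8 ^ v := by positivity
  unfold w1_WU w1_TW
  have h : ∀ e, ∏ l ∈ range (κ + 1 + 1), F l (pos M v l p e) =
      F 0 p * ∏ l ∈ range (κ + 1), F (l + 1) (pos M v l (wk M v p (e % 8 ^ v)) (e / 8 ^ v)) := by
    intro e
    rw [Finset.prod_range_succ', mul_comm]
    rfl
  simp only [h]
  rw [na_mul_left, show 8 ^ (v * (κ + 1)) = 8 ^ (v * κ) * 8 ^ v by rw [mul_add, mul_one, pow_add]]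
  congr 1
  rw [na_mul (8 ^ (v * κ)) h8 (fun a b => ∏ l ∈ range (κ + 1), F (l + 1)
    (pos M v l (wk M v p b) a)), na_comm]

private theorem w1_WU_le {M v κ : ℕ} {F : ℕ → ℕ → ℂ} (hF : ∀ l p, ‖F l p‖ ≤ 1) (p : ℕ) :
    ‖w1_WU M v κ F p‖ ≤ 1 := by
  refine norm_na_le_of (by positivity) fun e _ => ?_
  rw [norm_prod]
  exact Finset.prod_le_one (fun _ _ => norm_nonneg _) fun _ _ => hF _ _

private theorem w1_split {M : ℕ} (hM : 0 < M) (v κ : ℕ) (F : ℕ → ℕ → ℂ)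
    (hF : ∀ l p, ‖F l p‖ ≤ 1) :
    ∃ (c : ℂ) (r : ℕ → ℂ), ‖c‖ ≤ 1 ∧ nr (M * M) (fun p => ‖r p‖) ≤ (73 / 80 : ℝ) ^ v ∧
      ∀ p, w1_WU M v κ F p = F 0 p * (c + r p) := by
  have hN : 0 < M * M := Nat.mul_pos hM hM
  cases κ with
  | zero =>
    refine ⟨1, fun _ => 0, by simp, ?_, fun p => ?_⟩
    · simp only [norm_zero]
      rw [nr_const hN]
      positivity
    · rw [w1_WU_zero]
      ring
  | succ κ =>
    set U := w1_WU M v κ (fun l => F (l + 1)) with hU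
    have hUb : ∀ p, ‖U p‖ ≤ 1 := fun p => w1_WU_le (fun l p => hF (l + 1) p) p
    refine ⟨na (M * M) U, fun p => w1_TW M v U p - na (M * M) U,
      norm_na_le_of hN fun p _ => hUb p, w1_b hM v U hUb, fun p => ?_⟩
    rw [w1_WU_succ, ← hU]
    ring

private theorem w1_d {M : ℕ} (hM : 0 < M) (v : ℕ) : ∀ (l κ : ℕ) (F : ℕ → ℕ → ℂ), l ≤ κ →
    (∀ l p, ‖F l p‖ ≤ 1) →
    nr (M * M) (fun p => ‖w1_TW M v (w1_WU M v κ F) p‖) ≤
      ‖na (M * M) (F l)‖ + 2 * (73 / 80 : ℝ) ^ v := by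
  have hN : 0 < M * M := Nat.mul_pos hM hM
  intro l
  induction l with
  | zero =>
    intro κ F _ hF
    obtain ⟨c, r, hc, hr, hcr⟩ := w1_split hM v κ F hF
    have h1 : ∀ p, ‖w1_TW M v (w1_WU M v κ F) p‖ ≤
        (‖w1_TW M v (F 0) p - na (M * M) (F 0)‖ + ‖na (M * M) (F 0)‖) +
          ‖w1_TW M v (fun p => F 0 p * r p) p‖ := by
      intro p
      have h2 : w1_TW M v (w1_WU M v κ F) p =
          c * w1_TW M v (F 0) p + w1_TW M v (fun p => F 0 p * r p) p := by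
        unfold w1_TW
        rw [← na_mul_left, ← na_add]
        refine na_congr fun e _ => ?_
        rw [hcr]
        ring
      rw [h2]
      refine (norm_add_le _ _).trans (add_le_add_left ?_ _)
      rw [norm_mul]
      refine (mul_le_of_le_one_left (norm_nonneg _) hc).trans ?_
      have h3 : w1_TW M v (F 0) p =
          (w1_TW M v (F 0) p - na (M * M) (F 0)) + na (M * M) (F 0) := by ring
      calc ‖w1_TW M v (F 0) p‖ = ‖(w1_TW M v (F 0) p - na (M * M) (F 0)) + na (M * M) (F 0)‖ := by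
            rw [← h3]
        _ ≤ _ := norm_add_le _ _
    refine (nr_mono fun p _ => h1 p).trans ?_
    rw [nr_add, nr_add, nr_const hN]
    have h4 := w1_b hM v (F 0) (hF 0)
    have h5 := w1_a hM v (fun p => F 0 p * r p)
    have h6 : nr (M * M) (fun p => ‖F 0 p * r p‖) ≤ nr (M * M) (fun p => ‖r p‖) := by
      refine nr_mono fun p _ => ?_
      rw [norm_mul]
      exact mul_le_of_le_one_left (norm_nonneg _) (hF 0 p)
    linarith
  | succ l ih =>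
    intro κ F hl hF
    obtain ⟨κ', rfl⟩ : ∃ κ', κ = κ' + 1 := ⟨κ - 1, by omega⟩
    refine (w1_a hM v _).trans ?_
    refine (nr_mono fun p _ => ?_).trans
      (ih κ' (fun l => F (l + 1)) (by omega) fun l p => hF (l + 1) p)
    rw [w1_WU_succ, norm_mul]
    exact mul_le_of_le_one_left (norm_nonneg _) (hF 0 p)

theorem walk {M : ℕ} (hM : 0 < M) (v κ : ℕ) (F : ℕ → ℕ → ℂ) (hF : ∀ l p, ‖F l p‖ ≤ 1) {l₀ : ℕ}
    (hl : l₀ ≤ κ) :
    ‖na (M * M) (fun p => na (8 ^ (v * κ)) (fun e => ∏ l ∈ range (κ + 1), F l (pos M v l p e)))‖ ≤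
      ‖na (M * M) (F l₀)‖ + 2 * (73 / 80 : ℝ) ^ v := by
  have hN : 0 < M * M := Nat.mul_pos hM hM
  have hlam : (0 : ℝ) ≤ (73 / 80 : ℝ) ^ v := by positivity
  show ‖na (M * M) (fun p => w1_WU M v κ F p)‖ ≤ _
  cases l₀ with
  | zero =>
    obtain ⟨c, r, hc, hr, hcr⟩ := w1_split hM v κ F hF
    have h1 : na (M * M) (fun p => w1_WU M v κ F p) =
        c * na (M * M) (F 0) + na (M * M) (fun p => F 0 p * r p) := by
      rw [← na_mul_left, ← na_add]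
      refine na_congr fun p _ => ?_
      rw [hcr]
      ring
    rw [h1]
    refine (norm_add_le _ _).trans ?_
    have h2 : ‖c * na (M * M) (F 0)‖ ≤ ‖na (M * M) (F 0)‖ := by
      rw [norm_mul]
      exact mul_le_of_le_one_left (norm_nonneg _) hc
    have h3 : ‖na (M * M) (fun p => F 0 p * r p)‖ ≤ nr (M * M) (fun p => ‖r p‖) := by
      refine (norm_na_le _ _).trans (nr_mono fun p _ => ?_)
      rw [norm_mul]
      exact mul_le_of_le_one_left (norm_nonneg _) (hF 0 p)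
    linarith
  | succ l =>
    obtain ⟨κ', rfl⟩ : ∃ κ', κ = κ' + 1 := ⟨κ - 1, by omega⟩
    refine (norm_na_le _ _).trans ?_
    refine (nr_mono fun p _ => ?_).trans
      (w1_d hM v l κ' (fun l => F (l + 1)) (by omega) fun l p => hF (l + 1) p)
    rw [w1_WU_succ, norm_mul]
    exact mul_le_of_le_one_left (norm_nonneg _) (hF 0 p)

theorem pos_lt {M : ℕ} (v : ℕ) : ∀ (l : ℕ) {p : ℕ} (e : ℕ), p < M * M → pos M v l p e < M * M := by
  intro l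
  induction l with
  | zero => intro p e hp; exact hp
  | succ l ih => intro p e hp; exact ih _ (wk_lt v _ hp)

end Pool.Agent.MP_ca1109_lc.Agp
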