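import Pool.Agent.MP_ca1109_lc.Agp.Defs

/-!
# Positions of walks are computable in polynomial time
-/

namespace Pool.Agent.MP_ca1109_lc.Agp

open Pool.Agent.H66 Pool.Agent.MP_ca1109_lc.Mpg Finset

/- PROOF NOTES [AGP-W2].  Naturals are encoded in unary.  Model: `polyTime_gi` in `Mpg/D3.lean`.
`pos M v l p e` is obtained by `l` iterations of the step `(M, (p, e)) ↦ (M, (wk M v p (e % 8^v), e / 8^v))` on the start
`(M, (p, e))` (`pos M v l p e = (step^[l] (M, (p, e))).2.1`, `Function.iterate_succ_apply`).  `PolyTime.iterate` with the bound of the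
encodings: `M` is fixed, the second component stays below `M * M` (`wk_lt`), the third does not increase (`Nat.div_le_self`);
`hM.size` and `he.size` bound `M c` and `e c` by monotone functions of the length of the input (`enc_nat_length`, `enc_prod`).
The step is polynomial-time: `polyTime_wk` (`Mpg/D3`), `d3_div`, `d3_mod` with the constant `8 ^ v`.
`polyTime_two_pow`: iterate `D n` times `(K, s) ↦ (K, if 2 * s ≤ K then 2 * s else K)` from `(c * (n+1)^c, 1)`; as
`2 ^ D n ≤ c * (n+1)^c` (and powers of two are increasing) the result is `2 ^ D n`; `polyTime_pow` (`MonoStep`) for `(n+1)^c`.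
`polyTime_scl`: `scl u = Nat.clog 2 (u + 1)`, `polyTime_clog`. -/

/-- One step of the walk; the state is the side, the position and the remaining seed. -/
def w2_step (v : ℕ) (s : ℕ × (ℕ × ℕ)) : ℕ × (ℕ × ℕ) :=
  (s.1, (wk s.1 v s.2.1 (s.2.2 % 8 ^ v), s.2.2 / 8 ^ v))

theorem w2_polyTime_step (v : ℕ) : PolyTime (w2_step v) := by
  have h1 : PolyTime fun s : ℕ × (ℕ × ℕ) => s.2.2 := PolyTime.snd.comp PolyTime.snd
  have h2 : PolyTime fun s : ℕ × (ℕ × ℕ) => wk s.1 v s.2.1 (s.2.2 % 8 ^ v) :=
    (polyTime_wk v).comp (PolyTime.fst.pair ((PolyTime.fst.comp PolyTime.snd).pair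
      (d3_mod h1 (PolyTime.const _))))
  exact PolyTime.fst.pair (h2.pair (d3_div h1 (PolyTime.const _)))

theorem w2_iter (M v : ℕ) : ∀ (l p e : ℕ), ((w2_step v)^[l] (M, (p, e))).2.1 = pos M v l p e
  | 0, _, _ => rfl
  | l + 1, p, e => by
    rw [Function.iterate_succ_apply]
    exact w2_iter M v l _ _

theorem w2_inv {M v : ℕ} : ∀ (l : ℕ) {p e I : ℕ}, p < M * M → e ≤ I →
    ((w2_step v)^[l] (M, (p, e))).1 = M ∧ ((w2_step v)^[l] (M, (p, e))).2.1 < M * M ∧
      ((w2_step v)^[l] (M, (p, e))).2.2 ≤ I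
  | 0, _, _, _, hp, he => ⟨rfl, hp, he⟩
  | l + 1, p, e, I, hp, he => by
    rw [Function.iterate_succ_apply]
    exact w2_inv l (wk_lt _ _ hp) ((Nat.div_le_self _ _).trans he)

theorem polyTime_pos (v : ℕ) {γ : Type} [Enc γ] {M l p e : γ → ℕ} (hM : PolyTime M)
    (hl : PolyTime l) (hp : PolyTime p) (he : PolyTime e) (hlt : ∀ c, p c < M c * M c) :
    PolyTime fun c => pos (M c) v (l c) (p c) (e c) := by
  obtain ⟨s1, hs1, hs1'⟩ := hM.size
  obtain ⟨s2, hs2, hs2'⟩ := he.size
  have h := PolyTime.iterate (n := l) (ini := fun c => (M c, (p c, e c))) (step := w2_step v)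
    hl (hM.pair (hp.pair he)) (w2_polyTime_step v)
    (fun n => 5 + 2 * s1 n + 2 * (s1 n * s1 n) + 2 * s2 n)
    ((((PB.const 5).add ((PB.const 2).mul hs1)).add ((PB.const 2).mul (hs1.mul hs1))).add
      ((PB.const 2).mul hs2)) (fun c i _ => by
      have hinv := w2_inv (v := v) i (hlt c) (le_refl (e c))
      revert hinv
      generalize (w2_step v)^[i] (M c, (p c, e c)) = s
      rintro ⟨g1, g2, g3⟩
      have e1 := hs1' c
      have e2 := hs2' c
      rw [enc_nat_length] at e1 e2
      have e3 : M c * M c ≤ s1 (enc c).length * s1 (enc c).length :=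
        Nat.mul_le_mul (by omega) (by omega)
      rw [enc_prod, enc_prod]
      simp only [List.length_cons, List.length_append, enc_nat_length]
      omega)
  exact (PolyTime.fst.comp (PolyTime.snd.comp h)).of_eq fun c => w2_iter (M c) v (l c) _ _

theorem polyTime_two_pow {D : ℕ → ℕ} (hD : PolyTime D)
    (h : ∃ c : ℕ, ∀ n, 2 ^ D n ≤ c * (n + 1) ^ c) : PolyTime fun n : ℕ => 2 ^ D n := by
  obtain ⟨c, hc⟩ := h
  have h1 : ∀ i : ℕ, (fun s : ℕ => 2 * s)^[i] 1 = 2 ^ i := by
    intro i
    induction i with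
    | zero => rfl
    | succ i ih => rw [Function.iterate_succ_apply', ih, pow_succ, mul_comm]
  have h := PolyTime.iterate (n := D) (ini := fun _ : ℕ => (1 : ℕ)) (step := fun s : ℕ => 2 * s)
    hD (PolyTime.const 1) (PolyTime.mul (PolyTime.const 2) PolyTime.id)
    (fun n => 2 * (c * (n + 1) ^ c) + 1)
    (((PB.const 2).mul ((PB.const c).mul ((PB.id.add (PB.const 1)).pow c))).add (PB.const 1))
    (fun n i hi => by
      rw [h1, enc_nat_length, enc_nat_length]
      have e1 : 2 ^ i ≤ c * (n + 1) ^ c :=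
        (Nat.pow_le_pow_right (by norm_num) hi).trans (hc n)
      have e2 : c * (n + 1) ^ c ≤ c * (2 * n + 1 + 1) ^ c :=
        Nat.mul_le_mul_left _ (Nat.pow_le_pow_left (by omega) c)
      omega)
  exact h.of_eq fun n => h1 (D n)

theorem polyTime_scl : PolyTime scl := polyTime_clog.comp PolyTime.succ

end Pool.Agent.MP_ca1109_lc.Agp
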